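import Pool.Agent.Lib.MP_216314_pr.X.BB

/-!
# Stream B: `chr` as a function of the first variable
-/

set_option autoImplicit false

noncomputable section

namespace PX

open Finset

/-- `t^d g(t + 1/t)` is a polynomial in `t` -/
theorem exists_mirror (g : Polynomial ℂ) (d : ℕ) (hg : g.natDegree ≤ d) :
    ∃ p : Polynomial ℂ, p.natDegree ≤ 2 * d ∧ ∀ t : ℂ, t ≠ 0 → t ^ d * g.eval (XX t) = p.eval t := by
  refine ⟨∑ i ∈ range (d + 1), Polynomial.C (g.coeff i) *
    (Polynomial.X ^ (d - i) * (Polynomial.X ^ 2 + 1) ^ i), ?_, ?_⟩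
  · refine Polynomial.natDegree_sum_le_of_forall_le _ _ fun i hi => ?_
    have hi' := Finset.mem_range.1 hi
    refine (Polynomial.natDegree_C_mul_le _ _).trans ?_
    refine Polynomial.natDegree_mul_le.trans ?_
    have h1 : ((Polynomial.X : Polynomial ℂ) ^ (d - i)).natDegree = d - i :=
      Polynomial.natDegree_X_pow _
    have h2 : (((Polynomial.X : Polynomial ℂ) ^ 2 + 1) ^ i).natDegree ≤ i * 2 := by
      refine Polynomial.natDegree_pow_le_of_le _ ?_
      refine (Polynomial.natDegree_add_le _ _).trans ?_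
      rw [Polynomial.natDegree_X_pow, Polynomial.natDegree_one]
      exact le_rfl
    rw [h1]
    omega
  · intro t ht
    rw [Polynomial.eval_finsetSum, Polynomial.eval_eq_sum_range' (Nat.lt_succ_of_le hg),
      Finset.mul_sum]
    refine Finset.sum_congr rfl fun i hi => ?_
    have hi' := Finset.mem_range.1 hi
    simp only [Polynomial.eval_mul, Polynomial.eval_C, Polynomial.eval_pow, Polynomial.eval_X,
      Polynomial.eval_add, Polynomial.eval_one]
    have h1 : t ^ 2 + 1 = t * XX t := by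
      unfold XX
      field_simp
    have h2 : t ^ d = t ^ (d - i) * t ^ i := by
      rw [← pow_add]
      congr 1
      omega
    rw [h1, mul_pow, h2]
    ring

/-- the expansion along the first row -/
private theorem be_row (L' : ℕ) (y : ℕ → ℂ) :
    ∃ P : Polynomial ℂ, P.natDegree ≤ mm L' - 1 ∧
      ∀ t : ℂ, Del (L' + 1) (Function.update y 0 t) = P.eval (XX t) := by
  refine ⟨∑ k : Fin (L' + 1), Polynomial.C ((-1) ^ (k : ℕ) *
    (Matrix.submatrix (Matrix.of fun i j : Fin (L' + 1) => US (mm (j : ℕ) - 1) (XX (y (i : ℕ))))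
      Fin.succ k.succAbove).det) * USp (mm (k : ℕ) - 1), ?_, ?_⟩
  · refine Polynomial.natDegree_sum_le_of_forall_le _ _ fun k _ => ?_
    refine (Polynomial.natDegree_C_mul_le _ _).trans ?_
    rw [USp_natDegree]
    have h1 : mm (k : ℕ) ≤ mm L' := mm_strictMono.monotone (by have := k.2; omega)
    omega
  · intro t
    unfold Del
    rw [Matrix.det_succ_row_zero, Polynomial.eval_finsetSum]
    refine Finset.sum_congr rfl fun k _ => ?_
    rw [Polynomial.eval_mul, Polynomial.eval_C, USp_eval]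
    have e1 : (Matrix.submatrix (Matrix.of fun i j : Fin (L' + 1) =>
        US (mm (j : ℕ) - 1) (XX (Function.update y 0 t (i : ℕ)))) Fin.succ k.succAbove) =
        (Matrix.submatrix (Matrix.of fun i j : Fin (L' + 1) =>
          US (mm (j : ℕ) - 1) (XX (y (i : ℕ)))) Fin.succ k.succAbove) := by
      ext i j
      simp only [Matrix.submatrix_apply, Matrix.of_apply]
      rw [Function.update_of_ne (by simp)]
    rw [e1]
    simp only [Matrix.of_apply, Fin.val_zero, Function.update_self]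
    ring

private theorem be_vdm (L' : ℕ) (y : ℕ → ℂ) (t : ℂ) :
    Vdm (L' + 1) (Function.update y 0 t) =
      (-1) ^ L' * (∏ j : Fin L', (XX t - XX (y (j + 1)))) * Vdm L' (fun k => y (k + 1)) := by
  unfold Vdm
  rw [Matrix.det_vandermonde, Matrix.det_vandermonde, Fin.prod_univ_succ]
  have h1 : (∏ j ∈ Ioi (0 : Fin (L' + 1)), (XX (Function.update y 0 t ((j : Fin (L' + 1)) : ℕ)) -
      XX (Function.update y 0 t ((0 : Fin (L' + 1)) : ℕ)))) =
      (-1) ^ L' * (∏ j : Fin L', (XX t - XX (y (j + 1)))) := by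
    rw [Fin.prod_Ioi_zero]
    have h2 : ((-1 : ℂ)) ^ L' = ∏ _j : Fin L', (-1 : ℂ) := by
      rw [Finset.prod_const, Finset.card_univ, Fintype.card_fin]
    rw [h2, ← Finset.prod_mul_distrib]
    refine Finset.prod_congr rfl fun j _ => ?_
    simp only [Fin.val_succ, Fin.val_zero, Function.update_self]
    rw [Function.update_of_ne (by omega)]
    ring
  rw [h1]
  congr 1
  refine Finset.prod_congr rfl fun i _ => ?_
  rw [Fin.prod_Ioi_succ]
  refine Finset.prod_congr rfl fun j _ => ?_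
  simp only [Fin.val_succ]
  rw [Function.update_of_ne (by omega), Function.update_of_ne (by omega)]

theorem chr_poly {L : ℕ} (hL : 1 ≤ L) {y : ℕ → ℂ}
    (hd : ∀ i j, 1 ≤ i → i < L → 1 ≤ j → j < L → i ≠ j → XX (y i) ≠ XX (y j)) :
    ∃ g : Polynomial ℂ, g.natDegree ≤ (L - 1) / 2 ∧
      ∀ t : ℂ, (∀ j, 1 ≤ j → j < L → XX t ≠ XX (y j)) →
        chr L (Function.update y 0 t) = g.eval (XX t) := by
  obtain ⟨L', rfl⟩ : ∃ L', L = L' + 1 := ⟨L - 1, by omega⟩
  obtain ⟨P, hPd, hP⟩ := be_row L' y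
  have hroot : ∀ j : Fin L', P.eval (XX (y (j + 1))) = 0 := by
    intro j
    rw [← hP]
    unfold Del
    refine Matrix.det_zero_of_row_eq (i := 0) (j := j.succ) (Fin.succ_ne_zero j).symm ?_
    funext k
    simp only [Matrix.of_apply, Fin.val_zero, Fin.val_succ, Function.update_self]
    rw [Function.update_of_ne (by omega)]
  have hdv : (∏ j : Fin L', (Polynomial.X - Polynomial.C (XX (y (j + 1))))) ∣ P := by
    refine Finset.prod_dvd_of_coprime ?_ ?_
    · intro i _ j _ hij
      refine Polynomial.isCoprime_X_sub_C_of_isUnit_sub ?_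
      refine IsUnit.mk0 _ (sub_ne_zero.2 ?_)
      refine hd _ _ (by omega) (by have := i.2; omega) (by omega) (by have := j.2; omega) ?_
      intro h
      exact hij (Fin.ext (by omega))
    · intro i _
      exact Polynomial.dvd_iff_isRoot.2 (hroot i)
  obtain ⟨g₀, hg₀⟩ := hdv
  have hQm : (∏ j : Fin L', (Polynomial.X - Polynomial.C (XX (y (j + 1))))).Monic :=
    Polynomial.monic_prod_of_monic _ _ fun j _ => Polynomial.monic_X_sub_C _
  have hQd : (∏ j : Fin L', (Polynomial.X - Polynomial.C (XX (y (j + 1))))).natDegree = L' := by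
    rw [Polynomial.natDegree_prod_of_monic _ _ fun j _ => Polynomial.monic_X_sub_C _]
    simp
  have hg₀d : g₀.natDegree ≤ L' / 2 := by
    rcases eq_or_ne g₀ 0 with h0 | h0
    · rw [h0, Polynomial.natDegree_zero]
      exact Nat.zero_le _
    · have h1 := hQm.natDegree_mul' h0
      rw [← hg₀, hQd] at h1
      have h2 := (mm_le L').1
      omega
  have hV : Vdm L' (fun k => y (k + 1)) ≠ 0 := by
    refine Vdm_ne_zero ?_
    intro i j hi hj hij
    exact hd _ _ (by omega) (by omega) (by omega) (by omega) (by omega)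
  refine ⟨Polynomial.C ((-1) ^ L' / Vdm L' (fun k => y (k + 1))) * g₀, ?_, ?_⟩
  · refine (Polynomial.natDegree_C_mul_le _ _).trans ?_
    rw [Nat.add_sub_cancel]
    exact hg₀d
  · intro t ht
    have hQ0 : (∏ j : Fin L', (XX t - XX (y (j + 1)))) ≠ 0 := by
      refine Finset.prod_ne_zero_iff.2 fun j _ => sub_ne_zero.2 ?_
      exact ht _ (by omega) (by have := j.2; omega)
    have hPe : P.eval (XX t) = (∏ j : Fin L', (XX t - XX (y (j + 1)))) * g₀.eval (XX t) := by
      rw [hg₀, Polynomial.eval_mul, Polynomial.eval_prod]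
      simp only [Polynomial.eval_sub, Polynomial.eval_X, Polynomial.eval_C]
    unfold chr
    rw [hP, be_vdm, hPe, Polynomial.eval_mul, Polynomial.eval_C]
    have h1 : ((-1 : ℂ) ^ L') * ((-1 : ℂ) ^ L') = 1 := by
      rw [← mul_pow]
      norm_num
    have h2 : ((-1 : ℂ) ^ L') ≠ 0 := pow_ne_zero _ (by norm_num)
    rw [div_eq_iff (mul_ne_zero (mul_ne_zero h2 hQ0) hV)]
    have h3 : (-1 : ℂ) ^ L' / Vdm L' (fun k => y (k + 1)) * g₀.eval (XX t) *
        ((-1) ^ L' * (∏ j : Fin L', (XX t - XX (y (j + 1)))) * Vdm L' (fun k => y (k + 1))) =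
        ((-1 : ℂ) ^ L' * (-1) ^ L') * (∏ j : Fin L', (XX t - XX (y (j + 1)))) *
          g₀.eval (XX t) * (Vdm L' (fun k => y (k + 1)) / Vdm L' (fun k => y (k + 1))) := by
      ring
    rw [h3, h1, div_self hV]
    ring

theorem chr_deg {L : ℕ} (hL : 1 ≤ L) {y : ℕ → ℂ}
    (hd : ∀ i j, 1 ≤ i → i < L → 1 ≤ j → j < L → i ≠ j → XX (y i) ≠ XX (y j)) :
    ∃ p : Polynomial ℂ, p.natDegree ≤ 2 * ((L - 1) / 2) ∧
      ∀ t : ℂ, t ≠ 0 → (∀ j, 1 ≤ j → j < L → XX t ≠ XX (y j)) →
        t ^ ((L - 1) / 2) * chr L (Function.update y 0 t) = p.eval t := by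
  obtain ⟨g, hgd, hg⟩ := chr_poly hL hd
  obtain ⟨p, hpd, hp⟩ := exists_mirror g _ hgd
  refine ⟨p, hpd, fun t ht hj => ?_⟩
  rw [hg t hj]
  exact hp t ht

end PX
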