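import Pool.Agent.Lib.MP_216314_pr.X.BB

/-!
# Stream B: generic tails, invariance under transpositions
-/

set_option autoImplicit false

noncomputable section

namespace PX

open Finset

/-- the entries `y_1, ..., y_{L-1}` are generic and `XX y_0` differs from `XX y_j` -/
def GenT (L : ℕ) (y : ℕ → ℂ) : Prop :=
  NZ L y ∧ (∀ i, 1 ≤ i → i < L → y i ^ 6 ≠ 1) ∧
    (∀ i j, 1 ≤ i → i < L → 1 ≤ j → j < L → i ≠ j → y i ^ 3 ≠ y j ^ 3 ∧ y i ^ 3 * y j ^ 3 ≠ 1)

theorem Gen.genT {L : ℕ} {y : ℕ → ℂ} (h : Gen L y) : GenT L y :=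
  ⟨h.1, fun i _ hi => h.2.1 i hi, fun i j _ hi _ hj hij => h.2.2 i j hi hj hij⟩

theorem Gen.dist {L : ℕ} {y : ℕ → ℂ} (h : Gen L y) : Dist L y := by
  intro i j hi hj hij heq
  rcases (XX_eq_iff (h.1 i hi) (h.1 j hj)).mp heq with h1 | h1
  · exact (h.2.2 i j hi hj hij).1 (by rw [h1])
  · exact (h.2.2 i j hi hj hij).2 (by rw [← mul_pow, h1, one_pow])

/-- distinct values in the tail -/
theorem GenT.dist {L : ℕ} {y : ℕ → ℂ} (h : GenT L y) :
    ∀ i j, 1 ≤ i → i < L → 1 ≤ j → j < L → i ≠ j → XX (y i) ≠ XX (y j) := by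
  intro i j hi1 hi hj1 hj hij heq
  rcases (XX_eq_iff (h.1 i hi) (h.1 j hj)).mp heq with h1 | h1
  · exact (h.2.2 i j hi1 hi hj1 hj hij).1 (by rw [h1])
  · exact (h.2.2 i j hi1 hi hj1 hj hij).2 (by rw [← mul_pow, h1, one_pow])

theorem GenT.upd {L : ℕ} {y : ℕ → ℂ} (h : GenT L y) {t : ℂ} (ht : t ≠ 0) :
    GenT L (Function.update y 0 t) := by
  have e : ∀ i, 1 ≤ i → Function.update y 0 t i = y i := fun i hi =>
    Function.update_of_ne (by omega) _ _
  refine ⟨nz_upd h.1 0 ht, fun i hi1 hi => ?_, fun i j hi1 hi hj1 hj hij => ?_⟩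
  · rw [e i hi1]
    exact h.2.1 i hi1 hi
  · rw [e i hi1, e j hj1]
    exact h.2.2 i j hi1 hi hj1 hj hij

theorem BF_swap_lt {L i j k : ℕ} (hi : i < L) (hj : j < L) (hk : k < L) : Equiv.swap i j k < L := by
  rw [Equiv.swap_apply_def]
  split_ifs
  · exact hj
  · exact hi
  · exact hk

theorem BF_nz {L : ℕ} {y : ℕ → ℂ} (hy : NZ L y) {i j : ℕ} (hi : i < L) (hj : j < L) :
    NZ L (fun k => y (Equiv.swap i j k)) :=
  fun _ hk => hy _ (BF_swap_lt hi hj hk)

theorem BF_lt {L : ℕ} {f : (ℕ → ℂ) → ℂ}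
    (hsw : ∀ i y, NZ L y → i + 1 < L → f (sw i y) = f y) (d : ℕ) :
    ∀ (y : ℕ → ℂ) (i : ℕ), NZ L y → i + d + 1 < L → f (fun k => y (Equiv.swap i (i + d + 1) k)) = f y := by
  induction d with
  | zero =>
    intro y i hy hi
    exact hsw i y hy hi
  | succ d ih =>
    intro y i hy hi
    have hz : NZ L (sw (i + d + 1) y) := nz_sw hy (by omega)
    have hw : NZ L (fun k => sw (i + d + 1) y (Equiv.swap i (i + d + 1) k)) :=
      BF_nz hz (by omega) (by omega)
    have h1 := hsw (i + d + 1) _ hw (by omega)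
    have h2 := ih (sw (i + d + 1) y) i hz (by omega)
    have h3 := hsw (i + d + 1) y hy (by omega)
    have e : (fun k => y (Equiv.swap i (i + (d + 1) + 1) k)) =
        sw (i + d + 1) (fun k => sw (i + d + 1) y (Equiv.swap i (i + d + 1) k)) := by
      funext k
      have hperm : Equiv.swap i (i + (d + 1) + 1) =
          Equiv.swap (i + d + 1) (i + d + 1 + 1) * Equiv.swap i (i + d + 1) *
            Equiv.swap (i + d + 1) (i + d + 1 + 1) := by
        rw [Equiv.swap_mul_swap_mul_swap (by omega) (by omega), Equiv.swap_comm]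
        rfl
      rw [hperm]
      rfl
    rw [e, h1, h2, h3]

/-- invariance under a transposition, from the invariance under the exchanges -/
theorem inv_swap {L : ℕ} {f : (ℕ → ℂ) → ℂ}
    (hsw : ∀ i y, NZ L y → i + 1 < L → f (sw i y) = f y) {y : ℕ → ℂ} (hy : NZ L y) {i j : ℕ}
    (hi : i < L) (hj : j < L) : f (fun k => y (Equiv.swap i j k)) = f y := by
  rcases lt_trichotomy i j with h | h | h
  · obtain ⟨d, rfl⟩ := Nat.exists_eq_add_of_lt h
    exact BF_lt hsw d y i hy hj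
  · subst h
    rw [Equiv.swap_self]
    rfl
  · obtain ⟨d, rfl⟩ := Nat.exists_eq_add_of_lt h
    rw [Equiv.swap_comm]
    exact BF_lt hsw d y j hy hi

end PX
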