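import Pool.Agent.Lib.MP_216314_pr.X.Hom

/-!
# Continuity of the solution and of the bilinear invariants
-/

set_option autoImplicit false

noncomputable section

namespace PX

open Finset MvPolynomial Filter Topology

theorem gv_tendsto {ι : Type*} {l : Filter ι} (L : ℕ) (s : Finset ℕ) {y : ι → ℕ → ℂ} {y0 : ℕ → ℂ}
    (h : ∀ k, Tendsto (fun i => y i k) l (𝓝 (y0 k))) (h0 : NZ L y0) :
    Tendsto (fun i => gv L (y i) s) l (𝓝 (gv L y0 s)) := by
  have hy : Tendsto y l (𝓝 y0) := tendsto_pi_nhds.2 h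
  unfold gv
  split_ifs with hs
  · refine Tendsto.div ?_ ?_ ?_
    · exact ((MvPolynomial.continuous_eval (GP L s)).tendsto y0).comp hy
    · exact (tendsto_finsetProd _ (fun k _ => h k)).pow _
    · exact pow_ne_zero _ (Finset.prod_ne_zero_iff.2 (fun k hk => h0 k (Finset.mem_range.1 hk)))
  · exact tendsto_const_nhds

theorem DD_tendsto {ι : Type*} {l : Filter ι} (L : ℕ) {y : ι → ℕ → ℂ} {y0 : ℕ → ℂ}
    (h : ∀ k, Tendsto (fun i => y i k) l (𝓝 (y0 k))) (h0 : ∀ k, y0 k ≠ 0) :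
    Tendsto (fun i => DD L (y i)) l (𝓝 (DD L y0)) := by
  unfold DD BF
  refine tendsto_finsetSum _ (fun a _ => ?_)
  refine Tendsto.mul (Tendsto.mul tendsto_const_nhds ?_) ?_
  · refine gv_tendsto L a (fun k => ?_) (fun k _ => inv_ne_zero (h0 k))
    exact (h k).inv₀ (h0 k)
  · exact gv_tendsto L a h (fun k _ => h0 k)

theorem EE_tendsto {ι : Type*} {l : Filter ι} (n : ℕ) {z : ι → ℕ → ℂ} {z0 : ℕ → ℂ}
    (h : ∀ k, Tendsto (fun i => z i k) l (𝓝 (z0 k))) (h0 : ∀ k, z0 k ≠ 0) :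
    Tendsto (fun i => EE n (z i)) l (𝓝 (EE n z0)) := by
  unfold EE BF
  refine tendsto_finsetSum _ (fun a _ => ?_)
  refine Tendsto.mul (Tendsto.mul tendsto_const_nhds ?_) ?_
  · refine gv_tendsto (2 * n + 1) a (fun k => ?_) (fun k _ => ?_)
    · unfold zd
      split_ifs
      · exact (h 0).inv₀ (h0 0)
      · exact (h (k + 1)).inv₀ (h0 (k + 1))
    · unfold zd
      split_ifs
      · exact inv_ne_zero (h0 0)
      · exact inv_ne_zero (h0 (k + 1))
  · exact gv_tendsto (2 * n + 1) a (fun k => h (k + 1)) (fun k _ => h0 (k + 1))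

end PX
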