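import Pool.Agent.Lib.MP_216314_pr.X.FusB

/-!
# Fusion relation
-/

set_option autoImplicit false

noncomputable section

namespace PX

open Finset MvPolynomial

/-- fusion at generic arguments -/
theorem fusion_gen (L : ℕ) {u : ℂ} (hu : u ≠ 0) {w : ℕ → ℂ} (hw : w ∈ FS L u) :
    hI L 0 u w = Kf L u w • gv L w := by
  funext s
  by_cases hs : s ∈ cfn L (L / 2)
  · have hE : Exch (FS L u) 0 L (fun y => hI L 0 u y - (fun y => Kf L u y • gv L y) y) :=
      Exch.sub (hI_exch hu) (Exch.smul (gv_exch L (FS L u)) (Kf L u)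
        (fun i _ h2 y _ => Kf_sw h2 u y))
    have h := det_zero (FS L u) L (L / 2) 0 L (le_refl _) _ hE
      (fun i _ h2 y hy => hy.2.2 i (i + 1) (by omega) h2 (by omega))
      (fun i _ h2 y hy => FS_sw h2 hy)
      (by
        intro y hy t ht hsort
        have h5 : ∀ i, i + 1 ∈ t → i ∈ t := fun i hi =>
          hsort i (Nat.zero_le _) (Finset.mem_range.mp ((mem_cfn.mp ht).1 hi)) hi
        have h6 := eq_range_of_sorted h5
        rw [(mem_cfn.mp ht).2] at h6
        show hI L 0 u y t - (Kf L u y • gv L y) t = 0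
        rw [h6, ← hI_eq hu hy (L / 2) (by omega), hI_base L hu hy.1, Pi.smul_apply, smul_eq_mul,
          sub_self]) w hw s hs
    exact sub_eq_zero.mp h
  · have h1 : hI L 0 u w s = 0 := by
      unfold hI
      have h2 : (L + 2) / 2 = L / 2 + 1 := by omega
      have h3 := gv_wt (L + 2) (ip 0 u w)
      rw [h2] at h3
      exact wt_Con (Nat.zero_le _) h3 s hs
    rw [h1, Pi.smul_apply, gv_wt L w s hs, smul_zero]

/-- fusion relation -/
theorem fusion (L i : ℕ) (hi : i ≤ L) {u : ℂ} (hu : u ≠ 0) {w : ℕ → ℂ} (hw : NZ L w) :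
    gv (L + 2) (ip i u w) = Kf L u w • Ins i (gv L w) := by
  funext s
  set f : (ℕ → ℂ) → ℂ := fun y => gv (L + 2) (fun k => Function.update y (i + 1) (om * y i) k) s -
    (∏ k ∈ range L, ((om ^ 2 * y i + (om ^ 2 * y i)⁻¹) - (dl i y k + (dl i y k)⁻¹))) *
      (cc (i ∈ s) (i + 1 ∈ s) * gv L (fun k => dl i y k) (rm i s)) with hf
  have hLdl : ∀ k, Lau (L + 2) (fun y => dl i y k) := by
    intro k
    unfold dl
    split_ifs
    · exact Lau.coord _ _
    · exact Lau.coord _ _
  have hLdlinv : ∀ k, k < L → Lau (L + 2) (fun y => (dl i y k)⁻¹) := by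
    intro k hk
    unfold dl
    split_ifs
    · exact Lau.coord_inv (by omega)
    · exact Lau.coord_inv (by omega)
  have hL1 : Lau (L + 2) (fun y => gv (L + 2) (fun k => Function.update y (i + 1) (om * y i) k) s) := by
    refine Lau.comp (gv_lau (L + 2) s) (fun k y => Function.update y (i + 1) (om * y i) k) ?_ ?_ ?_
    · intro k
      rcases eq_or_ne k (i + 1) with h | h
      · subst h
        simp only [Function.update_self]
        exact (Lau.const _ _).mul (Lau.coord _ _)
      · simp only [Function.update_of_ne h]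
        exact Lau.coord _ _
    · intro k hk
      rcases eq_or_ne k (i + 1) with h | h
      · subst h
        simp only [Function.update_self, mul_inv]
        exact (Lau.const _ _).mul (Lau.coord_inv (by omega))
      · simp only [Function.update_of_ne h]
        exact Lau.coord_inv hk
    · intro k hk y hy
      exact nz_upd hy (i + 1) (mul_ne_zero om_ne_zero (hy i (by omega))) k hk
  have hL2 : Lau (L + 2) (fun y => gv L (fun k => dl i y k) (rm i s)) := by
    refine Lau.comp (gv_lau L (rm i s)) (fun k y => dl i y k) hLdl hLdlinv ?_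
    intro k hk y hy
    exact nz_dl hy i k hk
  have hL3 : Lau (L + 2) (fun y => om ^ 2 * y i + (om ^ 2 * y i)⁻¹) := by
    simp only [mul_inv]
    exact ((Lau.const _ _).mul (Lau.coord _ _)).add ((Lau.const _ _).mul (Lau.coord_inv (by omega)))
  have hLf : Lau (L + 2) f :=
    hL1.sub ((Lau.prod (range L) fun k hk => hL3.sub
      ((hLdl k).add (hLdlinv k (Finset.mem_range.mp hk)))).mul ((Lau.const _ _).mul hL2))
  have hfv : ∀ y, f y = gv (L + 2) (ip i (y i) (dl i y)) s -
      Kf L (y i) (dl i y) * Ins i (gv L (dl i y)) s := by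
    intro y
    rw [hf]
    have h1 : (fun k => Function.update y (i + 1) (om * y i) k) = ip i (y i) (dl i y) := by
      funext k
      unfold ip dl
      rcases eq_or_ne k (i + 1) with h | h
      · subst h
        rw [Function.update_self, if_neg (by omega), if_neg (by omega), if_pos rfl]
      · rw [Function.update_of_ne h]
        split_ifs with h2 h3 h4 h5
        · rfl
        · rw [h3]
        · omega
        · have h6 : k - 2 + 2 = k := by omega
          rw [h6]
    show gv (L + 2) (fun k => Function.update y (i + 1) (om * y i) k) s - _ = _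
    rw [h1]
    rfl
  have hgen : ∀ y, Gen (L + 2) y → f y = 0 := by
    intro y hy
    have hu' : y i ≠ 0 := hy.1 i (by omega)
    have hFS : dl i y ∈ FS L (y i) := by
      have hlt : ∀ k, k < L → ∃ k', k' < L + 2 ∧ k' ≠ i ∧ dl i y k = y k' ∧
          (k' = if k < i then k else k + 2) := by
        intro k hk
        by_cases h : k < i
        · exact ⟨k, by omega, by omega, by unfold dl; rw [if_pos h], by rw [if_pos h]⟩
        · exact ⟨k + 2, by omega, by omega, by unfold dl; rw [if_neg h], by rw [if_neg h]⟩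
      refine ⟨nz_dl hy.1 i, ?_, ?_⟩
      · intro k hk
        obtain ⟨k', h1, h2, h3, _⟩ := hlt k hk
        rw [h3]
        have h4 := Gen.ne_mul hy (show i < L + 2 by omega) h1 h2.symm
        exact ⟨h4.2.1.symm, h4.2.2.1.symm⟩
      · intro j k hj hk hjk
        obtain ⟨j', h1, h2, h3, h4⟩ := hlt j hj
        obtain ⟨k', h1', h2', h3', h4'⟩ := hlt k hk
        rw [h3, h3']
        have h5 : j' ≠ k' := by
          rw [h4, h4']
          split_ifs <;> omega
        exact (Gen.ne_mul hy h1 h1' h5).1
    rw [hfv, gv_eq_Ins_hI hi hu' (dl i y), hI_eq hu' hFS i hi, fusion_gen L hu' hFS, map_smul,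
      Pi.smul_apply, smul_eq_mul, sub_self]
  have h := Lau.ext_gen hLf hgen (ip i u w) (nz_ip hi hu hw)
  rw [hfv, ip_left] at h
  have hdl : dl i (ip i u w) = w := by
    funext k
    unfold dl
    split_ifs with h1
    · exact ip_lt u w h1
    · exact ip_ge u w (by omega)
  rw [hdl] at h
  rw [Pi.smul_apply, smul_eq_mul]
  exact sub_eq_zero.mp h

end PX
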