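import Pool.Agent.Lib.MP_216314_pr.X.BI

/-!
# Stream B: identification of the norm `D`
-/

set_option autoImplicit false

noncomputable section

namespace PX

open Finset

theorem chi_D (D : ℕ → (ℕ → ℂ) → ℂ)
    (h0 : ∀ y, D 0 y = 1) (h1 : ∀ y, NZ 1 y → D 1 y = 1)
    (hloc : ∀ L y y', (∀ k, k < L → y k = y' k) → D L y = D L y')
    (hsw : ∀ L i y, NZ L y → i + 1 < L → D L (sw i y) = D L y)
    (hinv : ∀ L i y, NZ L y → i < L → D L (Function.update y i (y i)⁻¹) = D L y)
    (hdeg : ∀ L, 1 ≤ L → Deg1 L 0 (2 * ((L - 1) / 2)) (4 * ((L - 1) / 2)) (D L))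
    (hrec : ∀ L y, NZ (L + 2) y → y 1 = om * y 0 →
      D (L + 2) y = -om ^ 2 * (∏ k ∈ range L, (XX (om ^ 2 * y 0) - XX (y (k + 2)))) ^ 2 *
        D L (dl 0 y)) :
    ∀ L y, GenT L y → (∀ j, 1 ≤ j → j < L → XX (y 0) ≠ XX (y j)) →
      D L y = (-om ^ 2) ^ (L / 2) * chr L y ^ 2 := by
  intro L
  induction L using Nat.twoStepInduction with
  | zero =>
    intro y _ _
    rw [h0, chr_zero]
    norm_num
  | one =>
    intro y hy _
    rw [h1 y hy.1, chr_one]
    norm_num
  | more L ih _ =>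
    have S : Step L (D (L + 2)) (fun _ => (-om ^ 2) ^ ((L + 2) / 2)) (D L)
        (fun _ => (-om ^ 2) ^ (L / 2)) (fun _ => -om ^ 2) :=
      { Floc := fun y y' h => hloc (L + 2) y y' h
        Fsw := fun i y hy hi => hsw (L + 2) i y hy hi
        Finv := fun i y hy hi => hinv (L + 2) i y hy hi
        Ksw := fun _ _ _ _ => rfl
        Kinv := fun _ _ _ _ => rfl
        Frec := fun y hy h => hrec L y hy h
        Krec := fun y _ _ => by
          have e : (L + 2) / 2 = L / 2 + 1 := by omega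
          change (-om ^ 2) ^ ((L + 2) / 2) = -om ^ 2 * (-om ^ 2) ^ (L / 2)
          rw [e, pow_succ]
          ring
        ind := fun y hy => ih y hy.genT fun j hj hj2 => hy.dist 0 j (by omega) hj2 (by omega) }
    have e1 : (L + 2 - 1) / 2 = (L + 1) / 2 := by omega
    have hd := hdeg (L + 2) (by omega)
    rw [e1] at hd
    have hF : Deg1 (L + 2) 0 (2 * ((L + 1) / 2)) (2 * (2 * ((L + 1) / 2))) (D (L + 2)) := by
      have e2 : 2 * (2 * ((L + 1) / 2)) = 4 * ((L + 1) / 2) := by ring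
      rw [e2]
      exact hd
    have hK : Deg1 (L + 2) 0 0 (2 * 0) (fun _ : ℕ → ℂ => (-om ^ 2) ^ ((L + 2) / 2)) := by
      intro y _
      refine ⟨Polynomial.C ((-om ^ 2) ^ ((L + 2) / 2)), ?_, fun t _ => ?_⟩
      · rw [Polynomial.natDegree_C]
      · rw [Polynomial.eval_C, pow_zero, one_mul]
    exact S.main (2 * ((L + 1) / 2)) 0 hF hK (by omega) (by omega)

end PX
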