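import Pool.Agent.Lib.MP_216314_pr.X.BI

/-!
# Stream B: identification of the marked norm `M` (first variable frozen at `t = -om`, `XX t = 1`)
`M n w` is a function of the `2n` remaining variables `w_0, ..., w_{2n-1}`.
-/

set_option autoImplicit false

noncomputable section

namespace PX

open Finset

theorem BK_two {u : ℂ} (hu : u ≠ 0) : (2 + XX u) * (2 + XX (om * u)) = (XX (om ^ 2 * u) - 1) ^ 2 := by
  have h1 := XX_sum hu
  have h2 := XX_cubic hu 0
  have h3 := XX_cubic hu 1
  have e2 : XX u * XX (om * u) + XX (om ^ 2 * u) * (XX u + XX (om * u)) = -3 := by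
    linear_combination h2 - h3 + h1
  linear_combination e2 + (2 - XX (om ^ 2 * u)) * h1

theorem BK_deg (n : ℕ) (c : ℂ) :
    Deg1 (2 * n + 2) 0 1 (2 * 1) (fun w => c * ∏ k ∈ range (2 * n + 2), (2 + XX (w k))) := by
  intro y _
  refine ⟨Polynomial.C (c * ∏ k ∈ range (2 * n + 1), (2 + XX (y (k + 1)))) *
    (Polynomial.X ^ 2 + Polynomial.C 2 * Polynomial.X + 1), ?_, ?_⟩
  · refine (Polynomial.natDegree_C_mul_le _ _).trans ?_
    compute_degree
  · intro t ht
    show t ^ 1 * (c * ∏ k ∈ range (2 * n + 2), (2 + XX (Function.update y 0 t k))) = _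
    rw [prod_range_succ', Function.update_self]
    have h1 : ∀ k ∈ range (2 * n + 1), (2 + XX (Function.update y 0 t (k + 1))) = 2 + XX (y (k + 1)) := by
      intro k _
      rw [Function.update_of_ne (Nat.succ_ne_zero k)]
    rw [prod_congr rfl h1]
    simp only [Polynomial.eval_mul, Polynomial.eval_add, Polynomial.eval_C, Polynomial.eval_pow, Polynomial.eval_X,
      Polynomial.eval_one]
    have h2 : t * (2 + XX t) = t ^ 2 + 2 * t + 1 := by
      unfold XX
      field_simp
      ring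
    linear_combination (c * ∏ k ∈ range (2 * n + 1), (2 + XX (y (k + 1)))) * h2

theorem chi_M (M : ℕ → (ℕ → ℂ) → ℂ)
    (h1 : ∀ w, NZ 2 w → M 1 w = -om ^ 2 * ((2 + XX (w 0)) * (2 + XX (w 1))))
    (hloc : ∀ n w w', (∀ k, k < 2 * n → w k = w' k) → M n w = M n w')
    (hsw : ∀ n i w, NZ (2 * n) w → i + 1 < 2 * n → M n (sw i w) = M n w)
    (hinv : ∀ n i w, NZ (2 * n) w → i < 2 * n → M n (Function.update w i (w i)⁻¹) = M n w)
    (hdeg : ∀ n, 1 ≤ n → Deg1 (2 * n) 0 (2 * n) (4 * n) (M n))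
    (hrec : ∀ n w, 1 ≤ n → NZ (2 * n + 2) w → w 1 = om * w 0 →
      M (n + 1) w = -om ^ 2 * (XX (om ^ 2 * w 0) - 1) ^ 2 *
        (∏ k ∈ range (2 * n), (XX (om ^ 2 * w 0) - XX (w (k + 2)))) ^ 2 * M n (dl 0 w)) :
    ∀ n w, 1 ≤ n → Gen (2 * n) w →
      M n w = (-om ^ 2) ^ n * (∏ k ∈ range (2 * n), (2 + XX (w k))) * chr (2 * n) w ^ 2 := by
  intro n w hn
  induction n, hn using Nat.le_induction generalizing w with
  | base =>
    intro hg
    have hd := hg.dist 0 1 (by norm_num) (by norm_num) (by norm_num)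
    have h2 : chr (2 * 1) w = 1 := chr_two hd
    rw [h1 w hg.1, h2]
    rw [show 2 * 1 = 2 from rfl, prod_range_succ, prod_range_succ, range_zero, prod_empty]
    ring
  | succ n hn ih =>
    intro hg
    have S : Step (2 * n) (M (n + 1)) (fun w => (-om ^ 2) ^ (n + 1) * ∏ k ∈ range (2 * n + 2), (2 + XX (w k)))
        (M n) (fun w => (-om ^ 2) ^ n * ∏ k ∈ range (2 * n), (2 + XX (w k)))
        (fun u => -om ^ 2 * (XX (om ^ 2 * u) - 1) ^ 2) := by
      refine ⟨fun y y' h => hloc (n + 1) y y' h, fun i y hy hi => hsw (n + 1) i y hy hi,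
        fun i y hy hi => hinv (n + 1) i y hy hi, ?_, ?_, ?_, ?_, ?_⟩
      · intro i y _ hi
        have h3 := prod_sw hi (fun k => 2 + XX (y k))
        show (-om ^ 2) ^ (n + 1) * ∏ k ∈ range (2 * n + 2), (2 + XX (sw i y k)) = _
        have h4 : ∏ k ∈ range (2 * n + 2), (2 + XX (sw i y k)) =
            ∏ k ∈ range (2 * n + 2), sw i (fun k => 2 + XX (y k)) k := rfl
        rw [h4, h3]
      · intro i y _ _
        show (-om ^ 2) ^ (n + 1) * ∏ k ∈ range (2 * n + 2), (2 + XX (Function.update y i (y i)⁻¹ k)) = _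
        have h3 : ∀ k ∈ range (2 * n + 2), (2 + XX (Function.update y i (y i)⁻¹ k)) = 2 + XX (y k) := by
          intro k _
          by_cases hk : k = i
          · rw [hk, Function.update_self, XX_inv]
          · rw [Function.update_of_ne hk]
        rw [prod_congr rfl h3]
      · intro y hy hy1
        exact hrec n y hn hy hy1
      · intro y hy hy1
        show (-om ^ 2) ^ (n + 1) * ∏ k ∈ range (2 * n + 2), (2 + XX (y k)) =
          (-om ^ 2 * (XX (om ^ 2 * y 0) - 1) ^ 2) * ((-om ^ 2) ^ n * ∏ k ∈ range (2 * n), (2 + XX (dl 0 y k)))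
        have h3 : ∀ k ∈ range (2 * n), (2 + XX (dl 0 y k)) = 2 + XX (y (k + 1 + 1)) := fun k _ => rfl
        have h4 := BK_two (hy 0 (by omega))
        rw [prod_congr rfl h3, prod_range_succ', prod_range_succ', ← h4, hy1]
        ring
      · intro y hy
        exact ih y hy
    have hF : Deg1 (2 * n + 2) 0 (2 * n + 2) (2 * (2 * n + 2)) (M (n + 1)) := by
      have h3 := hdeg (n + 1) (by omega)
      have h4 : 4 * (n + 1) = 2 * (2 * n + 2) := by ring
      rw [h4] at h3
      exact h3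
    have h5 := S.main (2 * n + 2) 1 hF (BK_deg n _) (by omega) (by omega) w hg.genT
      (fun j hj1 hj2 => hg.dist 0 j (by omega) (by omega) (by omega))
    exact h5

end PX
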