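import Pool.Agent.Lib.MP_216314_pr.X.BP
import Pool.Agent.Lib.MP_216314_pr.X.BF

/-!
# Stream B: the value of the one-arm probability
-/

set_option autoImplicit false

noncomputable section

namespace PX

open Finset Filter Topology

/-- the one-arm probability of the half plane at distance `2n` -/
def rho (n : ℕ) : ℝ := ∏ j ∈ range n, ((6 * (j : ℝ) + 4) / (6 * j + 5)) ^ 2

theorem BQ_exp_ne {t : ℝ} (h0 : t ≠ 0) (h1 : |t| < 6) :
    Complex.exp (Complex.I * (t : ℂ)) ≠ 1 := by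
  intro h
  rw [Complex.exp_eq_one_iff] at h
  obtain ⟨n, hn⟩ := h
  have h2 : (t : ℂ) = ((n * (2 * Real.pi) : ℝ) : ℂ) := by
    have h3 : Complex.I * ((t : ℂ) - ((n * (2 * Real.pi) : ℝ) : ℂ)) = 0 := by
      rw [mul_sub, hn]
      push_cast
      ring
    rcases mul_eq_zero.1 h3 with h4 | h4
    · exact absurd h4 Complex.I_ne_zero
    · exact sub_eq_zero.1 h4
  have h3 : t = n * (2 * Real.pi) := by exact_mod_cast h2
  have hn0 : n ≠ 0 := by
    rintro rfl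
    apply h0
    rw [h3]
    simp
  have h4 : (1 : ℝ) ≤ |(n : ℝ)| := by
    have : (1 : ℤ) ≤ |n| := Int.one_le_abs hn0
    exact_mod_cast this
  have h5 : |t| = |(n : ℝ)| * (2 * Real.pi) := by
    rw [h3, abs_mul, abs_of_pos (by positivity : (0 : ℝ) < 2 * Real.pi)]
  have h6 := Real.pi_gt_three
  nlinarith

theorem BQ_pow (ε : ℝ) (j m : ℕ) :
    wv ε j ^ m = Complex.exp (Complex.I * ((m * (ε * (j + 1)) : ℝ) : ℂ)) := by
  unfold wv
  rw [← Complex.exp_nat_mul]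
  congr 1
  push_cast
  ring

theorem BQ_ne_zero (ε : ℝ) (j : ℕ) : wv ε j ≠ 0 := Complex.exp_ne_zero _

theorem BQ_XX_om : XX (-om) = 1 := by
  unfold XX
  rw [inv_neg, om_inv]
  linear_combination -om_eq

theorem wv_tendsto (j : ℕ) : Tendsto (fun ε : ℝ => wv ε j) (𝓝 0) (𝓝 1) := by
  have h : Continuous (fun ε : ℝ => wv ε j) := by
    unfold wv
    fun_prop
  have h2 := h.tendsto 0
  have e : wv 0 j = 1 := by simp [wv]
  rw [e] at h2
  exact h2

theorem BQ_XX_tendsto (j : ℕ) : Tendsto (fun ε : ℝ => XX (wv ε j)) (𝓝 0) (𝓝 2) := by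
  have h := wv_tendsto j
  have h2 : Tendsto (fun ε : ℝ => wv ε j + (wv ε j)⁻¹) (𝓝 0) (𝓝 (1 + (1 : ℂ)⁻¹)) :=
    h.add (h.inv₀ one_ne_zero)
  have e : (1 : ℂ) + (1 : ℂ)⁻¹ = 2 := by norm_num
  rw [e] at h2
  exact h2

theorem BQ_rho_succ (n : ℕ) : rho (n + 1) = rho n * ((6 * (n : ℝ) + 4) / (6 * n + 5)) ^ 2 := by
  unfold rho
  rw [Finset.prod_range_succ]

theorem BQ_rho_pos (n : ℕ) : 0 < rho n := by
  unfold rho
  exact Finset.prod_pos fun j _ => by positivity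

theorem BQ_up (n : ℕ) : rho n ^ 3 * ((n : ℝ) + 1) ≤ 1 := by
  induction n with
  | zero => simp [rho]
  | succ n ih =>
    have hr := BQ_rho_pos n
    have hn : (0 : ℝ) ≤ n := Nat.cast_nonneg n
    rw [BQ_rho_succ]
    push_cast
    have key : ((6 * (n : ℝ) + 4) / (6 * n + 5)) ^ 6 * (n + 1 + 1) ≤ n + 1 := by
      rw [div_pow, div_mul_eq_mul_div, div_le_iff₀ (by positivity)]
      have e : ((n : ℝ) + 1) * (6 * n + 5) ^ 6 - (6 * (n : ℝ) + 4) ^ 6 * (n + 1 + 1) =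
          34992 * (n : ℝ) ^ 5 + 127440 * (n : ℝ) ^ 4 + 186300 * (n : ℝ) ^ 3 + 136656 * (n : ℝ) ^ 2 + 50301 * (n : ℝ) ^ 1 + 7433 * (n : ℝ) ^ 0 := by
        ring
      have e2 : 0 ≤ 34992 * (n : ℝ) ^ 5 + 127440 * (n : ℝ) ^ 4 + 186300 * (n : ℝ) ^ 3 + 136656 * (n : ℝ) ^ 2 + 50301 * (n : ℝ) ^ 1 + 7433 * (n : ℝ) ^ 0 := by positivity
      linarith
    have e : (rho n * ((6 * (n : ℝ) + 4) / (6 * n + 5)) ^ 2) ^ 3 * (n + 1 + 1) =
        rho n ^ 3 * (((6 * (n : ℝ) + 4) / (6 * n + 5)) ^ 6 * (n + 1 + 1)) := by ring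
    rw [e]
    exact (mul_le_mul_of_nonneg_left key (by positivity)).trans ih

theorem BQ_low (n : ℕ) : (16 / 25 : ℝ) ^ 3 ≤ rho (n + 1) ^ 3 * ((n : ℝ) + 1) := by
  induction n with
  | zero =>
    rw [BQ_rho_succ]
    simp only [rho, Finset.range_zero, Finset.prod_empty]
    norm_num
  | succ n ih =>
    have hr := BQ_rho_pos (n + 1)
    have hn : (0 : ℝ) ≤ n := Nat.cast_nonneg n
    rw [BQ_rho_succ (n + 1)]
    push_cast
    have key : (n : ℝ) + 1 ≤ ((6 * ((n : ℝ) + 1) + 4) / (6 * (n + 1) + 5)) ^ 6 * (n + 1 + 1) := by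
      rw [div_pow, div_mul_eq_mul_div, le_div_iff₀ (by positivity)]
      have e : (6 * ((n : ℝ) + 1) + 4) ^ 6 * (n + 1 + 1) - ((n : ℝ) + 1) * (6 * (n + 1) + 5) ^ 6 =
          11664 * (n : ℝ) ^ 5 + 105840 * (n : ℝ) ^ 4 + 383940 * (n : ℝ) ^ 3 + 696024 * (n : ℝ) ^ 2 + 630603 * (n : ℝ) ^ 1 + 228439 * (n : ℝ) ^ 0 := by
        ring
      have e2 : 0 ≤ 11664 * (n : ℝ) ^ 5 + 105840 * (n : ℝ) ^ 4 + 383940 * (n : ℝ) ^ 3 + 696024 * (n : ℝ) ^ 2 + 630603 * (n : ℝ) ^ 1 + 228439 * (n : ℝ) ^ 0 := by positivity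
      linarith
    have e : (rho (n + 1) * ((6 * ((n : ℝ) + 1) + 4) / (6 * (n + 1) + 5)) ^ 2) ^ 3 * (n + 1 + 1) =
        rho (n + 1) ^ 3 * (((6 * ((n : ℝ) + 1) + 4) / (6 * (n + 1) + 5)) ^ 6 * (n + 1 + 1)) := by ring
    rw [e]
    exact ih.trans (mul_le_mul_of_nonneg_left key (by positivity))

theorem BQ_cube {x : ℝ} (hx : 0 < x) : (x ^ (-(1 / 3 : ℝ))) ^ 3 * x = 1 := by
  rw [← Real.rpow_natCast, ← Real.rpow_mul hx.le]
  norm_num
  rw [Real.rpow_neg_one]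
  exact inv_mul_cancel₀ hx.ne'

theorem wv_gen (L : ℕ) : ∀ᶠ ε : ℝ in 𝓝[>] 0, Gen L (wv ε) ∧ (∀ k, k < L → XX (wv ε k) ≠ 1) := by
  have hL : (0 : ℝ) < 1 / (100 * ((L : ℝ) + 1)) := by positivity
  have hev : ∀ᶠ ε : ℝ in 𝓝[>] 0, ε ∈ Set.Ioo (0 : ℝ) (1 / (100 * ((L : ℝ) + 1))) :=
    Ioo_mem_nhdsGT hL
  filter_upwards [hev] with ε hε
  obtain ⟨h0, h1⟩ := hε
  have hb : ∀ x : ℝ, x ≤ L → 0 ≤ x → ε * x < 1 / 100 := by
    intro x hx hx0
    have h2 : ε * (100 * ((L : ℝ) + 1)) < 1 := by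
      rwa [lt_div_iff₀ (by positivity)] at h1
    nlinarith
  have hcast : ∀ i : ℕ, i < L → ((i : ℝ) + 1) ≤ L := by
    intro i hi
    exact_mod_cast hi
  refine ⟨⟨fun k _ => BQ_ne_zero ε k, ?_, ?_⟩, ?_⟩
  · intro i hi
    rw [BQ_pow]
    have h2 := hb ((i : ℝ) + 1) (hcast i hi) (by positivity)
    apply BQ_exp_ne
    · positivity
    · rw [abs_of_nonneg (by positivity)]
      push_cast
      linarith
  · intro i j hi hj hij
    have h2 := hb ((i : ℝ) + 1) (hcast i hi) (by positivity)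
    have h3 := hb ((j : ℝ) + 1) (hcast j hj) (by positivity)
    have h4 : 0 < ε * ((i : ℝ) + 1) := by positivity
    have h5 : 0 < ε * ((j : ℝ) + 1) := by positivity
    constructor
    · intro h
      have h6 : Complex.exp (Complex.I * ((3 * (ε * ((i : ℝ) + 1)) - 3 * (ε * ((j : ℝ) + 1)) : ℝ) : ℂ)) = 1 := by
        rw [BQ_pow, BQ_pow] at h
        rw [Complex.ofReal_sub, mul_sub, Complex.exp_sub]
        push_cast at h ⊢
        rw [h, div_self (Complex.exp_ne_zero _)]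
      refine BQ_exp_ne ?_ ?_ h6
      · intro h7
        have h8 : ε * (((i : ℝ) + 1) - ((j : ℝ) + 1)) = 0 := by linarith
        rcases mul_eq_zero.1 h8 with h9 | h9
        · exact h0.ne' h9
        · apply hij
          have : (i : ℝ) = j := by linarith
          exact_mod_cast this
      · rw [abs_lt]
        constructor <;> linarith
    · intro h
      have h6 : Complex.exp (Complex.I * ((3 * (ε * ((i : ℝ) + 1)) + 3 * (ε * ((j : ℝ) + 1)) : ℝ) : ℂ)) = 1 := by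
        rw [BQ_pow, BQ_pow] at h
        rw [Complex.ofReal_add, mul_add, Complex.exp_add]
        push_cast at h ⊢
        exact h
      refine BQ_exp_ne ?_ ?_ h6
      · positivity
      · rw [abs_lt]
        constructor <;> linarith
  · intro k hk
    rw [XX_wv]
    have h2 := hb ((k : ℝ) + 1) (hcast k hk) (by positivity)
    have h3 : 0 < ε * ((k : ℝ) + 1) := by positivity
    unfold ccB
    intro h
    have h4 : 2 * Real.cos (((k + 1 : ℕ) : ℝ) * ε) = 1 := by exact_mod_cast h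
    have h5 := Real.one_sub_sq_div_two_le_cos (x := ((k + 1 : ℕ) : ℝ) * ε)
    have h6 : ((k + 1 : ℕ) : ℝ) * ε = ε * ((k : ℝ) + 1) := by push_cast; ring
    rw [h6] at h4 h5
    nlinarith

/-- `(-om, w)` is generic in the sense of `GenT`, and `XX (-om) = 1` differs from the others -/
theorem genT_cns {L : ℕ} {w : ℕ → ℂ} (h : Gen L w) (h1 : ∀ k, k < L → XX (w k) ≠ 1) :
    GenT (L + 1) (cns (-om) w) ∧
      ∀ j, 1 ≤ j → j < L + 1 → XX (cns (-om) w 0) ≠ XX (cns (-om) w j) := by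
  have h0 : cns (-om) w 0 = -om := by simp [cns]
  have hs : ∀ k, 1 ≤ k → cns (-om) w k = w (k - 1) := by
    intro k hk
    unfold cns
    rw [if_neg (by omega)]
  obtain ⟨hz, h6, h3⟩ := h
  refine ⟨⟨?_, ?_, ?_⟩, ?_⟩
  · intro k hk
    rcases Nat.eq_zero_or_pos k with rfl | hk0
    · rw [h0]
      exact neg_ne_zero.2 om_ne_zero
    · rw [hs k hk0]
      exact hz _ (by omega)
  · intro i hi1 hi2
    rw [hs i hi1]
    exact h6 _ (by omega)
  · intro i j hi1 hi2 hj1 hj2 hij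
    rw [hs i hi1, hs j hj1]
    exact h3 _ _ (by omega) (by omega) (by omega)
  · intro j hj1 hj2
    rw [h0, hs j hj1, BQ_XX_om]
    exact fun h => h1 _ (by omega) h.symm

theorem val_lim (n : ℕ) : Tendsto (fun ε : ℝ => (∏ k ∈ range (2 * n), (2 + XX (wv ε k))) *
    chr (2 * n) (wv ε) ^ 2 / chr (2 * n + 1) (cns (-om) (wv ε)) ^ 2) (𝓝[>] 0)
    (𝓝 ((rho n : ℝ) : ℂ)) := by
  have hR := lim_ratio n
  have hS : Sm n ≠ 0 := by
    rw [Sm_eq]
    have : (∏ j ∈ range n, (2 * (6 * (j : ℝ) + 5) / (3 * j + 2))) ≠ 0 :=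
      (Finset.prod_pos fun j _ => by positivity).ne'
    exact_mod_cast this
  have hP : Tendsto (fun ε : ℝ => ∏ k ∈ range (2 * n), (2 + XX (wv ε k))) (𝓝[>] 0)
      (𝓝 (∏ _k ∈ range (2 * n), (2 + (2 : ℂ)))) := by
    refine tendsto_finset_prod _ fun k _ => ?_
    exact (tendsto_const_nhds.add (BQ_XX_tendsto k)).mono_left nhdsWithin_le_nhds
  have h := hP.mul ((hR.pow 2).inv₀ (pow_ne_zero 2 hS))
  have e : (∏ _k ∈ range (2 * n), (2 + (2 : ℂ))) * (Sm n ^ 2)⁻¹ = ((rho n : ℝ) : ℂ) := by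
    rw [Sm_eq, Finset.prod_const, Finset.card_range, pow_mul]
    have h2 : rho n = (((2 + (2 : ℝ)) ^ 2) ^ n) *
        ((∏ j ∈ range n, (2 * (6 * (j : ℝ) + 5) / (3 * j + 2))) ^ 2)⁻¹ := by
      unfold rho
      rw [← Finset.prod_pow, ← Finset.prod_inv_distrib]
      conv_rhs => rw [← Finset.card_range n, ← Finset.prod_const, Finset.card_range,
        ← Finset.prod_mul_distrib]
      refine Finset.prod_congr rfl fun j _ => ?_
      have h3 : (3 * (j : ℝ) + 2) ≠ 0 := by positivity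
      have h4 : (6 * (j : ℝ) + 5) ≠ 0 := by positivity
      field_simp
      ring
    rw [h2]
    push_cast
    ring
  rw [e] at h
  refine h.congr fun ε => ?_
  rw [div_pow, inv_div]
  ring

theorem rho_bounds : ∃ c C : ℝ, 0 < c ∧ 0 < C ∧ ∀ n : ℕ,
    c * ((n : ℝ) + 1) ^ (-(1 / 3 : ℝ)) ≤ rho n ∧ rho n ≤ C * ((n : ℝ) + 1) ^ (-(1 / 3 : ℝ)) := by
  refine ⟨16 / 25, 1, by norm_num, one_pos, fun n => ?_⟩
  have hn : (0 : ℝ) < (n : ℝ) + 1 := by positivity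
  have hc := BQ_cube hn
  have hp : 0 < ((n : ℝ) + 1) ^ (-(1 / 3 : ℝ)) := Real.rpow_pos_of_pos hn _
  have hr := BQ_rho_pos n
  constructor
  · refine le_of_pow_le_pow_left₀ (n := 3) (by norm_num) hr.le ?_
    refine le_of_mul_le_mul_right ?_ hn
    rw [mul_pow, mul_assoc, hc, mul_one]
    cases n with
    | zero => simp [rho]; norm_num
    | succ m =>
      refine (BQ_low m).trans ?_
      have : (0 : ℝ) ≤ rho (m + 1) ^ 3 := by positivity
      push_cast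
      nlinarith
  · rw [one_mul]
    refine le_of_pow_le_pow_left₀ (n := 3) (by norm_num) hp.le ?_
    refine le_of_mul_le_mul_right ?_ hn
    rw [hc]
    exact BQ_up n

end PX
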