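import Pool.Agent.Lib.MP_216314_pr.X.BN

/-!
# Stream B: the character has a nonzero limit at the homogeneous point
-/

set_option autoImplicit false

noncomputable section

namespace PX

open Finset Filter Topology

private theorem BR_sq_ne {a b : ℕ} (h : a < b) : ((a : ℂ)) ^ 2 - (b : ℂ) ^ 2 ≠ 0 := by
  rw [sub_ne_zero]
  intro h1
  have h2 : a ^ 2 = b ^ 2 := by exact_mod_cast h1
  have h3 : a ^ 2 < b ^ 2 := Nat.pow_lt_pow_left h (by norm_num)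
  omega

/-- product formula at `w_j = exp(i ε (j+1))` -/
theorem chr_wv (N : ℕ) (ε : ℝ) (hs : ∀ m : ℕ, 1 ≤ m → m ≤ mm N → ssB ε m ≠ 0)
    (hc : ∀ m m' : ℕ, 1 ≤ m → m < m' → m' ≤ mm N → ccB ε m ≠ ccB ε m') :
    chr N (wv ε) = (∏ l : Fin N, (ssB ε (mm l) / ssB ε ((l : ℕ) + 1))) *
      ∏ i : Fin N, ∏ j ∈ Finset.Ioi i,
        ((ccB ε (mm j) - ccB ε (mm i)) / (ccB ε ((j : ℕ) + 1) - ccB ε ((i : ℕ) + 1))) := by
  have hNm : N ≤ mm N := mm_strictMono.le_apply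
  have hS : (∏ j : Fin N, ssB ε ((j : ℕ) + 1)) ≠ 0 :=
    Finset.prod_ne_zero_iff.2 fun j _ => hs _ (by omega) (by have := j.2; omega)
  have h1 := det_US_cc (fun l : Fin N => mm (l : ℕ)) (fun l => mm_pos _) ε
  have h2 : Del N (wv ε) =
      (Matrix.of fun j l : Fin N => US (mm (l : ℕ) - 1) (ccB ε ((j : ℕ) + 1))).det := by
    unfold Del
    simp only [XX_wv]
  have h3 : Vdm N (wv ε) = (Matrix.vandermonde fun i : Fin N => ccB ε ((i : ℕ) + 1)).det := by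
    unfold Vdm
    simp only [XX_wv]
  have h4 : (Matrix.of fun j l : Fin N => US (mm (l : ℕ) - 1) (ccB ε ((j : ℕ) + 1))).det =
      (∏ l : Fin N, (ssB ε (mm l) / ssB ε ((l : ℕ) + 1))) *
        (Matrix.vandermonde fun l : Fin N => ccB ε (mm (l : ℕ))).det := by
    rw [Finset.prod_div_distrib, div_mul_eq_mul_div, eq_div_iff hS, mul_comm]
    exact h1
  unfold chr
  rw [h2, h3, h4, Matrix.det_vandermonde, Matrix.det_vandermonde, mul_div_assoc,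
    ← Finset.prod_div_distrib]
  congr 1
  refine Finset.prod_congr rfl fun i _ => ?_
  rw [← Finset.prod_div_distrib]

theorem val_ne (N : ℕ) : ∃ c : ℂ, c ≠ 0 ∧
    Tendsto (fun ε : ℝ => chr N (wv ε)) (𝓝[>] 0) (𝓝 c) := by
  refine ⟨(∏ l : Fin N, ((mm (l : ℕ) : ℂ) / (((l : ℕ) + 1 : ℕ) : ℂ))) *
      ∏ i : Fin N, ∏ j ∈ Finset.Ioi i,
        (((mm (i : ℕ) : ℂ) ^ 2 - (mm (j : ℕ) : ℂ) ^ 2) /
          (((((i : ℕ) + 1 : ℕ) : ℂ)) ^ 2 - (((j : ℕ) + 1 : ℕ) : ℂ) ^ 2)), ?_, ?_⟩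
  · refine mul_ne_zero (Finset.prod_ne_zero_iff.2 fun l _ => ?_)
      (Finset.prod_ne_zero_iff.2 fun i _ => Finset.prod_ne_zero_iff.2 fun j hj => ?_)
    · refine div_ne_zero ?_ ?_
      · have := mm_pos (l : ℕ)
        exact_mod_cast (by omega : mm (l : ℕ) ≠ 0)
      · exact_mod_cast (by omega : (l : ℕ) + 1 ≠ 0)
    · have hij' : i < j := Finset.mem_Ioi.1 hj
      have hij : (i : ℕ) < (j : ℕ) := hij'
      exact div_ne_zero (BR_sq_ne (mm_strictMono hij)) (BR_sq_ne (by omega))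
  · have h1 : Tendsto (fun ε : ℝ => (∏ l : Fin N, (ssB ε (mm l) / ssB ε ((l : ℕ) + 1))) *
        ∏ i : Fin N, ∏ j ∈ Finset.Ioi i,
        ((ccB ε (mm j) - ccB ε (mm i)) / (ccB ε ((j : ℕ) + 1) - ccB ε ((i : ℕ) + 1)))) (𝓝[>] 0)
        (𝓝 ((∏ l : Fin N, ((mm (l : ℕ) : ℂ) / (((l : ℕ) + 1 : ℕ) : ℂ))) *
      ∏ i : Fin N, ∏ j ∈ Finset.Ioi i,
        (((mm (i : ℕ) : ℂ) ^ 2 - (mm (j : ℕ) : ℂ) ^ 2) /
          (((((i : ℕ) + 1 : ℕ) : ℂ)) ^ 2 - (((j : ℕ) + 1 : ℕ) : ℂ) ^ 2)))) := by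
      refine Tendsto.mul ?_ ?_
      · exact tendsto_finsetProd _ fun l _ => lim_ss _ _ (by omega)
      · refine tendsto_finsetProd _ fun i _ => tendsto_finsetProd _ fun j hj => ?_
        have hij' : i < j := Finset.mem_Ioi.1 hj
        have hij : (i : ℕ) < (j : ℕ) := hij'
        have h2 := (lim_cc (mm (j : ℕ)) (mm (i : ℕ))).div (lim_cc ((j : ℕ) + 1) ((i : ℕ) + 1))
          (BR_sq_ne (by omega))
        refine h2.congr' ?_
        filter_upwards [self_mem_nhdsWithin] with ε hε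
        have hε0 : (ε : ℂ) ^ 2 ≠ 0 := by
          have : (ε : ℂ) ≠ 0 := by
            exact_mod_cast (ne_of_gt (Set.mem_Ioi.1 hε))
          exact pow_ne_zero 2 this
        show (ccB ε (mm (j : ℕ)) - ccB ε (mm (i : ℕ))) / (ε : ℂ) ^ 2 /
          ((ccB ε ((j : ℕ) + 1) - ccB ε ((i : ℕ) + 1)) / (ε : ℂ) ^ 2) = _
        rw [div_div_div_cancel_right₀ hε0]
    refine h1.congr' ?_
    filter_upwards [eventually_small (mm N)] with ε hε
    exact (chr_wv N ε hε.1 hε.2).symm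

end PX
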