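import Pool.Agent.Lib.MP_216314_pr.X.PairC

/-!
# The bilinear invariant `EE` for three strands
-/

set_option autoImplicit false

noncomputable section

namespace PX

open Finset MvPolynomial

theorem PairO_alg (A B C D : ℂ) :
    C * A + (-om ^ 2) * (-om ^ 2 * C + D) * (-om ^ 2 * A + B) + (-om ^ 2) * (-om ^ 2 * D) * (-om ^ 2 * B) =
      om * (B * C + A * D + B * D) := by
  linear_combination (-(om - 1) * (om ^ 3 + 1) * (C * A) + om * (om - 1) * (B * C + A * D) -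
    (1 + (om - 1) * (om ^ 3 + 1)) * (B * D)) * om_eq

theorem PairO_pq (a b : ℂ) (h : a * b = 1) :
    (om * a + om ^ 2 * b) * (om * b + om ^ 2 * a) = (a + b) ^ 2 - 3 := by
  linear_combination ((om - 1) * (a ^ 2 + b ^ 2) + (om ^ 2 - om + 1)) * om_eq + (om ^ 2 + om ^ 4 - 2) * h

theorem EE_one (z : ℕ → ℂ) (hz : NZ 4 z) : EE 1 z = om * (XX (z 0) * XX (z 1) +
    (XX (z 0) + XX (z 1)) * (XX (z 2) + XX (z 3)) + XX (z 2) * XX (z 3) + 3) := by
  have hz0 := hz 0 (by norm_num)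
  have hz1 := hz 1 (by norm_num)
  have hz2 := hz 2 (by norm_num)
  have hz3 := hz 3 (by norm_num)
  have hd : NZ 3 (zd z) := by
    intro k hk
    unfold zd
    split_ifs
    · exact inv_ne_zero hz0
    · exact inv_ne_zero (hz (k + 1) (by omega))
  have hr : NZ 3 (zr z) := by
    intro k hk
    exact hz (k + 1) (by omega)
  obtain ⟨d0, d1, d2⟩ := gv_three hd
  obtain ⟨r0, r1, r2⟩ := gv_three hr
  have e0 : zd z 0 = (z 0)⁻¹ := by simp [zd]
  have e1 : zd z 1 = (z 2)⁻¹ := by simp [zd]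
  have e2 : zd z 2 = (z 3)⁻¹ := by simp [zd]
  have f0 : zr z 0 = z 1 := rfl
  have f1 : zr z 1 = z 2 := rfl
  have f2 : zr z 2 = z 3 := rfl
  have x0 : XX ((z 0)⁻¹) = XX (z 0) := by
    unfold XX
    rw [inv_inv, add_comm]
  have x3 : XX ((z 3)⁻¹) = XX (z 3) := by
    unfold XX
    rw [inv_inv, add_comm]
  rw [e1, e2, x3, inv_inv] at d0
  rw [e0, e1, e2, x3, x0, inv_inv] at d1
  rw [e0, e1, x0, inv_inv] at d2
  rw [f1, f2] at r0
  rw [f0, f1, f2] at r1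
  rw [f0, f1] at r2
  have c0 : cz {0} = 1 := by simp [cz]
  have c1 : cz {1} = -om ^ 2 := by simp [cz]
  have c2 : cz {2} = -om ^ 2 := by simp [cz]
  have hE : EE 1 z = cz {0} * gv 3 (zd z) {0} * gv 3 (zr z) {0} + cz {1} * gv 3 (zd z) {1} * gv 3 (zr z) {1} +
      cz {2} * gv 3 (zd z) {2} * gv 3 (zr z) {2} := by
    unfold EE BF
    change ∑ a ∈ cfn 3 1, cz a * gv 3 (zd z) a * gv 3 (zr z) a = _
    rw [cfn_three, Finset.sum_insert, Finset.sum_insert, Finset.sum_singleton, add_assoc]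
    · simp
    · simp
  have hpq := PairO_pq (z 2) (z 2)⁻¹ (mul_inv_cancel₀ hz2)
  have halg := PairO_alg (om * z 2 + om ^ 2 * (z 2)⁻¹ - XX (z 3)) (om * (z 2)⁻¹ + om ^ 2 * z 2 - XX (z 1))
    (om * (z 2)⁻¹ + om ^ 2 * z 2 - XX (z 3)) (om * z 2 + om ^ 2 * (z 2)⁻¹ - XX (z 0))
  rw [hE, c0, c1, c2, d0, d1, d2, r0, r1, r2, one_mul]
  have hX2 : XX (z 2) = z 2 + (z 2)⁻¹ := rfl
  refine halg.trans ?_
  rw [hX2]
  have hs : (om * z 2 + om ^ 2 * (z 2)⁻¹) + (om * (z 2)⁻¹ + om ^ 2 * z 2) = -(z 2 + (z 2)⁻¹) := by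
    linear_combination (z 2 + (z 2)⁻¹) * om_eq
  generalize XX (z 0) = X0
  generalize XX (z 1) = X1
  generalize XX (z 3) = X3
  generalize om * z 2 + om ^ 2 * (z 2)⁻¹ = p at *
  generalize om * (z 2)⁻¹ + om ^ 2 * z 2 = q at *
  generalize z 2 + (z 2)⁻¹ = X2 at *
  linear_combination om * (p + q - X2 - (X0 + X1 + X3)) * hs - om * hpq

end PX
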