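import Pool.Agent.Lib.MP_216314_pr.X.PairC

/-!
# Recursion for the bilinear invariant `EE`
-/

set_option autoImplicit false

noncomputable section

namespace PX

open Finset MvPolynomial

private theorem PairS_XX_inv (v : ℂ) : XX v⁻¹ = XX v := by
  unfold XX
  rw [inv_inv, add_comm]

private theorem PairS_XX_om (v : ℂ) : XX (om ^ 2 * (om ^ 2 * v⁻¹)) = XX (om ^ 2 * v) := by
  have h1 : om ^ 2 * (om ^ 2 * v⁻¹) = om * v⁻¹ := by
    linear_combination (om * v⁻¹) * om_cube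
  have h2 : (om * v⁻¹)⁻¹ = om ^ 2 * v := by
    rw [mul_inv, inv_inv, om_inv]
  have h3 : (om ^ 2 * v)⁻¹ = om * v⁻¹ := by
    rw [← h2, inv_inv]
  rw [h1]
  unfold XX
  rw [h2, h3, add_comm]

private theorem PairS_zr (z : ℕ → ℂ) (h : z 3 = om * z 2) : zr z = ip 1 (z 2) (zr (dl 2 z)) := by
  have h1 : dl 1 (zr z) = zr (dl 2 z) := by
    funext k
    change (if k < 1 then z (k + 1) else z (k + 2 + 1)) =
      if k + 1 < 2 then z (k + 1) else z (k + 1 + 2)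
    by_cases hk : k < 1
    · rw [if_pos hk, if_pos (by omega)]
    · rw [if_neg hk, if_neg (by omega)]
  have h2 := ip_dl 1 (zr z) h
  rw [h1] at h2
  exact h2.symm

private theorem PairS_zd (z : ℕ → ℂ) (h : z 3 = om * z 2) :
    zd z = sw 1 (ip 1 (om ^ 2 * (z 2)⁻¹) (zd (dl 2 z))) := by
  have e3 : (z 3)⁻¹ = om ^ 2 * (z 2)⁻¹ := by
    rw [h, mul_inv, om_inv]
  have e2 : om * (om ^ 2 * (z 2)⁻¹) = (z 2)⁻¹ := by
    linear_combination (z 2)⁻¹ * om_cube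
  funext k
  by_cases h1 : k = 1
  · subst h1
    rw [sw_left, ip_right, e2]
    rfl
  by_cases h2 : k = 2
  · subst h2
    have : sw 1 (ip 1 (om ^ 2 * (z 2)⁻¹) (zd (dl 2 z))) (1 + 1) =
      ip 1 (om ^ 2 * (z 2)⁻¹) (zd (dl 2 z)) 1 := sw_right _ _
    rw [this, ip_left, ← e3]
    rfl
  rw [sw_of_ne 1 _ h1 h2]
  by_cases h0 : k = 0
  · subst h0
    rw [ip_lt _ _ Nat.zero_lt_one]
    rfl
  obtain ⟨m, rfl⟩ : ∃ m, k = m + 1 + 2 := ⟨k - 3, by omega⟩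
  rw [ip_ge _ _ (by omega : 1 ≤ m + 1)]
  unfold zd dl
  rw [if_neg (by omega), if_neg (by omega), if_neg (by omega)]

private theorem PairS_K1 (n : ℕ) (z : ℕ → ℂ) : Kf (2 * n + 1) (z 2) (zr (dl 2 z)) =
    (∏ k ∈ range (2 * n), (XX (om ^ 2 * z 2) - XX (z (k + 4)))) *
      (XX (om ^ 2 * z 2) - XX (z 1)) := by
  unfold Kf
  rw [prod_range_succ']
  rfl

private theorem PairS_K2 (n : ℕ) (z : ℕ → ℂ) :
    Kf (2 * n + 1) (om ^ 2 * (z 2)⁻¹) (zd (dl 2 z)) =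
    (∏ k ∈ range (2 * n), (XX (om ^ 2 * z 2) - XX (z (k + 4)))) *
      (XX (om ^ 2 * z 2) - XX (z 0)) := by
  unfold Kf
  rw [prod_range_succ', PairS_XX_om]
  have e0 : XX (zd (dl 2 z) 0) = XX (z 0) := PairS_XX_inv (z 0)
  rw [e0]
  congr 1
  refine prod_congr rfl fun k _ => ?_
  have e1 : XX (zd (dl 2 z) (k + 1)) = XX (z (k + 4)) := PairS_XX_inv (z (k + 4))
  rw [e1]

theorem EE_rec (n : ℕ) (z : ℕ → ℂ) (hz : NZ (2 * n + 4) z) (h : z 3 = om * z 2) :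
    EE (n + 1) z = -om ^ 2 * ((XX (om ^ 2 * z 2) - XX (z 0)) * (XX (om ^ 2 * z 2) - XX (z 1))) *
      (∏ k ∈ range (2 * n), (XX (om ^ 2 * z 2) - XX (z (k + 4)))) ^ 2 * EE n (dl 2 z) := by
  have h2 : z 2 ≠ 0 := hz 2 (by omega)
  have hzr : NZ (2 * n + 1) (zr (dl 2 z)) := by
    intro k hk
    unfold zr dl
    by_cases h3 : k + 1 < 2
    · rw [if_pos h3]
      exact hz _ (by omega)
    · rw [if_neg h3]
      exact hz _ (by omega)
  have hzd : NZ (2 * n + 1) (zd (dl 2 z)) := by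
    intro k hk
    unfold zd
    by_cases h0 : k = 0
    · rw [if_pos h0]
      exact inv_ne_zero (hz 0 (by omega))
    · rw [if_neg h0]
      exact inv_ne_zero (hzr k hk)
  have hu : om ^ 2 * (z 2)⁻¹ ≠ 0 := mul_ne_zero (pow_ne_zero 2 om_ne_zero) (inv_ne_zero h2)
  have hF : gv (2 * n + 1 + 2) (zr z) =
      Kf (2 * n + 1) (z 2) (zr (dl 2 z)) • Ins 1 (gv (2 * n + 1) (zr (dl 2 z))) := by
    rw [PairS_zr z h]
    have := fusion (2 * n + 1) 1 (by omega) h2 hzr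
    rw [this]
  have hC : Con 1 (gv (2 * n + 1 + 2) (zd z)) =
      Kf (2 * n + 1) (om ^ 2 * (z 2)⁻¹) (zd (dl 2 z)) • gv (2 * n + 1) (zd (dl 2 z)) := by
    rw [PairS_zd z h]
    have := Con_rev (L := 2 * n + 1) (i := 1) (by omega) hu hzd
    rw [this]
  have hE : EE (n + 1) z = BF (2 * n + 1 + 2) (n + 1) cz (gv (2 * n + 1 + 2) (zd z))
      (gv (2 * n + 1 + 2) (zr z)) := rfl
  rw [hE, hF, BF_smul_right, BF_Ins (by omega) cz cz (cz_insert le_rfl) (cz_insert' le_rfl),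
    hC, BF_smul_left, PairS_K1, PairS_K2 n z]
  have hE0 : EE n (dl 2 z) = BF (2 * n + 1) n cz (gv (2 * n + 1) (zd (dl 2 z)))
      (gv (2 * n + 1) (zr (dl 2 z))) := rfl
  rw [hE0]
  ring

end PX
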