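import Pool.Agent.Lib.MP_216314_pr.X.Cty
import Pool.Agent.Lib.MP_216314_pr.X.PairO
import Pool.Agent.Lib.MP_216314_pr.X.PairS
import Pool.Agent.Lib.MP_216314_pr.X.BJ
import Pool.Agent.Lib.MP_216314_pr.X.BK
import Pool.Agent.Lib.MP_216314_pr.X.BQ
import Pool.Agent.Lib.MP_216314_pr.X.BR

/-!
# The norm and the marked norm of the stationary vector
-/

set_option autoImplicit false

noncomputable section

namespace PX

open Finset Filter Topology

theorem neg_om_inv : (-om)⁻¹ = -om ^ 2 := by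
  rw [inv_neg, om_inv]

theorem XX_neg_om : XX (-om) = 1 := by
  unfold XX
  rw [neg_om_inv]
  linear_combination -om_eq

theorem DD_chr (L : ℕ) (y : ℕ → ℂ) (hy : GenT L y)
    (hd : ∀ j, 1 ≤ j → j < L → XX (y 0) ≠ XX (y j)) : DD L y = (-om ^ 2) ^ (L / 2) * chr L y ^ 2 :=
  chi_D DD DD_zero (fun y _ => DD_one y) DD_loc DD_sw DD_inv DD_deg DD_rec L y hy hd

/-- the arguments `-ω, -ω, w_0, w_1, ...` -/
def zz (w : ℕ → ℂ) : ℕ → ℂ := fun k => if k < 2 then -om else w (k - 2)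

theorem zz_add (w : ℕ → ℂ) (k : ℕ) : zz w (k + 2) = w k := by
  unfold zz
  rw [if_neg (by omega)]
  rfl

theorem zz_zero (w : ℕ → ℂ) : zz w 0 = -om := rfl

theorem zz_one (w : ℕ → ℂ) : zz w 1 = -om := rfl

theorem nz_zz {L : ℕ} {w : ℕ → ℂ} (h : NZ L w) : NZ (L + 2) (zz w) := by
  intro k hk
  rcases k with _ | _ | k
  · exact neg_ne_zero.2 om_ne_zero
  · exact neg_ne_zero.2 om_ne_zero
  · rw [zz_add]
    exact h k (by omega)

theorem zz_sw (i : ℕ) (w : ℕ → ℂ) : zz (sw i w) = sw (i + 2) (zz w) := by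
  funext k
  rcases k with _ | _ | k
  · rw [sw_of_ne _ _ (by omega) (by omega)]
    rfl
  · rw [sw_of_ne _ _ (by omega) (by omega)]
    rfl
  · rw [zz_add]
    by_cases h1 : k = i
    · subst h1
      rw [sw_left, sw_left]
      exact (zz_add w (k + 1)).symm
    · by_cases h2 : k = i + 1
      · subst h2
        rw [sw_right]
        have h3 : i + 1 + 2 = i + 2 + 1 := by omega
        rw [h3, sw_right, zz_add]
      · rw [sw_of_ne _ _ h1 h2, sw_of_ne _ _ (by omega) (by omega), zz_add]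

theorem zz_update (i : ℕ) (w : ℕ → ℂ) (t : ℂ) :
    zz (Function.update w i t) = Function.update (zz w) (i + 2) t := by
  funext k
  rcases k with _ | _ | k
  · rw [Function.update_of_ne (by omega)]
    rfl
  · rw [Function.update_of_ne (by omega)]
    rfl
  · rw [zz_add]
    by_cases h1 : k = i
    · subst h1
      rw [Function.update_self, Function.update_self]
    · rw [Function.update_of_ne h1, Function.update_of_ne (by omega), zz_add]

theorem dl_zz (w : ℕ → ℂ) : dl 2 (zz w) = zz (dl 0 w) := by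
  funext k
  rcases k with _ | _ | k
  · rfl
  · rfl
  · rw [zz_add]
    unfold dl
    rw [if_neg (by omega), if_neg (by omega)]
    exact zz_add w (k + 2)

/-- the marked norm as a function of the arguments `1, ..., 2n`, the first argument being `-ω` -/
def MM (n : ℕ) (w : ℕ → ℂ) : ℂ := -om * EE n (zz w)

theorem MM_chr (n : ℕ) (hn : 1 ≤ n) (w : ℕ → ℂ) (hw : Gen (2 * n) w) :
    MM n w = (-om ^ 2) ^ n * (∏ k ∈ range (2 * n), (2 + XX (w k))) * chr (2 * n) w ^ 2 := by
  refine chi_M MM ?_ ?_ ?_ ?_ ?_ ?_ n w hn hw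
  · intro w hw
    unfold MM
    rw [EE_one (zz w) (nz_zz hw), zz_zero, zz_one, XX_neg_om, zz_add, zz_add w 1]
    ring
  · intro n w w' h
    unfold MM
    rw [EE_loc n (zz w) (zz w')]
    intro k hk
    rcases k with _ | _ | k
    · rfl
    · rfl
    · rw [zz_add, zz_add]
      exact h k (by omega)
  · intro n i w hw hi
    unfold MM
    rw [zz_sw, EE_sw n (i + 2) (zz w) (nz_zz hw) (by omega) (by omega)]
  · intro n i w hw hi
    unfold MM
    rw [zz_update]
    have h1 : (w i)⁻¹ = (zz w (i + 2))⁻¹ := by rw [zz_add]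
    rw [h1, EE_inv n (i + 2) (zz w) (nz_zz hw) (by omega) (by omega)]
  · intro n hn w hw
    obtain ⟨p, hp, hp'⟩ := EE_deg n hn (zz w) (nz_zz hw)
    refine ⟨Polynomial.C (-om) * p, le_trans (Polynomial.natDegree_C_mul_le _ _) hp, ?_⟩
    intro t ht
    unfold MM
    rw [zz_update, Polynomial.eval_mul, Polynomial.eval_C, ← hp' t ht]
    ring
  · intro n w _ hw h
    unfold MM
    have h1 : zz w 3 = om * zz w 2 := by
      rw [zz_add w 1, zz_add w 0]
      exact h
    rw [EE_rec n (zz w) (nz_zz hw) h1, zz_zero, zz_one, XX_neg_om, dl_zz, zz_add w 0]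
    have h2 : ∀ k, zz w (k + 4) = w (k + 2) := fun k => zz_add w (k + 2)
    simp only [h2]
    ring

theorem FF_zero_apply : FF 0 ∅ = 1 := gv_one _

/-- the vector at the arguments `-ω, 1, ..., 1` -/
theorem gv_neg_om (n : ℕ) : gv (2 * n + 1) (pt 0 (-om)) = FF n := by
  have h := refl_left (L := 2 * n + 1) (by omega) (y := pt 0 (-om ^ 2))
    (nz_pt _ 0 (neg_ne_zero.2 (pow_ne_zero 2 om_ne_zero)))
  rw [iv_pt] at h
  have h1 : (-om ^ 2)⁻¹ = -om := by
    rw [← neg_om_inv, inv_inv]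
  rw [h1] at h
  exact h

theorem DD_neg_om (n : ℕ) : DD (2 * n + 1) (pt 0 (-om)) = BF (2 * n + 1) n (fun _ => 1) (FF n) (FF n) := by
  have h1 : (2 * n + 1) / 2 = n := by omega
  have h2 : ivs (pt 0 (-om)) = pt 0 (-om ^ 2) := by
    funext k
    unfold ivs pt
    split_ifs
    · exact neg_om_inv
    · exact inv_one
  unfold DD
  rw [h1, h2, gv_neg_om]
  rfl

theorem EE_neg_om (n : ℕ) : EE n (zz (fun _ => 1)) = BF (2 * n + 1) n cz (FF n) (FF n) := by
  have h2 : zd (zz (fun _ => 1)) = pt 0 (-om ^ 2) := by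
    funext k
    unfold zd pt zz
    split_ifs with h h' h'
    · exact neg_om_inv
    · omega
    · omega
    · exact inv_one
  have h3 : zr (zz (fun _ => 1)) = pt 0 (-om) := by
    funext k
    unfold zr pt zz
    split_ifs <;> first | rfl | omega
  unfold EE
  rw [h2, h3, gv_neg_om]
  rfl

theorem cns_tendsto (k : ℕ) : Tendsto (fun ε : ℝ => cns (-om) (wv ε) k) (𝓝[>] 0) (𝓝 (pt 0 (-om) k)) := by
  unfold cns pt
  split_ifs
  · exact tendsto_const_nhds
  · exact (wv_tendsto (k - 1)).mono_left nhdsWithin_le_nhds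

theorem zz_tendsto (k : ℕ) :
    Tendsto (fun ε : ℝ => zz (wv ε) k) (𝓝[>] 0) (𝓝 (zz (fun _ => 1) k)) := by
  unfold zz
  split_ifs
  · exact tendsto_const_nhds
  · exact (wv_tendsto (k - 2)).mono_left nhdsWithin_le_nhds

theorem rho_pos (n : ℕ) : 0 < rho n := by
  unfold rho
  exact Finset.prod_pos (fun j _ => by positivity)

/-- norm and marked norm for `n ≥ 1` -/
theorem FF_key (n : ℕ) (hn : 1 ≤ n) : BF (2 * n + 1) n (fun _ => 1) (FF n) (FF n) ≠ 0 ∧
    BF (2 * n + 1) n cz (FF n) (FF n) =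
      -om ^ 2 * ((rho n : ℝ) : ℂ) * BF (2 * n + 1) n (fun _ => 1) (FF n) (FF n) := by
  have hD : Tendsto (fun ε : ℝ => DD (2 * n + 1) (cns (-om) (wv ε))) (𝓝[>] 0)
      (𝓝 (BF (2 * n + 1) n (fun _ => 1) (FF n) (FF n))) := by
    rw [← DD_neg_om]
    refine DD_tendsto _ cns_tendsto (fun k => ?_)
    unfold pt
    split_ifs
    · exact neg_ne_zero.2 om_ne_zero
    · exact one_ne_zero
  have hM : Tendsto (fun ε : ℝ => MM n (wv ε)) (𝓝[>] 0)
      (𝓝 (-om * BF (2 * n + 1) n cz (FF n) (FF n))) := by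
    rw [← EE_neg_om]
    unfold MM
    refine Tendsto.const_mul _ (EE_tendsto _ zz_tendsto (fun k => ?_))
    unfold zz
    split_ifs
    · exact neg_ne_zero.2 om_ne_zero
    · exact one_ne_zero
  obtain ⟨c, hc, hcl⟩ := val_ne (2 * n)
  have hP : Tendsto (fun ε : ℝ => ∏ k ∈ range (2 * n), (2 + XX (wv ε k))) (𝓝[>] 0)
      (𝓝 (∏ k ∈ range (2 * n), (2 + XX 1))) := by
    refine tendsto_finsetProd _ (fun k _ => ?_)
    refine Tendsto.const_add _ ?_
    unfold XX
    have h1 : Tendsto (fun ε : ℝ => wv ε k) (𝓝[>] 0) (𝓝 1) :=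
      (wv_tendsto k).mono_left nhdsWithin_le_nhds
    exact h1.add (h1.inv₀ one_ne_zero)
  have hXX1 : (2 : ℂ) + XX 1 = 4 := by
    unfold XX
    norm_num
  have hM2 : Tendsto (fun ε : ℝ => MM n (wv ε)) (𝓝[>] 0)
      (𝓝 ((-om ^ 2) ^ n * (∏ k ∈ range (2 * n), (2 + XX 1)) * c ^ 2)) := by
    refine Tendsto.congr' ?_ ((hP.const_mul ((-om ^ 2) ^ n)).mul (hcl.pow 2))
    filter_upwards [wv_gen (2 * n)] with ε hε
    exact (MM_chr n hn (wv ε) hε.1).symm
  have hMne : -om * BF (2 * n + 1) n cz (FF n) (FF n) ≠ 0 := by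
    rw [tendsto_nhds_unique hM hM2, hXX1]
    refine mul_ne_zero (mul_ne_zero (pow_ne_zero _ (neg_ne_zero.2 (pow_ne_zero 2 om_ne_zero))) ?_)
      (pow_ne_zero 2 hc)
    exact Finset.prod_ne_zero_iff.2 (fun _ _ => by norm_num)
  have hrho : ((rho n : ℝ) : ℂ) ≠ 0 := by
    exact_mod_cast (rho_pos n).ne'
  have hne : ∀ᶠ ε : ℝ in 𝓝[>] 0, chr (2 * n + 1) (cns (-om) (wv ε)) ≠ 0 := by
    have h1 := (val_lim n).eventually_ne hrho
    filter_upwards [h1] with ε hε h0
    apply hε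
    rw [h0]
    simp
  have hrel : Tendsto (fun ε : ℝ => MM n (wv ε)) (𝓝[>] 0)
      (𝓝 (((rho n : ℝ) : ℂ) * BF (2 * n + 1) n (fun _ => 1) (FF n) (FF n))) := by
    refine Tendsto.congr' ?_ ((val_lim n).mul hD)
    filter_upwards [wv_gen (2 * n), hne] with ε hε hε'
    have h1 := genT_cns hε.1 hε.2
    rw [MM_chr n hn (wv ε) hε.1, DD_chr (2 * n + 1) _ h1.1 h1.2]
    have h2 : (2 * n + 1) / 2 = n := by omega
    rw [h2]
    field_simp
  have hkey := tendsto_nhds_unique hM hrel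
  constructor
  · intro h0
    rw [hkey, h0, mul_zero] at hMne
    exact hMne rfl
  · have h3 : om * om ^ 2 = 1 := by
      linear_combination om_cube
    linear_combination (-om ^ 2) * hkey + (-(BF (2 * n + 1) n cz (FF n) (FF n))) * h3

theorem FF_D (n : ℕ) : BF (2 * n + 1) n (fun _ => 1) (FF n) (FF n) ≠ 0 := by
  rcases Nat.eq_zero_or_pos n with h | h
  · subst h
    unfold BF
    rw [show 2 * 0 + 1 = 1 from rfl, cfn_one, Finset.sum_singleton, FF_zero_apply]
    norm_num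
  · exact (FF_key n h).1

theorem FF_M (n : ℕ) : BF (2 * n + 1) n cz (FF n) (FF n) =
    -om ^ 2 * ((rho n : ℝ) : ℂ) * BF (2 * n + 1) n (fun _ => 1) (FF n) (FF n) := by
  rcases Nat.eq_zero_or_pos n with h | h
  · subst h
    unfold BF
    rw [show 2 * 0 + 1 = 1 from rfl, cfn_one, Finset.sum_singleton, Finset.sum_singleton, FF_zero_apply]
    unfold rho cz
    simp
  · exact (FF_key n h).2

end PX
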