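import Pool.Agent.Lib.MP_216314_pr.X.SpinA

/-!
# Spin vectors: the Temperley-Lieb generators
-/

set_option autoImplicit false

noncomputable section

namespace PX

open Finset

theorem ee_ee (i : ℕ) (v : Vec) : ee i (ee i v) = ee i v := by
  rw [ee_eq, ee_eq, Con_Ins_self]

theorem Con_ee_far {a c : ℕ} (h : a ≤ c) (v : Vec) : Con a (ee (c + 2) v) = ee c (Con a v) := by
  rw [ee_eq, ee_eq, Con_Ins_far' h, Con_Con h]

theorem Con_ee_far' {b c : ℕ} (h : b ≤ c) (v : Vec) : Con (c + 2) (ee b v) = ee b (Con (c + 2) v) := by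
  rw [ee_eq, ee_eq, Con_Ins_far h, Con_Con h]

theorem ee_apply_eq (i : ℕ) (v : Vec) (s : Finset ℕ) (h : i ∈ s ↔ i + 1 ∈ s) : ee i v s = 0 := by
  rw [ee_eq, Ins_apply]
  by_cases hi : i ∈ s
  · have h2 := h.mp hi
    simp only [cc, hi, h2, if_true, zero_mul]
  · have h2 : i + 1 ∉ s := fun h3 => hi (h.mpr h3)
    simp only [cc, hi, h2, if_false, zero_mul]

theorem ee_apply_left (i : ℕ) (v : Vec) (s : Finset ℕ) (h : i ∈ s) (h' : i + 1 ∉ s) :
    ee i v s = -om * v s + v (sg i s) := by
  rw [ee_eq, Ins_apply, Con_apply]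
  have b1 : insert i (mk i (rm i s)) = s := by
    ext k
    simp only [mem_rm, Finset.mem_insert, mem_mk, up]
    grind
  have b2 : insert (i + 1) (mk i (rm i s)) = sg i s := by
    ext k
    rw [mem_sg]
    rcases eq_or_ne k i with h1 | h1
    · rw [h1, Equiv.swap_apply_left, Finset.mem_insert, mem_mk]
      grind
    · rcases eq_or_ne k (i + 1) with h2 | h2
      · rw [h2, Equiv.swap_apply_right, Finset.mem_insert]
        grind
      · rw [Equiv.swap_apply_of_ne_of_ne h1 h2]
        simp only [mem_rm, Finset.mem_insert, mem_mk, up]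
        grind
  rw [b1, b2]
  simp only [cc, h, h', if_true, if_false]
  linear_combination (v (sg i s)) * om_cube

theorem ee_apply_right (i : ℕ) (v : Vec) (s : Finset ℕ) (h : i ∉ s) (h' : i + 1 ∈ s) :
    ee i v s = -om ^ 2 * v s + v (sg i s) := by
  rw [ee_eq, Ins_apply, Con_apply]
  have b1 : insert (i + 1) (mk i (rm i s)) = s := by
    ext k
    simp only [mem_rm, Finset.mem_insert, mem_mk, up]
    grind
  have b2 : insert i (mk i (rm i s)) = sg i s := by
    ext k
    rw [mem_sg]
    rcases eq_or_ne k i with h1 | h1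
    · rw [h1, Equiv.swap_apply_left, Finset.mem_insert]
      grind
    · rcases eq_or_ne k (i + 1) with h2 | h2
      · rw [h2, Equiv.swap_apply_right, Finset.mem_insert, mem_mk]
        grind
      · rw [Equiv.swap_apply_of_ne_of_ne h1 h2]
        simp only [mem_rm, Finset.mem_insert, mem_mk, up]
        grind
  rw [b1, b2]
  simp only [cc, h, h', if_true, if_false]
  linear_combination (v (sg i s) - om ^ 2 * v s) * om_cube

end PX
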