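import Pool.Agent.Lib.MP_216314_pr.X.SpinA

/-!
# Spin vectors: configurations of given length and number of up spins
-/

set_option autoImplicit false

noncomputable section

namespace PX

open Finset

theorem sg_mem_cfn {L n i : ℕ} (hi : i + 1 < L) {s : Finset ℕ} : sg i s ∈ cfn L n ↔ s ∈ cfn L n := by
  rw [mem_cfn, mem_cfn]
  have h1 : (sg i s).card = s.card := by
    unfold sg
    rw [Finset.card_map]
  rw [h1]
  have h2 : ∀ k, k < L → Equiv.swap i (i + 1) k < L := by
    intro k hk
    rcases eq_or_ne k i with h1 | h1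
    · rw [h1, Equiv.swap_apply_left]
      exact hi
    · rcases eq_or_ne k (i + 1) with h2 | h2
      · rw [h2, Equiv.swap_apply_right]
        omega
      · rw [Equiv.swap_apply_of_ne_of_ne h1 h2]
        exact hk
  have h3 : sg i s ⊆ range L ↔ s ⊆ range L := by
    constructor
    · intro h k hk
      have : Equiv.swap i (i + 1) k ∈ sg i s := by
        rw [mem_sg, Equiv.swap_apply_self]
        exact hk
      have h4 := h2 _ (Finset.mem_range.mp (h this))
      rw [Equiv.swap_apply_self] at h4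
      exact Finset.mem_range.mpr h4
    · intro h k hk
      rw [mem_sg] at hk
      have h4 := h2 _ (Finset.mem_range.mp (h hk))
      rw [Equiv.swap_apply_self] at h4
      exact Finset.mem_range.mpr h4
  rw [h3]

private theorem spinC_card_mk (i : ℕ) (s : Finset ℕ) : (mk i s).card = s.card := by
  unfold mk
  rw [Finset.card_map]

private theorem spinC_ins {i : ℕ} {s : Finset ℕ} (h : i ∈ s) (h' : i + 1 ∉ s) :
    insert i (mk i (rm i s)) = s := by
  ext k
  simp only [mem_rm, Finset.mem_insert, mem_mk, up]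
  grind

private theorem spinC_ins' {i : ℕ} {s : Finset ℕ} (h : i ∉ s) (h' : i + 1 ∈ s) :
    insert (i + 1) (mk i (rm i s)) = s := by
  ext k
  simp only [mem_rm, Finset.mem_insert, mem_mk, up]
  grind

private theorem spinC_sg {i : ℕ} {s : Finset ℕ} (h : i ∈ s) (h' : i + 1 ∉ s) :
    insert (i + 1) (mk i (rm i s)) = sg i s := by
  ext k
  rw [mem_sg]
  rcases eq_or_ne k i with h1 | h1
  · rw [h1, Equiv.swap_apply_left, Finset.mem_insert, mem_mk]
    grind
  · rcases eq_or_ne k (i + 1) with h2 | h2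
    · rw [h2, Equiv.swap_apply_right, Finset.mem_insert]
      grind
    · rw [Equiv.swap_apply_of_ne_of_ne h1 h2]
      simp only [mem_rm, Finset.mem_insert, mem_mk, up]
      grind

private theorem spinC_sg' {i : ℕ} {s : Finset ℕ} (h : i ∉ s) (h' : i + 1 ∈ s) :
    insert i (mk i (rm i s)) = sg i s := by
  ext k
  rw [mem_sg]
  rcases eq_or_ne k i with h1 | h1
  · rw [h1, Equiv.swap_apply_left, Finset.mem_insert]
    grind
  · rcases eq_or_ne k (i + 1) with h2 | h2
    · rw [h2, Equiv.swap_apply_right, Finset.mem_insert, mem_mk]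
      grind
    · rw [Equiv.swap_apply_of_ne_of_ne h1 h2]
      simp only [mem_rm, Finset.mem_insert, mem_mk, up]
      grind

private theorem spinC_mk_sub {L i : ℕ} (hi : i ≤ L) {s : Finset ℕ} :
    mk i s ⊆ range (L + 2) ↔ s ⊆ range L := by
  constructor
  · intro h k hk
    have h1 : up i k ∈ mk i s := up_mem_mk.mpr hk
    have h2 := Finset.mem_range.mp (h h1)
    rw [Finset.mem_range]
    unfold up at h2
    split_ifs at h2 <;> omega
  · intro h k hk
    rw [mem_mk] at hk
    rw [Finset.mem_range]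
    rcases hk with ⟨h1, h2⟩ | ⟨h1, h2⟩
    · have := Finset.mem_range.mp (h h2)
      omega
    · have := Finset.mem_range.mp (h h2)
      omega

private theorem spinC_imA {L n i : ℕ} (hi : i ≤ L) {s : Finset ℕ} :
    insert i (mk i s) ∈ cfn (L + 2) (n + 1) ↔ s ∈ cfn L n := by
  rw [mem_cfn, mem_cfn, Finset.card_insert_of_notMem left_notMem_mk, spinC_card_mk,
    Finset.insert_subset_iff, spinC_mk_sub hi, Finset.mem_range]
  constructor
  · rintro ⟨⟨_, h1⟩, h2⟩
    exact ⟨h1, by omega⟩
  · rintro ⟨h1, h2⟩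
    exact ⟨⟨by omega, h1⟩, by omega⟩

private theorem spinC_imB {L n i : ℕ} (hi : i ≤ L) {s : Finset ℕ} :
    insert (i + 1) (mk i s) ∈ cfn (L + 2) (n + 1) ↔ s ∈ cfn L n := by
  rw [mem_cfn, mem_cfn, Finset.card_insert_of_notMem right_notMem_mk, spinC_card_mk,
    Finset.insert_subset_iff, spinC_mk_sub hi, Finset.mem_range]
  constructor
  · rintro ⟨⟨_, h1⟩, h2⟩
    exact ⟨h1, by omega⟩
  · rintro ⟨h1, h2⟩
    exact ⟨⟨by omega, h1⟩, by omega⟩

/-- removing the pair of positions `i`, `i+1` with exactly one up spin -/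
theorem rm_mem_cfn {L n i : ℕ} (hi : i ≤ L) {s : Finset ℕ} (h : ¬ (i ∈ s ↔ i + 1 ∈ s)) :
    rm i s ∈ cfn L n ↔ s ∈ cfn (L + 2) (n + 1) := by
  by_cases h1 : i ∈ s
  · have h2 : i + 1 ∉ s := fun h3 => h ⟨fun _ => h3, fun _ => h1⟩
    have e := spinC_ins h1 h2
    rw [← spinC_imA hi, e]
  · have h2 : i + 1 ∈ s := by
      by_contra h3
      exact h ⟨fun h4 => absurd h4 h1, fun h4 => absurd h4 h3⟩
    have e := spinC_ins' h1 h2
    rw [← spinC_imB hi, e]

theorem insert_mk_mem_cfn {L n i : ℕ} (hi : i ≤ L) {s : Finset ℕ} :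
    insert i (mk i s) ∈ cfn (L + 2) (n + 1) ↔ s ∈ cfn L n := by
  exact spinC_imA hi

theorem insert_mk_mem_cfn' {L n i : ℕ} (hi : i ≤ L) {s : Finset ℕ} :
    insert (i + 1) (mk i s) ∈ cfn (L + 2) (n + 1) ↔ s ∈ cfn L n := by
  exact spinC_imB hi

theorem wt_Ins {L n i : ℕ} (hi : i ≤ L) {v : Vec} (h : Wt L n v) : Wt (L + 2) (n + 1) (Ins i v) := by
  intro s hs
  rw [Ins_apply]
  by_cases hc : i ∈ s ↔ i + 1 ∈ s
  · by_cases h1 : i ∈ s
    · have h2 := hc.mp h1
      simp only [cc, h1, h2, if_true, zero_mul]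
    · have h2 : i + 1 ∉ s := fun h3 => h1 (hc.mpr h3)
      simp only [cc, h1, h2, if_false, zero_mul]
  · have h1 : rm i s ∉ cfn L n := fun h2 => hs ((rm_mem_cfn hi hc).mp h2)
    rw [h _ h1, mul_zero]

theorem wt_Con {L n i : ℕ} (hi : i ≤ L) {v : Vec} (h : Wt (L + 2) (n + 1) v) : Wt L n (Con i v) := by
  intro s hs
  rw [Con_apply, h _ (fun h2 => hs ((insert_mk_mem_cfn hi).mp h2)),
    h _ (fun h2 => hs ((insert_mk_mem_cfn' hi).mp h2))]
  ring

theorem wt_ee {L n i : ℕ} (hi : i + 1 < L) {v : Vec} (h : Wt L n v) : Wt L n (ee i v) := by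
  intro s hs
  have hs' : sg i s ∉ cfn L n := fun h1 => hs ((sg_mem_cfn hi).mp h1)
  rw [ee_eq, Ins_apply, Con_apply]
  by_cases h1 : i ∈ s
  · by_cases h2 : i + 1 ∈ s
    · simp only [cc, h1, h2, if_true, zero_mul]
    · rw [spinC_ins h1 h2, spinC_sg h1 h2, h _ hs, h _ hs']
      ring
  · by_cases h2 : i + 1 ∈ s
    · rw [spinC_ins' h1 h2, spinC_sg' h1 h2, h _ hs, h _ hs']
      ring
    · simp only [cc, h1, h2, if_false, zero_mul]

theorem wt_add {L n : ℕ} {v w : Vec} (h : Wt L n v) (h' : Wt L n w) : Wt L n (v + w) := by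
  intro s hs
  rw [Pi.add_apply, h s hs, h' s hs, add_zero]

theorem wt_smul {L n : ℕ} {v : Vec} (h : Wt L n v) (c : ℂ) : Wt L n (c • v) := by
  intro s hs
  rw [Pi.smul_apply, h s hs, smul_zero]

/-- sum of the positions of the up spins decreases when an up spin moves to the left -/
theorem sum_sg {i : ℕ} {s : Finset ℕ} (h : i ∉ s) (h' : i + 1 ∈ s) :
    (sg i s).sum id + 1 = s.sum id := by
  have e : sg i s = insert i (s.erase (i + 1)) := by
    ext k
    rw [mem_sg, Finset.mem_insert, Finset.mem_erase]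
    rcases eq_or_ne k i with h1 | h1
    · rw [h1, Equiv.swap_apply_left]
      simp [h']
    · rcases eq_or_ne k (i + 1) with h2 | h2
      · rw [h2, Equiv.swap_apply_right]
        simp [h]
      · rw [Equiv.swap_apply_of_ne_of_ne h1 h2]
        simp [h1, h2]
  have hn : i ∉ s.erase (i + 1) := fun h1 => h (Finset.mem_of_mem_erase h1)
  rw [e, Finset.sum_insert hn, ← Finset.add_sum_erase s id h']
  simp only [id]
  omega

/-- a configuration without ascent is `{0, ..., n-1}` -/
theorem eq_range_of_sorted {s : Finset ℕ} (h : ∀ i, i + 1 ∈ s → i ∈ s) : s = range s.card := by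
  have h1 : ∀ k, k ∈ s → ∀ j, j ≤ k → j ∈ s := by
    intro k
    induction k with
    | zero =>
      intro hk j hj
      have : j = 0 := by omega
      rw [this]
      exact hk
    | succ k ih =>
      intro hk j hj
      rcases Nat.lt_or_ge j (k + 1) with h2 | h2
      · exact ih (h k hk) j (by omega)
      · have : j = k + 1 := by omega
        rw [this]
        exact hk
  apply Finset.eq_of_subset_of_card_le
  · intro k hk
    rw [Finset.mem_range]
    have h2 : range (k + 1) ⊆ s := by
      intro j hj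
      rw [Finset.mem_range] at hj
      exact h1 k hk j (by omega)
    have h3 := Finset.card_le_card h2
    rw [Finset.card_range] at h3
    omega
  · rw [Finset.card_range]

end PX
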