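import Pool.Agent.Lib.MP_216314_pr.X.GenA
import Pool.Agent.Lib.MP_216314_pr.X.SpinB
import Pool.Agent.Lib.MP_216314_pr.X.SpinC

/-!
# Exchange relations
-/

set_option autoImplicit false

noncomputable section

namespace PX

open Finset

/-- exchange relations for the indices `lo ≤ i`, `i + 1 < hi` at the points of `S` -/
def Exch (S : Set (ℕ → ℂ)) (lo hi : ℕ) (h : (ℕ → ℂ) → Vec) : Prop :=
  ∀ i, lo ≤ i → i + 1 < hi → ∀ y, y ∈ S → ∀ s, (om * y i - y (i + 1)) * h (sw i y) s =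
    (om * y (i + 1) - y i) * h y s + om ^ 2 * (y (i + 1) - y i) * ee i (h y) s

theorem Exch.mono {S S' : Set (ℕ → ℂ)} {lo hi lo' hi' : ℕ} {h : (ℕ → ℂ) → Vec} (hE : Exch S lo hi h)
    (hS : S' ⊆ S) (h1 : lo ≤ lo') (h2 : hi' ≤ hi) : Exch S' lo' hi' h := by
  intro i h3 h4 y hy s
  exact hE i (by omega) (by omega) y (hS hy) s

theorem Exch.sub {S : Set (ℕ → ℂ)} {lo hi : ℕ} {h h' : (ℕ → ℂ) → Vec} (hE : Exch S lo hi h)
    (hE' : Exch S lo hi h') : Exch S lo hi (fun y => h y - h' y) := by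
  intro i h1 h2 y hy s
  have e1 := hE i h1 h2 y hy s
  have e2 := hE' i h1 h2 y hy s
  simp only [map_sub, Pi.sub_apply]
  linear_combination e1 - e2

/-- multiplication with a function invariant under the exchanges -/
theorem Exch.smul {S : Set (ℕ → ℂ)} {lo hi : ℕ} {h : (ℕ → ℂ) → Vec} (hE : Exch S lo hi h)
    (c : (ℕ → ℂ) → ℂ) (hc : ∀ i, lo ≤ i → i + 1 < hi → ∀ y, y ∈ S → c (sw i y) = c y) :
    Exch S lo hi (fun y => c y • h y) := by
  intro i h1 h2 y hy s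
  have e1 := hE i h1 h2 y hy s
  simp only [map_smul, Pi.smul_apply, smul_eq_mul, hc i h1 h2 y hy]
  linear_combination c y * e1

/-- composition with a map commuting with the exchanges and preserving the coordinates -/
theorem Exch.comp {S S' : Set (ℕ → ℂ)} {lo hi : ℕ} {h : (ℕ → ℂ) → Vec} (hE : Exch S lo hi h)
    (φ : (ℕ → ℂ) → (ℕ → ℂ)) (hφ : ∀ y, y ∈ S' → φ y ∈ S)
    (hφ1 : ∀ i, lo ≤ i → i + 1 < hi → ∀ y, y ∈ S' → φ (sw i y) = sw i (φ y))
    (hφ2 : ∀ i, lo ≤ i → i + 1 < hi → ∀ y, y ∈ S' → φ y i = y i ∧ φ y (i + 1) = y (i + 1)) :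
    Exch S' lo hi (fun y => h (φ y)) := by
  intro i h1 h2 y hy s
  have e1 := hE i h1 h2 (φ y) (hφ y hy) s
  obtain ⟨e2, e3⟩ := hφ2 i h1 h2 y hy
  rw [e2, e3, ← hφ1 i h1 h2 y hy] at e1
  exact e1

/-- determination of all components by the sorted ones -/
theorem det_zero (S : Set (ℕ → ℂ)) (L n lo hi : ℕ) (hL : hi ≤ L) (h : (ℕ → ℂ) → Vec)
    (hE : Exch S lo hi h)
    (hS1 : ∀ i, lo ≤ i → i + 1 < hi → ∀ y, y ∈ S → y i ≠ y (i + 1))
    (hS2 : ∀ i, lo ≤ i → i + 1 < hi → ∀ y, y ∈ S → sw i y ∈ S)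
    (h0 : ∀ y, y ∈ S → ∀ s, s ∈ cfn L n → (∀ i, lo ≤ i → i + 1 < hi → i + 1 ∈ s → i ∈ s) → h y s = 0) :
    ∀ y, y ∈ S → ∀ s, s ∈ cfn L n → h y s = 0 := by
  intro y hy s hs
  induction hn : s.sum id using Nat.strong_induction_on generalizing s y with
  | _ m ih =>
    by_cases hasc : ∀ i, lo ≤ i → i + 1 < hi → i + 1 ∈ s → i ∈ s
    · exact h0 y hy s hs hasc
    · push Not at hasc
      obtain ⟨i, h1, h2, h3, h4⟩ := hasc
      have hsum := sum_sg h4 h3
      have hb : sg i s ∈ cfn L n := (sg_mem_cfn (by omega)).2 hs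
      have b1 : i ∈ sg i s := by
        rw [mem_sg, Equiv.swap_apply_left]; exact h3
      have b2 : i + 1 ∉ sg i s := by
        rw [mem_sg, Equiv.swap_apply_right]; exact h4
      have z1 := ih _ (by omega) y hy (sg i s) hb rfl
      have z2 := ih _ (by omega) (sw i y) (hS2 i h1 h2 y hy) (sg i s) hb rfl
      have e := hE i h1 h2 y hy (sg i s)
      rw [ee_apply_left i (h y) (sg i s) b1 b2, z1, z2, sg_sg] at e
      have e' : om ^ 2 * (y (i + 1) - y i) * h y s = 0 := by linear_combination -e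
      rcases mul_eq_zero.1 e' with e'' | e''
      · exfalso
        rcases mul_eq_zero.1 e'' with e3 | e3
        · exact pow_ne_zero 2 om_ne_zero e3
        · exact hS1 i h1 h2 y hy (sub_eq_zero.1 e3).symm
      · exact e''

/-- propagation of a zero: if the vector vanishes at `y` and `ω y_i ≠ y_{i+1}` then it vanishes at the exchanged point -/
theorem Exch.zero {S : Set (ℕ → ℂ)} {lo hi : ℕ} {h : (ℕ → ℂ) → Vec} (hE : Exch S lo hi h)
    {i : ℕ} (h1 : lo ≤ i) (h2 : i + 1 < hi) {y : ℕ → ℂ} (hy : y ∈ S) (h0 : h y = 0)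
    (hne : om * y i ≠ y (i + 1)) : h (sw i y) = 0 := by
  funext s
  have e := hE i h1 h2 y hy s
  rw [h0] at e
  simp only [map_zero, Pi.zero_apply, mul_zero, add_zero] at e
  rcases mul_eq_zero.1 e with e' | e'
  · exact absurd (sub_eq_zero.1 e') hne
  · exact e'

end PX
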