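import Pool.Agent.Lib.MP_216314_pr.X.PolA

/-!
# Degrees
-/

set_option autoImplicit false

noncomputable section

namespace PX

open Finset MvPolynomial

theorem PolC_sp (i k : ℕ) (f : MP) :
    degreeOf k (sp i f) = degreeOf (Equiv.swap i (i + 1) k) f := by
  have h := degreeOf_rename_of_injective (p := f) (Equiv.swap i (i + 1)).injective
    (Equiv.swap i (i + 1) k)
  rw [Equiv.swap_apply_self] at h
  exact h

theorem PolC_X (k j : ℕ) : degreeOf k (X j : MP) = if k = j then 1 else 0 := by
  rw [degreeOf_X]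

theorem PolC_one_le (i k : ℕ) (hk : k = i ∨ k = i + 1) :
    1 ≤ degreeOf k (X i - X (i + 1) : MP) := by
  have h1 : (Finsupp.single k 1) ∈ (X i - X (i + 1) : MP).support := by
    rw [mem_support_iff, coeff_sub, coeff_X, coeff_X]
    rcases hk with rfl | rfl
    · rw [if_pos rfl, if_neg]
      · norm_num
      · intro h
        have := (Finsupp.single_left_inj (one_ne_zero)).1 h
        omega
    · rw [if_neg, if_pos rfl]
      · norm_num
      · intro h
        have := (Finsupp.single_left_inj (one_ne_zero)).1 h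
        omega
  have h2 := monomial_le_degreeOf k h1
  rwa [Finsupp.single_eq_same] at h2

theorem PolC_lin (i k : ℕ) (u v : ℂ) : degreeOf k (C u * X i - C v * X (i + 1) : MP) ≤
    if k = i ∨ k = i + 1 then 1 else 0 := by
  refine le_trans (degreeOf_sub_le _ _ _) ?_
  refine max_le ?_ ?_
  · refine le_trans (degreeOf_mul_le _ _ _) ?_
    rw [degreeOf_C, zero_add, PolC_X]
    split_ifs <;> omega
  · refine le_trans (degreeOf_mul_le _ _ _) ?_
    rw [degreeOf_C, zero_add, PolC_X]
    split_ifs <;> omega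

theorem PolC_rhs (i k D : ℕ) (f : MP) (h1 : degreeOf k f ≤ D)
    (h2 : degreeOf (Equiv.swap i (i + 1) k) f ≤ D) :
    degreeOf k (C (om ^ 2 - om) * X (i + 1) * f - C om * (C om * X i - X (i + 1)) * sp i f) ≤
      (if k = i ∨ k = i + 1 then 1 else 0) + D := by
  refine le_trans (degreeOf_sub_le _ _ _) (max_le ?_ ?_)
  · refine le_trans (degreeOf_mul_le _ _ _) ?_
    refine add_le_add (le_trans (degreeOf_mul_le _ _ _) ?_) h1
    rw [degreeOf_C, zero_add, PolC_X]
    split_ifs <;> omega
  · refine le_trans (degreeOf_mul_le _ _ _) ?_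
    rw [PolC_sp]
    refine add_le_add (le_trans (degreeOf_mul_le _ _ _) ?_) h2
    rw [degreeOf_C, zero_add]
    have h3 := PolC_lin i k om 1
    rwa [C_1, one_mul] at h3

theorem Tp_degree (i D : ℕ) (f : MP) (h : ∀ k, degreeOf k f ≤ D) (k : ℕ) :
    degreeOf k (Tp i f) ≤ D := by
  by_cases hT : Tp i f = 0
  · rw [hT, degreeOf_zero]; exact Nat.zero_le _
  have hX : (X i - X (i + 1) : MP) ≠ 0 := X_sub_ne i (i + 1) (by omega)
  have h1 := degreeOf_mul_eq (n := k) hX hT
  have h2 := PolC_rhs i k D f (h k) (h _)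
  rw [← Tp_spec, h1] at h2
  by_cases hk : k = i ∨ k = i + 1
  · have h3 := PolC_one_le i k hk
    rw [if_pos hk] at h2
    omega
  · rw [if_neg hk] at h2
    omega

theorem Tp_degree_zero (i L : ℕ) (hi : i + 1 < L) (f : MP) (h : ∀ k, L ≤ k → degreeOf k f = 0) (k : ℕ)
    (hk : L ≤ k) : degreeOf k (Tp i f) = 0 := by
  by_cases hT : Tp i f = 0
  · rw [hT, degreeOf_zero]
  have hX : (X i - X (i + 1) : MP) ≠ 0 := X_sub_ne i (i + 1) (by omega)
  have h1 := degreeOf_mul_eq (n := k) hX hT
  have hs : Equiv.swap i (i + 1) k = k := Equiv.swap_apply_of_ne_of_ne (by omega) (by omega)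
  have h2 := PolC_rhs i k 0 f (h k hk).le (by rw [hs]; exact (h k hk).le)
  rw [← Tp_spec, h1, if_neg (by omega)] at h2
  omega

/-- a polynomial without the variables of index at least `L` depends only on the first `L` coordinates -/
theorem eval_congr_of_degree {L : ℕ} {f : MP} (h : ∀ k, L ≤ k → degreeOf k f = 0) {y y' : ℕ → ℂ}
    (hy : ∀ k, k < L → y k = y' k) : eval y f = eval y' f := by
  rw [eval_eq, eval_eq]
  refine Finset.sum_congr rfl fun m hm => ?_
  refine congrArg₂ (· * ·) rfl (Finset.prod_congr rfl fun k hk => ?_)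
  have h1 := monomial_le_degreeOf k hm
  have h2 : m k ≠ 0 := Finsupp.mem_support_iff.1 hk
  have h3 : k < L := by
    by_contra hcon
    rw [h k (not_lt.1 hcon)] at h1
    omega
  rw [hy k h3]

theorem PolC_prod (i : ℕ) (y : ℕ → ℂ) (m : ℕ →₀ ℕ) (t : ℂ) :
    ∏ k ∈ m.support, (Function.update y i t k) ^ m k
      = (∏ k ∈ m.support.erase i, y k ^ m k) * t ^ m i := by
  have h1 : ∏ k ∈ m.support.erase i, (Function.update y i t k) ^ m k
      = ∏ k ∈ m.support.erase i, y k ^ m k := by
    refine Finset.prod_congr rfl fun k hk => ?_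
    rw [Function.update_of_ne (Finset.ne_of_mem_erase hk)]
  by_cases hi : i ∈ m.support
  · rw [← Finset.mul_prod_erase _ _ hi, h1, Function.update_self, mul_comm]
  · rw [← h1, Finset.erase_eq_of_notMem hi, Finsupp.notMem_support_iff.1 hi, pow_zero, mul_one]

/-- as a function of one variable: a polynomial of bounded degree -/
theorem exists_poly_of_degree {D : ℕ} (i : ℕ) (f : MP) (h : degreeOf i f ≤ D) (y : ℕ → ℂ) :
    ∃ p : Polynomial ℂ, p.natDegree ≤ D ∧ ∀ t : ℂ, eval (Function.update y i t) f = p.eval t := by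
  refine ⟨∑ m ∈ f.support, Polynomial.C (coeff m f * ∏ k ∈ m.support.erase i, y k ^ m k) *
    Polynomial.X ^ m i, ?_, ?_⟩
  · refine Polynomial.natDegree_sum_le_of_forall_le _ _ fun m hm => ?_
    refine le_trans (Polynomial.natDegree_C_mul_X_pow_le _ _) ?_
    exact le_trans (monomial_le_degreeOf i hm) h
  · intro t
    rw [eval_eq, Polynomial.eval_finsetSum]
    refine Finset.sum_congr rfl fun m _ => ?_
    rw [PolC_prod]
    simp only [Polynomial.eval_mul, Polynomial.eval_C, Polynomial.eval_pow, Polynomial.eval_X]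
    ring

/-- as a function of the inverse of one variable -/
theorem exists_poly_inv_of_degree {D : ℕ} (i : ℕ) (f : MP) (h : degreeOf i f ≤ D) (y : ℕ → ℂ) :
    ∃ p : Polynomial ℂ, p.natDegree ≤ D ∧ ∀ t : ℂ, t ≠ 0 →
      t ^ D * eval (Function.update y i t⁻¹) f = p.eval t := by
  refine ⟨∑ m ∈ f.support, Polynomial.C (coeff m f * ∏ k ∈ m.support.erase i, y k ^ m k) *
    Polynomial.X ^ (D - m i), ?_, ?_⟩
  · refine Polynomial.natDegree_sum_le_of_forall_le _ _ fun m hm => ?_
    exact le_trans (Polynomial.natDegree_C_mul_X_pow_le _ _) (Nat.sub_le _ _)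
  · intro t ht
    rw [eval_eq, Polynomial.eval_finsetSum, Finset.mul_sum]
    refine Finset.sum_congr rfl fun m hm => ?_
    rw [PolC_prod]
    simp only [Polynomial.eval_mul, Polynomial.eval_C, Polynomial.eval_pow, Polynomial.eval_X]
    have h1 : m i ≤ D := le_trans (monomial_le_degreeOf i hm) h
    have h2 : t ^ D * t⁻¹ ^ m i = t ^ (D - m i) := by
      rw [inv_pow, pow_sub₀ t ht h1]
    rw [← h2]
    ring

end PX
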