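import Pool.Agent.Lib.MP_216314_pr.X.GPolA
import Pool.Agent.Lib.MP_216314_pr.X.PolC

/-!
# Degrees of the polynomial solution
-/

set_option autoImplicit false

noncomputable section

namespace PX

open Finset MvPolynomial

theorem gpolC_sum (n m k : ℕ) (h : n ≤ m) :
    ∑ j ∈ Ico n m, ∑ i ∈ Ico n j, ((if k = i then 1 else 0) + (if k = j then 1 else 0)) =
      if n ≤ k ∧ k < m then m - n - 1 else 0 := by
  induction m, h using Nat.le_induction with
  | base => simp
  | succ m hm ih =>
    rw [Finset.sum_Ico_succ_top hm, ih, Finset.sum_add_distrib, Finset.sum_const, Nat.card_Ico,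
      smul_eq_mul]
    have e : ∑ i ∈ Ico n m, (if k = i then 1 else 0) = if n ≤ k ∧ k < m then 1 else 0 := by
      rw [Finset.sum_ite_eq]
      simp only [mem_Ico]
    rw [e]
    split_ifs <;> omega

theorem gpolC_X (i k : ℕ) : degreeOf k (X i : MP) = if k = i then 1 else 0 := by
  classical
  rw [degreeOf_X]

theorem gpolC_sub (k : ℕ) (f g : MP) : degreeOf k (f - g) ≤ max (degreeOf k f) (degreeOf k g) := by
  rw [sub_eq_add_neg]
  have h : degreeOf k (-g) = degreeOf k g := by
    rw [degreeOf_def, degreeOf_def, degrees_neg]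
  rw [← h]
  exact degreeOf_add_le k f (-g)

theorem gpolC_lin (i j k : ℕ) : degreeOf k (C om * X i - X j : MP) ≤
    (if k = i then 1 else 0) + (if k = j then 1 else 0) := by
  refine (gpolC_sub k _ _).trans ?_
  have h1 := degreeOf_C_mul_le (X i : MP) k om
  rw [gpolC_X] at h1
  rw [gpolC_X]
  omega

theorem gpolC_PA (i j k : ℕ) : degreeOf k (PA i j) ≤
    2 * ((if k = i then 1 else 0) + (if k = j then 1 else 0)) := by
  unfold PA
  refine (degreeOf_mul_le k _ _).trans ?_
  have h1 : degreeOf k (C (om ^ 2) * (C om * X i - X j) : MP) ≤ (if k = i then 1 else 0) + (if k = j then 1 else 0) :=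
    (degreeOf_C_mul_le _ k _).trans (gpolC_lin i j k)
  have h2 : degreeOf k (C om - X i * X j : MP) ≤ (if k = i then 1 else 0) + (if k = j then 1 else 0) := by
    refine (gpolC_sub k _ _).trans ?_
    rw [degreeOf_C]
    have h3 := degreeOf_mul_le k (X i : MP) (X j)
    rw [gpolC_X, gpolC_X] at h3
    omega
  omega

theorem gpolC_PB (i j k : ℕ) : degreeOf k (PB i j) ≤
    2 * ((if k = i then 1 else 0) + (if k = j then 1 else 0)) := by
  unfold PB
  refine (degreeOf_mul_le k _ _).trans ?_
  have h1 := gpolC_lin i j k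
  have h2 : degreeOf k (X i * X j - C (om ^ 2) : MP) ≤ (if k = i then 1 else 0) + (if k = j then 1 else 0) := by
    refine (gpolC_sub k _ _).trans ?_
    rw [degreeOf_C]
    have h3 := degreeOf_mul_le k (X i : MP) (X j)
    rw [gpolC_X, gpolC_X] at h3
    omega
  omega

theorem gpolC_G0 (L k : ℕ) : degreeOf k (G0 L) ≤
    (if k < L / 2 then L % 2 else 0) + 2 * (if k < L / 2 then L / 2 - 1 else 0) +
      2 * (if L / 2 ≤ k ∧ k < L then L - L / 2 - 1 else 0) := by
  unfold G0
  have a1 : degreeOf k ((∏ i ∈ range (L / 2), X i) ^ (L % 2) : MP) ≤ (if k < L / 2 then L % 2 else 0) := by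
    refine (degreeOf_pow_le k _ _).trans ?_
    have h := degreeOf_prod_le k (range (L / 2)) (fun i => (X i : MP))
    simp only [gpolC_X, Finset.sum_ite_eq, mem_range] at h
    have h2 := Nat.mul_le_mul_left (L % 2) h
    refine h2.trans ?_
    split_ifs <;> simp
  have a2 : degreeOf k (∏ j ∈ range (L / 2), ∏ i ∈ range j, PA i j : MP) ≤ 2 * (if k < L / 2 then L / 2 - 1 else 0) := by
    refine (degreeOf_prod_le k _ _).trans ?_
    have h := gpolC_sum 0 (L / 2) k (Nat.zero_le _)
    simp only [Nat.Ico_zero_eq_range, Nat.zero_le, true_and, Nat.sub_zero] at h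
    rw [← h, Finset.mul_sum]
    refine Finset.sum_le_sum (fun j _ => ?_)
    rw [Finset.mul_sum]
    exact (degreeOf_prod_le k _ _).trans (Finset.sum_le_sum (fun i _ => gpolC_PA i j k))
  have a3 : degreeOf k (∏ j ∈ Ico (L / 2) L, ∏ i ∈ Ico (L / 2) j, PB i j : MP) ≤
      2 * (if L / 2 ≤ k ∧ k < L then L - L / 2 - 1 else 0) := by
    refine (degreeOf_prod_le k _ _).trans ?_
    rw [← gpolC_sum (L / 2) L k (Nat.div_le_self L 2), Finset.mul_sum]
    refine Finset.sum_le_sum (fun j _ => ?_)
    rw [Finset.mul_sum]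
    exact (degreeOf_prod_le k _ _).trans (Finset.sum_le_sum (fun i _ => gpolC_PB i j k))
  refine (degreeOf_mul_le k _ _).trans ?_
  have a4 := degreeOf_mul_le k ((∏ i ∈ range (L / 2), X i) ^ (L % 2) : MP) (∏ j ∈ range (L / 2), ∏ i ∈ range j, PA i j)
  omega

theorem G0_degree (L k : ℕ) : degreeOf k (G0 L) ≤ 2 * ((L - 1) / 2) := by
  have h := gpolC_G0 L k
  split_ifs at h <;> omega

theorem G0_degree_zero (L k : ℕ) (hk : L ≤ k) : degreeOf k (G0 L) = 0 := by
  have h := gpolC_G0 L k
  split_ifs at h <;> omega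

theorem gpolC_find (L : ℕ) (a : Finset ℕ) : GP L a = G0 L ∨
    ∃ i0, (i0 ∉ a ∧ i0 + 1 ∈ a) ∧ GP L a = Tp i0 (GP L (sg i0 a)) := by
  classical
  by_cases h : ∃ i, i ∉ a ∧ i + 1 ∈ a
  · right
    refine ⟨Nat.find h, Nat.find_spec h, ?_⟩
    conv_lhs => rw [GP]
    rw [dif_pos h]
  · left
    rw [GP, dif_neg h]

theorem GP_degree (L k : ℕ) (a : Finset ℕ) : degreeOf k (GP L a) ≤ 2 * ((L - 1) / 2) := by
  induction hn : a.sum id using Nat.strong_induction_on generalizing a k with
  | _ n ih =>
    rcases gpolC_find L a with h | ⟨i, ⟨h1, h2⟩, h3⟩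
    · rw [h]
      exact G0_degree L k
    · have hs := sum_sg h1 h2
      rw [h3]
      exact Tp_degree i _ _ (fun k' => ih _ (by omega) k' _ rfl) k

theorem GP_degree_zero (L k : ℕ) (a : Finset ℕ) (ha : a ⊆ range L) (hk : L ≤ k) :
    degreeOf k (GP L a) = 0 := by
  induction hn : a.sum id using Nat.strong_induction_on generalizing a k with
  | _ n ih =>
    rcases gpolC_find L a with h | ⟨i, ⟨h1, h2⟩, h3⟩
    · rw [h]
      exact G0_degree_zero L k hk
    · have hs := sum_sg h1 h2
      have hi : i + 1 < L := mem_range.1 (ha h2)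
      have hsub : sg i a ⊆ range L := by
        intro j hj
        rw [mem_sg] at hj
        have := mem_range.1 (ha hj)
        rw [mem_range]
        rw [Equiv.swap_apply_def] at this
        split_ifs at this <;> omega
      rw [h3]
      exact Tp_degree_zero i L hi _ (fun k' hk' => ih _ (by omega) k' _ hsub hk' rfl) k hk

end PX
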