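import Pool.Agent.Lib.MP_216314_pr.X.Def

/-!
# Laurent polynomials: closure properties
-/

set_option autoImplicit false

noncomputable section

namespace PX

open Finset

theorem Lau.of_eval (L : ℕ) (P : MvPolynomial ℕ ℂ) : Lau L (fun y => MvPolynomial.eval y P) := by
  refine ⟨P, 0, fun y _ => ?_⟩
  rw [pow_zero, one_mul]

theorem Lau.const (L : ℕ) (c : ℂ) : Lau L (fun _ => c) := by
  refine ⟨MvPolynomial.C c, 0, fun y _ => ?_⟩
  rw [pow_zero, one_mul, MvPolynomial.eval_C]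

theorem Lau.coord (L k : ℕ) : Lau L (fun y => y k) := by
  refine ⟨MvPolynomial.X k, 0, fun y _ => ?_⟩
  rw [pow_zero, one_mul, MvPolynomial.eval_X]

theorem Lau.coord_inv {L k : ℕ} (hk : k < L) : Lau L (fun y => (y k)⁻¹) := by
  refine ⟨∏ j ∈ (range L).erase k, MvPolynomial.X j, 1, fun y hy => ?_⟩
  rw [pow_one, map_prod, ← Finset.mul_prod_erase (range L) y (Finset.mem_range.mpr hk)]
  simp only [MvPolynomial.eval_X]
  have h1 : y k ≠ 0 := hy k hk
  field_simp

theorem Lau.add {L : ℕ} {f g : (ℕ → ℂ) → ℂ} (hf : Lau L f) (hg : Lau L g) :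
    Lau L (fun y => f y + g y) := by
  obtain ⟨P, N, hP⟩ := hf
  obtain ⟨Q, M, hQ⟩ := hg
  refine ⟨P * (∏ k ∈ range L, MvPolynomial.X k) ^ M + Q * (∏ k ∈ range L, MvPolynomial.X k) ^ N,
    N + M, fun y hy => ?_⟩
  have h1 := hP y hy
  have h2 := hQ y hy
  simp only [map_add, map_mul, map_pow, map_prod, MvPolynomial.eval_X]
  rw [← h1, ← h2, pow_add]
  ring

theorem Lau.mul {L : ℕ} {f g : (ℕ → ℂ) → ℂ} (hf : Lau L f) (hg : Lau L g) :
    Lau L (fun y => f y * g y) := by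
  obtain ⟨P, N, hP⟩ := hf
  obtain ⟨Q, M, hQ⟩ := hg
  refine ⟨P * Q, N + M, fun y hy => ?_⟩
  rw [map_mul, ← hP y hy, ← hQ y hy, pow_add]
  ring

theorem Lau.neg {L : ℕ} {f : (ℕ → ℂ) → ℂ} (hf : Lau L f) : Lau L (fun y => -f y) := by
  obtain ⟨P, N, hP⟩ := hf
  refine ⟨-P, N, fun y hy => ?_⟩
  rw [map_neg, ← hP y hy]
  ring

theorem Lau.sub {L : ℕ} {f g : (ℕ → ℂ) → ℂ} (hf : Lau L f) (hg : Lau L g) :
    Lau L (fun y => f y - g y) := by
  have h := hf.add hg.neg
  simp only [← sub_eq_add_neg] at h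
  exact h

theorem Lau.pow {L : ℕ} {f : (ℕ → ℂ) → ℂ} (hf : Lau L f) (n : ℕ) : Lau L (fun y => f y ^ n) := by
  induction n with
  | zero =>
    simp only [pow_zero]
    exact Lau.const L 1
  | succ n ih =>
    simp only [pow_succ]
    exact ih.mul hf

theorem Lau.sum {L : ℕ} {ι : Type*} (s : Finset ι) {f : ι → (ℕ → ℂ) → ℂ}
    (hf : ∀ i ∈ s, Lau L (f i)) : Lau L (fun y => ∑ i ∈ s, f i y) := by
  classical
  induction s using Finset.induction_on with
  | empty =>
    simp only [Finset.sum_empty]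
    exact Lau.const L 0
  | insert t s ht ih =>
    simp only [Finset.sum_insert ht]
    exact (hf t (Finset.mem_insert_self _ _)).add
      (ih fun i hi => hf i (Finset.mem_insert_of_mem hi))

theorem Lau.prod {L : ℕ} {ι : Type*} (s : Finset ι) {f : ι → (ℕ → ℂ) → ℂ}
    (hf : ∀ i ∈ s, Lau L (f i)) : Lau L (fun y => ∏ i ∈ s, f i y) := by
  classical
  induction s using Finset.induction_on with
  | empty =>
    simp only [Finset.prod_empty]
    exact Lau.const L 1
  | insert t s ht ih =>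
    simp only [Finset.prod_insert ht]
    exact (hf t (Finset.mem_insert_self _ _)).mul
      (ih fun i hi => hf i (Finset.mem_insert_of_mem hi))

theorem lau_XX {L k : ℕ} (hk : k < L) : Lau L (fun y => XX (y k)) := by
  unfold XX
  exact (Lau.coord L k).add (Lau.coord_inv hk)

theorem Lau.congr {L : ℕ} {f g : (ℕ → ℂ) → ℂ} (hf : Lau L f) (h : ∀ y, NZ L y → f y = g y) :
    Lau L g := by
  obtain ⟨P, N, hP⟩ := hf
  refine ⟨P, N, fun y hy => ?_⟩
  rw [← h y hy]
  exact hP y hy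

theorem Lau.mono {L M : ℕ} (hLM : L ≤ M) {f : (ℕ → ℂ) → ℂ} (hf : Lau L f) : Lau M f := by
  obtain ⟨P, N, hP⟩ := hf
  refine ⟨P * (∏ k ∈ Ico L M, MvPolynomial.X k) ^ N, N, fun y hy => ?_⟩
  have h1 : NZ L y := fun k hk => hy k (lt_of_lt_of_le hk hLM)
  rw [map_mul, ← hP y h1, map_pow, map_prod, ← Finset.prod_range_mul_prod_Ico _ hLM, mul_pow]
  simp only [MvPolynomial.eval_X]
  ring

end PX
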