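import Pool.Agent.Lib.MP_216314_pr.X.GenA
import Pool.Agent.Lib.MP_216314_pr.X.GenB

/-!
# Laurent polynomials: substitution and genericity
-/

set_option autoImplicit false

noncomputable section

namespace PX

open Finset

private theorem genC_aux {M : ℕ} (φ : ℕ → (ℕ → ℂ) → ℂ) (h1 : ∀ k, Lau M (φ k))
    (P : MvPolynomial ℕ ℂ) : Lau M (fun y => MvPolynomial.eval (fun k => φ k y) P) := by
  induction P using MvPolynomial.induction_on with
  | C a =>
    simp only [MvPolynomial.eval_C]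
    exact Lau.const M a
  | add p q hp hq =>
    simp only [map_add]
    exact Lau.add hp hq
  | mul_X p n hp =>
    simp only [map_mul, MvPolynomial.eval_X]
    exact Lau.mul hp (h1 n)

/-- substitution of invertible Laurent polynomials -/
theorem Lau.comp {L M : ℕ} {f : (ℕ → ℂ) → ℂ} (hf : Lau L f) (φ : ℕ → (ℕ → ℂ) → ℂ)
    (h1 : ∀ k, Lau M (φ k)) (h2 : ∀ k, k < L → Lau M (fun y => (φ k y)⁻¹))
    (h3 : ∀ k, k < L → ∀ y, NZ M y → φ k y ≠ 0) : Lau M (fun y => f (fun k => φ k y)) := by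
  obtain ⟨P, N, hP⟩ := hf
  have hA : Lau M (fun y => MvPolynomial.eval (fun k => φ k y) P) := genC_aux φ h1 P
  have hB : Lau M (fun y => (∏ k ∈ range L, (φ k y)⁻¹) ^ N) :=
    Lau.pow (Lau.prod (range L) fun k hk => h2 k (Finset.mem_range.mp hk)) N
  refine Lau.congr (hB.mul hA) fun y hy => ?_
  have hz : NZ L (fun k => φ k y) := fun k hk => h3 k hk y hy
  have h4 : (∏ k ∈ range L, φ k y) ^ N * f (fun k => φ k y) =
      MvPolynomial.eval (fun k => φ k y) P := hP _ hz
  show (∏ k ∈ range L, (φ k y)⁻¹) ^ N * MvPolynomial.eval (fun k => φ k y) P =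
    f (fun k => φ k y)
  rw [← h4, ← mul_assoc, ← mul_pow, ← Finset.prod_mul_distrib]
  have h5 : ∏ k ∈ range L, (φ k y)⁻¹ * φ k y = 1 :=
    Finset.prod_eq_one fun k hk => inv_mul_cancel₀ (hz k (Finset.mem_range.mp hk))
  rw [h5, one_pow, one_mul]

/-- a Laurent polynomial vanishing at the generic points vanishes -/
theorem Lau.ext {L : ℕ} {f : (ℕ → ℂ) → ℂ} (hf : Lau L f) (Q : MvPolynomial ℕ ℂ) (hQ : Q ≠ 0)
    (h : ∀ y, NZ L y → MvPolynomial.eval y Q ≠ 0 → f y = 0) : ∀ y, NZ L y → f y = 0 := by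
  obtain ⟨P, N, hP⟩ := hf
  have h0 : P * Q * ∏ k ∈ range L, MvPolynomial.X k = 0 := by
    apply MvPolynomial.funext
    intro y
    rw [map_mul, map_mul, map_prod, map_zero]
    simp only [MvPolynomial.eval_X]
    by_cases hy : NZ L y
    · by_cases hq : MvPolynomial.eval y Q = 0
      · rw [hq, mul_zero, zero_mul]
      · rw [← hP y hy, h y hy hq, mul_zero, zero_mul, zero_mul]
    · unfold NZ at hy
      push Not at hy
      obtain ⟨k, hk, hk0⟩ := hy
      rw [Finset.prod_eq_zero (Finset.mem_range.mpr hk) hk0, mul_zero]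
  have hX : (∏ k ∈ range L, MvPolynomial.X k : MvPolynomial ℕ ℂ) ≠ 0 :=
    Finset.prod_ne_zero_iff.mpr fun k _ => MvPolynomial.X_ne_zero k
  have hP0 : P = 0 := by
    rcases mul_eq_zero.mp h0 with h1 | h1
    · rcases mul_eq_zero.mp h1 with h2 | h2
      · exact h2
      · exact absurd h2 hQ
    · exact absurd h1 hX
  intro y hy
  have h3 := hP y hy
  rw [hP0, map_zero] at h3
  have h4 : (∏ k ∈ range L, y k) ^ N ≠ 0 :=
    pow_ne_zero _ (Finset.prod_ne_zero_iff.mpr fun k hk => hy k (Finset.mem_range.mp hk))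
  exact (mul_eq_zero.mp h3).resolve_left h4

/-- the polynomial whose nonvanishing means generic -/
theorem exists_genPoly (L : ℕ) : ∃ Q : MvPolynomial ℕ ℂ, Q ≠ 0 ∧
    ∀ y, MvPolynomial.eval y Q ≠ 0 → Gen L y := by
  refine ⟨∏ i ∈ range L, (MvPolynomial.X i * (MvPolynomial.X i ^ 6 - 1) *
    ∏ j ∈ (range L).erase i, ((MvPolynomial.X i ^ 3 - MvPolynomial.X j ^ 3) *
      (MvPolynomial.X i ^ 3 * MvPolynomial.X j ^ 3 - 1))), ?_, ?_⟩
  · refine Finset.prod_ne_zero_iff.mpr fun i _ => ?_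
    refine mul_ne_zero (mul_ne_zero (MvPolynomial.X_ne_zero i) ?_)
      (Finset.prod_ne_zero_iff.mpr fun j hj => mul_ne_zero ?_ ?_)
    · intro h
      have := congrArg (MvPolynomial.eval (fun _ => (0 : ℂ))) h
      simp at this
    · intro h
      have hne := (Finset.mem_erase.mp hj).1
      have := congrArg (MvPolynomial.eval (fun k => if k = i then (1 : ℂ) else 0)) h
      simp [hne] at this
    · intro h
      have := congrArg (MvPolynomial.eval (fun _ => (0 : ℂ))) h
      simp at this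
  · intro y hy
    rw [map_prod, Finset.prod_ne_zero_iff] at hy
    simp only [map_mul, map_prod, map_sub, map_pow, map_one, MvPolynomial.eval_X,
      mul_ne_zero_iff, Finset.prod_ne_zero_iff, Finset.mem_range, Finset.mem_erase] at hy
    refine ⟨fun k hk => (hy k hk).1.1, fun k hk => ?_, fun i j hi hj hij => ⟨?_, ?_⟩⟩
    · exact sub_ne_zero.mp (hy k hk).1.2
    · exact sub_ne_zero.mp ((hy i hi).2 j ⟨fun h => hij h.symm, hj⟩).1
    · exact sub_ne_zero.mp ((hy i hi).2 j ⟨fun h => hij h.symm, hj⟩).2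

theorem Lau.ext_gen {L : ℕ} {f : (ℕ → ℂ) → ℂ} (hf : Lau L f)
    (h : ∀ y, Gen L y → f y = 0) : ∀ y, NZ L y → f y = 0 := by
  obtain ⟨Q, hQ, hg⟩ := exists_genPoly L
  exact Lau.ext hf Q hQ (fun y _ hy => h y (hg y hy))

end PX
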