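import Pool.Agent.Lib.MP_216314_pr.X.GPolC
import Pool.Agent.Lib.MP_216314_pr.X.GenC

/-!
# The normalised solution `gv L y`
-/

set_option autoImplicit false

noncomputable section

namespace PX

open Finset MvPolynomial

/-- the normalised vector -/
def gv (L : ℕ) (y : ℕ → ℂ) : Vec := fun s =>
  if s ∈ cfn L (L / 2) then eval y (GP L s) / (∏ k ∈ range L, y k) ^ ((L - 1) / 2) else 0

theorem gv_wt (L : ℕ) (y : ℕ → ℂ) : Wt L (L / 2) (gv L y) := by
  intro s hs
  exact if_neg hs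

theorem gv_congr {L : ℕ} {y y' : ℕ → ℂ} (h : ∀ k, k < L → y k = y' k) : gv L y = gv L y' := by
  funext s
  unfold gv
  by_cases hs : s ∈ cfn L (L / 2)
  · rw [if_pos hs, if_pos hs]
    have h1 : eval y (GP L s) = eval y' (GP L s) :=
      eval_congr_of_degree (fun k hk => GP_degree_zero L k s (mem_cfn.1 hs).1 hk) h
    have h2 : ∏ k ∈ range L, y k = ∏ k ∈ range L, y' k :=
      prod_congr rfl fun k hk => h k (mem_range.1 hk)
    rw [h1, h2]
  · rw [if_neg hs, if_neg hs]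

private theorem GVec_prod_ne {L : ℕ} {y : ℕ → ℂ} (h : NZ L y) : ∏ k ∈ range L, y k ≠ 0 :=
  prod_ne_zero_iff.2 fun k hk => h k (mem_range.1 hk)

theorem gv_lau (L : ℕ) (s : Finset ℕ) : Lau L (fun y => gv L y s) := by
  unfold gv
  by_cases hs : s ∈ cfn L (L / 2)
  · refine ⟨GP L s, (L - 1) / 2, fun y hy => ?_⟩
    beta_reduce
    rw [if_pos hs]
    exact mul_div_cancel₀ _ (pow_ne_zero _ (GVec_prod_ne hy))
  · refine ⟨0, 0, fun y _ => ?_⟩
    beta_reduce
    rw [if_neg hs, mul_zero, map_zero]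

private theorem GVec_upd {L i : ℕ} (hi : i < L) (y : ℕ → ℂ) (t : ℂ) :
    ∏ k ∈ range L, Function.update y i t k = t * ∏ k ∈ range L \ {i}, y k :=
  prod_update_of_mem (mem_range.2 hi) y t

private theorem GVec_ne {L i : ℕ} {y : ℕ → ℂ} (h : NZ L y) : ∏ k ∈ range L \ {i}, y k ≠ 0 :=
  prod_ne_zero_iff.2 fun k hk => h k (mem_range.1 (mem_sdiff.1 hk).1)

/-- in one variable, `t^d gv` is a polynomial of degree at most `2d` -/
theorem gv_deg (L i : ℕ) (hi : i < L) (s : Finset ℕ) :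
    Deg1 L i ((L - 1) / 2) (2 * ((L - 1) / 2)) (fun y => gv L y s) := by
  intro y hy
  by_cases hs : s ∈ cfn L (L / 2)
  · obtain ⟨q, hq, hqe⟩ := exists_poly_of_degree i (GP L s) (GP_degree L i s) y
    refine ⟨Polynomial.C ((∏ k ∈ range L \ {i}, y k) ^ ((L - 1) / 2))⁻¹ * q,
      (Polynomial.natDegree_C_mul_le _ _).trans hq, fun t ht => ?_⟩
    show t ^ ((L - 1) / 2) * gv L (Function.update y i t) s = _
    unfold gv
    rw [if_pos hs, GVec_upd hi, hqe t, Polynomial.eval_mul, Polynomial.eval_C, mul_pow]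
    have h1 := pow_ne_zero ((L - 1) / 2) (GVec_ne (i := i) hy)
    have h2 := pow_ne_zero ((L - 1) / 2) ht
    field_simp
  · refine ⟨0, by simp, fun t _ => ?_⟩
    show t ^ ((L - 1) / 2) * gv L (Function.update y i t) s = _
    unfold gv
    rw [if_neg hs, mul_zero, Polynomial.eval_zero]

/-- the same in the inverse variable -/
theorem gv_deg_inv (L i : ℕ) (hi : i < L) (s : Finset ℕ) (y : ℕ → ℂ) (hy : NZ L y) :
    ∃ p : Polynomial ℂ, p.natDegree ≤ 2 * ((L - 1) / 2) ∧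
      ∀ t : ℂ, t ≠ 0 → t ^ ((L - 1) / 2) * gv L (Function.update y i t⁻¹) s = p.eval t := by
  by_cases hs : s ∈ cfn L (L / 2)
  · obtain ⟨q, hq, hqe⟩ := exists_poly_inv_of_degree i (GP L s) (GP_degree L i s) y
    refine ⟨Polynomial.C ((∏ k ∈ range L \ {i}, y k) ^ ((L - 1) / 2))⁻¹ * q,
      (Polynomial.natDegree_C_mul_le _ _).trans hq, fun t ht => ?_⟩
    unfold gv
    rw [if_pos hs, GVec_upd hi, Polynomial.eval_mul, Polynomial.eval_C, ← hqe t ht, mul_pow,
      inv_pow, two_mul, pow_add]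
    have h1 := pow_ne_zero ((L - 1) / 2) (GVec_ne (i := i) hy)
    have h2 := pow_ne_zero ((L - 1) / 2) ht
    field_simp
  · refine ⟨0, by simp, fun t _ => ?_⟩
    unfold gv
    rw [if_neg hs, mul_zero, Polynomial.eval_zero]

end PX
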