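import Pool.Agent.Lib.MP_216314_pr.X.SpinB
import Pool.Agent.Lib.MP_216314_pr.X.SpinC

/-!
# Bilinear forms on spin vectors
-/

set_option autoImplicit false

noncomputable section

namespace PX

open Finset

/-- bilinear form with weight `c` on the configurations of length `L` with `n` up spins -/
def BF (L n : ℕ) (c : Finset ℕ → ℂ) (v w : Vec) : ℂ := ∑ a ∈ cfn L n, c a * v a * w a

theorem BF_smul_left (L n : ℕ) (c : Finset ℕ → ℂ) (x : ℂ) (v w : Vec) :
    BF L n c (x • v) w = x * BF L n c v w := by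
  unfold BF
  rw [Finset.mul_sum]
  refine Finset.sum_congr rfl fun a _ => ?_
  rw [Pi.smul_apply, smul_eq_mul]
  ring

theorem BF_smul_right (L n : ℕ) (c : Finset ℕ → ℂ) (x : ℂ) (v w : Vec) :
    BF L n c v (x • w) = x * BF L n c v w := by
  unfold BF
  rw [Finset.mul_sum]
  refine Finset.sum_congr rfl fun a _ => ?_
  rw [Pi.smul_apply, smul_eq_mul]
  ring

theorem BF_add_left (L n : ℕ) (c : Finset ℕ → ℂ) (v v' w : Vec) :
    BF L n c (v + v') w = BF L n c v w + BF L n c v' w := by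
  unfold BF
  rw [← Finset.sum_add_distrib]
  refine Finset.sum_congr rfl fun a _ => ?_
  rw [Pi.add_apply]
  ring

theorem BF_add_right (L n : ℕ) (c : Finset ℕ → ℂ) (v w w' : Vec) :
    BF L n c v (w + w') = BF L n c v w + BF L n c v w' := by
  unfold BF
  rw [← Finset.sum_add_distrib]
  refine Finset.sum_congr rfl fun a _ => ?_
  rw [Pi.add_apply]
  ring

/-- explicit form of the generator -/
theorem PairA_ee (i : ℕ) (v : Vec) (s : Finset ℕ) :
    ee i v s = (if (i ∈ s ↔ i + 1 ∈ s) then 0 else if i ∈ s then -om else -om ^ 2) * v s +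
      (if (i ∈ s ↔ i + 1 ∈ s) then 0 else 1) * v (sg i s) := by
  by_cases h : i ∈ s ↔ i + 1 ∈ s
  · rw [if_pos h, if_pos h, ee_apply_eq i v s h]
    ring
  · rw [if_neg h, if_neg h]
    by_cases h1 : i ∈ s
    · have h2 : i + 1 ∉ s := fun h2 => h ⟨fun _ => h2, fun _ => h1⟩
      rw [if_pos h1, ee_apply_left i v s h1 h2]
      ring
    · have h2 : i + 1 ∈ s := by
        by_contra h2
        exact h ⟨fun h3 => absurd h3 h1, fun h3 => absurd h3 h2⟩
      rw [if_neg h1, ee_apply_right i v s h1 h2]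
      ring

theorem PairA_sg (i : ℕ) (s : Finset ℕ) : (i ∈ sg i s ↔ i + 1 ∈ sg i s) ↔ (i ∈ s ↔ i + 1 ∈ s) := by
  rw [mem_sg, mem_sg, Equiv.swap_apply_left, Equiv.swap_apply_right]
  exact ⟨fun h => h.symm, fun h => h.symm⟩

theorem PairA_rm_left (i : ℕ) (s : Finset ℕ) : rm i (insert i (mk i s)) = s := by
  ext k
  rw [mem_rm, Finset.mem_insert, up_mem_mk]
  constructor
  · rintro (h | h)
    · unfold up at h
      split_ifs at h <;> omega
    · exact h
  · exact fun h => Or.inr h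

theorem PairA_rm_right (i : ℕ) (s : Finset ℕ) : rm i (insert (i + 1) (mk i s)) = s := by
  ext k
  rw [mem_rm, Finset.mem_insert, up_mem_mk]
  constructor
  · rintro (h | h)
    · unfold up at h
      split_ifs at h <;> omega
    · exact h
  · exact fun h => Or.inr h

theorem PairA_mk_rm (i k : ℕ) (a : Finset ℕ) : k ∈ mk i (rm i a) ↔ k ≠ i ∧ k ≠ i + 1 ∧ k ∈ a := by
  rw [mem_mk, mem_rm, mem_rm]
  rcases lt_or_ge k i with h | h
  · have h1 : up i k = k := by
      unfold up
      rw [if_pos h]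
    rw [h1]
    constructor
    · rintro (h2 | h2)
      · exact ⟨by omega, by omega, h2.2⟩
      · exact absurd h2.1 (by omega)
    · rintro ⟨-, -, h2⟩
      exact Or.inl ⟨h, h2⟩
  · rcases lt_or_ge k (i + 2) with h1 | h1
    · constructor
      · rintro (h2 | h2)
        · exact absurd h2.1 (by omega)
        · exact absurd h2.1 (by omega)
      · rintro ⟨h2, h3, -⟩
        exact absurd h1 (by omega)
    · have h2 : up i (k - 2) = k := by
        unfold up
        rw [if_neg (by omega)]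
        omega
      rw [h2]
      constructor
      · rintro (h3 | h3)
        · exact absurd h3.1 (by omega)
        · exact ⟨by omega, by omega, h3.2⟩
      · rintro ⟨-, -, h3⟩
        exact Or.inr ⟨h1, h3⟩

theorem PairA_ins_left {i : ℕ} {a : Finset ℕ} (h : i ∈ a) (h' : i + 1 ∉ a) :
    insert i (mk i (rm i a)) = a := by
  ext k
  rw [Finset.mem_insert, PairA_mk_rm]
  constructor
  · rintro (rfl | h1)
    · exact h
    · exact h1.2.2
  · intro h1
    by_cases h2 : k = i
    · exact Or.inl h2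
    · refine Or.inr ⟨h2, ?_, h1⟩
      rintro rfl
      exact h' h1

theorem PairA_ins_right {i : ℕ} {a : Finset ℕ} (h : i ∉ a) (h' : i + 1 ∈ a) :
    insert (i + 1) (mk i (rm i a)) = a := by
  ext k
  rw [Finset.mem_insert, PairA_mk_rm]
  constructor
  · rintro (rfl | h1)
    · exact h'
    · exact h1.2.2
  · intro h1
    by_cases h2 : k = i + 1
    · exact Or.inl h2
    · refine Or.inr ⟨?_, h2, h1⟩
      rintro rfl
      exact h h1

theorem PairA_mem_left (i : ℕ) (s : Finset ℕ) :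
    i ∈ insert i (mk i s) ∧ i + 1 ∉ insert i (mk i s) := by
  refine ⟨Finset.mem_insert_self _ _, ?_⟩
  rw [Finset.mem_insert]
  rintro (h | h)
  · omega
  · exact right_notMem_mk h

theorem PairA_mem_right (i : ℕ) (s : Finset ℕ) :
    i ∉ insert (i + 1) (mk i s) ∧ i + 1 ∈ insert (i + 1) (mk i s) := by
  refine ⟨?_, Finset.mem_insert_self _ _⟩
  rw [Finset.mem_insert]
  rintro (h | h)
  · omega
  · exact left_notMem_mk h

/-- the generators are symmetric -/
theorem BF_ee {L n i : ℕ} (hi : i + 1 < L) (c : Finset ℕ → ℂ) (hc : ∀ s, c (sg i s) = c s) (v w : Vec) :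
    BF L n c (ee i v) w = BF L n c v (ee i w) := by
  have h1 : ∑ a ∈ cfn L n, c a * ((if (i ∈ a ↔ i + 1 ∈ a) then 0 else 1) * v (sg i a)) * w a =
      ∑ a ∈ cfn L n, c a * v a * ((if (i ∈ a ↔ i + 1 ∈ a) then 0 else 1) * w (sg i a)) := by
    refine Finset.sum_nbij' (sg i) (sg i) (fun a ha => (sg_mem_cfn hi).2 ha)
      (fun a ha => (sg_mem_cfn hi).2 ha) (fun a _ => sg_sg i a) (fun a _ => sg_sg i a)
      (fun a _ => ?_)
    rw [sg_sg, hc]
    by_cases h : i ∈ a ↔ i + 1 ∈ a
    · rw [if_pos h, if_pos ((PairA_sg i a).2 h)]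
      ring
    · rw [if_neg h, if_neg (fun h' => h ((PairA_sg i a).1 h'))]
      ring
  have h2 : BF L n c (ee i v) w =
      ∑ a ∈ cfn L n, c a * ((if (i ∈ a ↔ i + 1 ∈ a) then 0 else if i ∈ a then -om else -om ^ 2) *
        v a) * w a +
      ∑ a ∈ cfn L n, c a * ((if (i ∈ a ↔ i + 1 ∈ a) then 0 else 1) * v (sg i a)) * w a := by
    rw [← Finset.sum_add_distrib]
    refine Finset.sum_congr rfl fun a _ => ?_
    rw [PairA_ee i v a]
    ring
  have h3 : BF L n c v (ee i w) =
      ∑ a ∈ cfn L n, c a * ((if (i ∈ a ↔ i + 1 ∈ a) then 0 else if i ∈ a then -om else -om ^ 2) *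
        v a) * w a +
      ∑ a ∈ cfn L n, c a * v a * ((if (i ∈ a ↔ i + 1 ∈ a) then 0 else 1) * w (sg i a)) := by
    rw [← Finset.sum_add_distrib]
    refine Finset.sum_congr rfl fun a _ => ?_
    rw [PairA_ee i w a]
    ring
  rw [h2, h3, h1]

/-- insertion and contraction are adjoint up to the factor `-ω²` -/
theorem BF_Ins {L n i : ℕ} (hi : i ≤ L) (c c' : Finset ℕ → ℂ) (hc : ∀ s, c (insert i (mk i s)) = c' s)
    (hc' : ∀ s, c (insert (i + 1) (mk i s)) = c' s) (v w : Vec) :
    BF (L + 2) (n + 1) c v (Ins i w) = -om ^ 2 * BF L n c' (Con i v) w := by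
  have hl : ∑ a ∈ (cfn (L + 2) (n + 1)).filter (fun a => i ∈ a ∧ i + 1 ∉ a),
      c a * v a * w (rm i a) = ∑ s ∈ cfn L n, c' s * v (insert i (mk i s)) * w s := by
    refine Finset.sum_nbij' (rm i) (fun s => insert i (mk i s)) (fun a ha => ?_) (fun s hs => ?_)
      (fun a ha => ?_) (fun s _ => PairA_rm_left i s) (fun a ha => ?_)
    · rw [Finset.mem_filter] at ha
      have h1 := ha.1
      rw [← PairA_ins_left ha.2.1 ha.2.2] at h1
      exact (insert_mk_mem_cfn hi).1 h1
    · rw [Finset.mem_filter]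
      exact ⟨(insert_mk_mem_cfn hi).2 hs, PairA_mem_left i s⟩
    · rw [Finset.mem_filter] at ha
      exact PairA_ins_left ha.2.1 ha.2.2
    · rw [Finset.mem_filter] at ha
      rw [← hc (rm i a), PairA_ins_left ha.2.1 ha.2.2]
  have hr : ∑ a ∈ (cfn (L + 2) (n + 1)).filter (fun a => i ∉ a ∧ i + 1 ∈ a),
      c a * v a * w (rm i a) = ∑ s ∈ cfn L n, c' s * v (insert (i + 1) (mk i s)) * w s := by
    refine Finset.sum_nbij' (rm i) (fun s => insert (i + 1) (mk i s)) (fun a ha => ?_)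
      (fun s hs => ?_) (fun a ha => ?_) (fun s _ => PairA_rm_right i s) (fun a ha => ?_)
    · rw [Finset.mem_filter] at ha
      have h1 := ha.1
      rw [← PairA_ins_right ha.2.1 ha.2.2] at h1
      exact (insert_mk_mem_cfn' hi).1 h1
    · rw [Finset.mem_filter]
      exact ⟨(insert_mk_mem_cfn' hi).2 hs, PairA_mem_right i s⟩
    · rw [Finset.mem_filter] at ha
      exact PairA_ins_right ha.2.1 ha.2.2
    · rw [Finset.mem_filter] at ha
      rw [← hc' (rm i a), PairA_ins_right ha.2.1 ha.2.2]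
  have h1 : BF (L + 2) (n + 1) c v (Ins i w) =
      ∑ a ∈ (cfn (L + 2) (n + 1)).filter (fun a => i ∈ a ∧ i + 1 ∉ a), c a * v a * w (rm i a) +
      -om ^ 2 * ∑ a ∈ (cfn (L + 2) (n + 1)).filter (fun a => i ∉ a ∧ i + 1 ∈ a),
        c a * v a * w (rm i a) := by
    rw [Finset.mul_sum, Finset.sum_filter, Finset.sum_filter, ← Finset.sum_add_distrib]
    refine Finset.sum_congr rfl fun a _ => ?_
    rw [Ins_apply]
    unfold cc
    by_cases h2 : i ∈ a
    · by_cases h3 : i + 1 ∈ a
      · rw [if_pos h2, if_pos h3, if_neg (fun h => h.2 h3), if_neg (fun h => h.1 h2)]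
        ring
      · rw [if_pos h2, if_neg h3, if_pos ⟨h2, h3⟩, if_neg (fun h => h.1 h2)]
        ring
    · by_cases h3 : i + 1 ∈ a
      · rw [if_neg h2, if_pos h3, if_neg (fun h => h2 h.1), if_pos ⟨h2, h3⟩]
        ring
      · rw [if_neg h2, if_neg h3, if_neg (fun h => h2 h.1), if_neg (fun h => h3 h.2)]
        ring
  rw [h1, hl, hr]
  unfold BF
  rw [Finset.mul_sum, Finset.mul_sum, ← Finset.sum_add_distrib]
  refine Finset.sum_congr rfl fun s _ => ?_
  rw [Con_apply]
  linear_combination (-(c' s * v (insert i (mk i s)) * w s) +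
    om ^ 2 * (c' s * v (insert (i + 1) (mk i s)) * w s)) * om_cube

/-- invariance of the form under an exchange -/
theorem BF_exch {L n i : ℕ} (hi : i + 1 < L) (c : Finset ℕ → ℂ) (hc : ∀ s, c (sg i s) = c s)
    (a b : ℂ) (hab : om * a ≠ b) (hba : om * b ≠ a) (g gs g' gs' : Vec)
    (h : ∀ s, (om * a - b) * gs s = (om * b - a) * g s + om ^ 2 * (b - a) * ee i g s)
    (h' : ∀ s, (om * b - a) * gs' s = (om * a - b) * g' s + om ^ 2 * (a - b) * ee i g' s) :
    BF L n c gs' gs = BF L n c g' g := by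
  have hf : (om * a - b) • gs = (om * b - a) • g + (om ^ 2 * (b - a)) • ee i g := by
    funext s
    rw [Pi.add_apply, Pi.smul_apply, Pi.smul_apply, Pi.smul_apply, smul_eq_mul, smul_eq_mul,
      smul_eq_mul]
    exact h s
  have hf' : (om * b - a) • gs' = (om * a - b) • g' + (om ^ 2 * (a - b)) • ee i g' := by
    funext s
    rw [Pi.add_apply, Pi.smul_apply, Pi.smul_apply, Pi.smul_apply, smul_eq_mul, smul_eq_mul,
      smul_eq_mul]
    exact h' s
  have h1 : BF L n c ((om * b - a) • gs') ((om * a - b) • gs) =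
      BF L n c ((om * a - b) • g' + (om ^ 2 * (a - b)) • ee i g')
        ((om * b - a) • g + (om ^ 2 * (b - a)) • ee i g) := by
    rw [hf, hf']
  rw [BF_smul_left, BF_smul_right, BF_add_left, BF_add_right, BF_add_right, BF_smul_left,
    BF_smul_right, BF_smul_left, BF_smul_right, BF_smul_left, BF_smul_right, BF_smul_left,
    BF_smul_right, BF_ee hi c hc, BF_ee hi c hc, ee_ee] at h1
  have h2 : (om * b - a) * ((om * a - b) * BF L n c gs' gs) =
      (om * b - a) * ((om * a - b) * BF L n c g' g) := by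
    linear_combination h1 + (om ^ 2 * (b - a) * (a - b) * BF L n c g' (ee i g)) * om_eq
  exact mul_left_cancel₀ (sub_ne_zero.2 hab) (mul_left_cancel₀ (sub_ne_zero.2 hba) h2)

/-- weight of the bilinear form which marks the first spin -/
def cz (s : Finset ℕ) : ℂ := if 0 ∈ s then 1 else -om ^ 2

theorem cz_sg {i : ℕ} (hi : 1 ≤ i) (s : Finset ℕ) : cz (sg i s) = cz s := by
  unfold cz
  have h : 0 ∈ sg i s ↔ 0 ∈ s := by
    rw [mem_sg, Equiv.swap_apply_of_ne_of_ne (by omega) (by omega)]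
  by_cases h0 : 0 ∈ s
  · rw [if_pos h0, if_pos (h.2 h0)]
  · rw [if_neg h0, if_neg (fun h1 => h0 (h.1 h1))]

theorem PairA_zero_mem {i : ℕ} (hi : 1 ≤ i) (s : Finset ℕ) : 0 ∈ mk i s ↔ 0 ∈ s := by
  rw [mem_mk]
  constructor
  · rintro (h | h)
    · exact h.2
    · exact absurd h.1 (by omega)
  · exact fun h => Or.inl ⟨by omega, h⟩

theorem cz_insert {i : ℕ} (hi : 1 ≤ i) (s : Finset ℕ) : cz (insert i (mk i s)) = cz s := by
  unfold cz
  have h : 0 ∈ insert i (mk i s) ↔ 0 ∈ s := by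
    rw [Finset.mem_insert, PairA_zero_mem hi]
    exact ⟨fun h => h.resolve_left (by omega), Or.inr⟩
  by_cases h0 : 0 ∈ s
  · rw [if_pos h0, if_pos (h.2 h0)]
  · rw [if_neg h0, if_neg (fun h1 => h0 (h.1 h1))]

theorem cz_insert' {i : ℕ} (hi : 1 ≤ i) (s : Finset ℕ) : cz (insert (i + 1) (mk i s)) = cz s := by
  unfold cz
  have h : 0 ∈ insert (i + 1) (mk i s) ↔ 0 ∈ s := by
    rw [Finset.mem_insert, PairA_zero_mem hi]
    exact ⟨fun h => h.resolve_left (by omega), Or.inr⟩
  by_cases h0 : 0 ∈ s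
  · rw [if_pos h0, if_pos (h.2 h0)]
  · rw [if_neg h0, if_neg (fun h1 => h0 (h.1 h1))]

end PX
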