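import Pool.Agent.Lib.MP_216314_pr.X.PairB

/-!
# Recursion for the bilinear invariant `DD`
-/

set_option autoImplicit false

noncomputable section

namespace PX

open Finset MvPolynomial

theorem ivs_ip (i : ℕ) {u : ℂ} (hu : u ≠ 0) (w : ℕ → ℂ) :
    ivs (ip i u w) = sw i (ip i (om ^ 2 * u⁻¹) (ivs w)) := by
  have _ := hu
  funext k
  by_cases h1 : k = i
  · subst h1
    rw [sw_left, ip_right]
    unfold ivs
    rw [ip_left]
    linear_combination (-u⁻¹) * om_cube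
  · by_cases h2 : k = i + 1
    · subst h2
      rw [sw_right, ip_left]
      unfold ivs
      rw [ip_right, mul_inv, om_inv]
    · rw [sw_of_ne _ _ h1 h2]
      rcases lt_or_ge k i with h3 | h3
      · rw [ip_lt _ _ h3]
        unfold ivs
        rw [ip_lt _ _ h3]
      · obtain ⟨j, rfl⟩ : ∃ j, k = j + 2 := ⟨k - 2, by omega⟩
        have h4 : i ≤ j := by omega
        rw [ip_ge _ _ h4]
        unfold ivs
        rw [ip_ge _ _ h4]

private theorem PairR_XX_inv (v : ℂ) : XX v⁻¹ = XX v := by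
  unfold XX
  rw [inv_inv, add_comm]

theorem Kf_ivs (L : ℕ) (u : ℂ) (w : ℕ → ℂ) : Kf L (om ^ 2 * u⁻¹) (ivs w) = Kf L u w := by
  unfold Kf
  apply Finset.prod_congr rfl
  intro k _
  have h1 : om ^ 2 * (om ^ 2 * u⁻¹) = (om ^ 2 * u)⁻¹ := by
    rw [mul_inv]
    have h2 : (om ^ 2)⁻¹ = om := by
      apply inv_eq_of_mul_eq_one_right
      linear_combination om_cube
    rw [h2]
    linear_combination (om * u⁻¹) * om_cube
  rw [h1, PairR_XX_inv]
  unfold ivs
  rw [PairR_XX_inv]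

/-- contraction of the reversed pair -/
theorem Con_rev {L i : ℕ} (hi : i ≤ L) {b : ℂ} (hb : b ≠ 0) {w : ℕ → ℂ} (hw : NZ L w) :
    Con i (gv (L + 2) (sw i (ip i b w))) = Kf L b w • gv L w := by
  have h1 := gv_cup' hi hb w
  rw [fusion L i hi hb hw, ee_eq] at h1
  have h2 := congrArg (Con i) h1
  rw [Con_Ins_self, map_smul, Con_Ins_self] at h2
  exact h2

theorem DD_rec (L : ℕ) (y : ℕ → ℂ) (hy : NZ (L + 2) y) (h : y 1 = om * y 0) :
    DD (L + 2) y = -om ^ 2 * (∏ k ∈ range L, (XX (om ^ 2 * y 0) - XX (y (k + 2)))) ^ 2 *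
      DD L (dl 0 y) := by
  have hy0 : y 0 ≠ 0 := hy 0 (by omega)
  have hw : NZ L (dl 0 y) := nz_dl hy 0
  have hyy : ip 0 (y 0) (dl 0 y) = y := ip_dl 0 y h
  have hwi : NZ L (ivs (dl 0 y)) := fun k hk => inv_ne_zero (hw k hk)
  have h1 : gv (L + 2) y = Kf L (y 0) (dl 0 y) • Ins 0 (gv L (dl 0 y)) := by
    have h2 := fusion L 0 (Nat.zero_le L) hy0 hw
    rwa [hyy] at h2
  have h3 : Con 0 (gv (L + 2) (ivs y)) = Kf L (y 0) (dl 0 y) • gv L (ivs (dl 0 y)) := by
    have h4 := ivs_ip 0 hy0 (dl 0 y)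
    rw [hyy] at h4
    rw [h4, Con_rev (Nat.zero_le L) (mul_ne_zero (pow_ne_zero 2 om_ne_zero) (inv_ne_zero hy0)) hwi,
      Kf_ivs]
  have h5 : (L + 2) / 2 = L / 2 + 1 := Nat.add_div_right L (by norm_num)
  have h6 : Kf L (y 0) (dl 0 y) = ∏ k ∈ range L, (XX (om ^ 2 * y 0) - XX (y (k + 2))) := by
    unfold Kf
    apply Finset.prod_congr rfl
    intro k _
    have h7 : dl 0 y k = y (k + 2) := by
      unfold dl
      simp
    rw [h7]
  unfold DD
  rw [h1, BF_smul_right, h5, BF_Ins (Nat.zero_le L) (fun _ => 1) (fun _ => 1) (fun _ => rfl)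
    (fun _ => rfl), h3, BF_smul_left, h6]
  ring

end PX
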