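import Mathlib

/-!
# Basic definitions for the exactly solvable strip (loop weight one)

`om` is the primitive third root of unity, `XX v = v + 1/v`. `Lau L f`: `f` is a Laurent polynomial in the first `L`
variables. `Deg1 L i a b f`: as a function of the variable number `i`, `t^a f` is a polynomial of degree at most `b`.
-/

set_option autoImplicit false

noncomputable section

namespace PX

open Finset

/-- primitive third root of unity -/
def om : ℂ := ⟨-1 / 2, Real.sqrt 3 / 2⟩

theorem om_eq : om ^ 2 + om + 1 = 0 := by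
  have h3 : Real.sqrt 3 * Real.sqrt 3 = 3 := Real.mul_self_sqrt (by norm_num)
  apply Complex.ext
  · simp only [om, pow_two, Complex.add_re, Complex.mul_re, Complex.one_re, Complex.zero_re]
    nlinarith [h3]
  · simp only [om, pow_two, Complex.add_im, Complex.mul_im, Complex.one_im, Complex.zero_im]
    ring

theorem om_sq : om ^ 2 = -om - 1 := by linear_combination om_eq

theorem om_cube : om ^ 3 = 1 := by linear_combination (om - 1) * om_eq

theorem om_ne_zero : om ≠ 0 := by
  intro h
  have h1 := om_cube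
  rw [h] at h1
  norm_num at h1

theorem om_ne_one : om ≠ 1 := by
  intro h
  have h1 := om_eq
  rw [h] at h1
  norm_num at h1

theorem om_inv : om⁻¹ = om ^ 2 := by
  apply inv_eq_of_mul_eq_one_right
  linear_combination om_cube

/-- `v + 1/v` -/
def XX (v : ℂ) : ℂ := v + v⁻¹

/-- the first `L` entries of `y` are nonzero -/
def NZ (L : ℕ) (y : ℕ → ℂ) : Prop := ∀ k, k < L → y k ≠ 0

/-- Laurent polynomial in the first `L` variables -/
def Lau (L : ℕ) (f : (ℕ → ℂ) → ℂ) : Prop :=
  ∃ (P : MvPolynomial ℕ ℂ) (N : ℕ), ∀ y : ℕ → ℂ, NZ L y →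
    (∏ k ∈ range L, y k) ^ N * f y = MvPolynomial.eval y P

/-- in the variable number `i`, `t^a f` is a polynomial of degree at most `b` -/
def Deg1 (L i a b : ℕ) (f : (ℕ → ℂ) → ℂ) : Prop :=
  ∀ y : ℕ → ℂ, NZ L y → ∃ p : Polynomial ℂ, p.natDegree ≤ b ∧
    ∀ t : ℂ, t ≠ 0 → t ^ a * f (Function.update y i t) = p.eval t

/-- exchange of the entries `i` and `i+1` -/
def sw (i : ℕ) (y : ℕ → ℂ) : ℕ → ℂ := fun k => y (Equiv.swap i (i + 1) k)

/-- removal of the entries `i` and `i+1` -/
def dl (i : ℕ) (y : ℕ → ℂ) : ℕ → ℂ := fun k => if k < i then y k else y (k + 2)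

end PX
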