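import Pool.Agent.Lib.MP_216314_pr.X.GVec
import Pool.Agent.Lib.MP_216314_pr.X.GPolB
import Pool.Agent.Lib.MP_216314_pr.X.ExchA

/-!
# Exchange relations of the solution
-/

set_option autoImplicit false

noncomputable section

namespace PX

open Finset MvPolynomial

/-- exchange relations of the solution -/
theorem gv_exch (L : ℕ) (S : Set (ℕ → ℂ)) : Exch S 0 L (gv L) := by
  intro i _ hi y _ s
  by_cases hs : s ∈ cfn L (L / 2)
  · have hsg : sg i s ∈ cfn L (L / 2) := (sg_mem_cfn hi).2 hs
    have hsw : gv L (sw i y) s = eval (sw i y) (GP L s) / (∏ k ∈ range L, y k) ^ ((L - 1) / 2) := by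
      unfold gv
      rw [if_pos hs, prod_sw hi]
    have hy : ∀ t, t ∈ cfn L (L / 2) → gv L y t = eval y (GP L t) / (∏ k ∈ range L, y k) ^ ((L - 1) / 2) := by
      intro t ht
      unfold gv
      rw [if_pos ht]
    have hT := Tp_eval_mul i (GP L s) y
    by_cases h1 : i ∈ s
    · by_cases h2 : i + 1 ∈ s
      · have hE := GP_eq L i s hs hi (by tauto)
        rw [hE, map_mul, eval_C] at hT
        rw [hsw, hy s hs, ee_apply_eq i _ s (by tauto)]
        have h3 : (om * y i - y (i + 1)) * eval (sw i y) (GP L s) =
            (om * y (i + 1) - y i) * eval y (GP L s) := by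
          linear_combination om ^ 2 * hT - ((om * y i - y (i + 1)) * eval (sw i y) (GP L s) +
            (y i - om * y (i + 1)) * eval y (GP L s)) * om_cube
        rw [mul_zero, add_zero, ← mul_div_assoc, h3, mul_div_assoc]
      · have hD := GP_desc L i s h1 h2
        rw [hD] at hT
        rw [hsw, ee_apply_left i _ s h1 h2, hy s hs, hy _ hsg]
        have h3 : (om * y i - y (i + 1)) * eval (sw i y) (GP L s) =
            (om * y (i + 1) - y i) * eval y (GP L s) + om ^ 2 * (y (i + 1) - y i) *
              (-om * eval y (GP L s) + eval y (GP L (sg i s))) := by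
          linear_combination om ^ 2 * hT - ((om * y i - y (i + 1)) * eval (sw i y) (GP L s) +
            (y i - om * y (i + 1)) * eval y (GP L s)) * om_cube
        rw [← mul_div_assoc, h3]
        ring
    · by_cases h2 : i + 1 ∈ s
      · have hD := GP_asc' L i s h1 h2
        rw [hD, map_add, map_mul, eval_C] at hT
        rw [hsw, ee_apply_right i _ s h1 h2, hy s hs, hy _ hsg]
        have h3 : (om * y i - y (i + 1)) * eval (sw i y) (GP L s) =
            (om * y (i + 1) - y i) * eval y (GP L s) + om ^ 2 * (y (i + 1) - y i) *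
              (-om ^ 2 * eval y (GP L s) + eval y (GP L (sg i s))) := by
          linear_combination om ^ 2 * hT - ((om * y i - y (i + 1)) * eval (sw i y) (GP L s) +
            (y i - om * y (i + 1)) * eval y (GP L s)) * om_cube
        rw [← mul_div_assoc, h3]
        ring
      · have hE := GP_eq L i s hs hi (by tauto)
        rw [hE, map_mul, eval_C] at hT
        rw [hsw, hy s hs, ee_apply_eq i _ s (by tauto)]
        have h3 : (om * y i - y (i + 1)) * eval (sw i y) (GP L s) =
            (om * y (i + 1) - y i) * eval y (GP L s) := by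
          linear_combination om ^ 2 * hT - ((om * y i - y (i + 1)) * eval (sw i y) (GP L s) +
            (y i - om * y (i + 1)) * eval y (GP L s)) * om_cube
        rw [mul_zero, add_zero, ← mul_div_assoc, h3, mul_div_assoc]
  · have hsg : sg i s ∉ cfn L (L / 2) := fun h => hs ((sg_mem_cfn hi).1 h)
    have hz : ∀ (y : ℕ → ℂ) t, t ∉ cfn L (L / 2) → gv L y t = 0 := by
      intro y t ht
      unfold gv
      rw [if_neg ht]
    have hee : ee i (gv L y) s = 0 := by
      by_cases h1 : i ∈ s
      · by_cases h2 : i + 1 ∈ s
        · exact ee_apply_eq i _ s (by tauto)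
        · rw [ee_apply_left i _ s h1 h2, hz _ _ hs, hz _ _ hsg]; ring
      · by_cases h2 : i + 1 ∈ s
        · rw [ee_apply_right i _ s h1 h2, hz _ _ hs, hz _ _ hsg]; ring
        · exact ee_apply_eq i _ s (by tauto)
    rw [hz _ _ hs, hz _ _ hs, hee]
    ring

end PX
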