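import Pool.Agent.Lib.MP_216314_pr.X.RefB

/-!
# Reflection relations
-/

set_option autoImplicit false

noncomputable section

namespace PX

open Finset

private theorem refE_iv_upd_ne {i j : ℕ} (h : i ≠ j) (y : ℕ → ℂ) (t : ℂ) :
    iv j (Function.update y i t) = Function.update (iv j y) i t := by
  unfold iv
  rw [Function.update_of_ne h.symm, Function.update_comm h]

private theorem refE_iv_upd (i : ℕ) (y : ℕ → ℂ) (t : ℂ) :
    iv i (Function.update y i t) = Function.update y i t⁻¹ := by
  unfold iv
  rw [Function.update_self, Function.update_idem]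

private theorem refE_iv_comm (i j : ℕ) (y : ℕ → ℂ) : iv i (iv j y) = iv j (iv i y) := by
  rcases eq_or_ne i j with h | h
  · rw [h]
  · unfold iv
    rw [Function.update_of_ne h, Function.update_of_ne h.symm, Function.update_comm h]

/-- the zero counting -/
private theorem refE_count {L : ℕ} (hL : 4 ≤ L) {y : ℕ → ℂ} (hy : Gen L y) (c : ℂ) (hc : c ^ 3 = 1)
    (p : Polynomial ℂ) (hp : p.natDegree ≤ 2 * ((L - 1) / 2))
    (h1 : ∀ j, 1 ≤ j → j + 1 < L → p.eval (c * y j) = 0)
    (h2 : ∀ j, 1 ≤ j → j + 1 < L → p.eval (c * y j)⁻¹ = 0) : p = 0 := by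
  have hc0 : c ≠ 0 := by
    intro h
    rw [h] at hc
    norm_num at hc
  have hcube : ∀ j, (c * y j) ^ 3 = y j ^ 3 := by
    intro j
    rw [mul_pow, hc, one_mul]
  have hinj1 : Set.InjOn (fun j => c * y j) ((Ico 1 (L - 1) : Finset ℕ) : Set ℕ) := by
    intro a ha b hb hab
    rw [Finset.mem_coe, Finset.mem_Ico] at ha hb
    by_contra hne
    have h3 : c * y a = c * y b := hab
    have h4 := (hy.2.2 a b (by omega) (by omega) hne).1
    apply h4
    rw [← hcube a, ← hcube b, h3]
  have hinj2 : Set.InjOn (fun j => (c * y j)⁻¹) ((Ico 1 (L - 1) : Finset ℕ) : Set ℕ) := by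
    intro a ha b hb hab
    exact hinj1 ha hb (inv_injective hab)
  have hdisj : Disjoint ((Ico 1 (L - 1)).image fun j => c * y j)
      ((Ico 1 (L - 1)).image fun j => (c * y j)⁻¹) := by
    rw [Finset.disjoint_left]
    intro x hx hx'
    rw [Finset.mem_image] at hx hx'
    obtain ⟨a, ha, rfl⟩ := hx
    obtain ⟨b, hb, hab⟩ := hx'
    rw [Finset.mem_Ico] at ha hb
    have hya : c * y a ≠ 0 := mul_ne_zero hc0 (hy.1 a (by omega))
    have hyb : c * y b ≠ 0 := mul_ne_zero hc0 (hy.1 b (by omega))
    have h3 : (c * y a) * (c * y b) = 1 := by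
      rw [← hab, inv_mul_cancel₀ hyb]
    have h4 : y a ^ 3 * y b ^ 3 = 1 := by
      rw [← hcube a, ← hcube b, ← mul_pow, h3, one_pow]
    rcases eq_or_ne a b with h5 | h5
    · subst h5
      apply hy.2.1 a (by omega)
      rw [← h4]
      ring
    · exact (hy.2.2 a b (by omega) (by omega) h5).2 h4
  refine zero_of_card hp (((Ico 1 (L - 1)).image fun j => c * y j) ∪
      ((Ico 1 (L - 1)).image fun j => (c * y j)⁻¹)) ?_ ?_
  · intro x hx
    rw [Finset.mem_union, Finset.mem_image, Finset.mem_image] at hx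
    rcases hx with ⟨j, hj, rfl⟩ | ⟨j, hj, rfl⟩
    · rw [Finset.mem_Ico] at hj
      exact h1 j hj.1 (by omega)
    · rw [Finset.mem_Ico] at hj
      exact h2 j hj.1 (by omega)
  · rw [Finset.card_union_of_disjoint hdisj, Finset.card_image_of_injOn hinj1,
      Finset.card_image_of_injOn hinj2, Nat.card_Ico]
    omega

/-- right reflection, induction step at generic points -/
theorem right_step {L : ℕ} (hL : 4 ≤ L)
    (ih : ∀ y, NZ (L - 2) y → gv (L - 2) (iv (L - 2 - 1) y) = gv (L - 2) y) {y : ℕ → ℂ} (hy : Gen L y) :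
    DR L y = 0 := by
  have hin : ∀ z, Gen L z → ∀ s, L - 1 ∉ s → DR L z s = 0 := by
    intro z hz s hs
    show gv L (iv (L - 1) z) s - gv L z s = 0
    rw [sector_right (by omega) hz.1 s hs, sub_self]
  have hs1 : ∀ z, Gen L z → DR L z (insert (L - 1) (range (L / 2 - 1))) = 0 := by
    intro z hz
    set s1 := insert (L - 1) (range (L / 2 - 1)) with hs1
    have h0s : 0 ∈ s1 := by
      rw [hs1, Finset.mem_insert, Finset.mem_range]
      omega
    obtain ⟨p1, hp1, he1⟩ := gv_deg L 0 (by omega) s1 z hz.1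
    obtain ⟨p2, hp2, he2⟩ := gv_deg L 0 (by omega) s1 (iv (L - 1) z) (nz_iv hz.1 (by omega))
    have hev : ∀ t : ℂ, t ≠ 0 → (p2 - p1).eval t =
        t ^ ((L - 1) / 2) * DR L (Function.update z 0 t) s1 := by
      intro t ht
      rw [Polynomial.eval_sub, ← he1 t ht, ← he2 t ht]
      show _ = t ^ ((L - 1) / 2) * (gv L (iv (L - 1) (Function.update z 0 t)) s1 -
        gv L (Function.update z 0 t) s1)
      rw [refE_iv_upd_ne (by omega)]
      ring
    have hc0 : om ^ 2 ≠ 0 := pow_ne_zero 2 om_ne_zero
    have hp : p2 - p1 = 0 := by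
      refine refE_count hL hz (om ^ 2) ?_ (p2 - p1) ?_ ?_ ?_
      · linear_combination (om ^ 3 + 1) * om_cube
      · exact (Polynomial.natDegree_sub_le _ _).trans (max_le hp2 hp1)
      · intro j hj hj'
        have hyj : om ^ 2 * z j ≠ 0 := mul_ne_zero hc0 (hz.1 j (by omega))
        rw [hev _ hyj, DR_zero hL ih j hj hj' hz, Pi.zero_apply, mul_zero]
      · intro j hj hj'
        have hyj : om ^ 2 * z j ≠ 0 := mul_ne_zero hc0 (hz.1 j (by omega))
        have h3 : DR L (Function.update z 0 (om ^ 2 * z j)⁻¹) s1 =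
            DR L (Function.update z 0 (om ^ 2 * z j)) s1 := by
          have hnz : NZ L (Function.update z 0 (om ^ 2 * z j)) := nz_upd hz.1 0 hyj
          rw [← refE_iv_upd]
          show gv L (iv (L - 1) (iv 0 (Function.update z 0 (om ^ 2 * z j)))) s1 -
            gv L (iv 0 (Function.update z 0 (om ^ 2 * z j))) s1 =
            gv L (iv (L - 1) (Function.update z 0 (om ^ 2 * z j))) s1 -
            gv L (Function.update z 0 (om ^ 2 * z j)) s1
          rw [sector_left (by omega) hnz s1 h0s, refE_iv_comm,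
            sector_left (by omega) (nz_iv hnz (by omega)) s1 h0s]
        rw [hev _ (inv_ne_zero hyj), h3, DR_zero hL ih j hj hj' hz, Pi.zero_apply, mul_zero]
    have hz0 : z 0 ≠ 0 := hz.1 0 (by omega)
    have h4 := hev (z 0) hz0
    rw [hp, Polynomial.eval_zero, Function.update_eq_self] at h4
    exact (mul_eq_zero.mp h4.symm).resolve_left (pow_ne_zero _ hz0)
  funext s
  rw [Pi.zero_apply]
  by_cases hsc : s ∈ cfn L (L / 2)
  · refine det_zero {z | Gen L z} L (L / 2) 0 (L - 1) (by omega) (DR L) (DR_exch L _)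
        (fun i _ h2 z hz => (Gen.ne_mul hz (by omega) (by omega) (by omega)).1)
        (fun i _ h2 z hz => gen_sw hz (by omega)) ?_ y hy s hsc
    intro z hz t ht hsort
    by_cases h4 : L - 1 ∈ t
    · have h5 : ∀ i, i + 1 ∈ t.erase (L - 1) → i ∈ t.erase (L - 1) := by
        intro i hi
        rw [Finset.mem_erase] at hi ⊢
        have h6 := Finset.mem_range.mp ((mem_cfn.mp ht).1 hi.2)
        exact ⟨by omega, hsort i (Nat.zero_le _) (by omega) hi.2⟩
      have h6 := eq_range_of_sorted h5
      rw [Finset.card_erase_of_mem h4, (mem_cfn.mp ht).2] at h6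
      rw [← Finset.insert_erase h4, h6]
      exact hs1 z hz
    · exact hin z hz t h4
  · show gv L (iv (L - 1) y) s - gv L y s = 0
    rw [gv_wt L _ s hsc, gv_wt L _ s hsc, sub_self]

/-- left reflection, induction step at generic points -/
theorem left_step {L : ℕ} (hL : 4 ≤ L)
    (ih : ∀ y, NZ (L - 2) y → gv (L - 2) (iv 0 y) = gv (L - 2) y)
    (hR : ∀ y, NZ L y → gv L (iv (L - 1) y) = gv L y) {y : ℕ → ℂ} (hy : Gen L y) :
    DL L y = 0 := by
  have hin : ∀ z, Gen L z → ∀ s, 0 ∈ s → DL L z s = 0 := by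
    intro z hz s hs
    show gv L (iv 0 z) s - gv L z s = 0
    rw [sector_left (by omega) hz.1 s hs, sub_self]
  have hs1 : ∀ z, Gen L z → DL L z ((range (L / 2 + 1)).erase 0) = 0 := by
    intro z hz
    set s1 := (range (L / 2 + 1)).erase 0 with hs1
    obtain ⟨p1, hp1, he1⟩ := gv_deg L (L - 1) (by omega) s1 z hz.1
    obtain ⟨p2, hp2, he2⟩ := gv_deg L (L - 1) (by omega) s1 (iv 0 z) (nz_iv hz.1 (by omega))
    have hev : ∀ t : ℂ, t ≠ 0 → (p2 - p1).eval t =
        t ^ ((L - 1) / 2) * DL L (Function.update z (L - 1) t) s1 := by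
      intro t ht
      rw [Polynomial.eval_sub, ← he1 t ht, ← he2 t ht]
      show _ = t ^ ((L - 1) / 2) * (gv L (iv 0 (Function.update z (L - 1) t)) s1 -
        gv L (Function.update z (L - 1) t) s1)
      rw [refE_iv_upd_ne (by omega)]
      ring
    have hp : p2 - p1 = 0 := by
      refine refE_count hL hz om om_cube (p2 - p1) ?_ ?_ ?_
      · exact (Polynomial.natDegree_sub_le _ _).trans (max_le hp2 hp1)
      · intro j hj hj'
        have hyj : om * z j ≠ 0 := mul_ne_zero om_ne_zero (hz.1 j (by omega))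
        rw [hev _ hyj, DL_zero hL ih j hj hj' hz, Pi.zero_apply, mul_zero]
      · intro j hj hj'
        have hyj : om * z j ≠ 0 := mul_ne_zero om_ne_zero (hz.1 j (by omega))
        have h3 : DL L (Function.update z (L - 1) (om * z j)⁻¹) s1 =
            DL L (Function.update z (L - 1) (om * z j)) s1 := by
          have hnz : NZ L (Function.update z (L - 1) (om * z j)) := nz_upd hz.1 (L - 1) hyj
          rw [← refE_iv_upd]
          show gv L (iv 0 (iv (L - 1) (Function.update z (L - 1) (om * z j)))) s1 -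
            gv L (iv (L - 1) (Function.update z (L - 1) (om * z j))) s1 =
            gv L (iv 0 (Function.update z (L - 1) (om * z j))) s1 -
            gv L (Function.update z (L - 1) (om * z j)) s1
          rw [hR _ hnz, refE_iv_comm, hR _ (nz_iv hnz (by omega))]
        rw [hev _ (inv_ne_zero hyj), h3, DL_zero hL ih j hj hj' hz, Pi.zero_apply, mul_zero]
    have hz0 : z (L - 1) ≠ 0 := hz.1 (L - 1) (by omega)
    have h4 := hev (z (L - 1)) hz0
    rw [hp, Polynomial.eval_zero, Function.update_eq_self] at h4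
    exact (mul_eq_zero.mp h4.symm).resolve_left (pow_ne_zero _ hz0)
  funext s
  rw [Pi.zero_apply]
  by_cases hsc : s ∈ cfn L (L / 2)
  · refine det_zero {z | Gen L z} L (L / 2) 1 L (le_refl _) (DL L) (DL_exch L _)
        (fun i _ h2 z hz => (Gen.ne_mul hz (by omega) (by omega) (by omega)).1)
        (fun i _ h2 z hz => gen_sw hz (by omega)) ?_ y hy s hsc
    intro z hz t ht hsort
    by_cases h4 : 0 ∈ t
    · exact hin z hz t h4
    · have h5 : ∀ i, i + 1 ∈ insert 0 t → i ∈ insert 0 t := by
        intro i hi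
        rw [Finset.mem_insert] at hi ⊢
        rcases Nat.eq_zero_or_pos i with h7 | h7
        · exact Or.inl h7
        · have h8 : i + 1 ∈ t := hi.resolve_left (by omega)
          have h6 := Finset.mem_range.mp ((mem_cfn.mp ht).1 h8)
          exact Or.inr (hsort i h7 h6 h8)
      have h6 := eq_range_of_sorted h5
      rw [Finset.card_insert_of_notMem h4, (mem_cfn.mp ht).2] at h6
      have h7 : t = (range (L / 2 + 1)).erase 0 := by
        rw [← h6, Finset.erase_insert h4]
      rw [h7]
      exact hs1 z hz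
  · show gv L (iv 0 y) s - gv L y s = 0
    rw [gv_wt L _ s hsc, gv_wt L _ s hsc, sub_self]

/-- reflection at the right end -/
theorem refl_right {L : ℕ} (hL : 1 ≤ L) {y : ℕ → ℂ} (hy : NZ L y) : gv L (iv (L - 1) y) = gv L y := by
  revert y
  induction L using Nat.strong_induction_on with
  | _ L ih =>
    intro y hy
    rcases Nat.lt_or_ge 3 L with h | h
    · funext s
      have hL1 : Lau L (fun z => gv L (iv (L - 1) z) s - gv L z s) :=
        (lau_iv (by omega) (gv_lau L s)).sub (gv_lau L s)
      have h2 := Lau.ext_gen hL1 (fun z hz => by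
        have h3 := right_step (by omega) (fun w hw => ih (L - 2) (by omega) (by omega) hw) hz
        have h4 := congrFun h3 s
        exact h4) y hy
      exact sub_eq_zero.mp h2
    · exact small_right hL h hy

/-- reflection at the left end -/
theorem refl_left {L : ℕ} (hL : 1 ≤ L) {y : ℕ → ℂ} (hy : NZ L y) : gv L (iv 0 y) = gv L y := by
  revert y
  induction L using Nat.strong_induction_on with
  | _ L ih =>
    intro y hy
    rcases Nat.lt_or_ge 3 L with h | h
    · funext s
      have hL1 : Lau L (fun z => gv L (iv 0 z) s - gv L z s) :=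
        (lau_iv (by omega) (gv_lau L s)).sub (gv_lau L s)
      have h2 := Lau.ext_gen hL1 (fun z hz => by
        have h3 := left_step (by omega) (fun w hw => ih (L - 2) (by omega) (by omega) hw)
          (fun w hw => refl_right (by omega) hw) hz
        have h4 := congrFun h3 s
        exact h4) y hy
      exact sub_eq_zero.mp h2
    · exact small_left hL h hy

end PX
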