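import Pool.Agent.Lib.MP_216314_pr.X.GenA

/-!
# Insertion of the pair `u`, `ω u` of arguments
-/

set_option autoImplicit false

noncomputable section

namespace PX

open Finset

/-- insertion of the pair `u`, `ω u` -/
def ip (i : ℕ) (u : ℂ) (w : ℕ → ℂ) : ℕ → ℂ := fun k =>
  if k < i then w k else if k = i then u else if k = i + 1 then om * u else w (k - 2)

/-- the factor of the fusion relation -/
def Kf (L : ℕ) (u : ℂ) (w : ℕ → ℂ) : ℂ := ∏ k ∈ range L, (XX (om ^ 2 * u) - XX (w k))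

private theorem FusI_sw (i : ℕ) (y : ℕ → ℂ) (k : ℕ) :
    sw i y k = if k = i then y (i + 1) else if k = i + 1 then y i else y k := by
  by_cases h1 : k = i
  · rw [if_pos h1, h1, sw_left]
  · by_cases h2 : k = i + 1
    · rw [if_neg h1, if_pos h2, h2, sw_right]
    · rw [if_neg h1, if_neg h2, sw_of_ne i y h1 h2]

theorem nz_ip {L i : ℕ} (hi : i ≤ L) {u : ℂ} (hu : u ≠ 0) {w : ℕ → ℂ} (hw : NZ L w) :
    NZ (L + 2) (ip i u w) := by
  intro k hk
  unfold ip
  split_ifs with h1 h2 h3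
  · exact hw k (by omega)
  · exact hu
  · exact mul_ne_zero om_ne_zero hu
  · exact hw (k - 2) (by omega)

theorem ip_dl (i : ℕ) (y : ℕ → ℂ) (h : y (i + 1) = om * y i) : ip i (y i) (dl i y) = y := by
  funext k
  unfold ip dl
  split_ifs with h1 h2 h3 h4
  · rfl
  · rw [h2]
  · rw [h3, h]
  · exfalso
    omega
  · have e : k - 2 + 2 = k := by omega
    rw [e]

theorem ip_left (i : ℕ) (u : ℂ) (w : ℕ → ℂ) : ip i u w i = u := by
  unfold ip
  rw [if_neg (lt_irrefl i), if_pos rfl]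

theorem ip_right (i : ℕ) (u : ℂ) (w : ℕ → ℂ) : ip i u w (i + 1) = om * u := by
  unfold ip
  rw [if_neg (by omega), if_neg (by omega), if_pos rfl]

theorem ip_lt {i k : ℕ} (u : ℂ) (w : ℕ → ℂ) (h : k < i) : ip i u w k = w k := by
  unfold ip
  rw [if_pos h]

theorem ip_ge {i k : ℕ} (u : ℂ) (w : ℕ → ℂ) (h : i ≤ k) : ip i u w (k + 2) = w k := by
  unfold ip
  rw [if_neg (by omega), if_neg (by omega), if_neg (by omega), Nat.add_sub_cancel]

theorem sw_ip_lt {i j : ℕ} (u : ℂ) (w : ℕ → ℂ) (h : j + 1 < i) : sw j (ip i u w) = ip i u (sw j w) := by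
  funext k
  rw [FusI_sw]
  by_cases h1 : k = j
  · rw [if_pos h1, ip_lt u w h, h1, ip_lt u _ (by omega : j < i), sw_left]
  · by_cases h2 : k = j + 1
    · rw [if_neg h1, if_pos h2, ip_lt u w (by omega : j < i), h2, ip_lt u _ h, sw_right]
    · rw [if_neg h1, if_neg h2]
      unfold ip
      split_ifs with h3 h4 h5
      · rw [sw_of_ne j w h1 h2]
      · rfl
      · rfl
      · rw [sw_of_ne j w (by omega) (by omega)]

theorem sw_ip_ge {i j : ℕ} (u : ℂ) (w : ℕ → ℂ) (h : i ≤ j) :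
    sw (j + 2) (ip i u w) = ip i u (sw j w) := by
  funext k
  rw [FusI_sw]
  by_cases h1 : k = j + 2
  · have e : j + 2 + 1 = (j + 1) + 2 := by omega
    rw [if_pos h1, e, ip_ge u w (by omega : i ≤ j + 1), h1, ip_ge u _ h, sw_left]
  · by_cases h2 : k = j + 2 + 1
    · have e : j + 2 + 1 = (j + 1) + 2 := by omega
      rw [if_neg h1, if_pos h2, ip_ge u w h, h2, e, ip_ge u _ (by omega : i ≤ j + 1), sw_right]
    · rw [if_neg h1, if_neg h2]
      unfold ip
      split_ifs with h3 h4 h5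
      · rw [sw_of_ne j w (by omega) (by omega)]
      · rfl
      · rfl
      · rw [sw_of_ne j w (by omega) (by omega)]

/-- the pair moves past one argument -/
theorem sw_sw_ip (i : ℕ) (u : ℂ) (w : ℕ → ℂ) : sw i (sw (i + 1) (ip i u w)) = ip (i + 1) u w := by
  funext k
  rw [FusI_sw]
  by_cases h1 : k = i
  · rw [if_pos h1, sw_left, h1, ip_lt u w (by omega : i < i + 1)]
    exact ip_ge u w (le_refl i)
  · by_cases h2 : k = i + 1
    · rw [if_neg h1, if_pos h2, sw_of_ne (i + 1) _ (by omega : i ≠ i + 1) (by omega : i ≠ i + 1 + 1),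
        ip_left, h2, ip_left]
    · rw [if_neg h1, if_neg h2]
      by_cases h3 : k = i + 1 + 1
      · rw [h3, sw_right, ip_right, ip_right]
      · rw [sw_of_ne (i + 1) _ h2 h3]
        rcases lt_or_ge k i with h4 | h4
        · rw [ip_lt u w h4, ip_lt u w (by omega : k < i + 1)]
        · obtain ⟨m, rfl⟩ : ∃ m, k = m + 2 := ⟨k - 2, by omega⟩
          rw [ip_ge u w (by omega : i ≤ m), ip_ge u w (by omega : i + 1 ≤ m)]

theorem Kf_sw {L j : ℕ} (hj : j + 1 < L) (u : ℂ) (w : ℕ → ℂ) : Kf L u (sw j w) = Kf L u w := by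
  unfold Kf
  have h := prod_sw hj (fun k => XX (om ^ 2 * u) - XX (w k))
  have e : ∀ k, sw j (fun k => XX (om ^ 2 * u) - XX (w k)) k = XX (om ^ 2 * u) - XX (sw j w k) := by
    intro k
    rw [FusI_sw, FusI_sw]
    split_ifs <;> rfl
  rw [← h]
  exact Finset.prod_congr rfl fun k _ => (e k).symm

end PX
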