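import Pool.Agent.Lib.MP_216314_pr.X.Def

/-!
# Exchange of coordinates, generic points
-/

set_option autoImplicit false

noncomputable section

namespace PX

open Finset

theorem nz_sw {L : ℕ} {y : ℕ → ℂ} (h : NZ L y) {i : ℕ} (hi : i + 1 < L) : NZ L (sw i y) := by
  intro k hk
  unfold sw
  apply h
  rcases eq_or_ne k i with h1 | h1
  · rw [h1, Equiv.swap_apply_left]
    exact hi
  · rcases eq_or_ne k (i + 1) with h2 | h2
    · rw [h2, Equiv.swap_apply_right]
      omega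
    · rw [Equiv.swap_apply_of_ne_of_ne h1 h2]
      exact hk

theorem nz_upd {L : ℕ} {y : ℕ → ℂ} (h : NZ L y) (i : ℕ) {t : ℂ} (ht : t ≠ 0) :
    NZ L (Function.update y i t) := by
  intro k hk
  rcases eq_or_ne k i with h1 | h1
  · rw [h1, Function.update_self]
    exact ht
  · rw [Function.update_of_ne h1]
    exact h k hk

theorem nz_inv {L : ℕ} {y : ℕ → ℂ} (h : NZ L y) : NZ L (fun k => (y k)⁻¹) := by
  intro k hk
  exact inv_ne_zero (h k hk)

theorem nz_dl {L : ℕ} {y : ℕ → ℂ} (h : NZ (L + 2) y) (i : ℕ) : NZ L (dl i y) := by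
  intro k hk
  unfold dl
  split_ifs with h1
  · exact h k (by omega)
  · exact h (k + 2) (by omega)

theorem sw_sw (i : ℕ) (y : ℕ → ℂ) : sw i (sw i y) = y := by
  funext k
  unfold sw
  rw [Equiv.swap_apply_self]

theorem sw_left (i : ℕ) (y : ℕ → ℂ) : sw i y i = y (i + 1) := by
  unfold sw
  rw [Equiv.swap_apply_left]

theorem sw_right (i : ℕ) (y : ℕ → ℂ) : sw i y (i + 1) = y i := by
  unfold sw
  rw [Equiv.swap_apply_right]

theorem sw_of_ne (i : ℕ) (y : ℕ → ℂ) {k : ℕ} (h1 : k ≠ i) (h2 : k ≠ i + 1) : sw i y k = y k := by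
  unfold sw
  rw [Equiv.swap_apply_of_ne_of_ne h1 h2]

private theorem genA_swap_lt {L i k : ℕ} (hi : i + 1 < L) (hk : k < L) :
    Equiv.swap i (i + 1) k < L := by
  rcases eq_or_ne k i with h1 | h1
  · rw [h1, Equiv.swap_apply_left]
    exact hi
  · rcases eq_or_ne k (i + 1) with h2 | h2
    · rw [h2, Equiv.swap_apply_right]
      omega
    · rw [Equiv.swap_apply_of_ne_of_ne h1 h2]
      exact hk

theorem prod_sw {L i : ℕ} (hi : i + 1 < L) (y : ℕ → ℂ) :
    ∏ k ∈ range L, sw i y k = ∏ k ∈ range L, y k := by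
  unfold sw
  refine Finset.prod_bij (fun k _ => Equiv.swap i (i + 1) k) ?_ ?_ ?_ ?_
  · intro k hk
    rw [Finset.mem_range] at hk ⊢
    exact genA_swap_lt hi hk
  · intro a _ b _ hab
    exact (Equiv.swap i (i + 1)).injective hab
  · intro k hk
    rw [Finset.mem_range] at hk
    exact ⟨Equiv.swap i (i + 1) k, Finset.mem_range.mpr (genA_swap_lt hi hk),
      Equiv.swap_apply_self _ _ _⟩
  · intro k _
    rfl

/-- a polynomial with more zeros than its degree vanishes -/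
theorem zero_of_card {p : Polynomial ℂ} {b : ℕ} (hp : p.natDegree ≤ b) (s : Finset ℂ)
    (hs : ∀ x ∈ s, p.eval x = 0) (hb : b < s.card) : p = 0 := by
  refine Polynomial.eq_zero_of_natDegree_lt_card_of_eval_eq_zero' p s hs ?_
  omega

/-- generic points: all the `6`-th powers differ from `1` and all the cubes and their inverses are distinct -/
def Gen (L : ℕ) (y : ℕ → ℂ) : Prop :=
  NZ L y ∧ (∀ i, i < L → y i ^ 6 ≠ 1) ∧
    ∀ i j, i < L → j < L → i ≠ j → y i ^ 3 ≠ y j ^ 3 ∧ y i ^ 3 * y j ^ 3 ≠ 1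

theorem gen_sw {L : ℕ} {y : ℕ → ℂ} (h : Gen L y) {i : ℕ} (hi : i + 1 < L) : Gen L (sw i y) := by
  refine ⟨nz_sw h.1 hi, ?_, ?_⟩
  · intro k hk
    exact h.2.1 _ (genA_swap_lt hi hk)
  · intro k l hk hl hkl
    exact h.2.2 _ _ (genA_swap_lt hi hk) (genA_swap_lt hi hl)
      (fun h1 => hkl ((Equiv.swap i (i + 1)).injective h1))

theorem Gen.ne_mul {L : ℕ} {y : ℕ → ℂ} (h : Gen L y) {i j : ℕ} (hi : i < L) (hj : j < L)
    (hij : i ≠ j) : y i ≠ y j ∧ om * y i ≠ y j ∧ om ^ 2 * y i ≠ y j ∧ y i * y j ≠ 1 ∧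
      y i * y j ≠ om ∧ y i * y j ≠ om ^ 2 := by
  obtain ⟨h1, h2⟩ := h.2.2 i j hi hj hij
  have c6 : om ^ 6 = 1 := by
    have : om ^ 6 = (om ^ 3) ^ 2 := by ring
    rw [this, om_cube, one_pow]
  refine ⟨?_, ?_, ?_, ?_, ?_, ?_⟩
  · intro e
    apply h1
    rw [e]
  · intro e
    apply h1
    rw [← e]
    linear_combination (-(y i) ^ 3) * om_cube
  · intro e
    apply h1
    rw [← e]
    linear_combination (-(y i) ^ 3) * c6
  · intro e
    apply h2
    have : y i ^ 3 * y j ^ 3 = (y i * y j) ^ 3 := by ring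
    rw [this, e, one_pow]
  · intro e
    apply h2
    have : y i ^ 3 * y j ^ 3 = (y i * y j) ^ 3 := by ring
    rw [this, e, om_cube]
  · intro e
    apply h2
    have : y i ^ 3 * y j ^ 3 = (y i * y j) ^ 3 := by ring
    rw [this, e]
    have : (om ^ 2) ^ 3 = om ^ 6 := by ring
    rw [this, c6]

end PX
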