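import Pool.Agent.Lib.MP_216314_pr.X.BC

/-!
# Stream B: recursion of `chr`
-/

set_option autoImplicit false

noncomputable section

namespace PX

open Finset

theorem chr_rec {L : ℕ} {y : ℕ → ℂ} (h : NZ (L + 2) y) (h1 : y 1 = om * y 0)
    (hd : Dist (L + 2) y) :
    chr (L + 2) y = (∏ k ∈ range L, (XX (y (k + 2)) - XX (om ^ 2 * y 0))) * chr L (dl 0 y) := by
  have h0 : y 0 ≠ 0 := h 0 (by omega)
  have ha : XX (y 1) - XX (y 0) ≠ 0 := sub_ne_zero.2 (hd 1 0 (by omega) (by omega) (by omega))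
  have hb : (∏ k ∈ range L, ((XX (y (k + 2)) - XX (y 0)) * (XX (y (k + 2)) - XX (y 1)))) ≠ 0 := by
    refine Finset.prod_ne_zero_iff.2 fun k hk => ?_
    have hk' := Finset.mem_range.1 hk
    exact mul_ne_zero (sub_ne_zero.2 (hd (k + 2) 0 (by omega) (by omega) (by omega)))
      (sub_ne_zero.2 (hd (k + 2) 1 (by omega) (by omega) (by omega)))
  have hc : (∏ k ∈ range L,
      (XX (y (k + 2)) ^ 3 - 3 * XX (y (k + 2)) - (XX (y 0) ^ 3 - 3 * XX (y 0)))) =
      (∏ k ∈ range L, ((XX (y (k + 2)) - XX (y 0)) * (XX (y (k + 2)) - XX (y 1)))) *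
        (∏ k ∈ range L, (XX (y (k + 2)) - XX (om ^ 2 * y 0))) := by
    rw [← Finset.prod_mul_distrib]
    refine Finset.prod_congr rfl fun k _ => ?_
    rw [XX_cubic h0, h1]
  unfold chr
  rw [Del_rec h h1, Vdm_rec, hc]
  rw [show (XX (y 1) - XX (y 0)) *
      ((∏ k ∈ range L, ((XX (y (k + 2)) - XX (y 0)) * (XX (y (k + 2)) - XX (y 1)))) *
        (∏ k ∈ range L, (XX (y (k + 2)) - XX (om ^ 2 * y 0)))) * Del L (dl 0 y) =
      ((XX (y 1) - XX (y 0)) *
        (∏ k ∈ range L, ((XX (y (k + 2)) - XX (y 0)) * (XX (y (k + 2)) - XX (y 1))))) *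
      ((∏ k ∈ range L, (XX (y (k + 2)) - XX (om ^ 2 * y 0))) * Del L (dl 0 y)) by ring]
  rw [mul_div_mul_left _ _ (mul_ne_zero ha hb), mul_div_assoc]

end PX
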