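import Pool.Agent.Lib.MP_216314_pr.S.SPer
import Pool.Agent.Lib.MP_216314_pr.X.AB

/-!
# Translation of the stationary vector to the conventions of the word process

A configuration `D` of positions `1, ..., 2n+1` is the set of the positions `k + 1`, `k` up.
-/

set_option autoImplicit false

noncomputable section

namespace PX

open Finset

/-- shift of a configuration by one to the left -/
def shl (D : Finset ℕ) : Finset ℕ := D.preimage (fun k => k + 1) (fun _ _ _ _ h => Nat.succ_injective h)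

theorem mem_shl {D : Finset ℕ} {k : ℕ} : k ∈ shl D ↔ k + 1 ∈ D := by
  simp [shl]

/-- translation of a vector -/
def tr (v : Vec) : QS.Vc := fun D => v (shl D)

theorem s_sq : QS.s ^ 2 = -om ^ 2 := by
  have h3 : Real.sqrt 3 * Real.sqrt 3 = 3 := Real.mul_self_sqrt (by norm_num)
  apply Complex.ext
  · simp only [QS.s, om, pow_two, Complex.mul_re, Complex.neg_re]
    nlinarith [h3]
  · simp only [QS.s, om, pow_two, Complex.mul_im, Complex.neg_im]
    nlinarith [h3]

theorem s_sq_inv : (QS.s ^ 2)⁻¹ = -om := by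
  rw [s_sq, ← neg_om_inv, inv_inv]

theorem shl_swD (i : ℕ) (D : Finset ℕ) : shl (QS.swD (i + 1) D) = sg i (shl D) := by
  ext k
  rw [mem_shl, mem_sg, mem_shl]
  unfold QS.swD
  rw [Finset.mem_map_equiv, Equiv.symm_swap]
  have h : Equiv.swap (i + 1) (i + 1 + 1) (k + 1) = Equiv.swap i (i + 1) k + 1 := by
    by_cases h1 : k = i
    · subst h1
      rw [Equiv.swap_apply_left, Equiv.swap_apply_left]
    · by_cases h2 : k = i + 1
      · subst h2
        rw [Equiv.swap_apply_right, Equiv.swap_apply_right]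
      · rw [Equiv.swap_apply_of_ne_of_ne (by omega) (by omega), Equiv.swap_apply_of_ne_of_ne h1 h2]
  rw [h]

theorem tr_ee (i : ℕ) (v : Vec) : tr (ee i v) = QS.ee (i + 1) (tr v) := by
  funext D
  unfold QS.ee tr
  rw [shl_swD]
  have h1 : (i + 1 ∈ D) = (i ∈ shl D) := propext mem_shl.symm
  have h2 : (i + 1 + 1 ∈ D) = (i + 1 ∈ shl D) := propext mem_shl.symm
  simp only [h1, h2]
  by_cases h : (i ∈ shl D ↔ i + 1 ∈ shl D)
  · rw [if_pos h, ee_apply_eq _ _ _ h]
  · rw [if_neg h]
    by_cases h' : i ∈ shl D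
    · have h'' : i + 1 ∉ shl D := fun hh => h ⟨fun _ => hh, fun _ => h'⟩
      rw [if_pos h', ee_apply_left _ _ _ h' h'', s_sq_inv]
    · have h'' : i + 1 ∈ shl D := by
        by_contra hh
        exact h ⟨fun x => absurd x h', fun x => absurd x hh⟩
      rw [if_neg h', ee_apply_right _ _ _ h' h'', s_sq]

theorem tr_RR (i : ℕ) (v : Vec) : tr (RR i v) = fun D => (tr v D + QS.ee (i + 1) (tr v) D) / 2 := by
  rw [← tr_ee, RR_apply]
  funext D
  unfold tr
  simp only [Pi.smul_apply, Pi.add_apply, smul_eq_mul]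
  ring

theorem opH_append (l l' : List ℕ) (v : QS.Vc) : QS.opH (l ++ l') v = QS.opH l' (QS.opH l v) := by
  induction l generalizing v with
  | nil => rfl
  | cons i l ih => exact ih _

theorem tr_Rup (m : ℕ) (v : Vec) :
    tr (Rup m v) = QS.opH ((List.range m).map (fun k => k + 1)) (tr v) := by
  induction m with
  | zero => rfl
  | succ m ih =>
    rw [List.range_succ, List.map_append, opH_append, ← ih, Rup_succ, tr_RR]
    rfl

theorem tr_Rdn (m : ℕ) (v : Vec) :
    tr (Rdn m v) = QS.opH ((List.range m).map (fun k => m - k)) (tr v) := by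
  induction m generalizing v with
  | zero => rfl
  | succ m ih =>
    rw [Rdn_succ, ih, List.range_succ_eq_map, List.map_cons, List.map_map]
    have h1 : ((fun k => m + 1 - k) ∘ Nat.succ) = (fun k => m - k) := by
      funext k
      simp only [Function.comp_apply]
      omega
    rw [h1, tr_RR]
    rfl

theorem tr_AA (n : ℕ) (v : Vec) : tr (AA (2 * n + 1) v) = QS.AA n (tr v) := by
  rw [AA_apply]
  unfold QS.AA QS.per
  rw [opH_append, show 2 * n + 1 - 1 = 2 * n from rfl, tr_Rdn, tr_Rup]

/-- the stationary vector in the conventions of the word process -/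
def Psi (n : ℕ) : QS.Vc := tr (FF n)

theorem AA_Psi (n : ℕ) : QS.AA n (Psi n) = Psi n := by
  unfold Psi
  rw [← tr_AA, AA_FF]

theorem shl_map (s : Finset ℕ) : shl (s.map ⟨fun k => k + 1, Nat.succ_injective⟩) = s := by
  ext k
  rw [mem_shl, Finset.mem_map]
  constructor
  · rintro ⟨a, ha, h⟩
    have h1 : a = k := Nat.succ_injective h
    rwa [← h1]
  · intro h
    exact ⟨k, h, rfl⟩

theorem sum_sec (n : ℕ) (f : Finset ℕ → ℂ) :
    ∑ D ∈ QS.sec n, f (shl D) = ∑ a ∈ cfn (2 * n + 1) n, f a := by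
  refine Finset.sum_bij' (fun D _ => shl D) (fun a _ => a.map ⟨fun k => k + 1, Nat.succ_injective⟩)
    ?_ ?_ ?_ ?_ ?_
  · intro D hD
    unfold QS.sec at hD
    rw [Finset.mem_powersetCard] at hD
    have h1 : D = (shl D).map ⟨fun k => k + 1, Nat.succ_injective⟩ := by
      ext k
      rw [Finset.mem_map]
      constructor
      · intro hk
        have h2 := Finset.mem_Icc.1 (hD.1 hk)
        exact ⟨k - 1, mem_shl.2 (by rwa [Nat.sub_add_cancel h2.1]), Nat.sub_add_cancel h2.1⟩
      · rintro ⟨a, ha, h⟩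
        have h2 := mem_shl.1 ha
        have h3 : a + 1 = k := h
        rwa [← h3]
    rw [mem_cfn]
    constructor
    · intro k hk
      have h2 := Finset.mem_Icc.1 (hD.1 (mem_shl.1 hk))
      exact Finset.mem_range.2 (by omega)
    · rw [← hD.2]
      conv_rhs => rw [h1, Finset.card_map]
  · intro a ha
    rw [mem_cfn] at ha
    unfold QS.sec
    rw [Finset.mem_powersetCard]
    constructor
    · intro k hk
      rw [Finset.mem_map] at hk
      obtain ⟨x, hx, hx'⟩ := hk
      have h2 := Finset.mem_range.1 (ha.1 hx)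
      have h3 : x + 1 = k := hx'
      exact Finset.mem_Icc.2 ⟨by omega, by omega⟩
    · rw [Finset.card_map, ha.2]
  · intro D hD
    unfold QS.sec at hD
    rw [Finset.mem_powersetCard] at hD
    ext k
    rw [Finset.mem_map]
    constructor
    · rintro ⟨a, ha, h⟩
      have h2 := mem_shl.1 ha
      have h3 : a + 1 = k := h
      rwa [← h3]
    · intro hk
      have h2 := Finset.mem_Icc.1 (hD.1 hk)
      exact ⟨k - 1, mem_shl.2 (by rwa [Nat.sub_add_cancel h2.1]), Nat.sub_add_cancel h2.1⟩
  · intro a _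
    exact shl_map a
  · intro D _
    rfl

theorem ip_Psi (n : ℕ) : QS.ip n (Psi n) (Psi n) = BF (2 * n + 1) n (fun _ => 1) (FF n) (FF n) := by
  unfold QS.ip BF Psi tr
  rw [sum_sec n (fun a => FF n a * FF n a)]
  exact Finset.sum_congr rfl (fun a _ => by ring)

theorem ip_Psi_ne (n : ℕ) : QS.ip n (Psi n) (Psi n) ≠ 0 := by
  rw [ip_Psi]
  exact FF_D n

theorem ip_Psi_Ox (n : ℕ) : QS.ip n (Psi n) (QS.Ox 1 (Psi n)) =
    ((rho n : ℝ) : ℂ) * BF (2 * n + 1) n (fun _ => 1) (FF n) (FF n) := by
  have h1 : QS.ip n (Psi n) (QS.Ox 1 (Psi n)) = -om * BF (2 * n + 1) n cz (FF n) (FF n) := by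
    unfold QS.ip BF Psi QS.Ox tr
    have h2 : ∀ D : Finset ℕ, FF n (shl D) *
        (if 1 ∈ D then (QS.s ^ 2)⁻¹ * FF n (shl D) else FF n (shl D)) =
        (fun a => -om * (cz a * FF n a * FF n a)) (shl D) := by
      intro D
      have h3 : (1 ∈ D) = (0 ∈ shl D) := propext mem_shl.symm
      simp only [h3, s_sq_inv]
      unfold cz
      split_ifs
      · ring
      · linear_combination (-(FF n (shl D) * FF n (shl D))) * om_cube
    rw [Finset.sum_congr rfl (fun D _ => h2 D), sum_sec n (fun a => -om * (cz a * FF n a * FF n a)),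
      Finset.mul_sum]
  rw [h1, FF_M]
  linear_combination (((rho n : ℝ) : ℂ) * BF (2 * n + 1) n (fun _ => 1) (FF n) (FF n)) * om_cube

/-- the limit of the one-arm probabilities -/
theorem ip_quot (n : ℕ) : QS.ip n (Psi n) (QS.Ox 1 (Psi n)) / QS.ip n (Psi n) (Psi n) =
    ((rho n : ℝ) : ℂ) := by
  rw [ip_Psi_Ox, ip_Psi, mul_div_assoc, div_self (FF_D n), mul_one]

end PX
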