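import Pool.Agent.Lib.MP_216314_pr.X.BB

/-!
# Stream B: exact value of the quotient of two characters at `w_j = exp(i ε (j+1))`
-/

set_option autoImplicit false

noncomputable section

namespace PX

open Finset

/-- the sequence `a, w_0, w_1, ...` -/
def cns (a : ℂ) (w : ℕ → ℂ) : ℕ → ℂ := fun k => if k = 0 then a else w (k - 1)

/-- `w_j = exp(i ε (j+1))` -/
def wv (ε : ℝ) : ℕ → ℂ := fun j => Complex.exp (Complex.I * ((ε * (j + 1) : ℝ) : ℂ))

/-- `2 cos (m ε)` -/
def ccB (ε : ℝ) (m : ℕ) : ℂ := ((2 * Real.cos (m * ε) : ℝ) : ℂ)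

/-- `sin (m ε)` -/
def ssB (ε : ℝ) (m : ℕ) : ℂ := ((Real.sin (m * ε) : ℝ) : ℂ)

theorem XX_wv (ε : ℝ) (j : ℕ) : XX (wv ε j) = ccB ε (j + 1) := by
  unfold XX wv ccB
  rw [← Complex.exp_neg]
  have h1 := Complex.two_cos (((ε * (j + 1) : ℝ) : ℂ))
  have h2 : (((2 * Real.cos (((j + 1 : ℕ) : ℝ) * ε) : ℝ)) : ℂ) = 2 * Complex.cos (((ε * (j + 1) : ℝ) : ℂ)) := by
    rw [← Complex.ofReal_cos]
    push_cast
    rw [mul_comm (ε : ℂ)]
  rw [h2, h1]
  congr 2 <;> ring

theorem US_cc (ε : ℝ) (k m : ℕ) : US k (ccB ε m) * ssB ε m = ssB ε (m * (k + 1)) := by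
  have key : ∀ k, US k (ccB ε m) * ssB ε m = ssB ε (m * (k + 1)) ∧
      US (k + 1) (ccB ε m) * ssB ε m = ssB ε (m * (k + 1 + 1)) := by
    intro k
    induction k with
    | zero =>
      constructor
      · simp [US]
      · have h1 : US (0 + 1) (ccB ε m) = ccB ε m := rfl
        rw [h1]
        unfold ccB ssB
        rw [← Complex.ofReal_mul]
        congr 1
        have h2 : ((m * (0 + 1 + 1) : ℕ) : ℝ) * ε = 2 * ((m : ℝ) * ε) := by
          push_cast
          ring
        rw [h2, Real.sin_two_mul]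
        ring
    | succ k ih =>
      refine ⟨ih.2, ?_⟩
      have h1 : US (k + 1 + 1) (ccB ε m) = ccB ε m * US (k + 1) (ccB ε m) - US k (ccB ε m) := rfl
      have h2 : US (k + 1 + 1) (ccB ε m) * ssB ε m =
          ccB ε m * (US (k + 1) (ccB ε m) * ssB ε m) - US k (ccB ε m) * ssB ε m := by
        rw [h1]
        ring
      rw [h2, ih.1, ih.2]
      unfold ccB ssB
      rw [← Complex.ofReal_mul, ← Complex.ofReal_sub]
      congr 1
      have h3 : ((m * (k + 1 + 1 + 1) : ℕ) : ℝ) * ε = ((m * (k + 1 + 1) : ℕ) : ℝ) * ε + (m : ℝ) * ε := by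
        push_cast
        ring
      have h4 : ((m * (k + 1) : ℕ) : ℝ) * ε = ((m * (k + 1 + 1) : ℕ) : ℝ) * ε - (m : ℝ) * ε := by
        push_cast
        ring
      rw [h3, h4, Real.sin_add, Real.sin_sub]
      ring
  exact (key k).1

/-- minors of the Vandermonde matrix -/
theorem vdm_minor {N : ℕ} (v : Fin (N + 1) → ℂ) (k : Fin (N + 1)) :
    (-1) ^ (k : ℕ) * (Matrix.vandermonde (fun l => v (k.succAbove l))).det *
      (∏ l ∈ univ.erase k, (v k - v l)) = (-1) ^ N * (Matrix.vandermonde v).det := by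
  have hdeg : ∀ i : Fin (N + 1), (if i = Fin.last N then ∏ l ∈ univ.erase k, (Polynomial.X - Polynomial.C (v l))
      else Polynomial.X ^ (i : ℕ) : Polynomial ℂ).natDegree = (i : ℕ) := by
    intro i
    by_cases h : i = Fin.last N
    · rw [if_pos h, Polynomial.natDegree_prod_of_monic _ _ (fun l _ => Polynomial.monic_X_sub_C (v l))]
      simp only [Polynomial.natDegree_X_sub_C, Finset.sum_const, smul_eq_mul, mul_one]
      rw [Finset.card_erase_of_mem (Finset.mem_univ _), Finset.card_univ, Fintype.card_fin, h]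
      rfl
    · rw [if_neg h, Polynomial.natDegree_X_pow]
  have hmon : ∀ i : Fin (N + 1), (if i = Fin.last N then ∏ l ∈ univ.erase k, (Polynomial.X - Polynomial.C (v l))
      else Polynomial.X ^ (i : ℕ) : Polynomial ℂ).Monic := by
    intro i
    by_cases h : i = Fin.last N
    · rw [if_pos h]
      exact Polynomial.monic_prod_of_monic _ _ (fun l _ => Polynomial.monic_X_sub_C (v l))
    · rw [if_neg h]
      exact Polynomial.monic_X_pow _
  have h1 := Matrix.det_eval_matrixOfPolynomials_eq_det_vandermonde v _ hdeg hmon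
  obtain ⟨B, hB⟩ : ∃ B : Matrix (Fin (N + 1)) (Fin (N + 1)) ℂ, B = Matrix.of fun i j : Fin (N + 1) => Polynomial.eval (v i)
        (if j = Fin.last N then ∏ l ∈ univ.erase k, (Polynomial.X - Polynomial.C (v l))
        else Polynomial.X ^ (j : ℕ) : Polynomial ℂ) := ⟨_, rfl⟩
  rw [← hB, Matrix.det_succ_column B (Fin.last N), Finset.sum_eq_single k] at h1
  · have h2 : B.submatrix k.succAbove (Fin.last N).succAbove =
        Matrix.vandermonde (fun l => v (k.succAbove l)) := by
      ext a b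
      rw [hB, Matrix.submatrix_apply, Matrix.of_apply, Fin.succAbove_last, if_neg (Fin.castSucc_lt_last b).ne,
        Matrix.vandermonde_apply, Polynomial.eval_pow, Polynomial.eval_X]
      rfl
    have h4 : B k (Fin.last N) = ∏ l ∈ univ.erase k, (v k - v l) := by
      rw [hB, Matrix.of_apply, if_pos rfl, Polynomial.eval_prod]
      simp only [Polynomial.eval_sub, Polynomial.eval_X, Polynomial.eval_C]
    rw [h2, h4] at h1
    rw [h1, Fin.val_last]
    have h3 : ((-1 : ℂ) ^ N) * (-1) ^ N = 1 := by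
      rw [← mul_pow]
      norm_num
    rw [pow_add]
    calc (-1 : ℂ) ^ (k : ℕ) * (Matrix.vandermonde fun l => v (k.succAbove l)).det * ∏ l ∈ univ.erase k, (v k - v l)
        = ((-1 : ℂ) ^ N * (-1) ^ N) * ((-1 : ℂ) ^ (k : ℕ) * (Matrix.vandermonde fun l => v (k.succAbove l)).det *
          ∏ l ∈ univ.erase k, (v k - v l)) := by rw [h3, one_mul]
      _ = _ := by ring
  · intro i _ hi
    rw [hB, Matrix.of_apply, if_pos rfl, Polynomial.eval_prod]
    rw [Finset.prod_eq_zero (i := i) (Finset.mem_erase.2 ⟨hi, Finset.mem_univ _⟩) (by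
      rw [Polynomial.eval_sub, Polynomial.eval_X, Polynomial.eval_C, sub_self])]
    ring
  · intro h
    exact absurd (Finset.mem_univ _) h

/-- the determinants at the points `w_j` -/
theorem det_US_cc {N : ℕ} (m : Fin N → ℕ) (hm : ∀ l, 1 ≤ m l) (ε : ℝ) :
    (∏ j : Fin N, ssB ε ((j : ℕ) + 1)) *
      (Matrix.of fun j l : Fin N => US (m l - 1) (ccB ε ((j : ℕ) + 1))).det =
    (∏ l : Fin N, ssB ε (m l)) * (Matrix.vandermonde fun l : Fin N => ccB ε (m l)).det := by
  rw [Matrix.det_eval_matrixOfPolynomials_eq_det_vandermonde (fun l : Fin N => ccB ε (m l)) (fun j : Fin N => USp (j : ℕ))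
    (fun j => USp_natDegree _) (fun j => USp_monic _)]
  rw [← Matrix.det_transpose (Matrix.of fun i j : Fin N => Polynomial.eval (ccB ε (m i)) (USp (j : ℕ))),
    ← Matrix.det_mul_column (fun j : Fin N => ssB ε ((j : ℕ) + 1)), ← Matrix.det_mul_row (fun l : Fin N => ssB ε (m l))]
  congr 1
  ext j l
  rw [Matrix.of_apply, Matrix.of_apply, Matrix.of_apply, Matrix.transpose_apply, Matrix.of_apply, USp_eval]
  have h1 := US_cc ε (m l - 1) ((j : ℕ) + 1)
  have h2 := US_cc ε (j : ℕ) (m l)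
  have h3 : m l - 1 + 1 = m l := Nat.sub_add_cancel (hm l)
  rw [h3] at h1
  rw [mul_comm, h1, mul_comm (ssB ε (m l)), h2, mul_comm ((j : ℕ) + 1)]

end PX
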