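import Pool.Agent.Lib.MP_216314_pr.X.BL

/-!
# Stream B: exact value of the quotient of two characters, final form
-/

set_option autoImplicit false

noncomputable section

namespace PX

open Finset

theorem Vdm_cns (N : ℕ) (a : ℂ) (w : ℕ → ℂ) :
    Vdm (N + 1) (cns a w) = (∏ j ∈ range N, (XX (w j) - XX a)) * Vdm N w := by
  unfold Vdm
  rw [Matrix.det_vandermonde, Matrix.det_vandermonde, Fin.prod_univ_succ, Fin.prod_Ioi_zero,
    Finset.prod_range]
  have h0 : cns a w ((0 : Fin (N + 1)) : ℕ) = a := by simp [cns]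
  have h1 : ∀ j : Fin N, cns a w ((j.succ : Fin (N + 1)) : ℕ) = w (j : ℕ) := by
    intro j
    simp [cns]
  refine congrArg₂ (fun x y : ℂ => x * y) ?_ ?_
  · refine Finset.prod_congr rfl fun j _ => ?_
    rw [h0, h1]
  · refine Finset.prod_congr rfl fun i _ => ?_
    rw [Fin.prod_Ioi_succ]
    refine Finset.prod_congr rfl fun j _ => ?_
    rw [h1, h1]

theorem Del_cns (N : ℕ) (a : ℂ) (w : ℕ → ℂ) :
    Del (N + 1) (cns a w) = ∑ k : Fin (N + 1), (-1) ^ (k : ℕ) * US (mm k - 1) (XX a) *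
      (Matrix.of fun j l : Fin N => US (mm (k.succAbove l) - 1) (XX (w j))).det := by
  unfold Del
  rw [Matrix.det_succ_row_zero]
  refine Finset.sum_congr rfl fun k _ => ?_
  have h0 : cns a w ((0 : Fin (N + 1)) : ℕ) = a := by simp [cns]
  have h1 : ∀ j : Fin N, cns a w ((j.succ : Fin (N + 1)) : ℕ) = w (j : ℕ) := by
    intro j
    simp [cns]
  have h2 : (Matrix.of fun i j : Fin (N + 1) => US (mm (j : ℕ) - 1) (XX (cns a w (i : ℕ)))).submatrix
      Fin.succ k.succAbove =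
      Matrix.of fun j l : Fin N => US (mm (k.succAbove l) - 1) (XX (w j)) := by
    ext i j
    simp only [Matrix.submatrix_apply, Matrix.of_apply]
    rw [h1]
  rw [h2, Matrix.of_apply, h0]

theorem chr_ratio (N : ℕ) (hN : Even N) (a : ℂ) (ε : ℝ)
    (hs : ∀ m : ℕ, 1 ≤ m → m ≤ mm N → ssB ε m ≠ 0)
    (hc : ∀ m m' : ℕ, 1 ≤ m → m < m' → m' ≤ mm N → ccB ε m ≠ ccB ε m') :
    chr (N + 1) (cns a (wv ε)) / chr N (wv ε) =
      (∏ j ∈ range N, (XX (wv ε j) - XX a))⁻¹ *
      ∑ k : Fin (N + 1), US (mm k - 1) (XX a) *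
        ((ssB ε (mm N) * ∏ l ∈ univ.erase (Fin.last N), (ccB ε (mm N) - ccB ε (mm l))) /
          (ssB ε (mm k) * ∏ l ∈ univ.erase k, (ccB ε (mm k) - ccB ε (mm l)))) := by
  have hmm : ∀ k : Fin (N + 1), mm (k : ℕ) ≤ mm N := fun k =>
    mm_strictMono.monotone (Nat.lt_succ_iff.mp k.isLt)
  have hNm : N ≤ mm N := by
    unfold mm
    omega
  -- nonvanishing
  have hsk : ∀ k : Fin (N + 1), ssB ε (mm (k : ℕ)) ≠ 0 := fun k => hs _ (mm_pos _) (hmm k)
  have hS : (∏ j : Fin N, ssB ε ((j : ℕ) + 1)) ≠ 0 := by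
    refine Finset.prod_ne_zero_iff.mpr fun j _ => ?_
    have := j.isLt
    exact hs _ (by omega) (by omega)
  have hcd : ∀ k l : Fin (N + 1), k ≠ l → ccB ε (mm (k : ℕ)) - ccB ε (mm (l : ℕ)) ≠ 0 := by
    intro k l hkl
    rcases lt_or_gt_of_ne hkl with h | h
    · exact sub_ne_zero.mpr (hc _ _ (mm_pos _) (mm_strictMono h) (hmm l))
    · exact sub_ne_zero.mpr (hc _ _ (mm_pos _) (mm_strictMono h) (hmm k)).symm
  have hP : ∀ k : Fin (N + 1), (∏ l ∈ univ.erase k, (ccB ε (mm (k : ℕ)) - ccB ε (mm (l : ℕ)))) ≠ 0 := by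
    intro k
    refine Finset.prod_ne_zero_iff.mpr fun l hl => ?_
    exact hcd k l (Finset.ne_of_mem_erase hl).symm
  have hV : (Matrix.vandermonde fun l : Fin (N + 1) => ccB ε (mm (l : ℕ))).det ≠ 0 := by
    rw [Matrix.det_vandermonde_ne_zero_iff]
    intro k l hkl
    by_contra hne
    exact hcd k l hne (sub_eq_zero.mpr hkl)
  have hT : (∏ l : Fin (N + 1), ssB ε (mm (l : ℕ))) ≠ 0 :=
    Finset.prod_ne_zero_iff.mpr fun l _ => hsk l
  have hVN : Vdm N (wv ε) ≠ 0 := by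
    apply Vdm_ne_zero
    intro i j hi hj hij
    rw [XX_wv, XX_wv]
    rcases lt_or_gt_of_ne hij with h | h
    · exact hc _ _ (by omega) (by omega) (by omega)
    · exact (hc _ _ (by omega) (by omega) (by omega)).symm
  -- the minors
  have key : ∀ k : Fin (N + 1), (∏ j : Fin N, ssB ε ((j : ℕ) + 1)) *
      ((-1) ^ (k : ℕ) * (Matrix.of fun j l : Fin N =>
        US (mm (k.succAbove l) - 1) (XX (wv ε j))).det) *
      (ssB ε (mm (k : ℕ)) * ∏ l ∈ univ.erase k, (ccB ε (mm (k : ℕ)) - ccB ε (mm (l : ℕ)))) =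
      (∏ l : Fin (N + 1), ssB ε (mm (l : ℕ))) *
        (Matrix.vandermonde fun l : Fin (N + 1) => ccB ε (mm (l : ℕ))).det := by
    intro k
    have h1 := det_US_cc (fun l : Fin N => mm ((k.succAbove l : Fin (N + 1)) : ℕ))
      (fun l => mm_pos _) ε
    have h2 := vdm_minor (fun l : Fin (N + 1) => ccB ε (mm (l : ℕ))) k
    have h3 : (Matrix.of fun j l : Fin N => US (mm (k.succAbove l) - 1) (XX (wv ε j))) =
        (Matrix.of fun j l : Fin N => US (mm (k.succAbove l) - 1) (ccB ε ((j : ℕ) + 1))) := by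
      ext j l
      simp only [Matrix.of_apply]
      rw [XX_wv]
    rw [h3, Fin.prod_univ_succAbove (fun l : Fin (N + 1) => ssB ε (mm (l : ℕ))) k]
    rw [hN.neg_one_pow, one_mul] at h2
    calc (∏ j : Fin N, ssB ε ((j : ℕ) + 1)) *
      ((-1) ^ (k : ℕ) * (Matrix.of fun j l : Fin N =>
        US (mm (k.succAbove l) - 1) (ccB ε ((j : ℕ) + 1))).det) *
      (ssB ε (mm (k : ℕ)) * ∏ l ∈ univ.erase k, (ccB ε (mm (k : ℕ)) - ccB ε (mm (l : ℕ))))
        = ((∏ j : Fin N, ssB ε ((j : ℕ) + 1)) * (Matrix.of fun j l : Fin N =>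
        US (mm (k.succAbove l) - 1) (ccB ε ((j : ℕ) + 1))).det) * (-1) ^ (k : ℕ) *
        (ssB ε (mm (k : ℕ)) * ∏ l ∈ univ.erase k, (ccB ε (mm (k : ℕ)) - ccB ε (mm (l : ℕ)))) := by
          ring
      _ = _ := by
          rw [h1, ← h2]
          ring
  have hDel : Del N (wv ε) = (Matrix.of fun j l : Fin N =>
        US (mm ((Fin.last N).succAbove l) - 1) (XX (wv ε j))).det := by
    unfold Del
    congr 1
    ext j l
    simp only [Matrix.of_apply, Fin.succAbove_last, Fin.val_castSucc]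
  have hlast := key (Fin.last N)
  rw [← hDel, Fin.val_last, hN.neg_one_pow, one_mul] at hlast
  have hDN : Del N (wv ε) ≠ 0 := by
    intro h0
    rw [h0, mul_zero, zero_mul] at hlast
    exact mul_ne_zero hT hV hlast.symm
  have hmin : ∀ k : Fin (N + 1), (-1) ^ (k : ℕ) * (Matrix.of fun j l : Fin N =>
        US (mm (k.succAbove l) - 1) (XX (wv ε j))).det = Del N (wv ε) *
        ((ssB ε (mm N) * ∏ l ∈ univ.erase (Fin.last N), (ccB ε (mm N) - ccB ε (mm l))) /
          (ssB ε (mm k) * ∏ l ∈ univ.erase k, (ccB ε (mm k) - ccB ε (mm l)))) := by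
    intro k
    have h1 := key k
    rw [← hlast] at h1
    rw [← mul_div_assoc, eq_div_iff (mul_ne_zero (hsk k) (hP k))]
    refine mul_left_cancel₀ hS ?_
    rw [← mul_assoc, ← mul_assoc (∏ j : Fin N, ssB ε ((j : ℕ) + 1)) (Del N (wv ε))]
    exact h1
  have hsum : Del (N + 1) (cns a (wv ε)) = Del N (wv ε) *
      ∑ k : Fin (N + 1), US (mm k - 1) (XX a) *
        ((ssB ε (mm N) * ∏ l ∈ univ.erase (Fin.last N), (ccB ε (mm N) - ccB ε (mm l))) /
          (ssB ε (mm k) * ∏ l ∈ univ.erase k, (ccB ε (mm k) - ccB ε (mm l)))) := by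
    rw [Del_cns, Finset.mul_sum]
    refine Finset.sum_congr rfl fun k _ => ?_
    have h1 := hmin k
    calc (-1) ^ (k : ℕ) * US (mm k - 1) (XX a) * (Matrix.of fun j l : Fin N =>
        US (mm (k.succAbove l) - 1) (XX (wv ε j))).det
        = US (mm k - 1) (XX a) * ((-1) ^ (k : ℕ) * (Matrix.of fun j l : Fin N =>
        US (mm (k.succAbove l) - 1) (XX (wv ε j))).det) := by ring
      _ = _ := by
        rw [h1]
        ring
  unfold chr
  rw [Vdm_cns, hsum]
  generalize (∏ j ∈ range N, (XX (wv ε j) - XX a)) = P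
  generalize (∑ k : Fin (N + 1), US (mm k - 1) (XX a) *
        ((ssB ε (mm N) * ∏ l ∈ univ.erase (Fin.last N), (ccB ε (mm N) - ccB ε (mm l))) /
          (ssB ε (mm k) * ∏ l ∈ univ.erase k, (ccB ε (mm k) - ccB ε (mm l))))) = Q
  by_cases hPz : P = 0
  · rw [hPz]
    simp
  · field_simp

end PX
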