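import Pool.Agent.Lib.MP_216314_pr.X.Def

/-!
# Spin vectors: a spin vector is a function on finite sets of natural numbers (the set of up spins). `Ins i` inserts the singlet at the positions `i`, `i+1`; `Con i` contracts with the singlet
-/

set_option autoImplicit false

noncomputable section

namespace PX

open Finset

/-- spin vectors -/
abbrev Vec := Finset ℕ → ℂ

/-- shift past the pair of positions `i`, `i+1` -/
def up (i k : ℕ) : ℕ := if k < i then k else k + 2

theorem up_inj (i : ℕ) : Function.Injective (up i) := by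
  intro a b h
  unfold up at h
  split_ifs at h <;> omega

/-- remove the positions `i`, `i+1` -/
def rm (i : ℕ) (s : Finset ℕ) : Finset ℕ := s.preimage (up i) (fun _ _ _ _ h => up_inj i h)

/-- insert two down spins at the positions `i`, `i+1` -/
def mk (i : ℕ) (s : Finset ℕ) : Finset ℕ := s.map ⟨up i, up_inj i⟩

/-- exchange the positions `i`, `i+1` -/
def sg (i : ℕ) (s : Finset ℕ) : Finset ℕ := s.map (Equiv.swap i (i + 1)).toEmbedding

/-- the singlet -/
def cc (a b : Prop) [Decidable a] [Decidable b] : ℂ :=
  if a then (if b then 0 else 1) else (if b then -om ^ 2 else 0)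

/-- insertion of the singlet at the positions `i`, `i+1` -/
def Ins (i : ℕ) : Vec →ₗ[ℂ] Vec where
  toFun v := fun s => cc (i ∈ s) (i + 1 ∈ s) * v (rm i s)
  map_add' v w := by
    funext s
    simp only [Pi.add_apply]
    ring
  map_smul' c v := by
    funext s
    simp only [Pi.smul_apply, smul_eq_mul, RingHom.id_apply]
    ring

/-- contraction of the positions `i`, `i+1` with the singlet -/
def Con (i : ℕ) : Vec →ₗ[ℂ] Vec where
  toFun v := fun s => -om * (v (insert i (mk i s)) - om ^ 2 * v (insert (i + 1) (mk i s)))
  map_add' v w := by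
    funext s
    simp only [Pi.add_apply]
    ring
  map_smul' c v := by
    funext s
    simp only [Pi.smul_apply, smul_eq_mul, RingHom.id_apply]
    ring

/-- Temperley-Lieb generator -/
def ee (i : ℕ) : Vec →ₗ[ℂ] Vec := (Ins i).comp (Con i)

theorem Ins_apply (i : ℕ) (v : Vec) (s : Finset ℕ) :
    Ins i v s = cc (i ∈ s) (i + 1 ∈ s) * v (rm i s) := rfl

theorem Con_apply (i : ℕ) (v : Vec) (s : Finset ℕ) :
    Con i v s = -om * (v (insert i (mk i s)) - om ^ 2 * v (insert (i + 1) (mk i s))) := rfl

theorem ee_eq (i : ℕ) (v : Vec) : ee i v = Ins i (Con i v) := rfl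

theorem mem_rm {i k : ℕ} {s : Finset ℕ} : k ∈ rm i s ↔ up i k ∈ s := by
  simp [rm]

/-- the spin configurations of length `L` with `n` up spins -/
def cfn (L n : ℕ) : Finset (Finset ℕ) := powersetCard n (range L)

theorem mem_cfn {L n : ℕ} {s : Finset ℕ} : s ∈ cfn L n ↔ s ⊆ range L ∧ s.card = n := by
  simp [cfn, mem_powersetCard]

/-- the vector is supported by the configurations of length `L` with `n` up spins -/
def Wt (L n : ℕ) (v : Vec) : Prop := ∀ s, s ∉ cfn L n → v s = 0

end PX
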