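import Pool.Agent.Lib.MP_216314_pr.X.Def

/-!
# Demazure-Lusztig type operators on polynomials: definition
-/

set_option autoImplicit false

noncomputable section

namespace PX

open Finset MvPolynomial

/-- polynomials in countably many variables -/
abbrev MP := MvPolynomial ℕ ℂ

/-- exchange of the variables `i`, `i+1` -/
def sp (i : ℕ) (f : MP) : MP := rename (Equiv.swap i (i + 1)) f

theorem eval_sp (i : ℕ) (f : MP) (y : ℕ → ℂ) : eval y (sp i f) = eval (sw i y) f := by
  unfold sp
  rw [eval_rename]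
  rfl

theorem dd_exists (i : ℕ) (f : MP) : ∃ g : MP, (X i - X (i + 1)) * g = f - sp i f := by
  induction f using MvPolynomial.induction_on with
  | C a =>
    refine ⟨0, ?_⟩
    simp [sp]
  | add p q hp hq =>
    obtain ⟨g, hg⟩ := hp
    obtain ⟨h, hh⟩ := hq
    refine ⟨g + h, ?_⟩
    rw [mul_add, hg, hh]
    simp only [sp, map_add]
    ring
  | mul_X p k hp =>
    obtain ⟨g, hg⟩ := hp
    have hX : ∃ h : MP, (X i - X (i + 1)) * h = X k - sp i (X k) := by
      by_cases h1 : k = i
      · subst h1
        refine ⟨1, ?_⟩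
        simp [sp]
      · by_cases h2 : k = i + 1
        · subst h2
          refine ⟨-1, ?_⟩
          simp [sp]
        · refine ⟨0, ?_⟩
          simp [sp, Equiv.swap_apply_of_ne_of_ne h1 h2]
    obtain ⟨h, hh⟩ := hX
    refine ⟨g * X k + sp i p * h, ?_⟩
    have e : sp i (p * X k) = sp i p * sp i (X k) := by simp only [sp, map_mul]
    rw [e]
    calc (X i - X (i + 1)) * (g * X k + sp i p * h)
        = ((X i - X (i + 1)) * g) * X k + sp i p * ((X i - X (i + 1)) * h) := by ring
      _ = p * X k - sp i p * sp i (X k) := by rw [hg, hh]; ring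

/-- divided difference -/
def dd (i : ℕ) (f : MP) : MP := Classical.choose (dd_exists i f)

theorem dd_spec (i : ℕ) (f : MP) : (X i - X (i + 1)) * dd i f = f - sp i f :=
  Classical.choose_spec (dd_exists i f)

/-- Hecke operator -/
def Tp (i : ℕ) (f : MP) : MP := -C (om ^ 2) * sp i f + C (om ^ 2 - om) * X (i + 1) * dd i f

theorem Tp_spec (i : ℕ) (f : MP) : (X i - X (i + 1)) * Tp i f =
    C (om ^ 2 - om) * X (i + 1) * f - C om * (C om * X i - X (i + 1)) * sp i f := by
  have h := dd_spec i f
  have h1 : (C (om ^ 2) : MP) = C om ^ 2 := by rw [map_pow]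
  have h2 : (C (om ^ 2 - om) : MP) = C om ^ 2 - C om := by rw [map_sub, map_pow]
  unfold Tp
  rw [h1, h2]
  linear_combination ((C om ^ 2 - C om) * X (i + 1)) * h

theorem X_sub_ne (i j : ℕ) (h : i ≠ j) : (X i - X j : MP) ≠ 0 := by
  intro h0
  exact h (X_injective (sub_eq_zero.1 h0))

/-- two polynomials which agree at the points with three different coordinates agree -/
theorem ext_of_ne {i j k : ℕ} (hij : i ≠ j) (hik : i ≠ k) (hjk : j ≠ k) {f g : MP}
    (h : ∀ y : ℕ → ℂ, y i ≠ y j → y i ≠ y k → y j ≠ y k → eval y f = eval y g) : f = g := by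
  have h1 : (X i - X j) * (X i - X k) * (X j - X k) * (f - g) = 0 := by
    apply MvPolynomial.funext
    intro y
    simp only [map_mul, map_sub, eval_X, map_zero]
    by_cases a : y i = y j
    · rw [a]; ring
    · by_cases b : y i = y k
      · rw [b]; ring
      · by_cases c : y j = y k
        · rw [c]; ring
        · rw [h y a b c]; ring
  have h2 : (X i - X j) * (X i - X k) * (X j - X k) ≠ (0 : MP) :=
    mul_ne_zero (mul_ne_zero (X_sub_ne i j hij) (X_sub_ne i k hik)) (X_sub_ne j k hjk)
  exact sub_eq_zero.1 ((mul_eq_zero.1 h1).resolve_left h2)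

theorem Tp_eval (i : ℕ) (f : MP) (y : ℕ → ℂ) (h : y i ≠ y (i + 1)) : eval y (Tp i f) =
    ((om ^ 2 - om) * y (i + 1) * eval y f - om * (om * y i - y (i + 1)) * eval (sw i y) f) /
      (y i - y (i + 1)) := by
  have h1 := congrArg (eval y) (Tp_spec i f)
  simp only [map_mul, map_sub, eval_X, eval_C, eval_sp, map_pow] at h1
  rw [eq_div_iff (sub_ne_zero.2 h), mul_comm, h1]

theorem Tp_eval_mul (i : ℕ) (f : MP) (y : ℕ → ℂ) : (y i - y (i + 1)) * eval y (Tp i f) =
    (om ^ 2 - om) * y (i + 1) * eval y f - om * (om * y i - y (i + 1)) * eval (sw i y) f := by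
  have h1 := congrArg (eval y) (Tp_spec i f)
  simp only [map_mul, map_sub, eval_X, eval_C, eval_sp, map_pow] at h1
  exact h1

theorem Tp_C_mul (i : ℕ) (c : ℂ) (f : MP) : Tp i (C c * f) = C c * Tp i f := by
  apply mul_left_cancel₀ (X_sub_ne i (i + 1) (by omega))
  have e : sp i (C c * f) = C c * sp i f := by simp [sp]
  rw [Tp_spec, e]
  linear_combination (-C c) * Tp_spec i f

end PX
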