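import Pool.Agent.Lib.MP_216314_pr.X.GenA

/-!
# Stream B: Chebyshev polynomials of the second kind and the exponents `1, 2, 4, 5, 7, 8, ...`
-/

set_option autoImplicit false

noncomputable section

namespace PX

open Finset

/-- Chebyshev polynomials of the second kind in the normalisation `U(x) = x U - U` -/
def US : ℕ → ℂ → ℂ
  | 0, _ => 1
  | 1, x => x
  | (k + 2), x => x * US (k + 1) x - US k x

/-- the same as polynomials -/
def USp : ℕ → Polynomial ℂ
  | 0 => 1
  | 1 => Polynomial.X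
  | (k + 2) => Polynomial.X * USp (k + 1) - USp k

/-- `1, 2, 4, 5, 7, 8, ...` -/
def mm (j : ℕ) : ℕ := 3 * (j / 2) + 1 + j % 2

private theorem BA_eval (x : ℂ) : ∀ k : ℕ, (USp k).eval x = US k x
  | 0 => by simp [USp, US]
  | 1 => by simp [USp, US]
  | (k + 2) => by
    have h1 := BA_eval x (k + 1)
    have h0 := BA_eval x k
    simp only [USp, US, Polynomial.eval_sub, Polynomial.eval_mul, Polynomial.eval_X, h1, h0]

private theorem BA_monic : ∀ k : ℕ, (USp k).Monic ∧ (USp k).natDegree = k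
  | 0 => ⟨Polynomial.monic_one, Polynomial.natDegree_one⟩
  | 1 => ⟨Polynomial.monic_X, Polynomial.natDegree_X⟩
  | (k + 2) => by
    obtain ⟨m1, d1⟩ := BA_monic (k + 1)
    obtain ⟨m0, d0⟩ := BA_monic k
    have h1 : (Polynomial.X * USp (k + 1)).Monic := Polynomial.monic_X.mul m1
    have h2 : (Polynomial.X * USp (k + 1)).natDegree = k + 2 := by
      rw [Polynomial.monic_X.natDegree_mul m1, Polynomial.natDegree_X, d1]
      ring
    have h4 : (USp k).natDegree < (Polynomial.X * USp (k + 1)).natDegree := by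
      rw [d0, h2]
      omega
    have h3 : (USp k).degree < (Polynomial.X * USp (k + 1)).degree :=
      Polynomial.degree_lt_degree h4
    have e : USp (k + 2) = Polynomial.X * USp (k + 1) - USp k := rfl
    rw [e]
    exact ⟨h1.sub_of_left h3, by
      rw [Polynomial.natDegree_sub_eq_left_of_natDegree_lt h4, h2]⟩

private theorem BA_mul {y : ℂ} (hy : y ≠ 0) : ∀ m : ℕ,
    (y - y⁻¹) * US m (XX y) = y ^ (m + 1) - (y⁻¹) ^ (m + 1)
  | 0 => by simp [US]
  | 1 => by
    simp only [US, XX]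
    ring
  | (m + 2) => by
    have h1 := BA_mul hy (m + 1)
    have h0 := BA_mul hy m
    have huv : y * y⁻¹ = 1 := mul_inv_cancel₀ hy
    have e : US (m + 2) (XX y) = (y + y⁻¹) * US (m + 1) (XX y) - US m (XX y) := rfl
    rw [e]
    linear_combination (y + y⁻¹) * h1 - h0 + (y ^ (m + 1) - (y⁻¹) ^ (m + 1)) * huv

private theorem BA_three (x : ℂ) : ∀ k : ℕ,
    US (k + 6) x + US k x = (x ^ 3 - 3 * x) * US (k + 3) x
  | 0 => by
    simp only [US]
    ring
  | 1 => by
    simp only [US]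
    ring
  | (k + 2) => by
    have h1 := BA_three x (k + 1)
    have h0 := BA_three x k
    have e1 : US (k + 2 + 6) x = x * US (k + 1 + 6) x - US (k + 6) x := rfl
    have e2 : US (k + 2) x = x * US (k + 1) x - US k x := rfl
    have e3 : US (k + 2 + 3) x = x * US (k + 1 + 3) x - US (k + 3) x := rfl
    rw [e1, e2, e3]
    linear_combination x * h1 - h0

private theorem BA_inv1 (u : ℂ) : (om * u)⁻¹ = om ^ 2 * u⁻¹ := by
  rw [mul_inv, om_inv]

private theorem BA_inv2 (u : ℂ) : (om ^ 2 * u)⁻¹ = om * u⁻¹ := by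
  rw [mul_inv, ← om_inv, inv_inv]

theorem mm_add_two (j : ℕ) : mm (j + 2) = mm j + 3 := by
  unfold mm
  omega

theorem mm_pos (j : ℕ) : 1 ≤ mm j := by
  unfold mm
  omega

theorem mm_strictMono : StrictMono mm := by
  refine strictMono_nat_of_lt_succ fun n => ?_
  unfold mm
  omega

theorem mm_le (j : ℕ) : mm j - 1 ≤ j + (j / 2) ∧ j + (j / 2) ≤ mm j - 1 := by
  unfold mm
  omega

theorem USp_eval (k : ℕ) (x : ℂ) : (USp k).eval x = US k x := by
  exact BA_eval x k

theorem USp_monic (k : ℕ) : (USp k).Monic := by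
  exact (BA_monic k).1

theorem USp_natDegree (k : ℕ) : (USp k).natDegree = k := by
  exact (BA_monic k).2

theorem US_mul (m : ℕ) {y : ℂ} (hy : y ≠ 0) :
    (y - y⁻¹) * US m (XX y) = y ^ (m + 1) - (y⁻¹) ^ (m + 1) := by
  exact BA_mul hy m

theorem US_three (k : ℕ) (x : ℂ) : US (k + 6) x + US k x = (x ^ 3 - 3 * x) * US (k + 3) x := by
  exact BA_three x k

theorem US_three0 (x : ℂ) : US 3 x - US 1 x = (x ^ 3 - 3 * x) * US 0 x := by
  simp only [US]
  ring

theorem US_three1 (x : ℂ) : US 4 x - US 0 x = (x ^ 3 - 3 * x) * US 1 x := by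
  simp only [US]
  ring

theorem XX_inv (v : ℂ) : XX v⁻¹ = XX v := by
  unfold XX
  rw [inv_inv, add_comm]

theorem XX_eq_iff {a b : ℂ} (ha : a ≠ 0) (hb : b ≠ 0) : XX a = XX b ↔ a = b ∨ a * b = 1 := by
  have ha' : a * a⁻¹ = 1 := mul_inv_cancel₀ ha
  have hb' : b * b⁻¹ = 1 := mul_inv_cancel₀ hb
  constructor
  · intro h
    unfold XX at h
    have h2 : (a - b) * (a * b - 1) = 0 := by
      linear_combination (a * b) * h - b * ha' + a * hb'
    rcases mul_eq_zero.1 h2 with h3 | h3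
    · exact Or.inl (sub_eq_zero.1 h3)
    · exact Or.inr (sub_eq_zero.1 h3)
  · rintro (h | h)
    · rw [h]
    · have h2 : b = a⁻¹ := (eq_inv_of_mul_eq_one_right h)
      rw [h2, XX_inv]

/-- `XX u + XX (om u) + XX (om^2 u) = 0` and the cubic with these three roots -/
theorem XX_sum {u : ℂ} (hu : u ≠ 0) : XX u + XX (om * u) + XX (om ^ 2 * u) = 0 := by
  unfold XX
  rw [BA_inv1, BA_inv2]
  linear_combination (u + u⁻¹) * om_eq

theorem XX_cubic {u : ℂ} (hu : u ≠ 0) (x : ℂ) :
    x ^ 3 - 3 * x - ((XX u) ^ 3 - 3 * XX u) = (x - XX u) * (x - XX (om * u)) * (x - XX (om ^ 2 * u)) := by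
  have hs := XX_sum hu
  have huv : u * u⁻¹ = 1 := mul_inv_cancel₀ hu
  have hp : XX (om * u) * XX (om ^ 2 * u) = XX u ^ 2 - 3 := by
    unfold XX
    rw [BA_inv1, BA_inv2]
    linear_combination (u ^ 2 + u⁻¹ ^ 2 + om * u * u⁻¹) * om_cube + (u * u⁻¹) * om_eq - 3 * huv
  linear_combination ((x - XX u) * x) * hs - (x - XX u) * hp

end PX
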