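import Pool.Agent.Lib.MP_216314_pr.X.BA

/-!
# Stream B: the quotient of determinants `chr`
-/

set_option autoImplicit false

noncomputable section

namespace PX

open Finset

def Del (L : ℕ) (y : ℕ → ℂ) : ℂ :=
  (Matrix.of fun i j : Fin L => US (mm (j : ℕ) - 1) (XX (y (i : ℕ)))).det

def Vdm (L : ℕ) (y : ℕ → ℂ) : ℂ := (Matrix.vandermonde fun i : Fin L => XX (y (i : ℕ))).det

/-- the symplectic character of the strip (only used when the numbers `XX (y i)` are distinct) -/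
def chr (L : ℕ) (y : ℕ → ℂ) : ℂ := Del L y / Vdm L y

/-- the numbers `XX (y i)`, `i < L`, are distinct -/
def Dist (L : ℕ) (y : ℕ → ℂ) : Prop := ∀ i j, i < L → j < L → i ≠ j → XX (y i) ≠ XX (y j)

theorem Vdm_ne_zero {L : ℕ} {y : ℕ → ℂ} (h : Dist L y) : Vdm L y ≠ 0 := by
  unfold Vdm
  rw [Matrix.det_vandermonde_ne_zero_iff]
  intro a b hab
  by_contra hne
  exact h a b a.2 b.2 (fun hh => hne (Fin.ext hh)) hab

theorem chr_congr {L : ℕ} {y y' : ℕ → ℂ} (h : ∀ k, k < L → XX (y k) = XX (y' k)) :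
    chr L y = chr L y' := by
  have h1 : Del L y = Del L y' := by
    unfold Del
    congr 1
    ext a b
    rw [Matrix.of_apply, Matrix.of_apply, h a a.2]
  have h2 : Vdm L y = Vdm L y' := by
    unfold Vdm
    congr 2
    funext a
    rw [h a a.2]
  unfold chr
  rw [h1, h2]

theorem BB_swap {L : ℕ} {i j : ℕ} (hi : i < L) (hj : j < L) (k : Fin L) :
    Equiv.swap i j (k : ℕ) = ((Equiv.swap (⟨i, hi⟩ : Fin L) ⟨j, hj⟩ k : Fin L) : ℕ) := by
  rw [Equiv.swap_apply_def, Equiv.swap_apply_def]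
  by_cases h1 : (k : ℕ) = i
  · have h2 : k = ⟨i, hi⟩ := Fin.ext h1
    rw [if_pos h1, if_pos h2]
  · have h2 : k ≠ ⟨i, hi⟩ := fun h => h1 (congrArg Fin.val h)
    rw [if_neg h1, if_neg h2]
    by_cases h3 : (k : ℕ) = j
    · have h4 : k = ⟨j, hj⟩ := Fin.ext h3
      rw [if_pos h3, if_pos h4]
    · have h4 : k ≠ ⟨j, hj⟩ := fun h => h3 (congrArg Fin.val h)
      rw [if_neg h3, if_neg h4]

theorem chr_swap {L : ℕ} (y : ℕ → ℂ) {i j : ℕ} (hi : i < L) (hj : j < L) :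
    chr L (fun k => y (Equiv.swap i j k)) = chr L y := by
  have h1 : Del L (fun k => y (Equiv.swap i j k)) =
      (Equiv.Perm.sign (Equiv.swap (⟨i, hi⟩ : Fin L) ⟨j, hj⟩) : ℂ) * Del L y := by
    unfold Del
    rw [← Matrix.det_permute]
    congr 1
    ext a b
    rw [Matrix.submatrix_apply, Matrix.of_apply, Matrix.of_apply, id]
    show US (mm (b : ℕ) - 1) (XX (y (Equiv.swap i j (a : ℕ)))) = _
    rw [BB_swap hi hj a]
  have h2 : Vdm L (fun k => y (Equiv.swap i j k)) =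
      (Equiv.Perm.sign (Equiv.swap (⟨i, hi⟩ : Fin L) ⟨j, hj⟩) : ℂ) * Vdm L y := by
    unfold Vdm
    rw [← Matrix.det_permute]
    congr 1
    ext a b
    rw [Matrix.submatrix_apply, Matrix.vandermonde_apply, Matrix.vandermonde_apply, id]
    show XX (y (Equiv.swap i j (a : ℕ))) ^ (b : ℕ) = _
    rw [BB_swap hi hj a]
  have h3 : (Equiv.Perm.sign (Equiv.swap (⟨i, hi⟩ : Fin L) ⟨j, hj⟩) : ℂ) ≠ 0 := by
    rcases Int.units_eq_one_or (Equiv.Perm.sign (Equiv.swap (⟨i, hi⟩ : Fin L) ⟨j, hj⟩)) with h | h <;> rw [h] <;> simp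
  unfold chr
  rw [h1, h2]
  exact mul_div_mul_left _ _ h3

theorem chr_inv {L : ℕ} (y : ℕ → ℂ) (i : ℕ) : chr L (Function.update y i (y i)⁻¹) = chr L y := by
  apply chr_congr
  intro k _
  by_cases h : k = i
  · rw [h, Function.update_self, XX_inv]
  · rw [Function.update_of_ne h]

theorem chr_zero (y : ℕ → ℂ) : chr 0 y = 1 := by
  unfold chr Del Vdm
  rw [Matrix.det_fin_zero, Matrix.det_fin_zero, div_one]

theorem chr_one (y : ℕ → ℂ) : chr 1 y = 1 := by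
  unfold chr Del Vdm
  rw [Matrix.det_fin_one, Matrix.det_fin_one, Matrix.vandermonde_apply, Matrix.of_apply]
  have h1 : mm ((0 : Fin 1) : ℕ) - 1 = 0 := by
    simp [mm]
  rw [h1]
  simp [US]

theorem chr_two {y : ℕ → ℂ} (h : XX (y 0) ≠ XX (y 1)) : chr 2 y = 1 := by
  unfold chr Del Vdm
  rw [Matrix.det_fin_two, Matrix.det_fin_two]
  simp only [Matrix.vandermonde_apply, Matrix.of_apply]
  have h0 : mm ((0 : Fin 2) : ℕ) - 1 = 0 := by
    simp [mm]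
  have h1 : mm ((1 : Fin 2) : ℕ) - 1 = 1 := by
    simp [mm]
  rw [h0, h1]
  have h2 : XX (y 1) - XX (y 0) ≠ 0 := sub_ne_zero.2 h.symm
  have e1 : US 0 (XX (y ((0 : Fin 2) : ℕ))) * US 1 (XX (y ((1 : Fin 2) : ℕ))) -
      US 1 (XX (y ((0 : Fin 2) : ℕ))) * US 0 (XX (y ((1 : Fin 2) : ℕ))) = XX (y 1) - XX (y 0) := by
    simp [US]
  have e2 : XX (y ((0 : Fin 2) : ℕ)) ^ ((0 : Fin 2) : ℕ) * XX (y ((1 : Fin 2) : ℕ)) ^ ((1 : Fin 2) : ℕ) -
      XX (y ((0 : Fin 2) : ℕ)) ^ ((1 : Fin 2) : ℕ) * XX (y ((1 : Fin 2) : ℕ)) ^ ((0 : Fin 2) : ℕ) =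
      XX (y 1) - XX (y 0) := by
    simp
  rw [e1, e2, div_self h2]

end PX
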