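import Pool.Agent.Lib.MP_216314_pr.X.BB

/-!
# Stream B: recursion of the determinants at a fusion point
-/

set_option autoImplicit false

noncomputable section

namespace PX

open Finset

theorem BC_dl (y : ℕ → ℂ) (k : ℕ) : dl 0 y k = y (k + 2) := by
  unfold dl
  rw [if_neg (by omega)]

theorem Vdm_rec (L : ℕ) (y : ℕ → ℂ) : Vdm (L + 2) y = (XX (y 1) - XX (y 0)) *
    (∏ k ∈ range L, ((XX (y (k + 2)) - XX (y 0)) * (XX (y (k + 2)) - XX (y 1)))) *
    Vdm L (dl 0 y) := by
  have h0 : Vdm L (dl 0 y) = ∏ i : Fin L, ∏ j ∈ Ioi i, (XX (y ((j : ℕ) + 2)) - XX (y ((i : ℕ) + 2))) := by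
    unfold Vdm
    rw [Matrix.det_vandermonde]
    simp only [BC_dl]
  rw [h0]
  unfold Vdm
  rw [Matrix.det_vandermonde, Fin.prod_univ_succ, Fin.prod_Ioi_zero, Fin.prod_univ_succ, Fin.prod_univ_succ]
  simp only [Fin.prod_Ioi_succ, Fin.prod_Ioi_zero, Fin.val_succ, Fin.val_zero]
  rw [Finset.prod_range (fun k => (XX (y (k + 2)) - XX (y 0)) * (XX (y (k + 2)) - XX (y 1))), Finset.prod_mul_distrib]
  ring

theorem BC_two {n : ℕ} (A : Matrix (Fin (n + 2)) (Fin (n + 2)) ℂ) (h0 : ∀ k : Fin n, A 0 k.succ.succ = 0)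
    (h1 : ∀ k : Fin n, A 1 k.succ.succ = 0) :
    A.det = (A 0 0 * A 1 1 - A 0 1 * A 1 0) * (A.submatrix (fun i : Fin n => i.succ.succ) (fun i : Fin n => i.succ.succ)).det := by
  have key : ∀ (B : Matrix (Fin (n + 1)) (Fin (n + 1)) ℂ), (∀ k : Fin n, B 0 k.succ = 0) →
      B.det = B 0 0 * (B.submatrix Fin.succ Fin.succ).det := by
    intro B hB
    rw [Matrix.det_succ_row_zero, Fin.sum_univ_succ]
    have : ∑ i : Fin n, (-1) ^ ((Fin.succ i : Fin (n + 1)) : ℕ) * B 0 i.succ *
        (B.submatrix Fin.succ (Fin.succAbove i.succ)).det = 0 := by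
      apply Finset.sum_eq_zero
      intro i _
      rw [hB i]
      ring
    rw [this, add_zero, Fin.succAbove_zero]
    simp
  rw [Matrix.det_succ_row_zero, Fin.sum_univ_succ, Fin.sum_univ_succ]
  have hz : ∑ i : Fin n, (-1) ^ ((Fin.succ (Fin.succ i) : Fin (n + 2)) : ℕ) * A 0 i.succ.succ *
      (A.submatrix Fin.succ (Fin.succAbove i.succ.succ)).det = 0 := by
    apply Finset.sum_eq_zero
    intro i _
    rw [h0 i]
    ring
  rw [hz, add_zero]
  have e1 : (A.submatrix Fin.succ (Fin.succAbove (0 : Fin (n + 2)))).det =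
      A 1 1 * (A.submatrix (fun i : Fin n => i.succ.succ) (fun i : Fin n => i.succ.succ)).det := by
    rw [key]
    · rw [Matrix.submatrix_submatrix, Matrix.submatrix_apply, Fin.succAbove_zero]
      rfl
    · intro k
      rw [Matrix.submatrix_apply, Fin.succAbove_zero]
      exact h1 k
  have e2 : (A.submatrix Fin.succ (Fin.succAbove (Fin.succ 0 : Fin (n + 2)))).det =
      A 1 0 * (A.submatrix (fun i : Fin n => i.succ.succ) (fun i : Fin n => i.succ.succ)).det := by
    rw [key]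
    · rw [Matrix.submatrix_submatrix, Matrix.submatrix_apply, Fin.succ_succAbove_zero]
      congr 2
    · intro k
      rw [Matrix.submatrix_apply, Fin.succ_succAbove_succ, Fin.succAbove_zero]
      exact h1 k
  rw [e1, e2]
  simp only [Fin.val_zero, pow_zero, one_mul, Fin.val_succ, zero_add, pow_one]
  have e3 : A 0 (Fin.succ 0) = A 0 1 := rfl
  rw [e3]
  ring

/-- matrix of column operations -/
def BC_T (N : ℕ) (κ : ℂ) : Matrix (Fin N) (Fin N) ℂ := Matrix.of fun a j =>
  (if (a : ℕ) + 0 = j then 1 else 0) - κ * (if (a : ℕ) + 2 = j then 1 else 0) + (if (a : ℕ) + 4 = j then 1 else 0)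
    - (if (a : ℕ) = 1 ∧ (j : ℕ) = 2 then 1 else 0) - (if (a : ℕ) = 0 ∧ (j : ℕ) = 3 then 1 else 0)

theorem BC_Tdet (N : ℕ) (κ : ℂ) : (BC_T N κ).det = 1 := by
  rw [Matrix.det_of_upperTriangular]
  · apply Finset.prod_eq_one
    intro a _
    unfold BC_T
    rw [Matrix.of_apply, if_pos (by omega), if_neg (by omega), if_neg (by omega), if_neg (by omega), if_neg (by omega)]
    ring
  · intro a j h
    have h' : (j : ℕ) < a := h
    unfold BC_T
    rw [Matrix.of_apply, if_neg (by omega), if_neg (by omega), if_neg (by omega), if_neg (by omega), if_neg (by omega)]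
    ring

theorem BC_sum (N c j : ℕ) (hj : j < N) (f : ℕ → ℂ) :
    ∑ a : Fin N, f a * (if (a : ℕ) + c = j then 1 else 0) = if c ≤ j then f (j - c) else 0 := by
  by_cases h : c ≤ j
  · rw [if_pos h, Finset.sum_eq_single (⟨j - c, by omega⟩ : Fin N)]
    · rw [if_pos (by simp only []; omega), mul_one]
    · intro b _ hb
      rw [if_neg, mul_zero]
      intro hh
      apply hb
      apply Fin.ext
      simp only []
      omega
    · intro hh
      exact absurd (Finset.mem_univ _) hh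
  · rw [if_neg h]
    apply Finset.sum_eq_zero
    intro a _
    rw [if_neg (by omega), mul_zero]

theorem BC_sum' (N p r j : ℕ) (hp : p < r) (hj : j < N) (f : ℕ → ℂ) :
    ∑ a : Fin N, f a * (if (a : ℕ) = p ∧ j = r then 1 else 0) = if j = r then f p else 0 := by
  by_cases h : j = r
  · rw [if_pos h, Finset.sum_eq_single (⟨p, by omega⟩ : Fin N)]
    · rw [if_pos ⟨rfl, h⟩, mul_one]
    · intro b _ hb
      rw [if_neg, mul_zero]
      intro hh
      exact hb (Fin.ext hh.1)
    · intro hh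
      exact absurd (Finset.mem_univ _) hh
  · rw [if_neg h]
    apply Finset.sum_eq_zero
    intro a _
    rw [if_neg (fun hh => h hh.2), mul_zero]

theorem BC_mul (N : ℕ) (κ x : ℂ) (j : Fin N) :
    ∑ a : Fin N, US (mm (a : ℕ) - 1) x * BC_T N κ a j =
      if (j : ℕ) = 0 then 1 else if (j : ℕ) = 1 then x else (x ^ 3 - 3 * x - κ) * US (mm ((j : ℕ) - 2) - 1) x := by
  have h1 : ∀ a : Fin N, US (mm (a : ℕ) - 1) x * BC_T N κ a j =
      US (mm (a : ℕ) - 1) x * (if (a : ℕ) + 0 = j then 1 else 0)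
      - κ * (US (mm (a : ℕ) - 1) x * (if (a : ℕ) + 2 = j then 1 else 0))
      + US (mm (a : ℕ) - 1) x * (if (a : ℕ) + 4 = j then 1 else 0)
      - US (mm (a : ℕ) - 1) x * (if (a : ℕ) = 1 ∧ (j : ℕ) = 2 then 1 else 0)
      - US (mm (a : ℕ) - 1) x * (if (a : ℕ) = 0 ∧ (j : ℕ) = 3 then 1 else 0) := by
    intro a
    unfold BC_T
    rw [Matrix.of_apply]
    ring
  rw [Finset.sum_congr rfl (fun a _ => h1 a), Finset.sum_sub_distrib, Finset.sum_sub_distrib, Finset.sum_add_distrib,
    Finset.sum_sub_distrib, ← Finset.mul_sum,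
    BC_sum N 0 j j.2 (fun a => US (mm a - 1) x), BC_sum N 2 j j.2 (fun a => US (mm a - 1) x),
    BC_sum N 4 j j.2 (fun a => US (mm a - 1) x), BC_sum' N 1 2 j (by norm_num) j.2 (fun a => US (mm a - 1) x),
    BC_sum' N 0 3 j (by norm_num) j.2 (fun a => US (mm a - 1) x)]
  obtain ⟨j, hj⟩ := j
  simp only [zero_le, if_true, Nat.sub_zero]
  have hm0 : mm 0 - 1 = 0 := by simp [mm]
  have hm1 : mm 1 - 1 = 1 := by simp [mm]
  have hm2 : mm 2 - 1 = 3 := by simp [mm]
  have hm3 : mm 3 - 1 = 4 := by simp [mm]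
  rcases j with _ | _ | _ | _ | k
  · simp [hm0, US]
  · simp [hm1, US]
  · simp only [hm0, hm1, hm2, zero_add, Nat.reduceAdd, Nat.reduceSub, Nat.reduceLeDiff, le_refl, if_true, if_false,
      reduceCtorEq, Nat.reduceEqDiff, OfNat.ofNat_ne_zero, OfNat.ofNat_ne_one]
    have := US_three0 x
    linear_combination this
  · simp only [hm0, hm1, hm3, zero_add, Nat.reduceAdd, Nat.reduceSub, Nat.reduceLeDiff, le_refl, if_true, if_false,
      reduceCtorEq, Nat.reduceEqDiff, OfNat.ofNat_ne_zero, OfNat.ofNat_ne_one]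
    have := US_three1 x
    linear_combination this
  · have h2 : mm (k + 1 + 1 + 1 + 1) - 1 = (mm k - 1) + 6 := by
      have e1 := mm_add_two k
      have e2 := mm_add_two (k + 2)
      have e3 := mm_pos k
      have e4 : k + 1 + 1 + 1 + 1 = k + 2 + 2 := by ring
      rw [e4]
      omega
    have h3 : mm (k + 1 + 1 + 1 + 1 - 2) - 1 = (mm k - 1) + 3 := by
      have e1 := mm_add_two k
      have e3 := mm_pos k
      have e4 : k + 1 + 1 + 1 + 1 - 2 = k + 2 := by omega
      rw [e4]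
      omega
    have h4 : k + 1 + 1 + 1 + 1 - 4 = k := by omega
    rw [h2, h3, h4, if_pos (by omega), if_pos (by omega), if_neg (by omega), if_neg (by omega), if_neg (by omega),
      if_neg (by omega)]
    have := US_three (mm k - 1) x
    linear_combination this

/-- matrix of column operations -/
theorem Del_rec {L : ℕ} {y : ℕ → ℂ} (h : NZ (L + 2) y) (h1 : y 1 = om * y 0) :
    Del (L + 2) y = (XX (y 1) - XX (y 0)) *
      (∏ k ∈ range L, (XX (y (k + 2)) ^ 3 - 3 * XX (y (k + 2)) - (XX (y 0) ^ 3 - 3 * XX (y 0)))) *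
      Del L (dl 0 y) := by
  have hy0 : y 0 ≠ 0 := h 0 (by omega)
  have hκ1 : XX (y 1) ^ 3 - 3 * XX (y 1) - (XX (y 0) ^ 3 - 3 * XX (y 0)) = 0 := by
    rw [XX_cubic hy0, h1]
    ring
  have hκ0 : XX (y 0) ^ 3 - 3 * XX (y 0) - (XX (y 0) ^ 3 - 3 * XX (y 0)) = 0 := by ring
  obtain ⟨κ, hκ⟩ : ∃ κ : ℂ, κ = XX (y 0) ^ 3 - 3 * XX (y 0) := ⟨_, rfl⟩
  rw [← hκ] at hκ1 hκ0 ⊢
  have hD : Del (L + 2) y = ((Matrix.of fun i j : Fin (L + 2) => US (mm (j : ℕ) - 1) (XX (y (i : ℕ)))) *
      BC_T (L + 2) κ).det := by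
    rw [Matrix.det_mul, BC_Tdet, mul_one]
    rfl
  have hent : ∀ i j : Fin (L + 2), ((Matrix.of fun i j : Fin (L + 2) => US (mm (j : ℕ) - 1) (XX (y (i : ℕ)))) *
      BC_T (L + 2) κ) i j = if (j : ℕ) = 0 then 1 else if (j : ℕ) = 1 then XX (y i) else
        (XX (y i) ^ 3 - 3 * XX (y i) - κ) * US (mm ((j : ℕ) - 2) - 1) (XX (y i)) := by
    intro i j
    rw [Matrix.mul_apply]
    exact BC_mul (L + 2) κ (XX (y i)) j
  rw [hD, BC_two]
  · have e00 := hent 0 0
    have e01 := hent 0 1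
    have e10 := hent 1 0
    have e11 := hent 1 1
    simp only [Fin.val_zero, Fin.val_one, if_true, one_ne_zero, if_false] at e00 e01 e10 e11
    rw [e00, e01, e10, e11]
    have e2 : (((Matrix.of fun i j : Fin (L + 2) => US (mm (j : ℕ) - 1) (XX (y (i : ℕ)))) *
      BC_T (L + 2) κ).submatrix (fun i : Fin L => i.succ.succ) (fun i : Fin L => i.succ.succ)).det =
      (∏ k ∈ range L, (XX (y (k + 2)) ^ 3 - 3 * XX (y (k + 2)) - κ)) * Del L (dl 0 y) := by
      rw [Finset.prod_range (fun k => XX (y (k + 2)) ^ 3 - 3 * XX (y (k + 2)) - κ)]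
      unfold Del
      rw [← Matrix.det_mul_column]
      congr 1
      ext i j
      rw [Matrix.submatrix_apply, hent, Matrix.of_apply, Matrix.of_apply]
      simp only [Fin.val_succ, BC_dl]
      rw [if_neg (by omega), if_neg (by omega)]
      rfl
    rw [e2]
    ring
  · intro k
    rw [hent]
    simp only [Fin.val_zero, Fin.val_succ]
    rw [if_neg (by omega), if_neg (by omega), ← hκ, sub_self, zero_mul]
  · intro k
    rw [hent]
    simp only [Fin.val_one, Fin.val_succ]
    rw [if_neg (by omega), if_neg (by omega), hκ1, zero_mul]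

end PX
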