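import Pool.Agent.Lib.MP_216314_pr.X.BD
import Pool.Agent.Lib.MP_216314_pr.X.BF

/-!
# Stream B: values at the fusion points
-/

set_option autoImplicit false

noncomputable section

namespace PX

open Finset

/-- data of one induction step: a function `F` of `L + 2` variables which should be `K * chr^2`,
from a function `F'` of `L` variables which is `K' * chr^2` at generic points -/
structure Step (L : ℕ) (F K : (ℕ → ℂ) → ℂ) (F' K' : (ℕ → ℂ) → ℂ) (κ : ℂ → ℂ) : Prop where
  Floc : ∀ y y', (∀ k, k < L + 2 → y k = y' k) → F y = F y'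
  Fsw : ∀ i y, NZ (L + 2) y → i + 1 < L + 2 → F (sw i y) = F y
  Finv : ∀ i y, NZ (L + 2) y → i < L + 2 → F (Function.update y i (y i)⁻¹) = F y
  Ksw : ∀ i y, NZ (L + 2) y → i + 1 < L + 2 → K (sw i y) = K y
  Kinv : ∀ i y, NZ (L + 2) y → i < L + 2 → K (Function.update y i (y i)⁻¹) = K y
  Frec : ∀ y, NZ (L + 2) y → y 1 = om * y 0 → F y = κ (y 0) *
    (∏ k ∈ range L, (XX (om ^ 2 * y 0) - XX (y (k + 2)))) ^ 2 * F' (dl 0 y)
  Krec : ∀ y, NZ (L + 2) y → y 1 = om * y 0 → K y = κ (y 0) * K' (dl 0 y)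
  ind : ∀ y, Gen L y → F' y = K' y * chr L y ^ 2

/-- the pair in the positions `0, 1`, in the right order -/
theorem Step.pair {L : ℕ} {F K F' K' : (ℕ → ℂ) → ℂ} {κ : ℂ → ℂ} (S : Step L F K F' K' κ)
    {y : ℕ → ℂ} (h : NZ (L + 2) y) (h1 : y 1 = om * y 0) (hd : Dist (L + 2) y)
    (hg : Gen L (dl 0 y)) : F y = K y * chr (L + 2) y ^ 2 := by
  rw [S.Frec y h h1, S.Krec y h h1, S.ind _ hg, chr_rec h h1 hd, mul_pow, ← Finset.prod_pow,
    ← Finset.prod_pow]
  have e : ∏ k ∈ range L, (XX (om ^ 2 * y 0) - XX (y (k + 2))) ^ 2 =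
      ∏ k ∈ range L, (XX (y (k + 2)) - XX (om ^ 2 * y 0)) ^ 2 :=
    Finset.prod_congr rfl fun k _ => by ring
  rw [e]
  ring

theorem BG_dist {L : ℕ} {y : ℕ → ℂ} (h : GenT (L + 2) y)
    (hc : y 0 ^ 3 = y 1 ^ 3 ∨ y 0 ^ 3 * y 1 ^ 3 = 1) (h01 : XX (y 0) ≠ XX (y 1)) :
    Dist (L + 2) y := by
  have key : ∀ k, 1 ≤ k → k < L + 2 → XX (y 0) ≠ XX (y k) := by
    intro k hk hk2 he
    by_cases hk1 : k = 1
    · subst hk1
      exact h01 he
    · have n0 := h.1 0 (by omega)
      have n1 := h.1 1 (by omega)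
      have nk := h.1 k hk2
      obtain ⟨a1, a2⟩ := h.2.2 1 k le_rfl (by omega) hk hk2 (Ne.symm hk1)
      rcases (XX_eq_iff n0 nk).1 he with e | e
      · rcases hc with c | c
        · apply a1
          rw [← c, e]
        · apply a2
          rw [e] at c
          linear_combination c
      · have e3 : y 0 ^ 3 * y k ^ 3 = 1 := by
          rw [← mul_pow, e, one_pow]
        rcases hc with c | c
        · apply a2
          rw [← c, e3]
        · apply a1
          have n3 : y 0 ^ 3 ≠ 0 := pow_ne_zero 3 n0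
          apply mul_left_cancel₀ n3
          rw [c, e3]
  intro i j hi hj hij
  by_cases h0 : i = 0
  · subst h0
    exact key j (by omega) hj
  · by_cases h0' : j = 0
    · subst h0'
      exact (key i (by omega) hi).symm
    · exact h.dist i j (by omega) hi (by omega) hj hij

theorem BG_gen {L : ℕ} {y : ℕ → ℂ} (h : GenT (L + 2) y) : Gen L (dl 0 y) := by
  have e : ∀ k, dl 0 y k = y (k + 2) := fun k => by simp [dl]
  refine ⟨fun k hk => ?_, fun k hk => ?_, fun i j hi hj hij => ?_⟩
  · rw [e]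
    exact h.1 _ (by omega)
  · rw [e]
    exact h.2.1 _ (by omega) (by omega)
  · rw [e, e]
    exact h.2.2 _ _ (by omega) (by omega) (by omega) (by omega) (by omega)

theorem BG_dist_sw {L : ℕ} {y : ℕ → ℂ} (h : Dist (L + 2) y) : Dist (L + 2) (sw 0 y) := by
  intro i j hi hj hij
  have hs : ∀ k, k < L + 2 → Equiv.swap 0 (0 + 1) k < L + 2 := by
    intro k hk
    rw [Equiv.swap_apply_def]
    split_ifs <;> omega
  exact h _ _ (hs i hi) (hs j hj) fun e => hij ((Equiv.swap 0 (0 + 1)).injective e)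

theorem BG_two {L : ℕ} {F K F' K' : (ℕ → ℂ) → ℂ} {κ : ℂ → ℂ} (S : Step L F K F' K' κ)
    {y : ℕ → ℂ} (h : GenT (L + 2) y) (h1 : y 0 = om * y 1 ∨ y 0 = om ^ 2 * y 1) :
    F y = K y * chr (L + 2) y ^ 2 := by
  have n0 := h.1 0 (by omega)
  have n1 := h.1 1 (by omega)
  have o3 := om_cube
  have hc : y 0 ^ 3 = y 1 ^ 3 := by
    rcases h1 with e | e
    · rw [e]
      linear_combination y 1 ^ 3 * o3
    · rw [e]
      linear_combination y 1 ^ 3 * (om ^ 3 + 1) * o3
  have h6 := h.2.1 1 le_rfl (by omega)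
  have h01 : XX (y 0) ≠ XX (y 1) := by
    intro he
    rcases (XX_eq_iff n0 n1).1 he with e | e
    · rcases h1 with e1 | e1
      · rw [e] at e1
        apply om_ne_one
        have : (om - 1) * y 1 = 0 := by linear_combination - e1
        rcases mul_eq_zero.1 this with a | a
        · linear_combination a
        · exact absurd a n1
      · rw [e] at e1
        have : (om ^ 2 - 1) * y 1 = 0 := by linear_combination - e1
        rcases mul_eq_zero.1 this with a | a
        · apply om_ne_one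
          linear_combination o3 - om * a
        · exact absurd a n1
    · apply h6
      have e2 : y 0 ^ 3 * y 1 ^ 3 = 1 := by rw [← mul_pow, e, one_pow]
      rw [hc] at e2
      linear_combination e2
  have hd := BG_dist h (Or.inl hc) h01
  have hg := BG_gen h
  rcases h1 with e | e
  · have nz : NZ (L + 2) (sw 0 y) := nz_sw h.1 (by omega)
    have e1 : sw 0 y 1 = om * sw 0 y 0 := by
      have a1 : sw 0 y 1 = y 0 := sw_right 0 y
      have a2 : sw 0 y 0 = y 1 := sw_left 0 y
      rw [a1, a2, e]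
    have hg' : Gen L (dl 0 (sw 0 y)) := by
      have : dl 0 (sw 0 y) = dl 0 y := by
        funext k
        have b : sw 0 y (k + 2) = y (k + 2) := sw_of_ne 0 y (by omega) (by omega)
        simp [dl, b]
      rw [this]
      exact hg
    have r := S.pair nz e1 (BG_dist_sw hd) hg'
    have c1 : chr (L + 2) (sw 0 y) = chr (L + 2) y :=
      chr_swap y (i := 0) (j := 0 + 1) (by omega) (by omega)
    rw [S.Fsw 0 y h.1 (by omega), S.Ksw 0 y h.1 (by omega), c1] at r
    exact r
  · refine S.pair h.1 ?_ hd hg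
    rw [e]
    linear_combination - y 1 * o3

/-- the point `t = y 0` is `om^(±1) y_1^(±1)` -/
theorem Step.pair1 {L : ℕ} {F K F' K' : (ℕ → ℂ) → ℂ} {κ : ℂ → ℂ} (S : Step L F K F' K' κ)
    {y : ℕ → ℂ} (h : GenT (L + 2) y)
    (h1 : y 0 = om * y 1 ∨ y 0 = om ^ 2 * y 1 ∨ y 0 = om * (y 1)⁻¹ ∨ y 0 = om ^ 2 * (y 1)⁻¹) :
    F y = K y * chr (L + 2) y ^ 2 := by
  by_cases h2 : y 0 = om * y 1 ∨ y 0 = om ^ 2 * y 1
  · exact BG_two S h h2
  · have h3 : y 0 = om * (y 1)⁻¹ ∨ y 0 = om ^ 2 * (y 1)⁻¹ := by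
      rcases h1 with e | e | e | e
      · exact absurd (Or.inl e) h2
      · exact absurd (Or.inr e) h2
      · exact Or.inl e
      · exact Or.inr e
    have n1 := h.1 1 (by omega)
    have z1 : Function.update y 1 (y 1)⁻¹ 1 = (y 1)⁻¹ := Function.update_self _ _ _
    have zk : ∀ k, k ≠ 1 → Function.update y 1 (y 1)⁻¹ k = y k := fun k hk =>
      Function.update_of_ne hk _ _
    have hz : GenT (L + 2) (Function.update y 1 (y 1)⁻¹) := by
      refine ⟨nz_upd h.1 1 (inv_ne_zero n1), fun i hi hi2 => ?_, fun i j hi hi2 hj hj2 hij => ?_⟩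
      · by_cases hi1 : i = 1
        · subst hi1
          rw [z1, inv_pow]
          intro e
          exact h.2.1 1 le_rfl hi2 (inv_eq_one.1 e)
        · rw [zk i hi1]
          exact h.2.1 i hi hi2
      · by_cases hi1 : i = 1
        · subst hi1
          rw [z1, zk j (Ne.symm hij)]
          obtain ⟨a1, a2⟩ := h.2.2 1 j le_rfl hi2 hj hj2 hij
          have n3 : y 1 ^ 3 ≠ 0 := pow_ne_zero 3 n1
          constructor
          · intro e
            apply a2
            rw [← e, inv_pow, mul_inv_cancel₀ n3]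
          · intro e
            apply a1
            rw [inv_pow] at e
            have := congrArg (fun t => y 1 ^ 3 * t) e
            simp only [mul_one] at this
            rw [mul_inv_cancel_left₀ n3] at this
            exact this.symm
        · by_cases hj1 : j = 1
          · subst hj1
            rw [z1, zk i hi1]
            obtain ⟨a1, a2⟩ := h.2.2 i 1 hi hi2 le_rfl hj2 hij
            have n3 : y 1 ^ 3 ≠ 0 := pow_ne_zero 3 n1
            constructor
            · intro e
              apply a2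
              rw [e, inv_pow, inv_mul_cancel₀ n3]
            · intro e
              apply a1
              rw [inv_pow, ← div_eq_mul_inv, div_eq_one_iff_eq n3] at e
              exact e
          · rw [zk i hi1, zk j hj1]
            exact h.2.2 i j hi hi2 hj hj2 hij
    have r := BG_two S hz (by
      rw [z1, zk 0 (by omega)]
      exact h3)
    rw [S.Finv 1 y h.1 (by omega), S.Kinv 1 y h.1 (by omega), chr_inv] at r
    exact r

/-- the point `t = y 0` is `om^(±1) y_j^(±1)` -/
theorem Step.pairj {L : ℕ} {F K F' K' : (ℕ → ℂ) → ℂ} {κ : ℂ → ℂ} (S : Step L F K F' K' κ)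
    {y : ℕ → ℂ} (h : GenT (L + 2) y) {j : ℕ} (hj : 1 ≤ j) (hj2 : j < L + 2)
    (h1 : y 0 = om * y j ∨ y 0 = om ^ 2 * y j ∨ y 0 = om * (y j)⁻¹ ∨ y 0 = om ^ 2 * (y j)⁻¹) :
    F y = K y * chr (L + 2) y ^ 2 := by
  have z0 : Equiv.swap 1 j 0 = 0 := Equiv.swap_apply_of_ne_of_ne (by omega) (by omega)
  have z1 : Equiv.swap 1 j 1 = j := Equiv.swap_apply_left 1 j
  have hs : ∀ k, 1 ≤ k → k < L + 2 → 1 ≤ Equiv.swap 1 j k ∧ Equiv.swap 1 j k < L + 2 := by
    intro k hk hk2
    rw [Equiv.swap_apply_def]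
    split_ifs <;> omega
  have hz : GenT (L + 2) (fun k => y (Equiv.swap 1 j k)) := by
    refine ⟨fun k hk => ?_, fun i hi hi2 => ?_, fun i k hi hi2 hk hk2 hik => ?_⟩
    · by_cases h0 : k = 0
      · subst h0
        change y (Equiv.swap 1 j 0) ≠ 0
        rw [z0]
        exact h.1 0 hk
      · exact h.1 _ (hs k (by omega) hk).2
    · exact h.2.1 _ (hs i hi hi2).1 (hs i hi hi2).2
    · exact h.2.2 _ _ (hs i hi hi2).1 (hs i hi hi2).2 (hs k hk hk2).1 (hs k hk hk2).2
        fun e => hik ((Equiv.swap 1 j).injective e)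
  have r := Step.pair1 S hz (by
    change y (Equiv.swap 1 j 0) = om * y (Equiv.swap 1 j 1) ∨
      y (Equiv.swap 1 j 0) = om ^ 2 * y (Equiv.swap 1 j 1) ∨
      y (Equiv.swap 1 j 0) = om * (y (Equiv.swap 1 j 1))⁻¹ ∨
      y (Equiv.swap 1 j 0) = om ^ 2 * (y (Equiv.swap 1 j 1))⁻¹
    rw [z0, z1]
    exact h1)
  rw [inv_swap S.Fsw h.1 (by omega) hj2, inv_swap S.Ksw h.1 (by omega) hj2,
    chr_swap y (by omega) hj2] at r
  exact r

end PX
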