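import Pool.Agent.Lib.MP_216314_pr.X.BF

/-!
# Stream B: the set of the `4 (L - 1)` zeros
-/

set_option autoImplicit false

noncomputable section

namespace PX

open Finset

private theorem BH_om_sq_ne : om ^ 2 ≠ 1 := by
  intro h
  apply om_ne_one
  have h1 := om_cube
  calc om = om * om ^ 2 := by rw [h, mul_one]
    _ = om ^ 3 := by ring
    _ = 1 := h1

private theorem BH_om_ne : om ≠ om ^ 2 := by
  intro h
  apply om_ne_one
  have h1 : om * 1 = om * om := by rw [mul_one, ← sq]; exact h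
  exact (mul_left_cancel₀ om_ne_zero h1).symm

/-- the two choices `y`, `1/y` -/
private def BHu (b : Bool) (z : ℂ) : ℂ := if b then z else z⁻¹

private theorem BHu_ne {b : Bool} {z : ℂ} (hz : z ≠ 0) : BHu b z ≠ 0 := by
  unfold BHu
  split_ifs
  · exact hz
  · exact inv_ne_zero hz

private theorem BH_key {L : ℕ} {y : ℕ → ℂ} (h : GenT L y) {j k : ℕ} (hj : 1 ≤ j) (hj' : j < L)
    (hk : 1 ≤ k) (hk' : k < L) {b c : Bool} (he : BHu b (y j) ^ 3 = BHu c (y k) ^ 3) :
    j = k ∧ b = c := by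
  obtain ⟨h0, h6, h3⟩ := h
  have nj := h0 j hj'
  have nk := h0 k hk'
  have nj3 : y j ^ 3 ≠ 0 := pow_ne_zero 3 nj
  have nk3 : y k ^ 3 ≠ 0 := pow_ne_zero 3 nk
  by_cases hjk : j = k
  · refine ⟨hjk, ?_⟩
    subst hjk
    have h7 : ¬ y j ^ 3 = (y j ^ 3)⁻¹ := by
      intro h8
      apply h6 j hj hj'
      calc y j ^ 6 = y j ^ 3 * y j ^ 3 := by ring
        _ = (y j ^ 3)⁻¹ * y j ^ 3 := by rw [← h8]
        _ = 1 := inv_mul_cancel₀ nj3
    cases b <;> cases c
    · rfl
    · exfalso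
      have h8 : ((y j)⁻¹) ^ 3 = y j ^ 3 := he
      rw [inv_pow] at h8
      exact h7 h8.symm
    · exfalso
      have h8 : y j ^ 3 = ((y j)⁻¹) ^ 3 := he
      rw [inv_pow] at h8
      exact h7 h8
    · rfl
  · exfalso
    obtain ⟨g1, g2⟩ := h3 j k hj hj' hk hk' hjk
    cases b <;> cases c
    · have h8 : ((y j)⁻¹) ^ 3 = ((y k)⁻¹) ^ 3 := he
      rw [inv_pow, inv_pow] at h8
      exact g1 (inv_injective h8)
    · have h8 : ((y j)⁻¹) ^ 3 = y k ^ 3 := he
      rw [inv_pow] at h8
      apply g2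
      rw [← h8]
      exact mul_inv_cancel₀ nj3
    · have h8 : y j ^ 3 = ((y k)⁻¹) ^ 3 := he
      rw [inv_pow] at h8
      apply g2
      rw [h8]
      exact inv_mul_cancel₀ nk3
    · exact g1 he

/-- the zero with the given labels -/
private def BHx (y : ℕ → ℂ) (t : ℕ × Bool × Bool) : ℂ :=
  (if t.2.1 then om else om ^ 2) * BHu t.2.2 (y (t.1 + 1))

private theorem BHc (a : Bool) : (if a then om else om ^ 2) ^ 3 = 1 := by
  split_ifs
  · exact om_cube
  · rw [← pow_mul, mul_comm, pow_mul, om_cube, one_pow]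

private theorem BHc_ne (a : Bool) : (if a then om else om ^ 2) ≠ 1 := by
  split_ifs
  · exact om_ne_one
  · exact BH_om_sq_ne

private theorem BHc_ne_zero (a : Bool) : (if a then om else om ^ 2) ≠ 0 := by
  split_ifs
  · exact om_ne_zero
  · exact pow_ne_zero 2 om_ne_zero

private theorem BHx_cube (y : ℕ → ℂ) (t : ℕ × Bool × Bool) :
    BHx y t ^ 3 = BHu t.2.2 (y (t.1 + 1)) ^ 3 := by
  unfold BHx
  rw [mul_pow, BHc, one_mul]

theorem exists_zeros {L : ℕ} {y : ℕ → ℂ} (h : GenT L y) (hL : 1 ≤ L) :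
    ∃ s : Finset ℂ, s.card = 4 * (L - 1) ∧ ∀ x ∈ s, x ≠ 0 ∧
      (∃ j, 1 ≤ j ∧ j < L ∧
        (x = om * y j ∨ x = om ^ 2 * y j ∨ x = om * (y j)⁻¹ ∨ x = om ^ 2 * (y j)⁻¹)) ∧
      (∀ j, 1 ≤ j → j < L → XX x ≠ XX (y j)) := by
  refine ⟨(range (L - 1) ×ˢ (univ : Finset (Bool × Bool))).image (BHx y), ?_, ?_⟩
  · rw [Finset.card_image_of_injOn, card_product, card_range, card_univ, Fintype.card_prod,
      Fintype.card_bool]
    · ring
    · rintro ⟨j, a, b⟩ hj ⟨k, a', b'⟩ hk he
      rw [mem_coe, mem_product, mem_range] at hj hk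
      have hj1 : j < L - 1 := hj.1
      have hk1 : k < L - 1 := hk.1
      have h1 : BHu b (y (j + 1)) ^ 3 = BHu b' (y (k + 1)) ^ 3 := by
        have h2 := BHx_cube y (j, a, b)
        have h3 := BHx_cube y (k, a', b')
        rw [he] at h2
        exact h2.symm.trans h3
      obtain ⟨h2, h3⟩ := BH_key h (by omega) (by omega) (by omega) (by omega) h1
      have h4 : j = k := by omega
      subst h4
      subst h3
      have h5 : (if a then om else om ^ 2) * BHu b (y (j + 1)) =
          (if a' then om else om ^ 2) * BHu b (y (j + 1)) := he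
      have h6 := mul_right_cancel₀ (BHu_ne (h.1 (j + 1) (by omega))) h5
      have h7 : a = a' := by
        cases a <;> cases a'
        · rfl
        · exact absurd h6.symm BH_om_ne
        · exact absurd h6 BH_om_ne
        · rfl
      rw [h7]
  · intro x hx
    rw [mem_image] at hx
    obtain ⟨⟨j, a, b⟩, hj, rfl⟩ := hx
    rw [mem_product, mem_range] at hj
    have hj1 : j < L - 1 := hj.1
    have hy : y (j + 1) ≠ 0 := h.1 (j + 1) (by omega)
    have hx0 : BHx y (j, a, b) ≠ 0 := mul_ne_zero (BHc_ne_zero a) (BHu_ne hy)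
    refine ⟨hx0, ⟨j + 1, by omega, by omega, ?_⟩, ?_⟩
    · cases a <;> cases b
      · right; right; right; rfl
      · right; left; rfl
      · right; right; left; rfl
      · left; rfl
    · intro k hk hk' he
      have hyk : y k ≠ 0 := h.1 k hk'
      have h1 : ∃ c : Bool, BHx y (j, a, b) = BHu c (y k) := by
        rcases (XX_eq_iff hx0 hyk).mp he with h2 | h2
        · exact ⟨true, h2⟩
        · exact ⟨false, eq_inv_of_mul_eq_one_left h2⟩
      obtain ⟨c, hc⟩ := h1
      have h2 : BHu b (y (j + 1)) ^ 3 = BHu c (y k) ^ 3 := by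
        rw [← hc, BHx_cube]
      obtain ⟨h3, h4⟩ := BH_key h (by omega) (by omega) hk hk' h2
      subst h4
      rw [← h3] at hc
      have h5 : (if a then om else om ^ 2) * BHu b (y (j + 1)) = 1 * BHu b (y (j + 1)) := by
        rw [one_mul]
        exact hc
      exact BHc_ne a (mul_right_cancel₀ (BHu_ne hy) h5)

end PX
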