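import Pool.Agent.Lib.MP_216314_pr.X.BE
import Pool.Agent.Lib.MP_216314_pr.X.BG
import Pool.Agent.Lib.MP_216314_pr.X.BH

/-!
# Stream B: the induction step
-/

set_option autoImplicit false

noncomputable section

namespace PX

open Finset

theorem Step.main {L : ℕ} {F K F' K' : (ℕ → ℂ) → ℂ} {κ : ℂ → ℂ} (S : Step L F K F' K' κ)
    (a e : ℕ) (hF : Deg1 (L + 2) 0 a (2 * a) F) (hK : Deg1 (L + 2) 0 e (2 * e) K)
    (ha : e + 2 * ((L + 1) / 2) ≤ a) (hb : 2 * a < 4 * (L + 1)) :
    ∀ y, GenT (L + 2) y → (∀ j, 1 ≤ j → j < L + 2 → XX (y 0) ≠ XX (y j)) →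
      F y = K y * chr (L + 2) y ^ 2 := by
  intro y h hy0
  obtain ⟨pF, hpFd, hpF⟩ := hF y h.1
  obtain ⟨pK, hpKd, hpK⟩ := hK y h.1
  obtain ⟨pc, hpcd, hpc⟩ := chr_deg (L := L + 2) (by omega) h.dist
  have hL1 : L + 2 - 1 = L + 1 := by omega
  rw [hL1] at hpcd hpc
  generalize hdd : (L + 1) / 2 = d at hpcd hpc ha
  obtain ⟨s, hcard, hs⟩ := exists_zeros (L := L + 2) h (by omega)
  have hexp : a - e - 2 * d + e + 2 * d = a := by omega
  set q : Polynomial ℂ := pF - Polynomial.X ^ (a - e - 2 * d) * pK * pc ^ 2 with hq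
  have hqd : q.natDegree ≤ 2 * a := by
    rw [hq]
    refine (Polynomial.natDegree_sub_le _ _).trans (max_le hpFd ?_)
    refine Polynomial.natDegree_mul_le.trans ?_
    have h1 : (Polynomial.X ^ (a - e - 2 * d) * pK : Polynomial ℂ).natDegree ≤
        (a - e - 2 * d) + 2 * e := by
      refine Polynomial.natDegree_mul_le.trans ?_
      rw [Polynomial.natDegree_X_pow]
      omega
    have h2 : (pc ^ 2).natDegree ≤ 2 * (2 * d) :=
      Polynomial.natDegree_pow_le.trans (Nat.mul_le_mul_left _ hpcd)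
    omega
  have hqe : ∀ t : ℂ, t ≠ 0 → (∀ j, 1 ≤ j → j < L + 2 → XX t ≠ XX (y j)) →
      q.eval t = t ^ a * (F (Function.update y 0 t) -
        K (Function.update y 0 t) * chr (L + 2) (Function.update y 0 t) ^ 2) := by
    intro t ht htj
    rw [hq, Polynomial.eval_sub, Polynomial.eval_mul, Polynomial.eval_mul, Polynomial.eval_pow,
      Polynomial.eval_pow, Polynomial.eval_X, ← hpF t ht, ← hpK t ht, ← hpc t ht htj]
    have hta : t ^ a = t ^ (a - e - 2 * d) * t ^ e * (t ^ d) ^ 2 := by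
      rw [← pow_mul, ← pow_add, ← pow_add, mul_comm d 2, hexp]
    rw [hta]
    ring
  have hq0 : q = 0 := by
    refine zero_of_card hqd s ?_ (by omega)
    intro x hx
    obtain ⟨hx0, ⟨j, hj1, hj2, hxj⟩, hxne⟩ := hs x hx
    rw [hqe x hx0 hxne]
    have hj0 : j ≠ 0 := by omega
    have e0 : Function.update y 0 x 0 = x := Function.update_self 0 x y
    have ej : Function.update y 0 x j = y j := Function.update_of_ne hj0 x y
    have key := S.pairj (h.upd hx0) hj1 hj2 (by rw [e0, ej]; exact hxj)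
    rw [key, sub_self, mul_zero]
  have hyne : y 0 ≠ 0 := h.1 0 (by omega)
  have hfin := hqe (y 0) hyne hy0
  rw [hq0, Polynomial.eval_zero, Function.update_eq_self] at hfin
  have hpow : y 0 ^ a ≠ 0 := pow_ne_zero _ hyne
  have := (mul_eq_zero.mp hfin.symm).resolve_left hpow
  exact sub_eq_zero.mp this

end PX
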