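import Pool.Agent.Lib.MP_216314_pr.X.BM

/-!
# Stream B: the limit `ε → 0`
-/

set_option autoImplicit false

noncomputable section

namespace PX

open Finset Filter Topology

/-- the limit of the quotient -/
def Sm (n : ℕ) : ℂ := ∑ k : Fin (2 * n + 1), US (mm k - 1) 1 *
  (((mm (2 * n) : ℂ) * ∏ l ∈ univ.erase (Fin.last (2 * n)), ((mm l : ℂ) ^ 2 - (mm (2 * n) : ℂ) ^ 2)) /
    ((mm k : ℂ) * ∏ l ∈ univ.erase k, ((mm l : ℂ) ^ 2 - (mm k : ℂ) ^ 2)))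

theorem BN_slope (c : ℝ) : Tendsto (fun t : ℝ => t⁻¹ * Real.sin (c * t)) (𝓝[>] 0) (𝓝 c) := by
  have h2 : HasDerivAt (fun t : ℝ => c * t) c 0 := by
    simpa using (hasDerivAt_id (0 : ℝ)).const_mul c
  have h1 : HasDerivAt (fun t : ℝ => Real.sin (c * t)) (Real.cos (c * 0) * c) 0 := h2.sin
  have h3 := h1.tendsto_slope_zero_right
  simpa using h3

theorem lim_ss (m m' : ℕ) (hm : 1 ≤ m') :
    Tendsto (fun ε : ℝ => ssB ε m / ssB ε m') (𝓝[>] 0) (𝓝 ((m : ℂ) / (m' : ℂ))) := by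
  have hm0 : (m' : ℝ) ≠ 0 := by
    have : m' ≠ 0 := by omega
    exact_mod_cast this
  have h1 : Tendsto (fun t : ℝ => (t⁻¹ * Real.sin ((m : ℝ) * t)) / (t⁻¹ * Real.sin ((m' : ℝ) * t))) (𝓝[>] 0)
      (𝓝 ((m : ℝ) / (m' : ℝ))) := (BN_slope m).div (BN_slope m') hm0
  have h2 := (Complex.continuous_ofReal.tendsto ((m : ℝ) / (m' : ℝ))).comp h1
  have h3 : (((m : ℝ) / (m' : ℝ) : ℝ) : ℂ) = (m : ℂ) / (m' : ℂ) := by push_cast; rfl
  rw [h3] at h2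
  refine h2.congr' ?_
  filter_upwards [self_mem_nhdsWithin] with t ht
  have ht0 : (t : ℝ)⁻¹ ≠ 0 := inv_ne_zero (ne_of_gt ht)
  show (((t⁻¹ * Real.sin ((m : ℝ) * t)) / (t⁻¹ * Real.sin ((m' : ℝ) * t)) : ℝ) : ℂ) = ssB t m / ssB t m'
  rw [mul_div_mul_left _ _ ht0]
  unfold ssB
  rw [Complex.ofReal_div]

theorem lim_cc (m m' : ℕ) :
    Tendsto (fun ε : ℝ => (ccB ε m - ccB ε m') / ((ε : ℂ) ^ 2)) (𝓝[>] 0)
      (𝓝 ((m' : ℂ) ^ 2 - (m : ℂ) ^ 2)) := by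
  have h1 : Tendsto (fun t : ℝ => (-4) * ((t⁻¹ * Real.sin ((((m : ℝ) + m') / 2) * t)) *
      (t⁻¹ * Real.sin ((((m : ℝ) - m') / 2) * t)))) (𝓝[>] 0)
      (𝓝 ((-4) * ((((m : ℝ) + m') / 2) * (((m : ℝ) - m') / 2)))) :=
    ((BN_slope _).mul (BN_slope _)).const_mul (-4)
  have h2 := (Complex.continuous_ofReal.tendsto ((-4) * ((((m : ℝ) + m') / 2) * (((m : ℝ) - m') / 2)))).comp h1
  have h3 : (((-4) * ((((m : ℝ) + m') / 2) * (((m : ℝ) - m') / 2)) : ℝ) : ℂ) = (m' : ℂ) ^ 2 - (m : ℂ) ^ 2 := by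
    push_cast
    ring
  rw [h3] at h2
  refine h2.congr' ?_
  filter_upwards [self_mem_nhdsWithin] with t ht
  have ht0 : t ≠ 0 := ne_of_gt ht
  show (((-4) * ((t⁻¹ * Real.sin ((((m : ℝ) + m') / 2) * t)) * (t⁻¹ * Real.sin ((((m : ℝ) - m') / 2) * t))) : ℝ) : ℂ) =
    (ccB t m - ccB t m') / ((t : ℂ) ^ 2)
  unfold ccB
  rw [← Complex.ofReal_sub, ← Complex.ofReal_pow, ← Complex.ofReal_div]
  congr 1
  have h4 := Real.cos_sub_cos ((m : ℝ) * t) ((m' : ℝ) * t)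
  have e1 : ((m : ℝ) * t + (m' : ℝ) * t) / 2 = (((m : ℝ) + m') / 2) * t := by ring
  have e2 : ((m : ℝ) * t - (m' : ℝ) * t) / 2 = (((m : ℝ) - m') / 2) * t := by ring
  rw [e1, e2] at h4
  have h5 : 2 * Real.cos ((m : ℝ) * t) - 2 * Real.cos ((m' : ℝ) * t) =
      -4 * (Real.sin ((((m : ℝ) + m') / 2) * t) * Real.sin ((((m : ℝ) - m') / 2) * t)) := by
    linear_combination 2 * h4
  rw [h5]
  field_simp

/-- for small `ε > 0` the sines do not vanish and the cosines are distinct -/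
theorem eventually_small (M : ℕ) : ∀ᶠ ε : ℝ in 𝓝[>] 0,
    (∀ m : ℕ, 1 ≤ m → m ≤ M → ssB ε m ≠ 0) ∧
    (∀ m m' : ℕ, 1 ≤ m → m < m' → m' ≤ M → ccB ε m ≠ ccB ε m') := by
  have hM : (0 : ℝ) < 1 / ((M : ℝ) + 1) := by positivity
  filter_upwards [Ioo_mem_nhdsGT hM] with ε hε
  have h1 : ∀ m : ℕ, m ≤ M → (m : ℝ) * ε < Real.pi := by
    intro m hm
    have hm' : (m : ℝ) ≤ (M : ℝ) + 1 := by
      have : (m : ℝ) ≤ M := by exact_mod_cast hm
      linarith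
    have h2 : ((M : ℝ) + 1) * ε < 1 := by
      have := hε.2
      rw [lt_div_iff₀ (by positivity)] at this
      linarith
    have h3 : (m : ℝ) * ε ≤ ((M : ℝ) + 1) * ε := mul_le_mul_of_nonneg_right hm' hε.1.le
    have := Real.pi_gt_three
    linarith
  have h0 : ∀ m : ℕ, 1 ≤ m → 0 < (m : ℝ) * ε := by
    intro m hm
    have : (0 : ℝ) < m := by exact_mod_cast hm
    exact mul_pos this hε.1
  constructor
  · intro m hm1 hm2
    unfold ssB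
    rw [Complex.ofReal_ne_zero]
    exact (Real.sin_pos_of_pos_of_lt_pi (h0 m hm1) (h1 m hm2)).ne'
  · intro m m' hm1 hm2 hm3 heq
    unfold ccB at heq
    rw [Complex.ofReal_inj] at heq
    have h2 : Real.cos ((m : ℝ) * ε) = Real.cos ((m' : ℝ) * ε) := by linarith
    have h3 := Real.injOn_cos ⟨(h0 m hm1).le, (h1 m (by omega)).le⟩ ⟨(h0 m' (by omega)).le, (h1 m' hm3).le⟩ h2
    have h4 : (m : ℝ) = (m' : ℝ) := mul_right_cancel₀ (ne_of_gt hε.1) h3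
    have h5 : m = m' := by exact_mod_cast h4
    omega

theorem BN_prod {N : ℕ} (m : Fin (N + 1) → ℕ) (k : Fin (N + 1)) :
    Tendsto (fun ε : ℝ => (∏ l ∈ univ.erase k, (ccB ε (m k) - ccB ε (m l))) / ((ε : ℂ) ^ 2) ^ N) (𝓝[>] 0)
      (𝓝 (∏ l ∈ univ.erase k, ((m l : ℂ) ^ 2 - (m k : ℂ) ^ 2))) := by
  have h1 : Tendsto (fun ε : ℝ => ∏ l ∈ univ.erase k, ((ccB ε (m k) - ccB ε (m l)) / ((ε : ℂ) ^ 2))) (𝓝[>] 0)
      (𝓝 (∏ l ∈ univ.erase k, ((m l : ℂ) ^ 2 - (m k : ℂ) ^ 2))) :=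
    tendsto_finsetProd _ (fun l _ => lim_cc (m k) (m l))
  refine h1.congr (fun ε => ?_)
  rw [Finset.prod_div_distrib, Finset.prod_const, Finset.card_erase_of_mem (Finset.mem_univ _), Finset.card_univ,
    Fintype.card_fin]
  rfl

theorem BN_ne {N : ℕ} (k : Fin (N + 1)) : ∏ l ∈ univ.erase k, ((mm l : ℂ) ^ 2 - (mm k : ℂ) ^ 2) ≠ 0 := by
  rw [Finset.prod_ne_zero_iff]
  intro l hl
  have hne : (l : ℕ) ≠ k := fun h => (Finset.mem_erase.1 hl).1 (Fin.ext h)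
  have h1 : mm l ≠ mm k := fun h => hne (mm_strictMono.injective h)
  have h2 := mm_pos l
  have h3 := mm_pos k
  have h4 : (mm l) ^ 2 ≠ (mm k) ^ 2 := by
    intro h
    exact h1 (Nat.pow_left_injective (n := 2) (by norm_num) h)
  intro h
  apply h4
  have : ((mm l : ℂ)) ^ 2 = (mm k : ℂ) ^ 2 := by linear_combination h
  exact_mod_cast this

theorem BN_XX : XX (-om) = 1 := by
  unfold XX
  rw [inv_neg, om_inv]
  linear_combination -om_eq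

theorem lim_ratio (n : ℕ) :
    Tendsto (fun ε : ℝ => chr (2 * n + 1) (cns (-om) (wv ε)) / chr (2 * n) (wv ε)) (𝓝[>] 0)
      (𝓝 (Sm n)) := by
  have hprod : Tendsto (fun ε : ℝ => (∏ j ∈ range (2 * n), (XX (wv ε j) - XX (-om)))⁻¹) (𝓝[>] 0) (𝓝 1) := by
    have h1 : ∀ j : ℕ, Tendsto (fun ε : ℝ => XX (wv ε j) - XX (-om)) (𝓝[>] 0) (𝓝 1) := by
      intro j
      have h2 : Continuous (fun ε : ℝ => ccB ε (j + 1)) := by
        unfold ccB
        fun_prop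
      have h3 := (h2.tendsto 0).mono_left (nhdsWithin_le_nhds (s := Set.Ioi (0 : ℝ)))
      have h4 : ccB 0 (j + 1) = 2 := by
        unfold ccB
        simp
      rw [h4] at h3
      have h5 := h3.sub_const (XX (-om))
      rw [BN_XX] at h5 ⊢
      have h6 : (2 : ℂ) - 1 = 1 := by norm_num
      rw [h6] at h5
      refine h5.congr (fun ε => ?_)
      rw [XX_wv]
    have h2 : Tendsto (fun ε : ℝ => ∏ j ∈ range (2 * n), (XX (wv ε j) - XX (-om))) (𝓝[>] 0)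
        (𝓝 (∏ _j ∈ range (2 * n), (1 : ℂ))) := tendsto_finsetProd _ (fun j _ => h1 j)
    rw [Finset.prod_const_one] at h2
    simpa using h2.inv₀ one_ne_zero
  have hterm : ∀ k : Fin (2 * n + 1), Tendsto (fun ε : ℝ => US (mm k - 1) (XX (-om)) *
        ((ssB ε (mm (2 * n)) * ∏ l ∈ univ.erase (Fin.last (2 * n)), (ccB ε (mm (2 * n)) - ccB ε (mm l))) /
          (ssB ε (mm k) * ∏ l ∈ univ.erase k, (ccB ε (mm k) - ccB ε (mm l))))) (𝓝[>] 0)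
      (𝓝 (US (mm k - 1) 1 *
        (((mm (2 * n) : ℂ) * ∏ l ∈ univ.erase (Fin.last (2 * n)), ((mm l : ℂ) ^ 2 - (mm (2 * n) : ℂ) ^ 2)) /
        ((mm k : ℂ) * ∏ l ∈ univ.erase k, ((mm l : ℂ) ^ 2 - (mm k : ℂ) ^ 2))))) := by
    intro k
    rw [BN_XX]
    apply Tendsto.const_mul
    have h1 := lim_ss (mm (2 * n)) (mm k) (mm_pos k)
    have h2 := BN_prod (N := 2 * n) (fun l => mm l) (Fin.last (2 * n))
    have h3 := BN_prod (N := 2 * n) (fun l => mm l) k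
    have h4 := h1.mul (h2.div h3 (BN_ne k))
    simp only [Fin.val_last] at h4
    have e1 : (mm (2 * n) : ℂ) / (mm k : ℂ) * ((∏ l ∈ univ.erase (Fin.last (2 * n)), ((mm l : ℂ) ^ 2 - (mm (2 * n) : ℂ) ^ 2)) /
        ∏ l ∈ univ.erase k, ((mm l : ℂ) ^ 2 - (mm k : ℂ) ^ 2)) =
        ((mm (2 * n) : ℂ) * ∏ l ∈ univ.erase (Fin.last (2 * n)), ((mm l : ℂ) ^ 2 - (mm (2 * n) : ℂ) ^ 2)) /
        ((mm k : ℂ) * ∏ l ∈ univ.erase k, ((mm l : ℂ) ^ 2 - (mm k : ℂ) ^ 2)) := by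
      rw [div_mul_div_comm]
    rw [e1] at h4
    refine h4.congr' ?_
    filter_upwards [self_mem_nhdsWithin] with ε hε
    have hε0 : ((ε : ℂ) ^ 2) ^ (2 * n) ≠ 0 := by
      have : (ε : ℂ) ≠ 0 := Complex.ofReal_ne_zero.2 (ne_of_gt hε)
      exact pow_ne_zero _ (pow_ne_zero _ this)
    rw [Pi.div_apply, div_div_div_cancel_right₀ hε0, div_mul_div_comm]
  have hsum := tendsto_finsetSum (Finset.univ : Finset (Fin (2 * n + 1))) (fun k _ => hterm k)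
  have hall := hprod.mul hsum
  rw [one_mul] at hall
  refine hall.congr' ?_
  filter_upwards [eventually_small (mm (2 * n))] with ε hε
  rw [chr_ratio (2 * n) (even_two_mul n) (-om) ε hε.1 hε.2]

end PX
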