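import Mathlib

/-!
# Stream B: a terminating hypergeometric sum (Kummer) by the method of Wilf and Zeilberger
-/

set_option autoImplicit false

noncomputable section

namespace PX

open Finset

def tz (n j : ℕ) : ℚ := (-1) ^ j * (Nat.choose (2 * n) j : ℚ) *
  (∏ i ∈ range (2 * n - j), (3 * ((i : ℚ) + j) + 5)) / (∏ i ∈ range (2 * n - j), (3 * (i : ℚ) + 1))

theorem BO_pos (m : ℕ) : (∏ i ∈ range m, (3 * (i : ℚ) + 1)) ≠ 0 := by
  refine Finset.prod_ne_zero_iff.2 fun i _ => ?_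
  positivity

theorem BO_zero (n j : ℕ) (hj : 2 * n < j) : tz n j = 0 := by
  unfold tz
  rw [Nat.choose_eq_zero_of_lt hj]
  simp

theorem BO_i (n j : ℕ) (hj : j ≤ 2 * n + 2) :
    tz n j * ((2 * n + 2) * (2 * n + 1) * (6 * n + 5) * (6 * n + 8)) =
      tz (n + 1) j * ((2 * n + 2 - j) * (2 * n + 1 - j) * (6 * n + 4 - 3 * j) * (6 * n + 1 - 3 * j)) := by
  rcases Nat.lt_or_ge (2 * n) j with h | h
  · rw [BO_zero n j h, zero_mul]
    have h1 : j = 2 * n + 1 ∨ j = 2 * n + 2 := by omega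
    rcases h1 with h1 | h1
    · rw [h1]; push_cast; ring
    · rw [h1]; push_cast; ring
  · obtain ⟨m, hm⟩ := Nat.exists_eq_add_of_le h
    have e1 : 2 * n - j = m := by omega
    have e2 : 2 * (n + 1) - j = m + 2 := by omega
    have e3 : 2 * (n + 1) = 2 * n + 1 + 1 := by ring
    have hmq : 2 * (n : ℚ) = j + m := by exact_mod_cast hm
    have c1 := Nat.choose_mul_succ_eq (2 * n) j
    have c2 := Nat.choose_mul_succ_eq (2 * n + 1) j
    have e4 : 2 * n + 1 - j = m + 1 := by omega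
    have e5 : 2 * n + 1 + 1 - j = m + 2 := by omega
    rw [e4] at c1
    rw [e5] at c2
    have c1' : (Nat.choose (2 * n) j : ℚ) * (2 * n + 1) = (Nat.choose (2 * n + 1) j : ℚ) * (m + 1) := by
      exact_mod_cast c1
    have c2' : (Nat.choose (2 * n + 1) j : ℚ) * (2 * n + 1 + 1) = (Nat.choose (2 * n + 1 + 1) j : ℚ) * (m + 2) := by
      exact_mod_cast c2
    have hB := BO_pos m
    unfold tz
    rw [e1, e2, e3]
    rw [Finset.prod_range_succ, Finset.prod_range_succ, Finset.prod_range_succ, Finset.prod_range_succ]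
    set A := ∏ i ∈ range m, (3 * ((i : ℚ) + j) + 5) with hA
    set B := ∏ i ∈ range m, (3 * (i : ℚ) + 1) with hBB
    set C0 := (Nat.choose (2 * n) j : ℚ)
    set C1 := (Nat.choose (2 * n + 1) j : ℚ)
    set C2 := (Nat.choose (2 * n + 1 + 1) j : ℚ)
    have hj' : (j : ℚ) = 2 * n - m := by linarith
    have k1 : (3 * (m : ℚ) + 1) ≠ 0 := by positivity
    have k2 : (3 * ((m + 1 : ℕ) : ℚ) + 1) ≠ 0 := by positivity
    have k3 : C0 * (2 * n + 1) * (2 * n + 2) = C2 * (m + 2) * (m + 1) := by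
      have : C0 * (2 * n + 1) * (2 * n + 2) = C1 * (2 * n + 1 + 1) * (m + 1) := by
        rw [c1']; ring
      rw [this, c2']
    have k4 : (-1) ^ j * C2 * (A * (3 * ((m : ℚ) + j) + 5) * (3 * (((m + 1 : ℕ) : ℚ) + j) + 5)) /
        (B * (3 * (m : ℚ) + 1) * (3 * ((m + 1 : ℕ) : ℚ) + 1)) *
        ((2 * n + 2 - j) * (2 * n + 1 - j) * (6 * n + 4 - 3 * j) * (6 * n + 1 - 3 * j)) =
        (-1) ^ j * (C2 * (m + 2) * (m + 1)) * A / B * ((6 * n + 5) * (6 * n + 8)) := by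
      rw [hj']
      push_cast at k2 ⊢
      field_simp
      ring
    rw [k4, ← k3]
    ring

theorem BO_ii (n j : ℕ) (hj : j ≤ 2 * n + 2) :
    tz (n + 1) (j + 1) * ((j + 1) * (3 * j + 5)) =
      - (tz (n + 1) j * ((2 * n + 2 - j) * (6 * n + 4 - 3 * j))) := by
  rcases Nat.lt_or_ge (2 * n + 1) j with h | h
  · have h1 : j = 2 * n + 2 := by omega
    rw [BO_zero (n + 1) (j + 1) (by omega), h1]
    push_cast
    ring
  · obtain ⟨m, hm⟩ := Nat.exists_eq_add_of_le h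
    have e1 : 2 * (n + 1) - (j + 1) = m := by omega
    have e2 : 2 * (n + 1) - j = m + 1 := by omega
    have hmq : 2 * (n : ℚ) + 1 = j + m := by exact_mod_cast hm
    have c1 := Nat.choose_succ_right_eq (2 * (n + 1)) j
    rw [e2] at c1
    have c1' : (Nat.choose (2 * (n + 1)) (j + 1) : ℚ) * (j + 1) = (Nat.choose (2 * (n + 1)) j : ℚ) * (m + 1) := by
      exact_mod_cast c1
    have hB := BO_pos m
    unfold tz
    rw [e1, e2]
    rw [Finset.prod_range_succ' (fun i : ℕ => (3 * ((i : ℚ) + (j : ℚ)) + 5)) m,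
      Finset.prod_range_succ (fun i : ℕ => (3 * (i : ℚ) + 1)) m]
    have hA : ∏ i ∈ range m, (3 * ((i : ℚ) + ((j + 1 : ℕ) : ℚ)) + 5) =
        ∏ i ∈ range m, (3 * (((i + 1 : ℕ) : ℚ) + (j : ℚ)) + 5) := by
      refine Finset.prod_congr rfl fun i _ => ?_
      push_cast
      ring
    rw [hA]
    set A := ∏ i ∈ range m, (3 * (((i + 1 : ℕ) : ℚ) + (j : ℚ)) + 5)
    set B := ∏ i ∈ range m, (3 * (i : ℚ) + 1)
    set C0 := (Nat.choose (2 * (n + 1)) j : ℚ)
    set C1 := (Nat.choose (2 * (n + 1)) (j + 1) : ℚ)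
    have k1 : (3 * (m : ℚ) + 1) ≠ 0 := by positivity
    have hj' : (j : ℚ) = 2 * n + 1 - m := by linarith
    have k2 : (-1) ^ (j + 1) * C1 * A / B * ((j + 1) * (3 * j + 5)) =
        (-1) ^ (j + 1) * (C1 * (j + 1)) * A / B * (3 * j + 5) := by ring
    have k3 : (-1) ^ j * C0 * (A * (3 * (((0 : ℕ) : ℚ) + (j : ℚ)) + 5)) / (B * (3 * (m : ℚ) + 1)) *
        ((2 * n + 2 - j) * (6 * n + 4 - 3 * j)) =
        (-1) ^ j * (C0 * (m + 1)) * A / B * (3 * j + 5) := by
      have k4 : (2 * (n : ℚ) + 2 - j) = m + 1 := by linarith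
      have k5 : (6 * (n : ℚ) + 4 - 3 * j) = 3 * m + 1 := by linarith
      rw [k4, k5]
      field_simp
      push_cast
      ring
    rw [k2, k3, c1', pow_succ]
    ring

def BO_P (n j : ℚ) : ℚ := -3 * j ^ 2 + (18 * n + 13) * j - (30 * n ^ 2 + 45 * n + 16)

def BO_G (n j : ℕ) : ℚ := j * (3 * j + 2) * BO_P n j * tz (n + 1) j

theorem BO_iii (n j : ℕ) (hj : j ≤ 2 * n + 2) :
    ((2 * n + 2) * (2 * n + 1) * (6 * n + 8)) * ((3 * n + 2) * tz (n + 1) j + 2 * (6 * n + 5) * tz n j) =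
      BO_G n (j + 1) - BO_G n j := by
  have h1 := BO_i n j hj
  have h2 := BO_ii n j hj
  unfold BO_G BO_P
  push_cast
  linear_combination 2 * h1 - (-3 * ((j : ℚ) + 1) ^ 2 + (18 * n + 13) * (j + 1) - (30 * n ^ 2 + 45 * n + 16)) * h2

theorem BO_rec (n : ℕ) : (3 * (n : ℚ) + 2) * (∑ j ∈ range (2 * (n + 1) + 1), tz (n + 1) j) =
    - (2 * (6 * n + 5) * ∑ j ∈ range (2 * n + 1), tz n j) := by
  have h1 : ∑ j ∈ range (2 * n + 3),
      ((2 * n + 2) * (2 * n + 1) * (6 * n + 8) : ℚ) * ((3 * n + 2) * tz (n + 1) j + 2 * (6 * n + 5) * tz n j) =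
      ∑ j ∈ range (2 * n + 3), (BO_G n (j + 1) - BO_G n j) := by
    refine Finset.sum_congr rfl fun j hj => ?_
    rw [mem_range] at hj
    exact BO_iii n j (by omega)
  rw [Finset.sum_range_sub, ← Finset.mul_sum, Finset.sum_add_distrib, ← Finset.mul_sum, ← Finset.mul_sum] at h1
  have h2 : BO_G n (2 * n + 3) = 0 := by
    unfold BO_G
    rw [BO_zero (n + 1) (2 * n + 3) (by omega), mul_zero]
  have h3 : BO_G n 0 = 0 := by
    unfold BO_G
    simp
  have h4 : ∑ j ∈ range (2 * n + 3), tz n j = ∑ j ∈ range (2 * n + 1), tz n j := by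
    rw [Finset.sum_range_succ, Finset.sum_range_succ, BO_zero n (2 * n + 1) (by omega),
      BO_zero n (2 * n + 2) (by omega), add_zero, add_zero]
  rw [h2, h3, h4, sub_zero] at h1
  have h5 : ((2 * n + 2) * (2 * n + 1) * (6 * n + 8) : ℚ) ≠ 0 := by positivity
  have h6 := (mul_eq_zero.1 h1).resolve_left h5
  have h7 : 2 * (n + 1) + 1 = 2 * n + 3 := by ring
  rw [h7]
  linarith

theorem tz_sum (n : ℕ) : ∑ j ∈ range (2 * n + 1), tz n j =
    (-1) ^ n * ∏ j ∈ range n, (2 * (6 * (j : ℚ) + 5) / (3 * j + 2)) := by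
  induction n with
  | zero => simp [tz]
  | succ n ih =>
    have h1 := BO_rec n
    rw [ih] at h1
    have h2 : (3 * (n : ℚ) + 2) ≠ 0 := by positivity
    rw [Finset.prod_range_succ]
    have h3 : ∑ j ∈ range (2 * (n + 1) + 1), tz (n + 1) j =
        - (2 * (6 * n + 5) * ((-1) ^ n * ∏ j ∈ range n, (2 * (6 * (j : ℚ) + 5) / (3 * j + 2)))) / (3 * (n : ℚ) + 2) := by
      rw [eq_div_iff h2, mul_comm]
      exact h1
    rw [h3, pow_succ]
    ring

end PX
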