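import Pool.Agent.Lib.MP_216314_pr.X.BN
import Pool.Agent.Lib.MP_216314_pr.X.BO

/-!
# Stream B: closed form of `Sm`
-/

set_option autoImplicit false

noncomputable section

namespace PX

open Finset

theorem BP_fact (m j : ℕ) (hj : j ≤ m) : ∏ l ∈ (range (m + 1)).erase j, ((l : ℚ) - j) =
    (-1) ^ j * (j.factorial : ℚ) * ((m - j).factorial : ℚ) := by
  have h1 : (range (m + 1)).erase j = range j ∪ Ico (j + 1) (m + 1) := by
    ext l
    simp only [mem_erase, mem_range, mem_union, mem_Ico]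
    omega
  have h2 : Disjoint (range j) (Ico (j + 1) (m + 1)) := by
    rw [Finset.disjoint_left]
    intro l hl hl'
    rw [mem_range] at hl
    rw [mem_Ico] at hl'
    omega
  rw [h1, Finset.prod_union h2]
  have h3 : ∏ l ∈ range j, ((l : ℚ) - j) = (-1) ^ j * (j.factorial : ℚ) := by
    rw [← Finset.prod_range_reflect, ← Finset.prod_range_add_one_eq_factorial, Nat.cast_prod]
    have h4 : ((-1 : ℚ)) ^ j = ∏ _i ∈ range j, (-1 : ℚ) := by
      rw [Finset.prod_const, card_range]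
    rw [h4, ← Finset.prod_mul_distrib]
    apply Finset.prod_congr rfl
    intro l hl
    rw [mem_range] at hl
    rw [Nat.cast_sub (by omega), Nat.cast_sub (by omega)]
    push_cast
    ring
  have h5 : ∏ l ∈ Ico (j + 1) (m + 1), ((l : ℚ) - j) = ((m - j).factorial : ℚ) := by
    rw [Finset.prod_Ico_eq_prod_range, ← Finset.prod_range_add_one_eq_factorial, Nat.cast_prod]
    have h6 : m + 1 - (j + 1) = m - j := by omega
    rw [h6]
    apply Finset.prod_congr rfl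
    intro l _
    push_cast
    ring
  rw [h3, h5]

theorem BP_sum (n j : ℕ) (hj : j ≤ 2 * n) : ∏ l ∈ range (2 * n + 1), (3 * ((l : ℚ) + j) - 6 * n + 2) =
    (-1) ^ j * (∏ i ∈ range (j + 1), (3 * (i : ℚ) + 2)) * (∏ i ∈ range (2 * n - j), (3 * (i : ℚ) + 1)) := by
  have h1 : 2 * n + 1 = (2 * n - j) + (j + 1) := by omega
  have hcast : ((2 * n - j : ℕ) : ℚ) = 2 * n - j := by
    rw [Nat.cast_sub hj]
    push_cast
    ring
  rw [h1, Finset.prod_range_add]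
  have h2 : ∏ l ∈ range (2 * n - j), (3 * ((l : ℚ) + j) - 6 * n + 2) =
      (-1) ^ j * ∏ i ∈ range (2 * n - j), (3 * (i : ℚ) + 1) := by
    rw [← Finset.prod_range_reflect]
    have h4 : ((-1 : ℚ)) ^ j = ∏ _i ∈ range (2 * n - j), (-1 : ℚ) := by
      rw [Finset.prod_const, card_range]
      have h5 : ((-1 : ℚ)) ^ (2 * n - j) * (-1) ^ j = 1 := by
        rw [← pow_add, Nat.sub_add_cancel hj, pow_mul]
        norm_num
      have h6 : ((-1 : ℚ)) ^ j * (-1) ^ j = 1 := by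
        rw [← mul_pow]
        norm_num
      calc ((-1 : ℚ)) ^ j = (((-1 : ℚ)) ^ (2 * n - j) * (-1) ^ j) * (-1) ^ j := by rw [h5, one_mul]
        _ = ((-1 : ℚ)) ^ (2 * n - j) * ((-1) ^ j * (-1) ^ j) := by ring
        _ = ((-1 : ℚ)) ^ (2 * n - j) := by rw [h6, mul_one]
    rw [h4, ← Finset.prod_mul_distrib]
    apply Finset.prod_congr rfl
    intro l hl
    rw [mem_range] at hl
    rw [Nat.cast_sub (by omega), Nat.cast_sub (by omega), hcast]
    push_cast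
    ring
  have h3 : ∏ l ∈ range (j + 1), (3 * ((((2 * n - j) + l : ℕ) : ℚ) + j) - 6 * n + 2) =
      ∏ i ∈ range (j + 1), (3 * (i : ℚ) + 2) := by
    apply Finset.prod_congr rfl
    intro l _
    rw [Nat.cast_add, hcast]
    ring
  rw [h2, h3]
  ring

theorem D_prod (n j : ℕ) (hj : j ≤ 2 * n) :
    (3 * (j : ℚ) - 3 * n + 1) * ∏ l ∈ (range (2 * n + 1)).erase j,
      ((3 * (l : ℚ) - 3 * n + 1) ^ 2 - (3 * (j : ℚ) - 3 * n + 1) ^ 2) =
    3 ^ (2 * n) / 2 * (j.factorial : ℚ) * ((2 * n - j).factorial : ℚ) *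
      (∏ i ∈ range (j + 1), (3 * (i : ℚ) + 2)) * (∏ i ∈ range (2 * n - j), (3 * (i : ℚ) + 1)) := by
  have hmem : j ∈ range (2 * n + 1) := by
    rw [mem_range]
    omega
  have h1 : ∏ l ∈ (range (2 * n + 1)).erase j,
      ((3 * (l : ℚ) - 3 * n + 1) ^ 2 - (3 * (j : ℚ) - 3 * n + 1) ^ 2) =
      3 ^ (2 * n) * (∏ l ∈ (range (2 * n + 1)).erase j, ((l : ℚ) - j)) *
      ∏ l ∈ (range (2 * n + 1)).erase j, (3 * ((l : ℚ) + j) - 6 * n + 2) := by
    have h4 : ((3 : ℚ)) ^ (2 * n) = ∏ _i ∈ (range (2 * n + 1)).erase j, (3 : ℚ) := by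
      rw [Finset.prod_const, Finset.card_erase_of_mem hmem, card_range, Nat.add_sub_cancel]
    rw [h4, ← Finset.prod_mul_distrib, ← Finset.prod_mul_distrib]
    apply Finset.prod_congr rfl
    intro l _
    ring
  have h2 := Finset.mul_prod_erase (range (2 * n + 1)) (fun l : ℕ => (3 * ((l : ℚ) + j) - 6 * n + 2)) hmem
  rw [BP_sum n j hj] at h2
  rw [h1, BP_fact (2 * n) j hj]
  have h3 : ((-1 : ℚ)) ^ j * (-1) ^ j = 1 := by
    rw [← mul_pow]
    norm_num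
  obtain ⟨P, hP⟩ : ∃ P : ℚ, P = ∏ l ∈ (range (2 * n + 1)).erase j, (3 * ((l : ℚ) + j) - 6 * n + 2) := ⟨_, rfl⟩
  obtain ⟨Q, hQ⟩ : ∃ Q : ℚ, Q = (∏ i ∈ range (j + 1), (3 * (i : ℚ) + 2)) * (∏ i ∈ range (2 * n - j), (3 * (i : ℚ) + 1)) :=
    ⟨_, rfl⟩
  rw [mul_assoc ((-1 : ℚ) ^ j), ← hQ] at h2
  rw [← hP] at h2 ⊢
  rw [mul_assoc (3 ^ (2 * n) / 2 * (j.factorial : ℚ) * ((2 * n - j).factorial : ℚ)), ← hQ]
  have h5 : (3 * (j : ℚ) - 3 * n + 1) * P = (-1) ^ j * Q / 2 := by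
    rw [← h2]
    ring
  calc (3 * (j : ℚ) - 3 * n + 1) * (3 ^ (2 * n) * ((-1) ^ j * (j.factorial : ℚ) * ((2 * n - j).factorial : ℚ)) * P)
      = 3 ^ (2 * n) * ((-1) ^ j * (j.factorial : ℚ) * ((2 * n - j).factorial : ℚ)) * ((3 * (j : ℚ) - 3 * n + 1) * P) := by ring
    _ = 3 ^ (2 * n) / 2 * (j.factorial : ℚ) * ((2 * n - j).factorial : ℚ) * Q * ((-1) ^ j * (-1) ^ j) := by rw [h5]; ring
    _ = _ := by rw [h3]; ring

/-- the value of the character at `XX t = 1` -/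
theorem US_one (m : ℕ) : US (3 * m) 1 = (-1) ^ m ∧ US (3 * m + 1) 1 = (-1) ^ m ∧
    US (3 * m + 2) 1 = 0 := by
  induction m with
  | zero => simp [US]
  | succ m ih =>
    obtain ⟨h1, h2, h3⟩ := ih
    have e1 : US (3 * m + 3) 1 = (1 : ℂ) * US (3 * m + 2) 1 - US (3 * m + 1) 1 := rfl
    have e2 : US (3 * m + 4) 1 = (1 : ℂ) * US (3 * m + 3) 1 - US (3 * m + 2) 1 := rfl
    have e3 : US (3 * m + 5) 1 = (1 : ℂ) * US (3 * m + 4) 1 - US (3 * m + 3) 1 := rfl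
    have f1 : 3 * (m + 1) = 3 * m + 3 := by ring
    rw [f1]
    refine ⟨?_, ?_, ?_⟩
    · rw [e1, h3, h2]
      ring
    · show US (3 * m + 4) 1 = _
      rw [e2, e1, h3, h2]
      ring
    · show US (3 * m + 5) 1 = _
      rw [e3, e2, e1, h3, h2]
      ring

def BP_phi (n k : ℕ) : ℕ := if k % 2 = 0 then n + k / 2 else n - 1 - k / 2

theorem BP_phi_lt (n k : ℕ) (hk : k < 2 * n + 1) : BP_phi n k < 2 * n + 1 := by
  unfold BP_phi
  by_cases h : k % 2 = 0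
  · rw [if_pos h]
    omega
  · rw [if_neg h]
    omega

theorem BP_phi_inj (n k l : ℕ) (hk : k < 2 * n + 1) (hl : l < 2 * n + 1) (h : BP_phi n k = BP_phi n l) : k = l := by
  unfold BP_phi at h
  by_cases h1 : k % 2 = 0
  · rw [if_pos h1] at h
    by_cases h2 : l % 2 = 0
    · rw [if_pos h2] at h
      omega
    · rw [if_neg h2] at h
      omega
  · rw [if_neg h1] at h
    by_cases h2 : l % 2 = 0
    · rw [if_pos h2] at h
      omega
    · rw [if_neg h2] at h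
      omega

theorem BP_phi_surj (n j : ℕ) (hj : j < 2 * n + 1) : ∃ k, k < 2 * n + 1 ∧ BP_phi n k = j := by
  by_cases h : n ≤ j
  · refine ⟨2 * (j - n), by omega, ?_⟩
    unfold BP_phi
    rw [if_pos (by omega)]
    omega
  · refine ⟨2 * (n - 1 - j) + 1, by omega, ?_⟩
    unfold BP_phi
    rw [if_neg (by omega)]
    omega

/-- `r = 3 j - 3 n + 1` for `j = phi k` is `mm k` up to the sign -/
theorem BP_val (n k : ℕ) (hk : k < 2 * n + 1) :
    ((mm k : ℚ)) ^ 2 = (3 * (BP_phi n k : ℚ) - 3 * n + 1) ^ 2 ∧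
    (US (mm k - 1) 1 : ℂ) * (((3 * (BP_phi n k : ℚ) - 3 * n + 1 : ℚ)) : ℂ) =
      ((((-1) ^ (BP_phi n k + n) * (mm k : ℚ) : ℚ)) : ℂ) := by
  by_cases h : k % 2 = 0
  · obtain ⟨i, rfl⟩ : ∃ i, k = 2 * i := ⟨k / 2, by omega⟩
    have h1 : BP_phi n (2 * i) = n + i := by
      unfold BP_phi
      rw [if_pos h]
      omega
    have h2 : mm (2 * i) = 3 * i + 1 := by
      unfold mm
      omega
    rw [h1, h2]
    constructor
    · push_cast
      ring
    · have h3 : 3 * i + 1 - 1 = 3 * i := by omega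
      rw [h3, (US_one i).1]
      have h4 : ((-1 : ℂ)) ^ (n + i + n) = (-1) ^ i := by
        have : n + i + n = 2 * n + i := by ring
        rw [this, pow_add, pow_mul]
        norm_num
      push_cast
      rw [h4]
      ring
  · obtain ⟨i, rfl⟩ : ∃ i, k = 2 * i + 1 := ⟨k / 2, by omega⟩
    have h1 : BP_phi n (2 * i + 1) = n - 1 - i := by
      unfold BP_phi
      rw [if_neg h]
      omega
    have h2 : mm (2 * i + 1) = 3 * i + 2 := by
      unfold mm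
      omega
    obtain ⟨d, hd⟩ : ∃ d, n = d + i + 1 := ⟨n - 1 - i, by omega⟩
    have h1' : BP_phi n (2 * i + 1) = d := by
      rw [h1]
      omega
    rw [h1', h2, hd]
    constructor
    · push_cast
      ring
    · have h3 : 3 * i + 2 - 1 = 3 * i + 1 := by omega
      rw [h3, (US_one i).2.1]
      have h4 : ((-1 : ℂ)) ^ (d + (d + i + 1)) = -(-1) ^ i := by
        have : d + (d + i + 1) = 2 * d + i + 1 := by ring
        rw [this, pow_succ, pow_add, pow_mul]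
        norm_num
      push_cast
      rw [h4]
      ring

theorem BP_prod (n : ℕ) (k : Fin (2 * n + 1)) :
    ∏ l ∈ univ.erase k, ((mm l : ℂ) ^ 2 - (mm k : ℂ) ^ 2) =
      ((∏ l ∈ (range (2 * n + 1)).erase (BP_phi n k),
        ((3 * (l : ℚ) - 3 * n + 1) ^ 2 - (3 * (BP_phi n k : ℚ) - 3 * n + 1) ^ 2) : ℚ) : ℂ) := by
  rw [Rat.cast_prod]
  apply Finset.prod_nbij (fun l : Fin (2 * n + 1) => BP_phi n l)
  · intro l hl
    rw [mem_erase] at hl
    rw [mem_erase, mem_range]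
    refine ⟨?_, BP_phi_lt n l l.2⟩
    intro h
    exact hl.1 (Fin.ext (BP_phi_inj n l k l.2 k.2 h))
  · intro a _ b _ h
    exact Fin.ext (BP_phi_inj n a b a.2 b.2 h)
  · intro j hj
    rw [mem_coe, mem_erase, mem_range] at hj
    obtain ⟨l, hl, hlj⟩ := BP_phi_surj n j hj.2
    refine ⟨⟨l, hl⟩, ?_, hlj⟩
    rw [mem_coe, mem_erase]
    refine ⟨?_, mem_univ _⟩
    intro h
    apply hj.1
    rw [← hlj, ← h]
  · intro l _
    have h1 := (BP_val n l l.2).1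
    have h2 := (BP_val n k k.2).1
    rw [← h1, ← h2]
    push_cast
    rfl

theorem BP_rne (n j : ℕ) : (3 * (j : ℚ) - 3 * n + 1) ≠ 0 := by
  intro h
  have h1 : (3 * (j : ℤ) - 3 * n + 1) = 0 := by exact_mod_cast h
  omega

theorem BP_Dpos (n j : ℕ) : (0 : ℚ) < 3 ^ (2 * n) / 2 * (j.factorial : ℚ) * ((2 * n - j).factorial : ℚ) *
      (∏ i ∈ range (j + 1), (3 * (i : ℚ) + 2)) * (∏ i ∈ range (2 * n - j), (3 * (i : ℚ) + 1)) := by
  have h1 : (0 : ℚ) < (j.factorial : ℚ) := by exact_mod_cast Nat.factorial_pos j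
  have h2 : (0 : ℚ) < ((2 * n - j).factorial : ℚ) := by exact_mod_cast Nat.factorial_pos _
  have h3 : (0 : ℚ) < ∏ i ∈ range (j + 1), (3 * (i : ℚ) + 2) := Finset.prod_pos fun i _ => by positivity
  have h4 : (0 : ℚ) < ∏ i ∈ range (2 * n - j), (3 * (i : ℚ) + 1) := Finset.prod_pos fun i _ => by positivity
  positivity

theorem BP_ratio (n j : ℕ) (hj : j ≤ 2 * n) :
    (3 ^ (2 * n) / 2 * ((2 * n).factorial : ℚ) * ((2 * n - 2 * n).factorial : ℚ) *
      (∏ i ∈ range (2 * n + 1), (3 * (i : ℚ) + 2)) * (∏ i ∈ range (2 * n - 2 * n), (3 * (i : ℚ) + 1))) =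
    ((Nat.choose (2 * n) j : ℚ) * (∏ i ∈ range (2 * n - j), (3 * ((i : ℚ) + j) + 5)) /
      (∏ i ∈ range (2 * n - j), (3 * (i : ℚ) + 1))) * (3 ^ (2 * n) / 2 * (j.factorial : ℚ) * ((2 * n - j).factorial : ℚ) *
      (∏ i ∈ range (j + 1), (3 * (i : ℚ) + 2)) * (∏ i ∈ range (2 * n - j), (3 * (i : ℚ) + 1))) := by
  have h1 : (Nat.choose (2 * n) j : ℚ) * (j.factorial : ℚ) * ((2 * n - j).factorial : ℚ) = ((2 * n).factorial : ℚ) := by
    exact_mod_cast Nat.choose_mul_factorial_mul_factorial hj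
  have h2 : ∏ i ∈ range (2 * n + 1), (3 * (i : ℚ) + 2) = (∏ i ∈ range (j + 1), (3 * (i : ℚ) + 2)) *
      ∏ i ∈ range (2 * n - j), (3 * ((i : ℚ) + j) + 5) := by
    have h3 : 2 * n + 1 = (j + 1) + (2 * n - j) := by omega
    rw [h3, Finset.prod_range_add]
    congr 1
    apply Finset.prod_congr rfl
    intro i _
    push_cast
    ring
  have h4 : (∏ i ∈ range (2 * n - j), (3 * (i : ℚ) + 1)) ≠ 0 := by
    rw [Finset.prod_ne_zero_iff]
    intro i _
    positivity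
  rw [h2, ← h1, Nat.sub_self, Nat.factorial_zero, Finset.range_zero, Finset.prod_empty]
  field_simp
  push_cast
  ring

theorem Sm_eq_sum (n : ℕ) : Sm n = (((-1) ^ n * ∑ j ∈ range (2 * n + 1), tz n j : ℚ) : ℂ) := by
  have hlast : BP_phi n (2 * n) = 2 * n := by
    unfold BP_phi
    rw [if_pos (by omega)]
    omega
  have hterm : ∀ k : Fin (2 * n + 1), US (mm k - 1) 1 *
      (((mm (2 * n) : ℂ) * ∏ l ∈ univ.erase (Fin.last (2 * n)), ((mm l : ℂ) ^ 2 - (mm (2 * n) : ℂ) ^ 2)) /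
      ((mm k : ℂ) * ∏ l ∈ univ.erase k, ((mm l : ℂ) ^ 2 - (mm k : ℂ) ^ 2))) =
      (((-1) ^ n * tz n (BP_phi n k) : ℚ) : ℂ) := by
    intro k
    have hj : BP_phi n k ≤ 2 * n := by
      have := BP_phi_lt n k k.2
      omega
    have hP := BP_prod n k
    have hPl := BP_prod n (Fin.last (2 * n))
    rw [Fin.val_last, hlast] at hPl
    rw [hP, hPl]
    have hv := (BP_val n k k.2).2
    have hDk := D_prod n (BP_phi n k) hj
    have hDl := D_prod n (2 * n) le_rfl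
    have hr := BP_ratio n (BP_phi n k) hj
    have hpos := BP_Dpos n (BP_phi n k)
    have hrne := BP_rne n (BP_phi n k)
    have hmml : (mm (2 * n) : ℚ) = 3 * ((2 * n : ℕ) : ℚ) - 3 * n + 1 := by
      have : mm (2 * n) = 3 * n + 1 := by
        unfold mm
        omega
      rw [this]
      push_cast
      ring
    have hmmk : (mm k : ℚ) ≠ 0 := by
      have := mm_pos k
      have h2 : mm k ≠ 0 := by omega
      exact_mod_cast h2
    unfold tz
    obtain ⟨j, hjdef⟩ : ∃ j, j = BP_phi n k := ⟨_, rfl⟩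
    rw [← hjdef] at hj hv hDk hr hpos hrne ⊢
    obtain ⟨D, hD⟩ : ∃ D : ℚ, D = 3 ^ (2 * n) / 2 * (j.factorial : ℚ) * ((2 * n - j).factorial : ℚ) *
      (∏ i ∈ range (j + 1), (3 * (i : ℚ) + 2)) * (∏ i ∈ range (2 * n - j), (3 * (i : ℚ) + 1)) := ⟨_, rfl⟩
    rw [← hD] at hDk hr hpos
    rw [hr] at hDl
    obtain ⟨P, hPdef⟩ : ∃ P : ℚ, P = ∏ l ∈ (range (2 * n + 1)).erase j,
      ((3 * (l : ℚ) - 3 * n + 1) ^ 2 - (3 * (j : ℚ) - 3 * n + 1) ^ 2) := ⟨_, rfl⟩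
    obtain ⟨Pl, hPldef⟩ : ∃ P : ℚ, P = ∏ l ∈ (range (2 * n + 1)).erase (2 * n),
      ((3 * (l : ℚ) - 3 * n + 1) ^ 2 - (3 * ((2 * n : ℕ) : ℚ) - 3 * n + 1) ^ 2) := ⟨_, rfl⟩
    rw [← hPdef] at hDk ⊢
    rw [← hPldef] at hDl ⊢
    obtain ⟨R, hR⟩ : ∃ R : ℚ, R = (Nat.choose (2 * n) j : ℚ) * (∏ i ∈ range (2 * n - j), (3 * ((i : ℚ) + j) + 5)) /
      (∏ i ∈ range (2 * n - j), (3 * (i : ℚ) + 1)) := ⟨_, rfl⟩
    rw [← hR] at hDl
    have hR2 : (-1) ^ n * ((-1) ^ j * (Nat.choose (2 * n) j : ℚ) * (∏ i ∈ range (2 * n - j), (3 * ((i : ℚ) + j) + 5)) /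
      (∏ i ∈ range (2 * n - j), (3 * (i : ℚ) + 1))) = (-1) ^ (j + n) * R := by
      rw [hR]
      ring
    rw [hR2]
    rw [← hmml] at hDl
    -- rational identity
    have hPne : P ≠ 0 := by
      intro h0
      rw [h0, mul_zero] at hDk
      exact hpos.ne hDk
    have hq : ((-1) ^ (j + n) * (mm k : ℚ)) / (3 * (j : ℚ) - 3 * n + 1) * (((mm (2 * n) : ℚ) * Pl) / ((mm k : ℚ) * P)) =
        (-1) ^ (j + n) * R := by
      rw [hDl, ← hDk]
      have hrne' := hrne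
      generalize (3 * (j : ℚ) - 3 * n + 1) = r at hrne' ⊢
      field_simp
    rw [← hq]
    have hUS : (US (mm k - 1) 1 : ℂ) = ((((-1) ^ (j + n) * (mm k : ℚ)) / (3 * (j : ℚ) - 3 * n + 1) : ℚ) : ℂ) := by
      rw [Rat.cast_div]
      rw [eq_div_iff (by exact_mod_cast hrne)]
      exact hv
    rw [hUS]
    rw [Rat.cast_mul, Rat.cast_div (((mm (2 * n) : ℚ) * Pl)), Rat.cast_mul, Rat.cast_mul (mm k : ℚ), Rat.cast_natCast,
      Rat.cast_natCast]
  unfold Sm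
  rw [Finset.sum_congr rfl (fun k _ => hterm k), Finset.mul_sum, Rat.cast_sum]
  apply Finset.sum_nbij (fun k : Fin (2 * n + 1) => BP_phi n k)
  · intro k _
    rw [mem_range]
    exact BP_phi_lt n k k.2
  · intro a _ b _ h
    exact Fin.ext (BP_phi_inj n a b a.2 b.2 h)
  · intro j hj
    rw [mem_coe, mem_range] at hj
    obtain ⟨l, hl, hlj⟩ := BP_phi_surj n j hj
    exact ⟨⟨l, hl⟩, mem_coe.2 (mem_univ _), hlj⟩
  · intro k _
    rfl

theorem Sm_eq (n : ℕ) : Sm n = ((∏ j ∈ range n, (2 * (6 * (j : ℝ) + 5) / (3 * j + 2)) : ℝ) : ℂ) := by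
  rw [Sm_eq_sum, tz_sum, ← mul_assoc]
  have h1 : ((-1 : ℚ)) ^ n * (-1) ^ n = 1 := by
    rw [← mul_pow]
    norm_num
  rw [h1, one_mul]
  push_cast
  rfl

end PX
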