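import Pool.Agent.Lib.MP_216314_pr.X.FusI
import Pool.Agent.Lib.MP_216314_pr.X.ExchB

/-!
# Fusion: the pair `u`, `ω u` of arguments

The vector `gv (L+2) (ip i u w)` is a singlet at `i`, `i+1` times a vector which does not depend on `i`.
-/

set_option autoImplicit false

noncomputable section

namespace PX

open Finset

private theorem FusA_fun (L : ℕ) {i : ℕ} (hi : i + 1 < L) (y : ℕ → ℂ) :
    (om * y i - y (i + 1)) • gv L (sw i y) =
      (om * y (i + 1) - y i) • gv L y + (om ^ 2 * (y (i + 1) - y i)) • ee i (gv L y) := by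
  funext s
  simp only [Pi.smul_apply, Pi.add_apply, smul_eq_mul]
  exact gv_exch L Set.univ i (Nat.zero_le _) hi y (Set.mem_univ _) s

private theorem FusA_om : om ^ 2 - 1 ≠ 0 := by
  intro h
  have h1 : om = -2 := by linear_combination om_eq - h
  have h2 := om_eq
  rw [h1] at h2
  norm_num at h2

/-- the fused vector is a singlet at the pair -/
theorem gv_cup {L i : ℕ} (hi : i ≤ L) {u : ℂ} (hu : u ≠ 0) (w : ℕ → ℂ) :
    ee i (gv (L + 2) (ip i u w)) = gv (L + 2) (ip i u w) := by
  have h := FusA_fun (L + 2) (i := i) (by omega) (ip i u w)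
  rw [ip_left, ip_right, sub_self, zero_smul] at h
  have h3 : (u * (om ^ 2 - 1)) • (gv (L + 2) (ip i u w) - ee i (gv (L + 2) (ip i u w))) = 0 := by
    rw [h, smul_sub]
    have e1 : om * (om * u) - u = u * (om ^ 2 - 1) := by ring
    have e2 : om ^ 2 * (om * u - u) = -(u * (om ^ 2 - 1)) := by
      linear_combination u * om_cube
    rw [e1, e2, neg_smul]
    abel
  have h4 := (smul_eq_zero.mp h3).resolve_left (mul_ne_zero hu FusA_om)
  exact (sub_eq_zero.mp h4).symm

/-- the reversed pair: `ee i` maps the vector at the exchanged point to the fused vector -/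
theorem gv_cup' {L i : ℕ} (hi : i ≤ L) {u : ℂ} (hu : u ≠ 0) (w : ℕ → ℂ) :
    ee i (gv (L + 2) (sw i (ip i u w))) = gv (L + 2) (ip i u w) := by
  have h := FusA_fun (L + 2) (i := i) (by omega) (sw i (ip i u w))
  rw [sw_left, sw_right, sw_sw, ip_left, ip_right, sub_self, zero_smul, zero_add] at h
  have e1 : om * (om * u) - u = u * (om ^ 2 - 1) := by ring
  have e2 : om ^ 2 * (u - om * u) = u * (om ^ 2 - 1) := by
    linear_combination (-u) * om_cube
  rw [e1, e2] at h
  exact (smul_right_injective _ (mul_ne_zero hu FusA_om) h).symm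

/-- the contracted fused vector -/
def hI (L i : ℕ) (u : ℂ) (w : ℕ → ℂ) : Vec := Con i (gv (L + 2) (ip i u w))

theorem gv_eq_Ins_hI {L i : ℕ} (hi : i ≤ L) {u : ℂ} (hu : u ≠ 0) (w : ℕ → ℂ) :
    gv (L + 2) (ip i u w) = Ins i (hI L i u w) := by
  have h := gv_cup hi hu w
  rw [ee_eq] at h
  exact h.symm

/-- the fused vector does not change when the pair moves past an argument -/
theorem hI_move {L i : ℕ} (hi : i < L) {u : ℂ} (hu : u ≠ 0) (w : ℕ → ℂ) (h1 : w i ≠ om * u)
    (h2 : w i ≠ om ^ 2 * u) : hI L (i + 1) u w = hI L i u w := by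
  have hg := gv_eq_Ins_hI hi.le hu w
  set g := gv (L + 2) (ip i u w) with hgdef
  set h := hI L i u w with hh
  have A1 := FusA_fun (L + 2) (i := i + 1) (by omega) (ip i u w)
  have e0 : ip i u w (i + 1 + 1) = w i := ip_ge u w le_rfl
  rw [ip_right, e0, ← hgdef] at A1
  have A2 := FusA_fun (L + 2) (i := i) (by omega) (sw (i + 1) (ip i u w))
  rw [sw_sw_ip, sw_left, e0, sw_of_ne (i + 1) (ip i u w) (k := i) (by omega) (by omega),
    ip_left] at A2
  set g1 := gv (L + 2) (sw (i + 1) (ip i u w)) with hg1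
  have A3 : ((om * (om * u) - w i) * (om * u - w i)) • gv (L + 2) (ip (i + 1) u w) =
      ((om * w i - u) * (om * w i - om * u)) • g +
      ((om * w i - u) * (om ^ 2 * (w i - om * u))) • ee (i + 1) g +
      ((om ^ 2 * (w i - u)) * (om * w i - om * u)) • ee i g +
      ((om ^ 2 * (w i - u)) * (om ^ 2 * (w i - om * u))) • ee i (ee (i + 1) g) := by
    rw [mul_smul, A2, smul_add, smul_comm _ (om * w i - u), smul_comm _ (om ^ 2 * (w i - u)),
      ← map_smul, A1]
    simp only [map_add, map_smul, smul_add, smul_smul]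
    abel
  have B1 : Con (i + 1) g = h := by
    rw [hg, Con_succ_Ins]
  have B2 : Con (i + 1) (ee (i + 1) g) = h := by
    rw [ee_eq, Con_Ins_self, B1]
  have B3 : Con (i + 1) (ee i g) = h := by
    rw [ee_eq, Con_succ_Ins, hg, Con_Ins_self]
  have B4 : Con (i + 1) (ee i (ee (i + 1) g)) = h := by
    rw [ee_eq i, Con_succ_Ins, ee_eq, Con_Ins_succ, B1]
  have A4 := congrArg (Con (i + 1)) A3
  simp only [map_add, map_smul, B1, B2, B3, B4] at A4
  rw [← add_smul, ← add_smul, ← add_smul] at A4
  have e1 : (om * w i - u) * (om * w i - om * u) +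
      (om * w i - u) * (om ^ 2 * (w i - om * u)) +
      om ^ 2 * (w i - u) * (om * w i - om * u) +
      om ^ 2 * (w i - u) * (om ^ 2 * (w i - om * u)) =
      (om * (om * u) - w i) * (om * u - w i) := by
    have f1 : om * w i - om * u + om ^ 2 * (w i - om * u) = om * (om * u) - w i := by
      linear_combination (w i) * om_eq - u * om_cube - u * om_eq
    have f2 : om * w i - u + om ^ 2 * (w i - u) = om * u - w i := by
      linear_combination (w i) * om_eq - u * om_eq
    rw [← f1, ← f2]
    ring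
  rw [e1] at A4
  have n1 : om * (om * u) - w i ≠ 0 := by
    intro h0
    apply h2
    linear_combination -h0
  have n2 : om * u - w i ≠ 0 := by
    intro h0
    apply h1
    linear_combination -h0
  exact smul_right_injective _ (mul_ne_zero n1 n2) A4

/-- exchange relations away from the pair -/
theorem hI_exch_lt {L i j : ℕ} (hi : i ≤ L) (hj : j + 1 < i) (u : ℂ) (w : ℕ → ℂ) (s : Finset ℕ) :
    (om * w j - w (j + 1)) * hI L i u (sw j w) s =
      (om * w (j + 1) - w j) * hI L i u w s + om ^ 2 * (w (j + 1) - w j) * ee j (hI L i u w) s := by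
  have A := FusA_fun (L + 2) (i := j) (by omega) (ip i u w)
  rw [ip_lt u w (by omega : j < i), ip_lt u w hj, sw_ip_lt u w hj] at A
  have A2 := congrArg (Con i) A
  simp only [map_add, map_smul] at A2
  have B : Con i (ee j (gv (L + 2) (ip i u w))) = ee j (Con i (gv (L + 2) (ip i u w))) := by
    obtain ⟨c, rfl⟩ : ∃ c, i = c + 2 := ⟨i - 2, by omega⟩
    exact Con_ee_far' (by omega) _
  rw [B] at A2
  have A3 := congrFun A2 s
  simp only [Pi.smul_apply, Pi.add_apply, smul_eq_mul] at A3
  exact A3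

theorem hI_exch_ge {L i j : ℕ} (hj : i ≤ j) (hj' : j + 1 < L) (u : ℂ) (w : ℕ → ℂ) (s : Finset ℕ) :
    (om * w j - w (j + 1)) * hI L i u (sw j w) s =
      (om * w (j + 1) - w j) * hI L i u w s + om ^ 2 * (w (j + 1) - w j) * ee j (hI L i u w) s := by
  have A := FusA_fun (L + 2) (i := j + 2) (by omega) (ip i u w)
  have e0 : ip i u w (j + 2 + 1) = w (j + 1) := ip_ge u w (by omega : i ≤ j + 1)
  rw [ip_ge u w hj, e0, sw_ip_ge u w hj] at A
  have A2 := congrArg (Con i) A
  simp only [map_add, map_smul] at A2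
  rw [Con_ee_far hj] at A2
  have A3 := congrFun A2 s
  simp only [Pi.smul_apply, Pi.add_apply, smul_eq_mul] at A3
  exact A3

end PX
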