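import Pool.Agent.Lib.MP_216314_pr.X.FusA

/-!
# Fusion relation: the sorted component
-/

set_option autoImplicit false

noncomputable section

namespace PX

open Finset MvPolynomial

/-- generic arguments for the fusion -/
def FS (L : ℕ) (u : ℂ) : Set (ℕ → ℂ) :=
  {w | NZ L w ∧ (∀ k, k < L → w k ≠ om * u ∧ w k ≠ om ^ 2 * u) ∧
    ∀ j k, j < L → k < L → j ≠ k → w j ≠ w k}

theorem FS_sw {L i : ℕ} (hi : i + 1 < L) {u : ℂ} {w : ℕ → ℂ} (h : w ∈ FS L u) : sw i w ∈ FS L u := by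
  obtain ⟨h1, h2, h3⟩ := h
  have hlt : ∀ k, k < L → Equiv.swap i (i + 1) k < L := by
    intro k hk
    rw [Equiv.swap_apply_def]
    split_ifs <;> omega
  refine ⟨nz_sw h1 hi, ?_, ?_⟩
  · intro k hk
    exact h2 _ (hlt k hk)
  · intro j k hj hk hjk
    exact h3 _ _ (hlt j hj) (hlt k hk) (fun h4 => hjk ((Equiv.swap i (i + 1)).injective h4))

/-- all the positions of the pair give the same vector -/
theorem hI_eq {L : ℕ} {u : ℂ} (hu : u ≠ 0) {w : ℕ → ℂ} (hw : w ∈ FS L u) (i : ℕ) (hi : i ≤ L) :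
    hI L i u w = hI L 0 u w := by
  induction i with
  | zero => rfl
  | succ i ih =>
    rw [hI_move (by omega) hu w (hw.2.1 i (by omega)).1 (hw.2.1 i (by omega)).2]
    exact ih (by omega)

/-- exchange relations of the contracted fused vector -/
theorem hI_exch {L : ℕ} {u : ℂ} (hu : u ≠ 0) : Exch (FS L u) 0 L (hI L 0 u) := by
  intro i _ h2 y _ s
  exact hI_exch_ge (Nat.zero_le i) h2 u y s

private theorem fusB_gv (L : ℕ) (y : ℕ → ℂ) : gv L y (range (L / 2)) =
    ((∏ k ∈ range (L / 2), y k) ^ (L % 2) *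
      (∏ j ∈ range (L / 2), ∏ k ∈ range j, eval y (PA k j)) *
      ∏ j ∈ Ico (L / 2) L, ∏ k ∈ Ico (L / 2) j, eval y (PB k j)) /
      (∏ k ∈ range L, y k) ^ ((L - 1) / 2) := by
  have h1 : range (L / 2) ∈ cfn L (L / 2) := by
    rw [mem_cfn]
    refine ⟨?_, Finset.card_range _⟩
    intro k hk
    rw [Finset.mem_range] at hk ⊢
    omega
  unfold gv
  rw [if_pos h1, GP_range]
  unfold G0
  simp only [map_mul, map_pow, map_prod, eval_X]

private theorem fusB_PA (y : ℕ → ℂ) (k j : ℕ) :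
    eval y (PA k j) = om ^ 2 * (om * y k - y j) * (om - y k * y j) := by
  unfold PA
  simp only [map_mul, map_sub, eval_C, eval_X]

private theorem fusB_PB (y : ℕ → ℂ) (k j : ℕ) :
    eval y (PB k j) = (om * y k - y j) * (y k * y j - om ^ 2) := by
  unfold PB
  simp only [map_mul, map_sub, eval_C, eval_X]

private theorem fusB_A {u w : ℂ} (hu : u ≠ 0) (hw : w ≠ 0) :
    om ^ 2 * (om * w - u) * (om - w * u) = u * w * (XX (om ^ 2 * u) - XX w) := by
  have h0 := om_ne_zero
  unfold XX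
  field_simp
  linear_combination (-om ^ 2 * w ^ 2 * u - om ^ 2 * u + w * (om ^ 3 + 1)) * om_cube

private theorem fusB_B {u w : ℂ} (hu : u ≠ 0) (hw : w ≠ 0) :
    (om * (om * u) - w) * ((om * u) * w - om ^ 2) = om * (u * w * (XX (om ^ 2 * u) - XX w)) := by
  have h0 := om_ne_zero
  unfold XX
  field_simp
  linear_combination (-om ^ 2 * u + w) * om_cube

private theorem fusB_alg {W1 W2 A B K1 K2 u : ℂ} {r n m d : ℕ} (hm : n + r = m) (hu : u ≠ 0)
    (hW : W1 * W2 ≠ 0) (hd : (W1 * W2) * (W1 * W2) ^ d = (W1 * W2) ^ m) :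
    ((W1 * u) ^ r * (A * (u ^ n * W1 * K1)) * (om ^ m * u ^ m * W2 * K2 * B)) /
      (om * u ^ 2 * (W1 * W2)) ^ m = (K1 * K2) * ((W1 ^ r * A * B) / (W1 * W2) ^ d) := by
  have h0 := om_ne_zero
  have h1 : (om * u ^ 2 * (W1 * W2)) ^ m ≠ 0 :=
    pow_ne_zero _ (mul_ne_zero (mul_ne_zero h0 (pow_ne_zero 2 hu)) hW)
  have h2 : (W1 * W2) ^ d ≠ 0 := pow_ne_zero _ hW
  rw [← mul_div_assoc, div_eq_div_iff h1 h2]
  rw [mul_pow (om * u ^ 2) (W1 * W2) m, ← hd, ← hm]
  ring

/-- the sorted component -/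
theorem hI_base (L : ℕ) {u : ℂ} (hu : u ≠ 0) {w : ℕ → ℂ} (hw : NZ L w) :
    hI L (L / 2) u w (range (L / 2)) = Kf L u w * gv L w (range (L / 2)) := by
  set n := L / 2 with hn
  have hnL : n ≤ L := by omega
  have d1 : (L + 2) / 2 = n + 1 := by omega
  have d2 : (L + 2) % 2 = L % 2 := by omega
  have d3 : (L + 2 - 1) / 2 = n + L % 2 := by omega
  have d4 : L - n = n + L % 2 := by omega
  set y := ip n u w with hy
  have hwne : ∀ k, k < L → w k ≠ 0 := hw
  -- left side
  have a1 := congrFun (gv_eq_Ins_hI hnL hu w) (range (n + 1))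
  rw [Ins_apply] at a1
  have a2 : rm n (range (n + 1)) = range n := by
    ext k
    rw [mem_rm, Finset.mem_range, Finset.mem_range]
    unfold up
    split_ifs <;> omega
  have a3 : n ∈ range (n + 1) := Finset.mem_range.mpr (by omega)
  have a4 : n + 1 ∉ range (n + 1) := by
    rw [Finset.mem_range]
    omega
  rw [a2] at a1
  simp only [cc, a3, a4, if_true, if_false, one_mul] at a1
  rw [← a1]
  have b0 := fusB_gv (L + 2) y
  rw [d1, d2, d3] at b0
  rw [b0]
  have b1 : ∏ k ∈ range (n + 1), y k = (∏ k ∈ range n, w k) * u := by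
    rw [Finset.prod_range_succ, hy, ip_left]
    exact congrArg (fun x => x * u)
      (Finset.prod_congr rfl fun k hk => ip_lt u w (Finset.mem_range.mp hk))
  have b2 : ∏ j ∈ range (n + 1), ∏ k ∈ range j, eval y (PA k j) =
      (∏ j ∈ range n, ∏ k ∈ range j, eval w (PA k j)) *
      (u ^ n * (∏ k ∈ range n, w k) * ∏ k ∈ range n, (XX (om ^ 2 * u) - XX (w k))) := by
    rw [Finset.prod_range_succ]
    have c1 : ∏ j ∈ range n, ∏ k ∈ range j, eval y (PA k j) =
        ∏ j ∈ range n, ∏ k ∈ range j, eval w (PA k j) := by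
      refine Finset.prod_congr rfl fun j hj => Finset.prod_congr rfl fun k hk => ?_
      rw [Finset.mem_range] at hj hk
      rw [fusB_PA, fusB_PA, hy, ip_lt u w hj, ip_lt u w (by omega)]
    have c2 : ∏ k ∈ range n, eval y (PA k n) =
        ∏ k ∈ range n, (u * w k * (XX (om ^ 2 * u) - XX (w k))) := by
      refine Finset.prod_congr rfl fun k hk => ?_
      rw [Finset.mem_range] at hk
      rw [fusB_PA, hy, ip_lt u w hk, ip_left]
      exact fusB_A hu (hwne k (by omega))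
    rw [c1, c2, Finset.prod_mul_distrib, Finset.prod_mul_distrib, Finset.prod_const,
      Finset.card_range]
  have b3 : ∏ j ∈ Ico (n + 1) (L + 2), ∏ k ∈ Ico (n + 1) j, eval y (PB k j) =
      om ^ (n + L % 2) * u ^ (n + L % 2) * (∏ k ∈ Ico n L, w k) *
      (∏ k ∈ Ico n L, (XX (om ^ 2 * u) - XX (w k))) *
      ∏ j ∈ Ico n L, ∏ k ∈ Ico n j, eval w (PB k j) := by
    rw [Finset.prod_eq_prod_Ico_succ_bot (by omega), Finset.Ico_self, Finset.prod_empty, one_mul,
      ← Finset.prod_Ico_add' _ n L 2]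
    have c1 : ∀ j ∈ Ico n L, ∏ k ∈ Ico (n + 1) (j + 2), eval y (PB k (j + 2)) =
        om * (u * w j * (XX (om ^ 2 * u) - XX (w j))) * ∏ k ∈ Ico n j, eval w (PB k j) := by
      intro j hj
      rw [Finset.mem_Ico] at hj
      rw [Finset.prod_eq_prod_Ico_succ_bot (by omega), ← Finset.prod_Ico_add' _ n j 2]
      refine congrArg₂ (fun a b => a * b) ?_ ?_
      · rw [fusB_PB, hy, ip_right, ip_ge u w hj.1]
        exact fusB_B hu (hwne j hj.2)
      · refine Finset.prod_congr rfl fun k hk => ?_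
        rw [Finset.mem_Ico] at hk
        rw [fusB_PB, fusB_PB, hy, ip_ge u w hk.1, ip_ge u w hj.1]
    rw [Finset.prod_congr rfl c1, Finset.prod_mul_distrib, Finset.prod_mul_distrib,
      Finset.prod_mul_distrib, Finset.prod_mul_distrib, Finset.prod_const, Finset.prod_const,
      Nat.card_Ico, d4]
    ring
  have b4 : ∏ k ∈ range (L + 2), y k =
      om * u ^ 2 * ((∏ k ∈ range n, w k) * ∏ k ∈ Ico n L, w k) := by
    rw [← Finset.prod_range_mul_prod_Ico y (show n ≤ L + 2 by omega),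
      Finset.prod_eq_prod_Ico_succ_bot (show n < L + 2 by omega),
      Finset.prod_eq_prod_Ico_succ_bot (show n + 1 < L + 2 by omega),
      ← Finset.prod_Ico_add' _ n L 2]
    have c1 : ∏ k ∈ range n, y k = ∏ k ∈ range n, w k :=
      Finset.prod_congr rfl fun k hk => ip_lt u w (Finset.mem_range.mp hk)
    have c2 : ∏ k ∈ Ico n L, y (k + 2) = ∏ k ∈ Ico n L, w k :=
      Finset.prod_congr rfl fun k hk => ip_ge u w (Finset.mem_Ico.mp hk).1
    have c3 : y n = u := ip_left n u w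
    have c4 : y (n + 1) = om * u := ip_right n u w
    rw [c1, c2, c3, c4]
    ring
  have b5 : Kf L u w = (∏ k ∈ range n, (XX (om ^ 2 * u) - XX (w k))) *
      ∏ k ∈ Ico n L, (XX (om ^ 2 * u) - XX (w k)) := by
    unfold Kf
    rw [Finset.prod_range_mul_prod_Ico _ hnL]
  have b6 : ∏ k ∈ range L, w k = (∏ k ∈ range n, w k) * ∏ k ∈ Ico n L, w k :=
    (Finset.prod_range_mul_prod_Ico w hnL).symm
  have b7 : (∏ k ∈ range n, w k) * ∏ k ∈ Ico n L, w k ≠ 0 := by
    rw [← b6]
    exact Finset.prod_ne_zero_iff.mpr fun k hk => hw k (Finset.mem_range.mp hk)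
  have b8 := fusB_gv L w
  rw [← hn, b6] at b8
  rw [b1, b2, b3, b4, b5, b8]
  refine fusB_alg rfl hu b7 ?_
  rcases Nat.eq_zero_or_pos L with h | h
  · have h1 : ∏ k ∈ range L, w k = 1 := by
      rw [h, Finset.range_zero, Finset.prod_empty]
    rw [← b6, h1, one_pow, one_pow, one_mul]
  · have h2 : n + L % 2 = (L - 1) / 2 + 1 := by omega
    rw [h2, pow_succ, mul_comm]

end PX
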