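import Pool.Agent.Lib.MP_216314_pr.X.PolB
import Pool.Agent.Lib.MP_216314_pr.X.SpinB
import Pool.Agent.Lib.MP_216314_pr.X.SpinC

/-!
# The polynomial solution `GP L a` (`a` = set of up spins)
-/

set_option autoImplicit false

noncomputable section

namespace PX

open Finset MvPolynomial

/-- factor of two up spins -/
def PA (i j : ℕ) : MP := C (om ^ 2) * (C om * X i - X j) * (C om - X i * X j)

/-- factor of two down spins -/
def PB (i j : ℕ) : MP := (C om * X i - X j) * (X i * X j - C (om ^ 2))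

/-- the component of the configuration `{0, ..., n-1}`, `n = L / 2` -/
def G0 (L : ℕ) : MP :=
  (∏ i ∈ range (L / 2), X i) ^ (L % 2) * (∏ j ∈ range (L / 2), ∏ i ∈ range j, PA i j) *
    ∏ j ∈ Ico (L / 2) L, ∏ i ∈ Ico (L / 2) j, PB i j

open Classical in
/-- the polynomial of the configuration `a`; the up spins are moved to the left -/
def GP (L : ℕ) (a : Finset ℕ) : MP :=
  if h : ∃ i, i ∉ a ∧ i + 1 ∈ a then Tp (Nat.find h) (GP L (sg (Nat.find h) a)) else G0 L
termination_by a.sum id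
decreasing_by
  have h1 := Nat.find_spec h
  have h2 := sum_sg h1.1 h1.2
  omega

theorem gpolA_find_not (a : Finset ℕ) (h : ∀ i, ¬ (i ∉ a ∧ i + 1 ∈ a)) (L : ℕ) : GP L a = G0 L := by
  rw [GP]
  rw [dif_neg]
  rintro ⟨i, hi⟩
  exact h i hi

theorem GP_range (L n : ℕ) : GP L (range n) = G0 L := by
  apply gpolA_find_not
  rintro i ⟨h1, h2⟩
  rw [mem_range] at h1 h2
  omega

theorem gpolA_find (L : ℕ) (a : Finset ℕ) (h : ∃ i, i ∉ a ∧ i + 1 ∈ a) :
    ∃ i0, (i0 ∉ a ∧ i0 + 1 ∈ a) ∧ (∀ j, j ∉ a ∧ j + 1 ∈ a → i0 ≤ j) ∧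
      GP L a = Tp i0 (GP L (sg i0 a)) := by
  classical
  refine ⟨Nat.find h, Nat.find_spec h, fun j hj => Nat.find_min' h hj, ?_⟩
  conv_lhs => rw [GP]
  rw [dif_pos h]

theorem gpolA_sg_comm {i j : ℕ} (h : i + 2 ≤ j) (a : Finset ℕ) : sg i (sg j a) = sg j (sg i a) := by
  ext k
  rw [mem_sg, mem_sg, mem_sg, mem_sg]
  have : Equiv.swap j (j + 1) (Equiv.swap i (i + 1) k) = Equiv.swap i (i + 1) (Equiv.swap j (j + 1) k) := by
    simp only [Equiv.swap_apply_def]
    split_ifs <;> omega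
  rw [this]

/-- (E1) every ascent may be used -/
theorem GP_asc (L i : ℕ) (a : Finset ℕ) (h : i ∉ a) (h' : i + 1 ∈ a) : GP L a = Tp i (GP L (sg i a)) := by
  induction hn : a.sum id using Nat.strong_induction_on generalizing a i with
  | _ n ih =>
    obtain ⟨i0, ⟨h1, h2⟩, hmin, hGP⟩ := gpolA_find L a ⟨i, h, h'⟩
    have hle := hmin i ⟨h, h'⟩
    rcases Nat.eq_or_lt_of_le hle with heq | hlt
    · rw [← heq]
      exact hGP
    · have hne : i0 + 1 ≠ i := by
        rintro rfl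
        exact h h2
      have h3 : i0 + 2 ≤ i := by omega
      have hs1 := sum_sg h1 h2
      have hs2 := sum_sg h h'
      have hi1 : i ∉ sg i0 a := by
        rw [mem_sg, Equiv.swap_apply_of_ne_of_ne (by omega) (by omega)]
        exact h
      have hi2 : i + 1 ∈ sg i0 a := by
        rw [mem_sg, Equiv.swap_apply_of_ne_of_ne (by omega) (by omega)]
        exact h'
      have hj1 : i0 ∉ sg i a := by
        rw [mem_sg, Equiv.swap_apply_of_ne_of_ne (by omega) (by omega)]
        exact h1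
      have hj2 : i0 + 1 ∈ sg i a := by
        rw [mem_sg, Equiv.swap_apply_of_ne_of_ne (by omega) (by omega)]
        exact h2
      have e1 := ih _ (by omega) i (sg i0 a) hi1 hi2 rfl
      have e2 := ih _ (by omega) i0 (sg i a) hj1 hj2 rfl
      rw [hGP, e1, e2, Tp_comm h3, gpolA_sg_comm h3]

/-- (E1') descent -/
theorem GP_desc (L i : ℕ) (a : Finset ℕ) (h : i ∈ a) (h' : i + 1 ∉ a) :
    Tp i (GP L a) = GP L (sg i a) := by
  have h1 : i ∉ sg i a := by rw [mem_sg, Equiv.swap_apply_left]; exact h'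
  have h2 : i + 1 ∈ sg i a := by rw [mem_sg, Equiv.swap_apply_right]; exact h
  rw [GP_asc L i (sg i a) h1 h2, sg_sg]

/-- (E1'') ascent -/
theorem GP_asc' (L i : ℕ) (a : Finset ℕ) (h : i ∉ a) (h' : i + 1 ∈ a) :
    Tp i (GP L a) = C (om - om ^ 2) * GP L a + GP L (sg i a) := by
  rw [GP_asc L i a h h', Tp_sq]

end PX
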