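import Pool.Agent.Lib.MP_216314_pr.X.PairR

/-!
# The bilinear invariant `EE`
-/

set_option autoImplicit false

noncomputable section

namespace PX

open Finset MvPolynomial

/-- arguments of the dual vector -/
def zd (z : ℕ → ℂ) : ℕ → ℂ := fun k => if k = 0 then (z 0)⁻¹ else (z (k + 1))⁻¹

/-- arguments of the vector -/
def zr (z : ℕ → ℂ) : ℕ → ℂ := fun k => z (k + 1)

/-- pairing of the solution with the solution at the inverse arguments, the first argument being independent -/
def EE (n : ℕ) (z : ℕ → ℂ) : ℂ := BF (2 * n + 1) n cz (gv (2 * n + 1) (zd z)) (gv (2 * n + 1) (zr z))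

theorem EE_zero (z : ℕ → ℂ) : EE 0 z = -om ^ 2 := by
  show (∑ a ∈ cfn 1 0, cz a * gv 1 (zd z) a * gv 1 (zr z) a) = -om ^ 2
  rw [cfn_one, Finset.sum_singleton, gv_one, gv_one, mul_one, mul_one]
  unfold cz
  rw [if_neg (Finset.notMem_empty 0)]

theorem EE_loc (n : ℕ) (z z' : ℕ → ℂ) (h : ∀ k, k < 2 * n + 2 → z k = z' k) : EE n z = EE n z' := by
  have h1 : gv (2 * n + 1) (zd z) = gv (2 * n + 1) (zd z') := by
    apply gv_congr
    intro k hk
    unfold zd
    rw [h 0 (by omega), h (k + 1) (by omega)]
  have h2 : gv (2 * n + 1) (zr z) = gv (2 * n + 1) (zr z') := by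
    apply gv_congr
    intro k hk
    unfold zr
    rw [h (k + 1) (by omega)]
  unfold EE
  rw [h1, h2]

theorem PairC_lau_zr (n : ℕ) (s : Finset ℕ) :
    Lau (2 * n + 2) (fun z => gv (2 * n + 1) (zr z) s) :=
  Lau.comp (gv_lau (2 * n + 1) s) (fun k z => z (k + 1)) (fun k => Lau.coord _ _)
    (fun k hk => Lau.coord_inv (by omega)) (fun k hk y hy => hy (k + 1) (by omega))

theorem PairC_lau_zd (n : ℕ) (s : Finset ℕ) :
    Lau (2 * n + 2) (fun z => gv (2 * n + 1) (zd z) s) := by
  have h1 : Lau (2 * n + 2) (fun z => gv (2 * n + 1)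
      (fun k => if k < 2 * n + 1 then zd z k else 1) s) := by
    refine Lau.comp (gv_lau (2 * n + 1) s)
      (fun k z => if k < 2 * n + 1 then zd z k else 1) ?_ ?_ ?_
    · intro k
      by_cases hk : k < 2 * n + 1
      · by_cases h0 : k = 0
        · refine (Lau.coord_inv (L := 2 * n + 2) (k := 0) (by omega)).congr fun y _ => ?_
          simp only [hk, if_true]
          unfold zd
          rw [if_pos h0]
        · refine (Lau.coord_inv (L := 2 * n + 2) (k := k + 1) (by omega)).congr fun y _ => ?_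
          simp only [hk, if_true]
          unfold zd
          rw [if_neg h0]
      · refine (Lau.const (2 * n + 2) 1).congr fun y _ => ?_
        simp only [hk, if_false]
    · intro k hk
      by_cases h0 : k = 0
      · refine (Lau.coord (2 * n + 2) 0).congr fun y _ => ?_
        simp only [hk, if_true]
        unfold zd
        rw [if_pos h0, inv_inv]
      · refine (Lau.coord (2 * n + 2) (k + 1)).congr fun y _ => ?_
        simp only [hk, if_true]
        unfold zd
        rw [if_neg h0, inv_inv]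
    · intro k hk y hy
      simp only [hk, if_true]
      unfold zd
      split_ifs with h0
      · exact inv_ne_zero (hy 0 (by omega))
      · exact inv_ne_zero (hy (k + 1) (by omega))
  refine h1.congr fun y _ => ?_
  rw [gv_congr (y := fun k => if k < 2 * n + 1 then zd y k else 1) (y' := zd y)]
  intro k hk
  simp only [hk, if_true]

theorem EE_lau (n : ℕ) : Lau (2 * n + 2) (EE n) := by
  show Lau (2 * n + 2) (fun z => ∑ a ∈ cfn (2 * n + 1) n,
    cz a * gv (2 * n + 1) (zd z) a * gv (2 * n + 1) (zr z) a)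
  exact Lau.sum _ fun a _ => ((Lau.const _ (cz a)).mul (PairC_lau_zd n a)).mul (PairC_lau_zr n a)

theorem PairC_swap_lt {i k L : ℕ} (hi : i + 1 < L) (hk : k < L) : Equiv.swap i (i + 1) k < L := by
  by_cases h1 : k = i
  · rw [h1, Equiv.swap_apply_left]
    exact hi
  · by_cases h2 : k = i + 1
    · rw [h2, Equiv.swap_apply_right]
      omega
    · rw [Equiv.swap_apply_of_ne_of_ne h1 h2]
      exact hk

theorem PairC_zr_sw {i : ℕ} (hi : 1 ≤ i) (z : ℕ → ℂ) : zr (sw i z) = sw (i - 1) (zr z) := by
  funext k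
  show sw i z (k + 1) = sw (i - 1) (zr z) k
  obtain ⟨j, rfl⟩ : ∃ j, i = j + 1 := ⟨i - 1, by omega⟩
  rw [Nat.add_sub_cancel]
  by_cases h1 : k = j
  · rw [h1, sw_left, sw_left]
    rfl
  · by_cases h2 : k = j + 1
    · rw [h2, sw_right, sw_right]
      rfl
    · rw [sw_of_ne _ _ (by omega) (by omega), sw_of_ne _ _ h1 h2]
      rfl

theorem PairC_zd_sw {i : ℕ} (hi : 2 ≤ i) (z : ℕ → ℂ) : zd (sw i z) = sw (i - 1) (zd z) := by
  funext k
  obtain ⟨j, rfl⟩ : ∃ j, i = j + 1 := ⟨i - 1, by omega⟩
  rw [Nat.add_sub_cancel]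
  by_cases h0 : k = 0
  · rw [sw_of_ne _ _ (by omega) (by omega)]
    unfold zd
    rw [if_pos h0, if_pos h0, sw_of_ne _ _ (by omega) (by omega)]
  · by_cases h1 : k = j
    · rw [h1, sw_left]
      unfold zd
      rw [if_neg (by omega), if_neg (by omega), sw_left]
    · by_cases h2 : k = j + 1
      · rw [h2, sw_right]
        unfold zd
        rw [if_neg (by omega), if_neg (by omega), sw_right]
      · rw [sw_of_ne _ _ h1 h2]
        unfold zd
        rw [if_neg h0, if_neg h0, sw_of_ne _ _ (by omega) (by omega)]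

theorem PairC_sw_gen (n i : ℕ) (z : ℕ → ℂ) (hz : Gen (2 * n + 2) z) (h2 : 2 ≤ i)
    (hi : i + 1 < 2 * n + 2) : EE n (sw i z) = EE n z := by
  have hzi : z i ≠ 0 := hz.1 i (by omega)
  have hzj : z (i + 1) ≠ 0 := hz.1 (i + 1) hi
  have hij := hz.ne_mul (i := i) (j := i + 1) (by omega) hi (by omega)
  have hji := hz.ne_mul (i := i + 1) (j := i) hi (by omega) (by omega)
  have e1 : i - 1 + 1 = i := by omega
  have a1 : zr z (i - 1) = z i := by
    show z (i - 1 + 1) = z i
    rw [e1]
  have a2 : zr z (i - 1 + 1) = z (i + 1) := by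
    rw [e1]
    rfl
  have b1 : zd z (i - 1) = (z i)⁻¹ := by
    unfold zd
    rw [if_neg (by omega), e1]
  have b2 : zd z (i - 1 + 1) = (z (i + 1))⁻¹ := by
    unfold zd
    rw [if_neg (by omega), e1]
  unfold EE
  rw [PairC_zr_sw (by omega) z, PairC_zd_sw h2 z]
  refine BF_exch (i := i - 1) (by omega) cz (fun s => cz_sg (by omega) s) (z i) (z (i + 1))
    hij.2.1 hji.2.1 _ _ _ _ (fun s => ?_) (fun s => ?_)
  · have h := gv_exch (2 * n + 1) Set.univ (i - 1) (Nat.zero_le _) (by omega) (zr z)
      (Set.mem_univ _) s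
    rwa [a1, a2] at h
  · have h := gv_exch (2 * n + 1) Set.univ (i - 1) (Nat.zero_le _) (by omega) (zd z)
      (Set.mem_univ _) s
    rw [b1, b2] at h
    have e3 : (om * z (i + 1) - z i) = z i * z (i + 1) * (om * (z i)⁻¹ - (z (i + 1))⁻¹) := by
      field_simp
    have e4 : (om * z i - z (i + 1)) = z i * z (i + 1) * (om * (z (i + 1))⁻¹ - (z i)⁻¹) := by
      field_simp
    have e5 : (z i - z (i + 1)) = z i * z (i + 1) * ((z (i + 1))⁻¹ - (z i)⁻¹) := by
      field_simp
    rw [e3, e4, e5, mul_assoc (z i * z (i + 1)), h]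
    ring

theorem EE_sw (n i : ℕ) (z : ℕ → ℂ) (hz : NZ (2 * n + 2) z) (h2 : 2 ≤ i) (hi : i + 1 < 2 * n + 2) :
    EE n (sw i z) = EE n z := by
  have h1 : Lau (2 * n + 2) (fun y => EE n (sw i y)) :=
    Lau.comp (EE_lau n) (fun k y => y (Equiv.swap i (i + 1) k)) (fun k => Lau.coord _ _)
      (fun k hk => Lau.coord_inv (PairC_swap_lt hi hk))
      (fun k hk y hy => hy _ (PairC_swap_lt hi hk))
  have h3 := (h1.sub (EE_lau n)).ext_gen
    (fun y hy => sub_eq_zero.2 (PairC_sw_gen n i y hy h2 hi)) z hz
  exact sub_eq_zero.1 h3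

theorem EE_inv (n i : ℕ) (z : ℕ → ℂ) (hz : NZ (2 * n + 2) z) (h2 : 2 ≤ i) (hi : i < 2 * n + 2) :
    EE n (Function.update z i (z i)⁻¹) = EE n z := by
  obtain ⟨d, hd⟩ : ∃ d, i + d = 2 * n + 1 := ⟨2 * n + 1 - i, by omega⟩
  induction d generalizing i z with
  | zero =>
    have hi' : i = 2 * n + 1 := by omega
    subst hi'
    have e1 : zr (Function.update z (2 * n + 1) (z (2 * n + 1))⁻¹) = iv (2 * n + 1 - 1) (zr z) := by
      funext k
      unfold zr iv
      by_cases hk : k = 2 * n
      · rw [hk, Function.update_self, Nat.add_sub_cancel, Function.update_self]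
      · rw [Function.update_of_ne (by omega), Function.update_of_ne (by omega)]
    have e2 : zd (Function.update z (2 * n + 1) (z (2 * n + 1))⁻¹) = iv (2 * n + 1 - 1) (zd z) := by
      funext k
      unfold iv
      by_cases hk : k = 2 * n
      · rw [hk, Nat.add_sub_cancel, Function.update_self]
        unfold zd
        rw [if_neg (by omega), if_neg (by omega), Function.update_self]
      · rw [Function.update_of_ne (show k ≠ 2 * n + 1 - 1 by omega)]
        unfold zd
        rw [Function.update_of_ne (by omega), Function.update_of_ne (by omega)]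
    have h3 : NZ (2 * n + 1) (zr z) := fun k hk => hz (k + 1) (by omega)
    have h4 : NZ (2 * n + 1) (zd z) := by
      intro k hk
      unfold zd
      split_ifs with h0
      · exact inv_ne_zero (hz 0 (by omega))
      · exact inv_ne_zero (hz (k + 1) (by omega))
    unfold EE
    rw [e1, e2, refl_right (by omega) h3, refl_right (by omega) h4]
  | succ d ih =>
    have hi1 : i + 1 < 2 * n + 2 := by omega
    have e1 : Function.update z i (z i)⁻¹ =
        sw i (Function.update (sw i z) (i + 1) (sw i z (i + 1))⁻¹) := by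
      rw [sw_right]
      funext k
      by_cases h1 : k = i
      · rw [h1, sw_left, Function.update_self, Function.update_self]
      · by_cases h3 : k = i + 1
        · rw [h3, sw_right, Function.update_of_ne (by omega), Function.update_of_ne (by omega),
            sw_left]
        · rw [sw_of_ne _ _ h1 h3, Function.update_of_ne h1, Function.update_of_ne h3,
            sw_of_ne _ _ h1 h3]
    have h3 : NZ (2 * n + 2) (sw i z) := nz_sw hz hi1
    have h4 : NZ (2 * n + 2) (Function.update (sw i z) (i + 1) (sw i z (i + 1))⁻¹) :=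
      nz_upd h3 _ (inv_ne_zero (h3 _ hi1))
    rw [e1, EE_sw n i _ h4 h2 hi1, ih (i + 1) (sw i z) h3 (by omega) hi1 (by omega),
      EE_sw n i z hz h2 hi1]

theorem EE_deg (n : ℕ) (hn : 1 ≤ n) : Deg1 (2 * n + 2) 2 (2 * n) (4 * n) (EE n) := by
  intro z hz
  have h3 : NZ (2 * n + 1) (zr z) := fun k hk => hz (k + 1) (by omega)
  have h4 : NZ (2 * n + 1) (zd z) := by
    intro k hk
    unfold zd
    split_ifs with h0
    · exact inv_ne_zero (hz 0 (by omega))
    · exact inv_ne_zero (hz (k + 1) (by omega))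
  have hn1 : (2 * n + 1 - 1) / 2 = n := by omega
  have hp : ∀ s : Finset ℕ, ∃ p : Polynomial ℂ, p.natDegree ≤ 2 * n ∧
      ∀ t : ℂ, t ≠ 0 → t ^ n * gv (2 * n + 1) (Function.update (zr z) 1 t) s = p.eval t := by
    intro s
    have h := gv_deg (2 * n + 1) 1 (by omega) s (zr z) h3
    rwa [hn1] at h
  have hq : ∀ s : Finset ℕ, ∃ p : Polynomial ℂ, p.natDegree ≤ 2 * n ∧
      ∀ t : ℂ, t ≠ 0 → t ^ n * gv (2 * n + 1) (Function.update (zd z) 1 t⁻¹) s = p.eval t := by
    intro s
    have h := gv_deg_inv (2 * n + 1) 1 (by omega) s (zd z) h4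
    rwa [hn1] at h
  choose p hp1 hp2 using hp
  choose q hq1 hq2 using hq
  refine ⟨∑ a ∈ cfn (2 * n + 1) n, Polynomial.C (cz a) * q a * p a, ?_, fun t ht => ?_⟩
  · refine Polynomial.natDegree_sum_le_of_forall_le _ _ fun a _ => ?_
    refine Polynomial.natDegree_mul_le.trans ?_
    have h5 : (Polynomial.C (cz a) * q a).natDegree ≤ (q a).natDegree :=
      Polynomial.natDegree_C_mul_le _ _
    have h6 := hp1 a
    have h7 := hq1 a
    omega
  · have e1 : zr (Function.update z 2 t) = Function.update (zr z) 1 t := by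
      funext k
      unfold zr
      by_cases hk : k = 1
      · rw [hk, Function.update_self, Function.update_self]
      · rw [Function.update_of_ne (by omega), Function.update_of_ne hk]
    have e2 : zd (Function.update z 2 t) = Function.update (zd z) 1 t⁻¹ := by
      funext k
      by_cases hk : k = 1
      · rw [hk, Function.update_self]
        unfold zd
        rw [if_neg (by omega), Function.update_self]
      · rw [Function.update_of_ne hk]
        unfold zd
        rw [Function.update_of_ne (by omega), Function.update_of_ne (by omega)]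
    unfold EE BF
    rw [e1, e2, Polynomial.eval_finsetSum, Finset.mul_sum]
    refine Finset.sum_congr rfl fun a _ => ?_
    rw [Polynomial.eval_mul, Polynomial.eval_mul, Polynomial.eval_C, ← hp2 a t ht, ← hq2 a t ht]
    ring

end PX
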