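import Pool.Agent.Lib.MP_216314_pr.X.SpinT
import Pool.Agent.Lib.MP_216314_pr.X.PairC

/-!
# The stationary vector of the strip
-/

set_option autoImplicit false

noncomputable section

namespace PX

open Finset

/-- the isotropic exchange -/
theorem gv_iso {L i : ℕ} (hi : i + 1 < L) {y : ℕ → ℂ} (h0 : y (i + 1) ≠ 0)
    (h : y i = -om ^ 2 * y (i + 1)) : gv L (sw i y) = RR i (gv L y) := by
  funext s
  have h1 := gv_exch L Set.univ i (Nat.zero_le i) hi y (Set.mem_univ y) s
  rw [h] at h1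
  rw [RR_apply]
  simp only [Pi.smul_apply, Pi.add_apply, smul_eq_mul]
  have h2 : y (i + 1) * (-2 * gv L (sw i y) s) =
      y (i + 1) * (-(gv L y s + ee i (gv L y) s)) := by
    linear_combination h1 + (y (i + 1) * gv L (sw i y) s) * om_cube +
      (y (i + 1) * gv L y s + y (i + 1) * ee i (gv L y) s * (om ^ 2 - om + 1)) * om_eq
  have h3 := mul_left_cancel₀ h0 h2
  linear_combination (-1 / 2 : ℂ) * h3

/-- the point with `b` at position `m` and `1` elsewhere -/
def pt (m : ℕ) (b : ℂ) : ℕ → ℂ := fun k => if k = m then b else 1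

theorem sw_pt (m : ℕ) (b : ℂ) : sw m (pt (m + 1) b) = pt m b := by
  funext k
  by_cases h1 : k = m
  · subst h1
    rw [sw_left]
    simp [pt]
  · by_cases h2 : k = m + 1
    · subst h2
      rw [sw_right]
      simp [pt]
    · rw [sw_of_ne _ _ h1 h2]
      simp [pt, h1, h2]

theorem sw_pt' (m : ℕ) (b : ℂ) : sw m (pt m b) = pt (m + 1) b := by
  rw [← sw_pt m b, sw_sw]

theorem nz_pt (L m : ℕ) {b : ℂ} (hb : b ≠ 0) : NZ L (pt m b) := by
  intro k _
  unfold pt
  split_ifs
  · exact hb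
  · exact one_ne_zero

theorem iv_pt (m : ℕ) (b : ℂ) : iv m (pt m b) = pt m b⁻¹ := by
  funext k
  by_cases h1 : k = m
  · subst h1
    rw [iv_self]
    simp [pt]
  · rw [iv_of_ne h1]
    simp [pt, h1]

private theorem Hom_om2_ne : -om ^ 2 ≠ 0 := neg_ne_zero.mpr (pow_ne_zero 2 om_ne_zero)

private theorem Hom_inv : (-om ^ 2)⁻¹ = -om := by
  apply inv_eq_of_mul_eq_one_right
  linear_combination om_cube

private theorem Hom_inv' : (-om)⁻¹ = -om ^ 2 := by
  apply inv_eq_of_mul_eq_one_right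
  linear_combination om_cube

theorem Rdn_gv (L m : ℕ) (hm : m < L) : Rdn m (gv L (pt m (-om))) = gv L (pt 0 (-om)) := by
  induction m with
  | zero => rw [Rdn_zero]
  | succ m ih =>
    rw [Rdn_succ]
    have h1 : gv L (sw m (pt (m + 1) (-om))) = RR m (gv L (pt (m + 1) (-om))) := by
      apply gv_iso (by omega)
      · simp only [pt, if_true]
        exact neg_ne_zero.mpr om_ne_zero
      · simp only [pt, if_true]
        rw [if_neg (by omega)]
        linear_combination (-1 : ℂ) * om_cube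
    rw [← h1, sw_pt]
    exact ih (by omega)

theorem Rup_gv (L m : ℕ) (hm : m < L) : Rup m (gv L (pt 0 (-om ^ 2))) = gv L (pt m (-om ^ 2)) := by
  induction m with
  | zero => rw [Rup_zero]
  | succ m ih =>
    rw [Rup_succ, ih (by omega)]
    have h1 : gv L (sw m (pt m (-om ^ 2))) = RR m (gv L (pt m (-om ^ 2))) := by
      apply gv_iso (by omega)
      · simp [pt]
      · simp [pt]
    rw [← h1, sw_pt']

/-- the stationary vector of the strip with `2n+1` strands -/
def FF (n : ℕ) : Vec := gv (2 * n + 1) (pt 0 (-om ^ 2))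

theorem FF_wt (n : ℕ) : Wt (2 * n + 1) n (FF n) := by
  have h1 := gv_wt (2 * n + 1) (pt 0 (-om ^ 2))
  have h2 : (2 * n + 1) / 2 = n := by omega
  rw [h2] at h1
  exact h1

private theorem Hom_refl0 (L : ℕ) (hL : 1 ≤ L) {b : ℂ} (hb : b ≠ 0) :
    gv L (pt 0 b⁻¹) = gv L (pt 0 b) := by
  rw [← iv_pt]
  exact refl_left hL (nz_pt L 0 hb)

/-- invariance under the transfer operator -/
theorem AA_FF (n : ℕ) : AA (2 * n + 1) (FF n) = FF n := by
  rw [AA_apply]
  have h1 : 2 * n + 1 - 1 = 2 * n := by omega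
  rw [h1]
  unfold FF
  rw [Rup_gv (2 * n + 1) (2 * n) (by omega)]
  have h2 : gv (2 * n + 1) (pt (2 * n) (-om ^ 2)) = gv (2 * n + 1) (pt (2 * n) (-om)) := by
    have h3 := refl_right (L := 2 * n + 1) (by omega) (nz_pt (2 * n + 1) (2 * n) Hom_om2_ne)
    rw [h1, iv_pt, Hom_inv] at h3
    exact h3.symm
  rw [h2, Rdn_gv (2 * n + 1) (2 * n) (by omega)]
  have h4 := Hom_refl0 (2 * n + 1) (by omega) Hom_om2_ne
  rw [Hom_inv] at h4
  exact h4

theorem BF_FF (n : ℕ) : BF (2 * n + 1) n (fun _ => 1) (FF n) (FF n) = DD (2 * n + 1) (pt 0 (-om ^ 2)) := by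
  unfold DD
  have h1 : ivs (pt 0 (-om ^ 2)) = pt 0 (-om ^ 2)⁻¹ := by
    funext k
    unfold ivs pt
    split_ifs
    · rfl
    · exact inv_one
  have h2 : (2 * n + 1) / 2 = n := by omega
  rw [h1, Hom_refl0 (2 * n + 1) (by omega) Hom_om2_ne, h2]
  rfl

theorem BF_cz_FF (n : ℕ) : BF (2 * n + 1) n cz (FF n) (FF n) =
    EE n (fun k => if k < 2 then -om ^ 2 else 1) := by
  unfold EE
  have h1 : zr (fun k => if k < 2 then -om ^ 2 else 1) = pt 0 (-om ^ 2) := by
    funext k
    change (if k + 1 < 2 then -om ^ 2 else (1 : ℂ)) = (if k = 0 then -om ^ 2 else 1)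
    by_cases h : k = 0
    · subst h
      simp
    · rw [if_neg (by omega), if_neg h]
  have h2 : zd (fun k => if k < 2 then -om ^ 2 else 1) = pt 0 (-om ^ 2)⁻¹ := by
    funext k
    change (if k = 0 then (if 0 < 2 then -om ^ 2 else (1 : ℂ))⁻¹ else
      (if k + 1 < 2 then -om ^ 2 else (1 : ℂ))⁻¹) = (if k = 0 then (-om ^ 2)⁻¹ else 1)
    by_cases h : k = 0
    · subst h
      simp
    · rw [if_neg h, if_neg (by omega), if_neg h, inv_one]
  rw [h1, h2, Hom_refl0 (2 * n + 1) (by omega) Hom_om2_ne]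
  rfl

end PX
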