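import Pool.Agent.Lib.MP_216314_pr.X.PairA
import Pool.Agent.Lib.MP_216314_pr.X.RefE

/-!
# The bilinear invariant `DD`
-/

set_option autoImplicit false

noncomputable section

namespace PX

open Finset MvPolynomial

/-- all arguments inverted -/
def ivs (y : ℕ → ℂ) : ℕ → ℂ := fun k => (y k)⁻¹

/-- pairing of the solution with the solution at the inverse arguments -/
def DD (L : ℕ) (y : ℕ → ℂ) : ℂ := BF L (L / 2) (fun _ => 1) (gv L (ivs y)) (gv L y)

theorem DD_zero (y : ℕ → ℂ) : DD 0 y = 1 := by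
  unfold DD BF
  have h : cfn 0 (0 / 2) = {∅} := cfn_zero
  rw [h, Finset.sum_singleton, gv_zero, gv_zero]
  ring

theorem DD_one (y : ℕ → ℂ) : DD 1 y = 1 := by
  unfold DD BF
  have h : cfn 1 (1 / 2) = {∅} := cfn_one
  rw [h, Finset.sum_singleton, gv_one, gv_one]
  ring

theorem DD_loc (L : ℕ) (y y' : ℕ → ℂ) (h : ∀ k, k < L → y k = y' k) : DD L y = DD L y' := by
  unfold DD
  have h1 : gv L (ivs y) = gv L (ivs y') := gv_congr fun k hk => by
    unfold ivs
    rw [h k hk]
  rw [h1, gv_congr h]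

private theorem pairB_loc_inv {L : ℕ} {f : (ℕ → ℂ) → ℂ} (hf : Lau L f)
    (hloc : ∀ y y', (∀ k, k < L → y k = y' k) → f y = f y') : Lau L (fun y => f (ivs y)) := by
  have h1 : Lau L (fun y => f (fun k => if k < L then (y k)⁻¹ else y k)) := by
    refine Lau.comp hf (fun k y => if k < L then (y k)⁻¹ else y k) ?_ ?_ ?_
    · intro k
      by_cases hk : k < L
      · simp only [if_pos hk]
        exact Lau.coord_inv hk
      · simp only [if_neg hk]
        exact Lau.coord _ _
    · intro k hk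
      simp only [if_pos hk, inv_inv]
      exact Lau.coord _ _
    · intro k hk y hy
      simp only [if_pos hk]
      exact inv_ne_zero (hy k hk)
  refine h1.congr fun y _ => hloc _ _ fun k hk => ?_
  rw [if_pos hk]
  rfl

private theorem pairB_gv_loc {L : ℕ} (s : Finset ℕ) (y y' : ℕ → ℂ) (h : ∀ k, k < L → y k = y' k) :
    gv L y s = gv L y' s := by
  rw [gv_congr h]

theorem DD_lau (L : ℕ) : Lau L (DD L) := by
  unfold DD BF
  refine Lau.sum _ fun a _ => ((Lau.const _ _).mul ?_).mul (gv_lau L a)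
  exact pairB_loc_inv (gv_lau L a) (fun y y' h => pairB_gv_loc a y y' h)

theorem DD_sw (L i : ℕ) (y : ℕ → ℂ) (hy : NZ L y) (hi : i + 1 < L) : DD L (sw i y) = DD L y := by
  have hgen : ∀ z, Gen L z → DD L (sw i z) - DD L z = 0 := by
    intro z hz
    have h1 := gv_exch L Set.univ i (Nat.zero_le _) hi z (Set.mem_univ _)
    have h2 := gv_exch L Set.univ i (Nat.zero_le _) hi (ivs z) (Set.mem_univ _)
    have e : ivs (sw i z) = sw i (ivs z) := rfl
    have ha : z i ≠ 0 := hz.1 i (by omega)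
    have hb : z (i + 1) ≠ 0 := hz.1 (i + 1) hi
    obtain ⟨g1, g2, -⟩ := Gen.ne_mul hz (show i < L by omega) hi (by omega)
    obtain ⟨g3, g4, -⟩ := Gen.ne_mul hz hi (show i < L by omega) (by omega)
    unfold DD
    rw [e, BF_exch hi (fun _ => 1) (fun _ => rfl) (z i) (z (i + 1)) g2 g4 (gv L z)
      (gv L (sw i z)) (gv L (ivs z)) (gv L (sw i (ivs z))) h1 ?_, sub_self]
    intro s
    have h3 := h2 s
    have e1 : ivs z i = (z i)⁻¹ := rfl
    have e2 : ivs z (i + 1) = (z (i + 1))⁻¹ := rfl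
    rw [e1, e2] at h3
    have h4 : z i * z (i + 1) * ((om * (z i)⁻¹ - (z (i + 1))⁻¹) * gv L (sw i (ivs z)) s) =
        z i * z (i + 1) * ((om * (z (i + 1))⁻¹ - (z i)⁻¹) * gv L (ivs z) s +
          om ^ 2 * ((z (i + 1))⁻¹ - (z i)⁻¹) * ee i (gv L (ivs z)) s) := by rw [h3]
    field_simp at h4
    linear_combination h4
  have hL1 : Lau L (fun z => DD L (sw i z) - DD L z) := by
    refine Lau.sub ?_ (DD_lau L)
    have hlt : ∀ k, k < L → Equiv.swap i (i + 1) k < L := by
      intro k hk
      rw [Equiv.swap_apply_def]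
      split_ifs <;> omega
    refine Lau.comp (DD_lau L) (fun k y => sw i y k) ?_ ?_ ?_
    · intro k
      exact Lau.coord L _
    · intro k hk
      exact Lau.coord_inv (hlt k hk)
    · intro k hk y hy
      exact hy _ (hlt k hk)
  exact sub_eq_zero.mp (Lau.ext_gen hL1 hgen y hy)

private theorem pairB_ivs_iv (i : ℕ) (y : ℕ → ℂ) : ivs (iv i y) = iv i (ivs y) := by
  funext k
  unfold ivs
  rcases eq_or_ne k i with h | h
  · rw [h, iv_self, iv_self]
  · rw [iv_of_ne h, iv_of_ne h]

private theorem pairB_nz_ivs {L : ℕ} {y : ℕ → ℂ} (h : NZ L y) : NZ L (ivs y) := nz_inv h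

theorem DD_inv (L i : ℕ) (y : ℕ → ℂ) (hy : NZ L y) (hi : i < L) :
    DD L (Function.update y i (y i)⁻¹) = DD L y := by
  have main : ∀ m i : ℕ, i + 1 + m = L → ∀ y, NZ L y → DD L (iv i y) = DD L y := by
    intro m
    induction m with
    | zero =>
      intro i him y hy
      have h1 : i = L - 1 := by omega
      unfold DD
      rw [pairB_ivs_iv, h1, refl_right (by omega) hy, refl_right (by omega) (pairB_nz_ivs hy)]
    | succ m ihm =>
      intro i him y hy
      have e : iv i y = sw i (iv (i + 1) (sw i y)) := by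
        funext k
        rcases eq_or_ne k i with h | h
        · rw [h, iv_self, sw_left, iv_self, sw_right]
        · rcases eq_or_ne k (i + 1) with h' | h'
          · rw [h', iv_of_ne (by omega), sw_right, iv_of_ne (by omega), sw_left]
          · rw [iv_of_ne h, sw_of_ne _ _ h h', iv_of_ne h', sw_of_ne _ _ h h']
      have h1 : NZ L (sw i y) := nz_sw hy (by omega)
      rw [e, DD_sw L i _ (nz_iv h1 (by omega)) (by omega), ihm (i + 1) (by omega) _ h1,
        DD_sw L i _ hy (by omega)]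
  exact main (L - (i + 1)) i (by omega) y hy

theorem DD_deg (L : ℕ) (hL : 1 ≤ L) : Deg1 L 0 (2 * ((L - 1) / 2)) (4 * ((L - 1) / 2)) (DD L) := by
  intro y hy
  have h1 : ∀ s : Finset ℕ, ∃ p : Polynomial ℂ, p.natDegree ≤ 2 * ((L - 1) / 2) ∧
      ∀ t : ℂ, t ≠ 0 → t ^ ((L - 1) / 2) * gv L (Function.update (ivs y) 0 t⁻¹) s = p.eval t :=
    fun s => gv_deg_inv L 0 (by omega) s (ivs y) (pairB_nz_ivs hy)
  have h2 : ∀ s : Finset ℕ, ∃ p : Polynomial ℂ, p.natDegree ≤ 2 * ((L - 1) / 2) ∧
      ∀ t : ℂ, t ≠ 0 → t ^ ((L - 1) / 2) * gv L (Function.update y 0 t) s = p.eval t :=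
    fun s => gv_deg L 0 (by omega) s y hy
  choose p1 hp1 he1 using h1
  choose p2 hp2 he2 using h2
  refine ⟨∑ s ∈ cfn L (L / 2), p1 s * p2 s, ?_, ?_⟩
  · refine Polynomial.natDegree_sum_le_of_forall_le _ _ fun s _ => ?_
    refine Polynomial.natDegree_mul_le.trans ?_
    have a1 := hp1 s
    have a2 := hp2 s
    omega
  · intro t ht
    have e : ivs (Function.update y 0 t) = Function.update (ivs y) 0 t⁻¹ := by
      funext k
      unfold ivs
      rcases eq_or_ne k 0 with h | h
      · rw [h, Function.update_self, Function.update_self]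
      · rw [Function.update_of_ne h, Function.update_of_ne h]
    unfold DD BF
    rw [Polynomial.eval_finsetSum, Finset.mul_sum]
    refine Finset.sum_congr rfl fun s _ => ?_
    rw [Polynomial.eval_mul, ← he1 s t ht, ← he2 s t ht, e]
    ring

end PX
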