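import Pool.Agent.Lib.MP_216314_pr.X.PolA

/-!
# Hecke relations
-/

set_option autoImplicit false

noncomputable section

namespace PX

open Finset MvPolynomial

theorem PolB_W : (C om : MP) ^ 2 + C om + 1 = 0 := by
  have h := congrArg (C : ℂ → MP) om_eq
  simpa only [map_add, map_pow, map_one, map_zero] using h

theorem PolB_mul (i : ℕ) (f g : MP) : sp i (f * g) = sp i f * sp i g := by
  simp only [sp, map_mul]

theorem PolB_add (i : ℕ) (f g : MP) : sp i (f + g) = sp i f + sp i g := by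
  simp only [sp, map_add]

theorem PolB_sub (i : ℕ) (f g : MP) : sp i (f - g) = sp i f - sp i g := by
  simp only [sp, map_sub]

theorem PolB_neg (i : ℕ) (f : MP) : sp i (-f) = -sp i f := by
  simp only [sp, map_neg]

theorem PolB_C (i : ℕ) (c : ℂ) : sp i (C c) = C c := by
  simp only [sp, rename_C]

theorem PolB_one (i : ℕ) : sp i (1 : MP) = 1 := by
  simp only [sp, map_one]

theorem PolB_two (i : ℕ) : sp i (2 : MP) = 2 := by
  simp only [sp, map_ofNat]

theorem PolB_X (i k : ℕ) : sp i (X k) = X (Equiv.swap i (i + 1) k) := by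
  simp only [sp, rename_X]

theorem PolB_X1 (i : ℕ) : sp i (X i) = X (i + 1) := by
  rw [PolB_X, Equiv.swap_apply_left]

theorem PolB_X2 (i : ℕ) : sp i (X (i + 1)) = X i := by
  rw [PolB_X, Equiv.swap_apply_right]

theorem PolB_X3 (i k : ℕ) (h1 : k ≠ i) (h2 : k ≠ i + 1) : sp i (X k) = X k := by
  rw [PolB_X, Equiv.swap_apply_of_ne_of_ne h1 h2]

theorem PolB_invol (i : ℕ) (f : MP) : sp i (sp i f) = f := by
  have h : (fun k => Equiv.swap i (i + 1) (Equiv.swap i (i + 1) k)) = id := by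
    funext k
    exact Equiv.swap_apply_self i (i + 1) k
  simp only [sp, rename_rename, Function.comp_def, h, rename_id, AlgHom.coe_id, id_eq]

theorem PolB_comm {i j : ℕ} (h : i + 2 ≤ j) (f : MP) : sp i (sp j f) = sp j (sp i f) := by
  have h1 : (fun k => Equiv.swap i (i + 1) (Equiv.swap j (j + 1) k))
      = fun k => Equiv.swap j (j + 1) (Equiv.swap i (i + 1) k) := by
    funext k
    simp only [Equiv.swap_apply_def]
    split_ifs <;> omega
  simp only [sp, rename_rename, Function.comp_def, h1]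

theorem PolB_braid (i : ℕ) (f : MP) :
    sp i (sp (i + 1) (sp i f)) = sp (i + 1) (sp i (sp (i + 1) f)) := by
  have h1 : (fun k => Equiv.swap i (i + 1) (Equiv.swap (i + 1) (i + 1 + 1)
        (Equiv.swap i (i + 1) k)))
      = fun k => Equiv.swap (i + 1) (i + 1 + 1) (Equiv.swap i (i + 1)
        (Equiv.swap (i + 1) (i + 1 + 1) k)) := by
    funext k
    simp only [Equiv.swap_apply_def]
    split_ifs <;> omega
  simp only [sp, rename_rename, Function.comp_def, h1]

/-- the defining relation with coefficients linear in `om` -/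
theorem PolB_spec (i : ℕ) (f : MP) : (X i - X (i + 1)) * Tp i f =
    -(2 * C om + 1) * X (i + 1) * f + ((C om + 1) * X i + C om * X (i + 1)) * sp i f := by
  have h2 : (C (om ^ 2 - om) : MP) = C om ^ 2 - C om := by rw [map_sub, map_pow]
  rw [Tp_spec, h2]
  linear_combination (X (i + 1) * f - X i * sp i f) * PolB_W

/-- quadratic relation -/
theorem Tp_sq (i : ℕ) (f : MP) : Tp i (Tp i f) = C (om - om ^ 2) * Tp i f + f := by
  have h2 : (C (om - om ^ 2) : MP) = C om - C om ^ 2 := by rw [map_sub, map_pow]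
  have hne : (X i - X (i + 1) : MP) ^ 2 ≠ 0 := pow_ne_zero _ (X_sub_ne i (i + 1) (by omega))
  apply mul_left_cancel₀ hne
  have e1 := PolB_spec i f
  have e2 := congrArg (sp i) e1
  simp only [PolB_mul, PolB_add, PolB_sub, PolB_neg, PolB_C, PolB_one, PolB_two, PolB_X1,
    PolB_X2, PolB_invol] at e2
  have e3 := PolB_spec i (Tp i f)
  rw [h2]
  set a : MP := X i
  set b : MP := X (i + 1)
  set w : MP := C om
  have hw : w ^ 2 + w + 1 = 0 := PolB_W
  linear_combination (a - b) * e3 + (-(2 * w + 1) * b) * e1 - ((w + 1) * a + w * b) * e2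
    - (a - b) * (2 * w + 1) * e1 + (a - b) ^ 2 * Tp i f * hw
    + (2 * f * a * b - f * a ^ 2 - f * b ^ 2) * hw

theorem Tp_comm {i j : ℕ} (h : i + 2 ≤ j) (f : MP) : Tp i (Tp j f) = Tp j (Tp i f) := by
  have hne : (X i - X (i + 1) : MP) * (X j - X (j + 1)) ≠ 0 :=
    mul_ne_zero (X_sub_ne i (i + 1) (by omega)) (X_sub_ne j (j + 1) (by omega))
  apply mul_left_cancel₀ hne
  have s1 : sp i (X j) = X j := PolB_X3 i j (by omega) (by omega)
  have s2 : sp i (X (j + 1)) = X (j + 1) := PolB_X3 i (j + 1) (by omega) (by omega)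
  have s3 : sp j (X i) = X i := PolB_X3 j i (by omega) (by omega)
  have s4 : sp j (X (i + 1)) = X (i + 1) := PolB_X3 j (i + 1) (by omega) (by omega)
  have hL := PolB_spec i (Tp j f)
  have hK := PolB_spec j f
  have hsK := congrArg (sp i) hK
  simp only [PolB_mul, PolB_add, PolB_sub, PolB_neg, PolB_C, PolB_one, PolB_two, s1, s2] at hsK
  have hR := PolB_spec j (Tp i f)
  have hM := PolB_spec i f
  have htM := congrArg (sp j) hM
  simp only [PolB_mul, PolB_add, PolB_sub, PolB_neg, PolB_C, PolB_one, PolB_two, s3, s4] at htM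
  rw [PolB_comm h f] at hsK
  set a : MP := X i
  set b : MP := X (i + 1)
  set c : MP := X j
  set d : MP := X (j + 1)
  set w : MP := C om
  linear_combination (c - d) * hL + (-(2 * w + 1) * b) * hK + ((w + 1) * a + w * b) * hsK
    - (a - b) * hR - (-(2 * w + 1) * d) * hM - ((w + 1) * c + w * d) * htM

/-- braid relation -/
theorem Tp_braid (i : ℕ) (f : MP) :
    Tp i (Tp (i + 1) (Tp i f)) = Tp (i + 1) (Tp i (Tp (i + 1) f)) := by
  have hne : ((X i - X (i + 1) : MP) ^ 2 * (X (i + 1) - X (i + 1 + 1)) ^ 2) *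
      (X i - X (i + 1 + 1)) ≠ 0 :=
    mul_ne_zero (mul_ne_zero (pow_ne_zero _ (X_sub_ne i (i + 1) (by omega)))
      (pow_ne_zero _ (X_sub_ne (i + 1) (i + 1 + 1) (by omega))))
      (X_sub_ne i (i + 1 + 1) (by omega))
  apply mul_left_cancel₀ hne
  have s1 : sp i (X (i + 1 + 1)) = X (i + 1 + 1) := PolB_X3 i (i + 1 + 1) (by omega) (by omega)
  have s2 : sp (i + 1) (X i) = X i := PolB_X3 (i + 1) i (by omega) (by omega)
  have hG1 := PolB_spec i f
  have htG1 := congrArg (sp (i + 1)) hG1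
  simp only [PolB_mul, PolB_add, PolB_sub, PolB_neg, PolB_C, PolB_one, PolB_two, PolB_X1,
    PolB_X2, s2] at htG1
  have hsG1 := congrArg (sp i) hG1
  simp only [PolB_mul, PolB_add, PolB_sub, PolB_neg, PolB_C, PolB_one, PolB_two, PolB_X1,
    PolB_X2, PolB_invol] at hsG1
  have hstG1 := congrArg (sp i) htG1
  simp only [PolB_mul, PolB_add, PolB_sub, PolB_neg, PolB_C, PolB_one, PolB_two, PolB_X1,
    PolB_X2, s1] at hstG1
  have hG2 := PolB_spec (i + 1) (Tp i f)
  have hsG2 := congrArg (sp i) hG2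
  simp only [PolB_mul, PolB_add, PolB_sub, PolB_neg, PolB_C, PolB_one, PolB_two, PolB_X1,
    PolB_X2, s1] at hsG2
  have hG3 := PolB_spec i (Tp (i + 1) (Tp i f))
  have hK1 := PolB_spec (i + 1) f
  have hsK1 := congrArg (sp i) hK1
  simp only [PolB_mul, PolB_add, PolB_sub, PolB_neg, PolB_C, PolB_one, PolB_two, PolB_X1,
    PolB_X2, s1] at hsK1
  have htK1 := congrArg (sp (i + 1)) hK1
  simp only [PolB_mul, PolB_add, PolB_sub, PolB_neg, PolB_C, PolB_one, PolB_two, PolB_X1,
    PolB_X2, PolB_invol] at htK1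
  have htsK1 := congrArg (sp (i + 1)) hsK1
  simp only [PolB_mul, PolB_add, PolB_sub, PolB_neg, PolB_C, PolB_one, PolB_two, PolB_X1,
    PolB_X2, s2] at htsK1
  have hK2 := PolB_spec i (Tp (i + 1) f)
  have htK2 := congrArg (sp (i + 1)) hK2
  simp only [PolB_mul, PolB_add, PolB_sub, PolB_neg, PolB_C, PolB_one, PolB_two, PolB_X1,
    PolB_X2, s2] at htK2
  have hK3 := PolB_spec (i + 1) (Tp i (Tp (i + 1) f))
  rw [← PolB_braid i f] at htsK1
  set x : MP := X i
  set y : MP := X (i + 1)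
  set z : MP := X (i + 1 + 1)
  set w : MP := C om
  linear_combination (x - y) * (y - z) ^ 2 * (x - z) * hG3
    + (x - y) * (y - z) * (x - z) * (-(2 * w + 1) * y) * hG2
    + (x - y) * (y - z) ^ 2 * ((w + 1) * x + w * y) * hsG2
    + (y - z) * (x - z) * (-(2 * w + 1) * y) * (-(2 * w + 1) * z) * hG1
    + (x - y) * (y - z) * (-(2 * w + 1) * y) * ((w + 1) * y + w * z) * htG1
    - (y - z) ^ 2 * ((w + 1) * x + w * y) * (-(2 * w + 1) * z) * hsG1
    + (x - y) * (y - z) * ((w + 1) * x + w * y) * ((w + 1) * x + w * z) * hstG1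
    - (x - y) ^ 2 * (y - z) * (x - z) * hK3
    - (x - y) * (y - z) * (x - z) * (-(2 * w + 1) * z) * hK2
    - (x - y) ^ 2 * (y - z) * ((w + 1) * y + w * z) * htK2
    - (x - y) * (x - z) * (-(2 * w + 1) * z) * (-(2 * w + 1) * y) * hK1
    - (x - y) * (y - z) * (-(2 * w + 1) * z) * ((w + 1) * x + w * y) * hsK1
    + (x - y) ^ 2 * ((w + 1) * y + w * z) * (-(2 * w + 1) * z) * htK1
    - (x - y) * (y - z) * ((w + 1) * y + w * z) * ((w + 1) * x + w * z) * htsK1

theorem Tp_eigen (i : ℕ) (h : MP) (hh : sp i h = h) :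
    Tp i ((C om * X i - X (i + 1)) * h) = C om * ((C om * X i - X (i + 1)) * h) := by
  apply mul_left_cancel₀ (X_sub_ne i (i + 1) (by omega))
  rw [PolB_spec]
  simp only [PolB_mul, PolB_sub, PolB_C, PolB_X1, PolB_X2, hh]
  linear_combination ((X (i + 1) ^ 2 - X i ^ 2) * h) * PolB_W

end PX
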