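import Pool.Agent.Lib.MP_216314_pr.X.ExchB

/-!
# Reflection: the sorted component and small sizes
-/

set_option autoImplicit false

noncomputable section

namespace PX

open Finset MvPolynomial

/-- inversion of the argument number `i` -/
def iv (i : ℕ) (y : ℕ → ℂ) : ℕ → ℂ := Function.update y i (y i)⁻¹

theorem nz_iv {L i : ℕ} {y : ℕ → ℂ} (h : NZ L y) (hi : i < L) : NZ L (iv i y) := by
  intro k hk
  unfold iv
  rcases eq_or_ne k i with h1 | h1
  · rw [h1, Function.update_self]
    exact inv_ne_zero (h i hi)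
  · rw [Function.update_of_ne h1]
    exact h k hk

theorem iv_iv (i : ℕ) (y : ℕ → ℂ) : iv i (iv i y) = y := by
  unfold iv
  rw [Function.update_self, Function.update_idem, inv_inv, Function.update_eq_self]

theorem iv_self (i : ℕ) (y : ℕ → ℂ) : iv i y i = (y i)⁻¹ := by
  unfold iv
  rw [Function.update_self]

theorem iv_of_ne {i k : ℕ} (h : k ≠ i) (y : ℕ → ℂ) : iv i y k = y k := by
  unfold iv
  rw [Function.update_of_ne h]

theorem sw_iv {i j : ℕ} (h1 : j ≠ i) (h2 : j ≠ i + 1) (y : ℕ → ℂ) : sw i (iv j y) = iv j (sw i y) := by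
  funext k
  have e : Equiv.swap i (i + 1) j = j := Equiv.swap_apply_of_ne_of_ne h1 h2
  show iv j y (Equiv.swap i (i + 1) k) = iv j (sw i y) k
  rcases eq_or_ne k j with h | h
  · rw [h, e, iv_self, iv_self]
    unfold sw
    rw [e]
  · have h3 : Equiv.swap i (i + 1) k ≠ j := by
      intro h4
      apply h
      rw [← e] at h4
      exact (Equiv.swap i (i + 1)).injective h4
    rw [iv_of_ne h3, iv_of_ne h]
    rfl

/-- inversion of one argument preserves Laurent polynomials -/
theorem lau_iv {L i : ℕ} (hi : i < L) {f : (ℕ → ℂ) → ℂ} (hf : Lau L f) : Lau L (fun y => f (iv i y)) := by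
  refine Lau.comp hf (fun k y => iv i y k) ?_ ?_ ?_
  · intro k
    rcases eq_or_ne k i with h | h
    · simp only [h, iv_self]
      exact Lau.coord_inv hi
    · simp only [iv_of_ne h]
      exact Lau.coord L k
  · intro k hk
    rcases eq_or_ne k i with h | h
    · simp only [h, iv_self, inv_inv]
      exact Lau.coord L i
    · simp only [iv_of_ne h]
      exact Lau.coord_inv hk
  · intro k hk y hy
    exact nz_iv hy hi k hk

theorem gen_iv {L i : ℕ} {y : ℕ → ℂ} (h : Gen L y) (hi : i < L) : Gen L (iv i y) := by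
  obtain ⟨h1, h2, h3⟩ := h
  have hi0 : y i ≠ 0 := h1 i hi
  refine ⟨nz_iv h1 hi, ?_, ?_⟩
  · intro k hk
    rcases eq_or_ne k i with h | h
    · rw [h, iv_self, inv_pow]
      intro h4
      exact h2 i hi (inv_eq_one.mp h4)
    · rw [iv_of_ne h]
      exact h2 k hk
  · intro a b ha hb hab
    rcases eq_or_ne a i with h | h
    · have hbi : b ≠ i := fun h4 => hab (h.trans h4.symm)
      rw [h, iv_self, iv_of_ne hbi, inv_pow]
      obtain ⟨h5, h6⟩ := h3 i b hi hb (fun h4 => hbi h4.symm)
      have h7 : y i ^ 3 ≠ 0 := pow_ne_zero 3 hi0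
      constructor
      · intro h8
        apply h6
        rw [← h8, mul_inv_cancel₀ h7]
      · intro h8
        apply h5
        have h9 : y i ^ 3 * ((y i ^ 3)⁻¹ * y b ^ 3) = y i ^ 3 * 1 := by rw [h8]
        rw [← mul_assoc, mul_inv_cancel₀ h7, one_mul, mul_one] at h9
        exact h9.symm
    · rcases eq_or_ne b i with h' | h'
      · rw [h', iv_self, iv_of_ne h, inv_pow]
        obtain ⟨h5, h6⟩ := h3 a i ha hi h
        have h7 : y i ^ 3 ≠ 0 := pow_ne_zero 3 hi0
        constructor
        · intro h8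
          apply h6
          rw [h8, inv_mul_cancel₀ h7]
        · intro h8
          apply h5
          have h9 : y a ^ 3 * (y i ^ 3)⁻¹ * y i ^ 3 = 1 * y i ^ 3 := by rw [h8]
          rw [mul_assoc, inv_mul_cancel₀ h7, one_mul, mul_one] at h9
          exact h9
      · rw [iv_of_ne h, iv_of_ne h']
        exact h3 a b ha hb hab

private theorem refA_gv (L : ℕ) (y : ℕ → ℂ) : gv L y (range (L / 2)) =
    ((∏ k ∈ range (L / 2), y k) ^ (L % 2) *
      (∏ j ∈ range (L / 2), ∏ k ∈ range j, eval y (PA k j)) *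
      ∏ j ∈ Ico (L / 2) L, ∏ k ∈ Ico (L / 2) j, eval y (PB k j)) /
      (∏ k ∈ range L, y k) ^ ((L - 1) / 2) := by
  have h1 : range (L / 2) ∈ cfn L (L / 2) := by
    rw [mem_cfn]
    refine ⟨?_, Finset.card_range _⟩
    intro k hk
    rw [Finset.mem_range] at hk ⊢
    omega
  unfold gv
  rw [if_pos h1, GP_range]
  unfold G0
  simp only [map_mul, map_pow, map_prod, eval_X]

private theorem refA_PA (y : ℕ → ℂ) (k j : ℕ) :
    eval y (PA k j) = om ^ 2 * (om * y k - y j) * (om - y k * y j) := by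
  unfold PA
  simp only [map_mul, map_sub, eval_C, eval_X]

private theorem refA_PB (y : ℕ → ℂ) (k j : ℕ) :
    eval y (PB k j) = (om * y k - y j) * (y k * y j - om ^ 2) := by
  unfold PB
  simp only [map_mul, map_sub, eval_C, eval_X]

private theorem refA_B_inv {a b : ℂ} (hb : b ≠ 0) :
    (om * a - b⁻¹) * (a * b⁻¹ - om ^ 2) / b⁻¹ = (om * a - b) * (a * b - om ^ 2) / b := by
  field_simp
  linear_combination (a - a * b ^ 2) * om_cube

private theorem refA_A_inv {a b : ℂ} (ha : a ≠ 0) :
    om ^ 2 * (om * a⁻¹ - b) * (om - a⁻¹ * b) / a⁻¹ = om ^ 2 * (om * a - b) * (om - a * b) / a := by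
  field_simp

private theorem refA_mask {S : Set (ℕ → ℂ)} {lo hi : ℕ} {D : (ℕ → ℂ) → Vec} (hE : Exch S lo hi D)
    (P : Finset ℕ → Prop) [DecidablePred P]
    (hP : ∀ i, lo ≤ i → i + 1 < hi → ∀ s, P (sg i s) ↔ P s) :
    Exch S lo hi (fun y s => if P s then D y s else 0) := by
  intro i h1 h2 y hy s
  have hee : ee i (fun s => if P s then D y s else 0) s = if P s then ee i (D y) s else 0 := by
    by_cases h3 : i ∈ s
    · by_cases h4 : i + 1 ∈ s
      · rw [ee_apply_eq i _ s ⟨fun _ => h4, fun _ => h3⟩, ee_apply_eq i _ s ⟨fun _ => h4, fun _ => h3⟩]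
        simp only [ite_self]
      · rw [ee_apply_left i _ s h3 h4, ee_apply_left i _ s h3 h4]
        by_cases h5 : P s
        · rw [if_pos h5, if_pos h5, if_pos ((hP i h1 h2 s).mpr h5)]
        · rw [if_neg h5, if_neg h5, if_neg (fun h6 => h5 ((hP i h1 h2 s).mp h6))]
          ring
    · by_cases h4 : i + 1 ∈ s
      · rw [ee_apply_right i _ s h3 h4, ee_apply_right i _ s h3 h4]
        by_cases h5 : P s
        · rw [if_pos h5, if_pos h5, if_pos ((hP i h1 h2 s).mpr h5)]
        · rw [if_neg h5, if_neg h5, if_neg (fun h6 => h5 ((hP i h1 h2 s).mp h6))]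
          ring
      · rw [ee_apply_eq i _ s ⟨fun h => absurd h h3, fun h => absurd h h4⟩,
          ee_apply_eq i _ s ⟨fun h => absurd h h3, fun h => absurd h h4⟩]
        simp only [ite_self]
  rw [hee]
  by_cases h5 : P s
  · simp only [if_pos h5]
    exact hE i h1 h2 y hy s
  · simp only [if_neg h5]
    ring

private theorem refA_mem_sg_of_ne {i k : ℕ} (h1 : k ≠ i) (h2 : k ≠ i + 1) (s : Finset ℕ) :
    k ∈ sg i s ↔ k ∈ s := by
  rw [mem_sg, Equiv.swap_apply_of_ne_of_ne h1 h2]

/-- the sorted component is invariant under the inversion of the last argument -/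
theorem base_right {L : ℕ} (hL : 1 ≤ L) {y : ℕ → ℂ} (hy : NZ L y) :
    gv L (iv (L - 1) y) (range (L / 2)) = gv L y (range (L / 2)) := by
  have hM : L = (L - 1) + 1 := by omega
  set M := L - 1 with hMdef
  have hn : L / 2 ≤ M := by omega
  have hd : (L - 1) / 2 = M - L / 2 := by omega
  have hyM : y M ≠ 0 := hy M (by omega)
  have key : ∀ z : ℕ → ℂ, gv L z (range (L / 2)) =
      ((∏ k ∈ range (L / 2), z k) ^ (L % 2) *
      (∏ j ∈ range (L / 2), ∏ k ∈ range j, eval z (PA k j)) *
      ∏ j ∈ Ico (L / 2) M, ∏ k ∈ Ico (L / 2) j, eval z (PB k j)) /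
      (∏ k ∈ range M, z k) ^ ((L - 1) / 2) *
      ∏ k ∈ Ico (L / 2) M, (eval z (PB k M) / z M) := by
    intro z
    rw [refA_gv]
    have e1 : ∏ j ∈ Ico (L / 2) L, ∏ k ∈ Ico (L / 2) j, eval z (PB k j) =
        (∏ j ∈ Ico (L / 2) M, ∏ k ∈ Ico (L / 2) j, eval z (PB k j)) *
        ∏ k ∈ Ico (L / 2) M, eval z (PB k M) := by
      have h9 := Finset.prod_Ico_succ_top hn (fun j => ∏ k ∈ Ico (L / 2) j, eval z (PB k j))
      rw [← hM] at h9
      exact h9
    have e2 : ∏ k ∈ range L, z k = (∏ k ∈ range M, z k) * z M := by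
      conv_lhs => rw [hM]
      rw [Finset.prod_range_succ]
    have e3 : (z M) ^ ((L - 1) / 2) = ∏ k ∈ Ico (L / 2) M, z M := by
      rw [Finset.prod_const, Nat.card_Ico, hd]
    rw [e1, e2, Finset.prod_div_distrib, ← e3, mul_pow]
    ring
  rw [key, key]
  have hlt : ∀ k, k < M → iv M y k = y k := fun k hk => iv_of_ne (by omega) y
  have f1 : ∏ k ∈ range (L / 2), iv M y k = ∏ k ∈ range (L / 2), y k :=
    Finset.prod_congr rfl fun k hk => hlt k (by rw [Finset.mem_range] at hk; omega)
  have f2 : ∏ j ∈ range (L / 2), ∏ k ∈ range j, eval (iv M y) (PA k j) =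
      ∏ j ∈ range (L / 2), ∏ k ∈ range j, eval y (PA k j) := by
    refine Finset.prod_congr rfl fun j hj => Finset.prod_congr rfl fun k hk => ?_
    rw [Finset.mem_range] at hj hk
    rw [refA_PA, refA_PA, hlt k (by omega), hlt j (by omega)]
  have f3 : ∏ j ∈ Ico (L / 2) M, ∏ k ∈ Ico (L / 2) j, eval (iv M y) (PB k j) =
      ∏ j ∈ Ico (L / 2) M, ∏ k ∈ Ico (L / 2) j, eval y (PB k j) := by
    refine Finset.prod_congr rfl fun j hj => Finset.prod_congr rfl fun k hk => ?_
    rw [Finset.mem_Ico] at hj hk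
    rw [refA_PB, refA_PB, hlt k (by omega), hlt j (by omega)]
  have f4 : ∏ k ∈ range M, iv M y k = ∏ k ∈ range M, y k :=
    Finset.prod_congr rfl fun k hk => hlt k (Finset.mem_range.mp hk)
  have f5 : ∏ k ∈ Ico (L / 2) M, (eval (iv M y) (PB k M) / iv M y M) =
      ∏ k ∈ Ico (L / 2) M, (eval y (PB k M) / y M) := by
    refine Finset.prod_congr rfl fun k hk => ?_
    rw [Finset.mem_Ico] at hk
    rw [refA_PB, refA_PB, hlt k (by omega), iv_self]
    exact refA_B_inv hyM
  rw [f1, f2, f3, f4, f5]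

/-- the sorted component is invariant under the inversion of the first argument -/
theorem base_left {L : ℕ} (hL : 2 ≤ L) {y : ℕ → ℂ} (hy : NZ L y) :
    gv L (iv 0 y) (range (L / 2)) = gv L y (range (L / 2)) := by
  have hn : 1 ≤ L / 2 := by omega
  have hy0 : y 0 ≠ 0 := hy 0 (by omega)
  have hd : (L - 1) / 2 = (L / 2 - 1) + L % 2 := by omega
  have key : ∀ z : ℕ → ℂ, z 0 ≠ 0 → gv L z (range (L / 2)) =
      ((∏ k ∈ Ico 1 (L / 2), z k) ^ (L % 2) *
      (∏ j ∈ Ico 1 (L / 2), ∏ k ∈ Ico 1 j, eval z (PA k j)) *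
      ∏ j ∈ Ico (L / 2) L, ∏ k ∈ Ico (L / 2) j, eval z (PB k j)) /
      (∏ k ∈ Ico 1 L, z k) ^ ((L - 1) / 2) *
      ∏ j ∈ Ico 1 (L / 2), (eval z (PA 0 j) / z 0) := by
    intro z hz
    rw [refA_gv]
    have e0 : ∀ m : ℕ, 1 ≤ m → ∀ f : ℕ → ℂ, ∏ k ∈ range m, f k = f 0 * ∏ k ∈ Ico 1 m, f k := by
      intro m hm f
      rw [Finset.range_eq_Ico, Finset.prod_eq_prod_Ico_succ_bot (by omega)]
    have e1 : ∏ j ∈ range (L / 2), ∏ k ∈ range j, eval z (PA k j) =
        (∏ j ∈ Ico 1 (L / 2), eval z (PA 0 j)) *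
        ∏ j ∈ Ico 1 (L / 2), ∏ k ∈ Ico 1 j, eval z (PA k j) := by
      rw [e0 _ hn, Finset.range_zero, Finset.prod_empty, one_mul, ← Finset.prod_mul_distrib]
      refine Finset.prod_congr rfl fun j hj => ?_
      rw [Finset.mem_Ico] at hj
      rw [e0 j hj.1]
    have e3 : (z 0) ^ (L / 2 - 1) = ∏ k ∈ Ico 1 (L / 2), z 0 := by
      rw [Finset.prod_const, Nat.card_Ico]
    have e4 : (z 0) ^ ((L - 1) / 2) = (z 0) ^ (L / 2 - 1) * (z 0) ^ (L % 2) := by
      rw [hd, pow_add]
    have hz1 : (z 0) ^ (L / 2 - 1) ≠ 0 := pow_ne_zero _ hz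
    have hz2 : (z 0) ^ (L % 2) ≠ 0 := pow_ne_zero _ hz
    rw [e1, e0 _ hn, e0 L (by omega), Finset.prod_div_distrib, ← e3, mul_pow, mul_pow, e4]
    have e5 : ∀ X P A B C Y Q : ℂ, X ≠ 0 →
        X * P * (A * B) * C / (Y * X * Q) = P * B * C / Q * (A / Y) := by
      intro X P A B C Y Q hX
      have e6 : X * P * (A * B) * C / (Y * X * Q) = (X * (P * (A * B) * C)) / (X * (Y * Q)) := by
        ring
      rw [e6, mul_div_mul_left _ _ hX]
      ring
    exact e5 _ _ _ _ _ _ _ hz2
  rw [key _ (by rw [iv_self]; exact inv_ne_zero hy0), key _ hy0]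
  have hlt : ∀ k, 1 ≤ k → iv 0 y k = y k := fun k hk => iv_of_ne (by omega) y
  have f1 : ∏ k ∈ Ico 1 (L / 2), iv 0 y k = ∏ k ∈ Ico 1 (L / 2), y k :=
    Finset.prod_congr rfl fun k hk => hlt k (Finset.mem_Ico.mp hk).1
  have f2 : ∏ j ∈ Ico 1 (L / 2), ∏ k ∈ Ico 1 j, eval (iv 0 y) (PA k j) =
      ∏ j ∈ Ico 1 (L / 2), ∏ k ∈ Ico 1 j, eval y (PA k j) := by
    refine Finset.prod_congr rfl fun j hj => Finset.prod_congr rfl fun k hk => ?_
    rw [Finset.mem_Ico] at hj hk
    rw [refA_PA, refA_PA, hlt k (by omega), hlt j (by omega)]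
  have f3 : ∏ j ∈ Ico (L / 2) L, ∏ k ∈ Ico (L / 2) j, eval (iv 0 y) (PB k j) =
      ∏ j ∈ Ico (L / 2) L, ∏ k ∈ Ico (L / 2) j, eval y (PB k j) := by
    refine Finset.prod_congr rfl fun j hj => Finset.prod_congr rfl fun k hk => ?_
    rw [Finset.mem_Ico] at hj hk
    rw [refA_PB, refA_PB, hlt k (by omega), hlt j (by omega)]
  have f4 : ∏ k ∈ Ico 1 L, iv 0 y k = ∏ k ∈ Ico 1 L, y k :=
    Finset.prod_congr rfl fun k hk => hlt k (Finset.mem_Ico.mp hk).1
  have f5 : ∏ j ∈ Ico 1 (L / 2), (eval (iv 0 y) (PA 0 j) / iv 0 y 0) =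
      ∏ j ∈ Ico 1 (L / 2), (eval y (PA 0 j) / y 0) := by
    refine Finset.prod_congr rfl fun j hj => ?_
    rw [Finset.mem_Ico] at hj
    rw [refA_PA, refA_PA, hlt j (by omega), iv_self]
    exact refA_A_inv hy0
  rw [f1, f2, f3, f4, f5]

/-- the components with the last spin down are invariant under the inversion of the last argument -/
theorem sector_right {L : ℕ} (hL : 1 ≤ L) {y : ℕ → ℂ} (hy : NZ L y) (s : Finset ℕ) (hs : L - 1 ∉ s) :
    gv L (iv (L - 1) y) s = gv L y s := by
  have hg : ∀ z, Gen L z → gv L (iv (L - 1) z) s - gv L z s = 0 := by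
    intro z hz
    by_cases hsc : s ∈ cfn L (L / 2)
    · have hE : Exch {z | Gen L z} 0 (L - 1) (fun z => gv L (iv (L - 1) z) - gv L z) := by
        refine Exch.sub (Exch.comp (S := Set.univ)
          ((gv_exch L Set.univ).mono (le_refl _) (le_refl _) (by omega)) (iv (L - 1)) ?_ ?_ ?_)
          ((gv_exch L _).mono (le_refl _) (le_refl _) (by omega))
        · intro z _
          exact Set.mem_univ _
        · intro i _ h2 z _
          exact (sw_iv (by omega) (by omega) z).symm
        · intro i _ h2 z _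
          exact ⟨iv_of_ne (by omega) z, iv_of_ne (by omega) z⟩
      have hE2 := refA_mask hE (fun s => L - 1 ∉ s) (by
        intro i _ h2 s
        show L - 1 ∉ sg i s ↔ L - 1 ∉ s
        rw [refA_mem_sg_of_ne (by omega) (by omega)])
      have h3 := det_zero {z | Gen L z} L (L / 2) 0 (L - 1) (by omega) _ hE2
        (fun i _ h2 z hz => (Gen.ne_mul hz (by omega) (by omega) (by omega)).1)
        (fun i _ h2 z hz => gen_sw hz (by omega))
        (by
          intro z hz t ht hsort
          show (if L - 1 ∉ t then (gv L (iv (L - 1) z) - gv L z) t else 0) = 0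
          by_cases h4 : L - 1 ∉ t
          · rw [if_pos h4]
            have h5 : ∀ i, i + 1 ∈ t → i ∈ t := by
              intro i hi
              have h6 := Finset.mem_range.mp ((mem_cfn.mp ht).1 hi)
              have h7 : i + 1 ≠ L - 1 := by
                intro h8
                rw [h8] at hi
                exact h4 hi
              exact hsort i (Nat.zero_le _) (by omega) hi
            have h6 := eq_range_of_sorted h5
            rw [(mem_cfn.mp ht).2] at h6
            rw [h6, Pi.sub_apply, base_right hL hz.1, sub_self]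
          · rw [if_neg h4]) z hz s hsc
      have h4 : (if L - 1 ∉ s then (gv L (iv (L - 1) z) - gv L z) s else 0) = 0 := h3
      rw [if_pos hs, Pi.sub_apply] at h4
      exact h4
    · rw [gv_wt L _ s hsc, gv_wt L _ s hsc, sub_self]
  have hL1 : Lau L (fun z => gv L (iv (L - 1) z) s - gv L z s) :=
    (lau_iv (by omega) (gv_lau L s)).sub (gv_lau L s)
  have := Lau.ext_gen hL1 hg y hy
  exact sub_eq_zero.mp this

/-- the components with the first spin up are invariant under the inversion of the first argument -/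
theorem sector_left {L : ℕ} (hL : 2 ≤ L) {y : ℕ → ℂ} (hy : NZ L y) (s : Finset ℕ) (hs : 0 ∈ s) :
    gv L (iv 0 y) s = gv L y s := by
  have hg : ∀ z, Gen L z → gv L (iv 0 z) s - gv L z s = 0 := by
    intro z hz
    by_cases hsc : s ∈ cfn L (L / 2)
    · have hE : Exch {z | Gen L z} 1 L (fun z => gv L (iv 0 z) - gv L z) := by
        refine Exch.sub (Exch.comp (S := Set.univ)
          ((gv_exch L Set.univ).mono (le_refl _) (by omega) (le_refl _)) (iv 0) ?_ ?_ ?_)
          ((gv_exch L _).mono (le_refl _) (by omega) (le_refl _))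
        · intro z _
          exact Set.mem_univ _
        · intro i h1 h2 z _
          exact (sw_iv (by omega) (by omega) z).symm
        · intro i h1 h2 z _
          exact ⟨iv_of_ne (by omega) z, iv_of_ne (by omega) z⟩
      have hE2 := refA_mask hE (fun s => 0 ∈ s) (by
        intro i h1 h2 s
        show 0 ∈ sg i s ↔ 0 ∈ s
        rw [refA_mem_sg_of_ne (by omega) (by omega)])
      have h3 := det_zero {z | Gen L z} L (L / 2) 1 L (by omega) _ hE2
        (fun i _ h2 z hz => (Gen.ne_mul hz (by omega) (by omega) (by omega)).1)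
        (fun i _ h2 z hz => gen_sw hz (by omega))
        (by
          intro z hz t ht hsort
          show (if 0 ∈ t then (gv L (iv 0 z) - gv L z) t else 0) = 0
          by_cases h4 : 0 ∈ t
          · rw [if_pos h4]
            have h5 : ∀ i, i + 1 ∈ t → i ∈ t := by
              intro i hi
              have h6 := Finset.mem_range.mp ((mem_cfn.mp ht).1 hi)
              rcases Nat.eq_zero_or_pos i with h7 | h7
              · rw [h7]
                exact h4
              · exact hsort i h7 h6 hi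
            have h6 := eq_range_of_sorted h5
            rw [(mem_cfn.mp ht).2] at h6
            rw [h6, Pi.sub_apply, base_left hL hz.1, sub_self]
          · rw [if_neg h4]) z hz s hsc
      have h4 : (if 0 ∈ s then (gv L (iv 0 z) - gv L z) s else 0) = 0 := h3
      rw [if_pos hs, Pi.sub_apply] at h4
      exact h4
    · rw [gv_wt L _ s hsc, gv_wt L _ s hsc, sub_self]
  have hL1 : Lau L (fun z => gv L (iv 0 z) s - gv L z s) :=
    (lau_iv (by omega) (gv_lau L s)).sub (gv_lau L s)
  have := Lau.ext_gen hL1 hg y hy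
  exact sub_eq_zero.mp this

end PX
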