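import Pool.Agent.Lib.MP_216314_pr.X.RefC
import Pool.Agent.Lib.MP_216314_pr.X.FusC

/-!
# Reflection: zeros
-/

set_option autoImplicit false

noncomputable section

namespace PX

open Finset

/-- difference of the vectors at the point reflected at the right end and at the point -/
def DR (L : ℕ) (y : ℕ → ℂ) : Vec := gv L (iv (L - 1) y) - gv L y

/-- difference of the vectors at the point reflected at the left end and at the point -/
def DL (L : ℕ) (y : ℕ → ℂ) : Vec := gv L (iv 0 y) - gv L y

theorem DR_exch (L : ℕ) (S : Set (ℕ → ℂ)) : Exch S 0 (L - 1) (DR L) := by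
  unfold DR
  refine Exch.sub (Exch.comp (S := Set.univ)
    ((gv_exch L Set.univ).mono (le_refl _) (le_refl _) (by omega)) (iv (L - 1)) ?_ ?_ ?_)
    ((gv_exch L _).mono (le_refl _) (le_refl _) (by omega))
  · intro z _
    exact Set.mem_univ _
  · intro i _ h2 z _
    exact (sw_iv (by omega) (by omega) z).symm
  · intro i _ h2 z _
    exact ⟨iv_of_ne (by omega) z, iv_of_ne (by omega) z⟩

theorem DL_exch (L : ℕ) (S : Set (ℕ → ℂ)) : Exch S 1 L (DL L) := by
  unfold DL
  refine Exch.sub (Exch.comp (S := Set.univ)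
    ((gv_exch L Set.univ).mono (le_refl _) (by omega) (le_refl _)) (iv 0) ?_ ?_ ?_)
    ((gv_exch L _).mono (le_refl _) (by omega) (le_refl _))
  · intro z _
    exact Set.mem_univ _
  · intro i h1 h2 z _
    exact (sw_iv (by omega) (by omega) z).symm
  · intro i h1 h2 z _
    exact ⟨iv_of_ne (by omega) z, iv_of_ne (by omega) z⟩

private theorem refB_XX (x : ℂ) : XX x⁻¹ = XX x := by
  unfold XX
  rw [inv_inv, add_comm]

private theorem refB_Kf (L j : ℕ) (u : ℂ) (w : ℕ → ℂ) : Kf L u (iv j w) = Kf L u w := by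
  unfold Kf
  refine Finset.prod_congr rfl fun k _ => ?_
  rcases eq_or_ne k j with h | h
  · rw [h, iv_self, refB_XX]
  · rw [iv_of_ne h]

private theorem refB_iv_ip_ge {i j : ℕ} (h : i ≤ j) (u : ℂ) (w : ℕ → ℂ) :
    iv (j + 2) (ip i u w) = ip i u (iv j w) := by
  funext k
  rcases eq_or_ne k (j + 2) with hk | hk
  · rw [hk, iv_self, ip_ge u _ h, ip_ge u _ h, iv_self]
  · rw [iv_of_ne hk]
    unfold ip
    split_ifs with h1 h2 h3
    · rw [iv_of_ne (by omega)]
    · rfl
    · rfl
    · rw [iv_of_ne (by omega)]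

private theorem refB_iv_ip_lt {i j : ℕ} (h : j < i) (u : ℂ) (w : ℕ → ℂ) :
    iv j (ip i u w) = ip i u (iv j w) := by
  funext k
  rcases eq_or_ne k j with hk | hk
  · rw [hk, iv_self, ip_lt u _ h, ip_lt u _ h, iv_self]
  · rw [iv_of_ne hk]
    unfold ip
    split_ifs with h1 h2 h3
    · rw [iv_of_ne hk]
    · rfl
    · rfl
    · rw [iv_of_ne (by omega)]

private theorem refB_sw_upd {i j : ℕ} (h1 : j ≠ i) (h2 : j ≠ i + 1) (y : ℕ → ℂ) (t : ℂ) :
    sw i (Function.update y j t) = Function.update (sw i y) j t := by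
  funext k
  have e : Equiv.swap i (i + 1) j = j := Equiv.swap_apply_of_ne_of_ne h1 h2
  show Function.update y j t (Equiv.swap i (i + 1) k) = Function.update (sw i y) j t k
  rcases eq_or_ne k j with h | h
  · rw [h, e, Function.update_self, Function.update_self]
  · have h3 : Equiv.swap i (i + 1) k ≠ j := by
      intro h4
      apply h
      rw [← e] at h4
      exact (Equiv.swap i (i + 1)).injective h4
    rw [Function.update_of_ne h3, Function.update_of_ne h]
    rfl

/-- zeros at `y_j = ω y_0` from the reflection for `L - 2` sites -/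
theorem DR_zero {L : ℕ} (hL : 4 ≤ L)
    (ih : ∀ y, NZ (L - 2) y → gv (L - 2) (iv (L - 2 - 1) y) = gv (L - 2) y) (j : ℕ) (hj : 1 ≤ j)
    (hj' : j + 1 < L) {y : ℕ → ℂ} (hy : Gen L y) :
    DR L (Function.update y 0 (om ^ 2 * y j)) = 0 := by
  revert y
  induction j, hj using Nat.le_induction with
  | base =>
    intro y hy
    obtain ⟨M, rfl⟩ : ∃ M, L = M + 2 := ⟨L - 2, by omega⟩
    have hM : M + 2 - 2 = M := by omega
    rw [hM] at ih
    set y' := Function.update y 0 (om ^ 2 * y 1) with hy'
    have hy1 : y 1 ≠ 0 := hy.1 1 (by omega)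
    have hu : om ^ 2 * y 1 ≠ 0 := mul_ne_zero (pow_ne_zero 2 om_ne_zero) hy1
    have hnz' : NZ (M + 2) y' := nz_upd hy.1 0 hu
    have e0 : y' 0 = om ^ 2 * y 1 := Function.update_self _ _ _
    have e1 : y' 1 = y 1 := Function.update_of_ne (by omega) _ _
    have h1 : y' (0 + 1) = om * y' 0 := by
      rw [e0]
      show y' 1 = _
      rw [e1]
      linear_combination (-(y 1)) * om_cube
    have h2 := ip_dl 0 y' h1
    set w := dl 0 y' with hw
    have hnw : NZ M w := nz_dl hnz' 0
    have hu' : y' 0 ≠ 0 := hnz' 0 (by omega)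
    have h3 : gv (M + 2) y' = Kf M (y' 0) w • Ins 0 (gv M w) := by
      conv_lhs => rw [← h2]
      exact fusion M 0 (by omega) hu' hnw
    have hm1 : M + 2 - 1 = (M - 1) + 2 := by omega
    have h4 : iv (M + 2 - 1) y' = ip 0 (y' 0) (iv (M - 1) w) := by
      conv_lhs => rw [← h2]
      rw [hm1, refB_iv_ip_ge (Nat.zero_le _)]
    have h5 : gv (M + 2) (iv (M + 2 - 1) y') = Kf M (y' 0) w • Ins 0 (gv M w) := by
      rw [h4, fusion M 0 (by omega) hu' (nz_iv hnw (by omega)), refB_Kf, ih w hnw]
    show gv (M + 2) (iv (M + 2 - 1) y') - gv (M + 2) y' = 0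
    rw [h5, h3, sub_self]
  | succ j hj ihj =>
    intro y hy
    have hz : Gen L (sw j y) := gen_sw hy (by omega)
    have h1 := ihj (by omega) hz
    rw [sw_left] at h1
    set z' := Function.update (sw j y) 0 (om ^ 2 * y (j + 1)) with hz'
    have e1 : z' j = y (j + 1) := by
      rw [hz', Function.update_of_ne (by omega), sw_left]
    have e2 : z' (j + 1) = y j := by
      rw [hz', Function.update_of_ne (by omega), sw_right]
    have h2 := Exch.zero (DR_exch L Set.univ) (Nat.zero_le j) (by omega) (Set.mem_univ z') h1 (by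
      rw [e1, e2]
      exact (Gen.ne_mul hy (by omega) (by omega) (by omega)).2.1)
    rw [hz', refB_sw_upd (by omega) (by omega), sw_sw] at h2
    exact h2

/-- zeros at `y_{L-1} = ω y_i` from the reflection for `L - 2` sites -/
theorem DL_zero {L : ℕ} (hL : 4 ≤ L)
    (ih : ∀ y, NZ (L - 2) y → gv (L - 2) (iv 0 y) = gv (L - 2) y) (i : ℕ) (hi : 1 ≤ i)
    (hi' : i + 1 < L) {y : ℕ → ℂ} (hy : Gen L y) :
    DL L (Function.update y (L - 1) (om * y i)) = 0 := by
  have main : ∀ m i : ℕ, i + 2 + m = L → 1 ≤ i → ∀ y, Gen L y →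
      DL L (Function.update y (L - 1) (om * y i)) = 0 := by
    intro m
    induction m with
    | zero =>
      intro i him hi y hy
      obtain ⟨M, rfl⟩ : ∃ M, L = M + 2 := ⟨L - 2, by omega⟩
      have hM : M + 2 - 2 = M := by omega
      have hiM : i = M := by omega
      subst hiM
      rw [hM] at ih
      have e9 : i + 2 - 1 = i + 1 := by omega
      rw [e9]
      set y' := Function.update y (i + 1) (om * y i) with hy'
      have hy1 : y i ≠ 0 := hy.1 i (by omega)
      have hu : om * y i ≠ 0 := mul_ne_zero om_ne_zero hy1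
      have hnz' : NZ (i + 2) y' := nz_upd hy.1 (i + 1) hu
      have e0 : y' (i + 1) = om * y i := Function.update_self _ _ _
      have e1 : y' i = y i := Function.update_of_ne (by omega) _ _
      have h1 : y' (i + 1) = om * y' i := by
        rw [e0, e1]
      have h2 := ip_dl i y' h1
      set w := dl i y' with hw
      have hnw : NZ i w := nz_dl hnz' i
      have hu' : y' i ≠ 0 := hnz' i (by omega)
      have h3 : gv (i + 2) y' = Kf i (y' i) w • Ins i (gv i w) := by
        conv_lhs => rw [← h2]
        exact fusion i i (le_refl _) hu' hnw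
      have h4 : iv 0 y' = ip i (y' i) (iv 0 w) := by
        conv_lhs => rw [← h2]
        rw [refB_iv_ip_lt (by omega)]
      have h5 : gv (i + 2) (iv 0 y') = Kf i (y' i) w • Ins i (gv i w) := by
        rw [h4, fusion i i (le_refl _) hu' (nz_iv hnw (by omega)), refB_Kf, ih w hnw]
      show gv (i + 2) (iv 0 y') - gv (i + 2) y' = 0
      rw [h5, h3, sub_self]
    | succ m ihm =>
      intro i him hi y hy
      have hz : Gen L (sw i y) := gen_sw hy (by omega)
      have h1 := ihm (i + 1) (by omega) (by omega) _ hz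
      rw [sw_right] at h1
      set z' := Function.update (sw i y) (L - 1) (om * y i) with hz'
      have e1 : z' i = y (i + 1) := by
        rw [hz', Function.update_of_ne (by omega), sw_left]
      have e2 : z' (i + 1) = y i := by
        rw [hz', Function.update_of_ne (by omega), sw_right]
      have h2 := Exch.zero (DL_exch L Set.univ) hi (by omega) (Set.mem_univ z') h1 (by
        rw [e1, e2]
        exact (Gen.ne_mul hy (by omega) (by omega) (by omega)).2.1)
      rw [hz', refB_sw_upd (by omega) (by omega), sw_sw] at h2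
      exact h2
  exact main (L - (i + 2)) i (by omega) hi y hy

end PX
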