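import Pool.Agent.Lib.MP_216314_pr.X.RefA

/-!
# Reflection for at most three sites
-/

set_option autoImplicit false

noncomputable section

namespace PX

open Finset MvPolynomial

private theorem refC_gv (L : ℕ) (y : ℕ → ℂ) : gv L y (range (L / 2)) =
    ((∏ k ∈ range (L / 2), y k) ^ (L % 2) *
      (∏ j ∈ range (L / 2), ∏ k ∈ range j, eval y (PA k j)) *
      ∏ j ∈ Ico (L / 2) L, ∏ k ∈ Ico (L / 2) j, eval y (PB k j)) /
      (∏ k ∈ range L, y k) ^ ((L - 1) / 2) := by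
  have h1 : range (L / 2) ∈ cfn L (L / 2) := by
    rw [mem_cfn]
    refine ⟨?_, Finset.card_range _⟩
    intro k hk
    rw [Finset.mem_range] at hk ⊢
    omega
  unfold gv
  rw [if_pos h1, GP_range]
  unfold G0
  simp only [map_mul, map_pow, map_prod, eval_X]

private theorem refC_zero (y : ℕ → ℂ) (hy : NZ 3 y) :
    gv 3 y {0} = om * y 1 + om ^ 2 * (y 1)⁻¹ - XX (y 2) := by
  have h := refC_gv 3 y
  have e1 : range (3 / 2) = ({0} : Finset ℕ) := by decide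
  have h0 := hy 0 (by omega)
  have h1 := hy 1 (by omega)
  have h2 := hy 2 (by omega)
  rw [e1] at h
  rw [h]
  have e2 : (3 / 2 : ℕ) = 1 := rfl
  have e3 : (3 % 2 : ℕ) = 1 := rfl
  have e4 : ((3 - 1) / 2 : ℕ) = 1 := rfl
  have e5 : Ico 1 3 = ({1, 2} : Finset ℕ) := by decide
  have e6 : Ico 1 1 = (∅ : Finset ℕ) := by decide
  have e7 : Ico 1 2 = ({1} : Finset ℕ) := by decide
  rw [e2, e3, e5, pow_one, pow_one, Finset.prod_singleton, Finset.prod_singleton,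
    Finset.range_zero, Finset.prod_empty, Finset.prod_pair (by decide), e6, e7, Finset.prod_empty,
    Finset.prod_singleton, Finset.prod_range_succ, Finset.prod_range_succ, Finset.prod_range_one]
  unfold PB XX
  simp only [map_mul, map_sub, eval_C, eval_X]
  field_simp
  linear_combination (-(y 1)) * om_cube

private theorem refC_one (y : ℕ → ℂ) (hg : Gen 3 y) :
    gv 3 y {1} = -om ^ 2 * (om * y 1 + om ^ 2 * (y 1)⁻¹ - XX (y 2)) +
      (om * (y 1)⁻¹ + om ^ 2 * y 1 - XX (y 0)) := by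
  have E := gv_exch 3 Set.univ 0 (le_refl _) (by omega) y (Set.mem_univ _) {0}
  have e1 : sg 0 {0} = ({1} : Finset ℕ) := by
    ext k
    rw [mem_sg, Finset.mem_singleton, Finset.mem_singleton, Equiv.swap_apply_def]
    grind
  rw [ee_apply_left 0 _ {0} (Finset.mem_singleton_self _) (by decide), e1, refC_zero y hg.1,
    refC_zero (sw 0 y) (nz_sw hg.1 (by omega))] at E
  have e2 : sw 0 y 1 = y 0 := sw_right 0 y
  have e3 : sw 0 y 2 = y 2 := sw_of_ne 0 y (by omega) (by omega)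
  have e4 : (0 + 1 : ℕ) = 1 := rfl
  rw [e2, e3, e4] at E
  have ha : y 0 * (y 0)⁻¹ = 1 := mul_inv_cancel₀ (hg.1 0 (by omega))
  have hb : y 1 * (y 1)⁻¹ = 1 := mul_inv_cancel₀ (hg.1 1 (by omega))
  have hne : om ^ 2 * (y 1 - y 0) ≠ 0 := by
    refine mul_ne_zero (pow_ne_zero 2 om_ne_zero) (sub_ne_zero.mpr ?_)
    exact (Gen.ne_mul hg (by omega) (by omega) (by omega)).1
  apply mul_left_cancel₀ hne
  unfold XX at *
  linear_combination (-1 : ℂ) * E + ((y 1 - y 0) * (om ^ 2 * (om * y 1 + om ^ 2 * (y 1)⁻¹ -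
    (y 2 + (y 2)⁻¹)) - om ^ 2 * (y 1 + (y 1)⁻¹) + (y 2 + (y 2)⁻¹))) * om_eq +
    (om ^ 3 - om ^ 2) * ha - (om ^ 3 - om ^ 2) * hb

private theorem refC_two (y : ℕ → ℂ) (hg : Gen 3 y) :
    gv 3 y {2} = -om ^ 2 * (om * (y 1)⁻¹ + om ^ 2 * y 1 - XX (y 0)) := by
  have E := gv_exch 3 Set.univ 1 (by omega) (by omega) y (Set.mem_univ _) {1}
  have e1 : sg 1 {1} = ({2} : Finset ℕ) := by
    ext k
    rw [mem_sg, Finset.mem_singleton, Finset.mem_singleton, Equiv.swap_apply_def]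
    grind
  rw [ee_apply_left 1 _ {1} (Finset.mem_singleton_self _) (by decide), e1, refC_one y hg,
    refC_one (sw 1 y) (gen_sw hg (by omega))] at E
  have e2 : sw 1 y 1 = y 2 := sw_left 1 y
  have e3 : sw 1 y 2 = y 1 := sw_right 1 y
  have e3' : sw 1 y 0 = y 0 := sw_of_ne 1 y (by omega) (by omega)
  have e4 : (1 + 1 : ℕ) = 2 := rfl
  rw [e2, e3, e3', e4] at E
  have ha : y 1 * (y 1)⁻¹ = 1 := mul_inv_cancel₀ (hg.1 1 (by omega))
  have hb : y 2 * (y 2)⁻¹ = 1 := mul_inv_cancel₀ (hg.1 2 (by omega))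
  have hne : om ^ 2 * (y 2 - y 1) ≠ 0 := by
    refine mul_ne_zero (pow_ne_zero 2 om_ne_zero) (sub_ne_zero.mpr ?_)
    exact (Gen.ne_mul hg (by omega) (by omega) (by omega)).1
  apply mul_left_cancel₀ hne
  unfold XX at *
  generalize gv 3 y {2} = g2 at *
  generalize (y 0)⁻¹ = a at *
  generalize (y 1)⁻¹ = b at *
  generalize (y 2)⁻¹ = c at *
  generalize y 0 = y0 at *
  generalize y 1 = y1 at *
  generalize y 2 = y2 at *
  linear_combination (-1 : ℂ) * E + (om ^ 2 * y0 * y1 - 1 * om ^ 2 * y0 * y2 + om ^ 2 * y1 * a +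
    2 * om ^ 2 * y1 * c + om ^ 2 * y1 ^ 2 - 1 * om ^ 2 * y2 * a - 2 * om ^ 2 * y2 * b -
    1 * om ^ 2 * y2 ^ 2 - 2 * om ^ 3 * y1 * c - 1 * om ^ 3 * y1 ^ 2 + 2 * om ^ 3 * y2 * b +
    om ^ 3 * y2 ^ 2 - 1 * om ^ 4 + om ^ 4 * y2 * b + om ^ 5 - 1 * om ^ 5 * y2 * b -
    1 * y0 * y1 + y0 * y2 - 1 * y1 * a + y2 * a) * om_eq +
    (om + om ^ 3 - 2 * om ^ 4 - 1 * om ^ 5 + om ^ 7) * ha +
    (-1 * om - 1 * om ^ 3 + om ^ 4 + om ^ 5) * hb

/-- explicit components for three sites -/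
theorem gv_three {y : ℕ → ℂ} (hy : NZ 3 y) :
    gv 3 y {0} = om * y 1 + om ^ 2 * (y 1)⁻¹ - XX (y 2) ∧
    gv 3 y {1} = -om ^ 2 * (om * y 1 + om ^ 2 * (y 1)⁻¹ - XX (y 2)) +
      (om * (y 1)⁻¹ + om ^ 2 * y 1 - XX (y 0)) ∧
    gv 3 y {2} = -om ^ 2 * (om * (y 1)⁻¹ + om ^ 2 * y 1 - XX (y 0)) := by
  refine ⟨refC_zero y hy, ?_, ?_⟩
  · have hL : Lau 3 (fun y => gv 3 y {1} - (-om ^ 2 * (om * y 1 + om ^ 2 * (y 1)⁻¹ - XX (y 2)) +
        (om * (y 1)⁻¹ + om ^ 2 * y 1 - XX (y 0)))) :=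
      (gv_lau 3 _).sub (((Lau.const 3 _).mul ((((Lau.const 3 _).mul (Lau.coord 3 1)).add
        ((Lau.const 3 _).mul (Lau.coord_inv (by omega)))).sub (lau_XX (by omega)))).add
        ((((Lau.const 3 _).mul (Lau.coord_inv (by omega))).add
          ((Lau.const 3 _).mul (Lau.coord 3 1))).sub (lau_XX (by omega))))
    have h := Lau.ext_gen hL (fun z hz => sub_eq_zero.mpr (refC_one z hz)) y hy
    exact sub_eq_zero.mp h
  · have hL : Lau 3 (fun y => gv 3 y {2} - (-om ^ 2 *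
        (om * (y 1)⁻¹ + om ^ 2 * y 1 - XX (y 0)))) :=
      (gv_lau 3 _).sub ((Lau.const 3 _).mul
        ((((Lau.const 3 _).mul (Lau.coord_inv (by omega))).add
          ((Lau.const 3 _).mul (Lau.coord 3 1))).sub (lau_XX (by omega))))
    have h := Lau.ext_gen hL (fun z hz => sub_eq_zero.mpr (refC_two z hz)) y hy
    exact sub_eq_zero.mp h

theorem cfn_three : cfn 3 1 = {{0}, {1}, {2}} := by
  decide

theorem gv_two {y : ℕ → ℂ} (hy : NZ 2 y) : gv 2 y {0} = 1 ∧ gv 2 y {1} = -om ^ 2 := by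
  have hbase : ∀ z : ℕ → ℂ, gv 2 z {0} = 1 := by
    intro z
    have h := refC_gv 2 z
    have e1 : range (2 / 2) = ({0} : Finset ℕ) := by decide
    rw [e1] at h
    rw [h]
    have e2 : (2 / 2 : ℕ) = 1 := rfl
    have e3 : (2 % 2 : ℕ) = 0 := rfl
    have e4 : ((2 - 1) / 2 : ℕ) = 0 := rfl
    have e6 : Ico 1 1 = (∅ : Finset ℕ) := by decide
    have e7 : Ico 1 2 = ({1} : Finset ℕ) := by decide
    rw [e2, e3, e7, pow_zero, pow_zero, Finset.prod_singleton, Finset.range_zero,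
      Finset.prod_empty, Finset.prod_singleton, e6, Finset.prod_empty]
    norm_num
  refine ⟨hbase y, ?_⟩
  have hL : Lau 2 (fun y => gv 2 y {1} - (-om ^ 2)) := (gv_lau 2 _).sub (Lau.const 2 _)
  have h := Lau.ext_gen hL (fun z hz => by
    have E := gv_exch 2 Set.univ 0 (le_refl _) (by omega) z (Set.mem_univ _) {0}
    have e1 : sg 0 {0} = ({1} : Finset ℕ) := by
      ext k
      rw [mem_sg, Finset.mem_singleton, Finset.mem_singleton, Equiv.swap_apply_def]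
      grind
    rw [ee_apply_left 0 _ {0} (Finset.mem_singleton_self _) (by decide), e1, hbase, hbase] at E
    have e4 : (0 + 1 : ℕ) = 1 := rfl
    rw [e4] at E
    have hne : om ^ 2 * (z 1 - z 0) ≠ 0 := by
      refine mul_ne_zero (pow_ne_zero 2 om_ne_zero) (sub_ne_zero.mpr ?_)
      exact (Gen.ne_mul hz (by omega) (by omega) (by omega)).1
    apply mul_left_cancel₀ hne
    linear_combination (-1 : ℂ) * E + ((z 1 - z 0) * (om ^ 2 - om + 1) - (z 1 - z 0)) * om_eq +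
      (z 1 - z 0) * om_cube) y hy
  exact sub_eq_zero.mp h

theorem cfn_two : cfn 2 1 = {{0}, {1}} := by
  decide

theorem gv_one (y : ℕ → ℂ) : gv 1 y ∅ = 1 := by
  have h := refC_gv 1 y
  have e1 : range (1 / 2) = (∅ : Finset ℕ) := by decide
  rw [e1] at h
  rw [h]
  have e2 : (1 / 2 : ℕ) = 0 := rfl
  have e6 : Ico 0 0 = (∅ : Finset ℕ) := by decide
  have e7 : Ico 0 1 = ({0} : Finset ℕ) := by decide
  rw [e2, e7, Finset.prod_singleton, e6, Finset.prod_empty, Finset.prod_empty, Finset.prod_empty]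
  norm_num

theorem cfn_one : cfn 1 0 = {∅} := by
  decide

theorem gv_zero (y : ℕ → ℂ) : gv 0 y ∅ = 1 := by
  have h := refC_gv 0 y
  have e1 : range (0 / 2) = (∅ : Finset ℕ) := by decide
  rw [e1] at h
  rw [h]
  have e2 : (0 / 2 : ℕ) = 0 := rfl
  have e6 : Ico 0 0 = (∅ : Finset ℕ) := by decide
  rw [e2, e6, Finset.prod_empty, Finset.prod_empty, Finset.prod_empty]
  norm_num

theorem cfn_zero : cfn 0 0 = {∅} := by
  decide

private theorem refC_XX (x : ℂ) : XX x⁻¹ = XX x := by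
  unfold XX
  rw [inv_inv, add_comm]

private theorem refC_ext1 (y z : ℕ → ℂ) : gv 1 z = gv 1 y := by
  funext s
  by_cases hs : s ∈ cfn 1 (1 / 2)
  · have hs' : s ∈ cfn 1 0 := hs
    rw [cfn_one, Finset.mem_singleton] at hs'
    rw [hs', gv_one, gv_one]
  · rw [gv_wt 1 _ s hs, gv_wt 1 _ s hs]

private theorem refC_ext2 {y z : ℕ → ℂ} (hy : NZ 2 y) (hz : NZ 2 z) : gv 2 z = gv 2 y := by
  funext s
  by_cases hs : s ∈ cfn 2 (2 / 2)
  · have hs' : s ∈ cfn 2 1 := hs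
    rw [cfn_two, Finset.mem_insert, Finset.mem_singleton] at hs'
    rcases hs' with h | h
    · rw [h, (gv_two hy).1, (gv_two hz).1]
    · rw [h, (gv_two hy).2, (gv_two hz).2]
  · rw [gv_wt 2 _ s hs, gv_wt 2 _ s hs]

private theorem refC_ext3 {y z : ℕ → ℂ} (hy : NZ 3 y) (hz : NZ 3 z) (h0 : XX (z 0) = XX (y 0))
    (h1 : z 1 = y 1) (h2 : XX (z 2) = XX (y 2)) : gv 3 z = gv 3 y := by
  funext s
  obtain ⟨a0, a1, a2⟩ := gv_three hy
  obtain ⟨b0, b1, b2⟩ := gv_three hz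
  by_cases hs : s ∈ cfn 3 (3 / 2)
  · have hs' : s ∈ cfn 3 1 := hs
    rw [cfn_three, Finset.mem_insert, Finset.mem_insert, Finset.mem_singleton] at hs'
    rcases hs' with h | h | h
    · rw [h, a0, b0, h1, h2]
    · rw [h, a1, b1, h0, h1, h2]
    · rw [h, a2, b2, h0, h1]
  · rw [gv_wt 3 _ s hs, gv_wt 3 _ s hs]

theorem small_right {L : ℕ} (hL : 1 ≤ L) (hL' : L ≤ 3) {y : ℕ → ℂ} (hy : NZ L y) :
    gv L (iv (L - 1) y) = gv L y := by
  have hz := nz_iv hy (show L - 1 < L by omega)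
  interval_cases L
  · exact refC_ext1 _ _
  · exact refC_ext2 hy hz
  · refine refC_ext3 hy hz ?_ ?_ ?_
    · rw [iv_of_ne (by omega)]
    · rw [iv_of_ne (by omega)]
    · show XX (iv 2 y 2) = XX (y 2)
      rw [iv_self, refC_XX]

theorem small_left {L : ℕ} (hL : 1 ≤ L) (hL' : L ≤ 3) {y : ℕ → ℂ} (hy : NZ L y) :
    gv L (iv 0 y) = gv L y := by
  have hz := nz_iv hy (show 0 < L by omega)
  interval_cases L
  · exact refC_ext1 _ _
  · exact refC_ext2 hy hz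
  · refine refC_ext3 hy hz ?_ ?_ ?_
    · rw [iv_self, refC_XX]
    · rw [iv_of_ne (by omega)]
    · rw [iv_of_ne (by omega)]

end PX
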