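import Pool.Agent.Lib.MP_216314_pr.X.SpinD

/-!
# Spin vectors: relations between insertion and contraction
-/

set_option autoImplicit false

noncomputable section

namespace PX

open Finset

private theorem mem_mk' {i k : ℕ} {s : Finset ℕ} :
    k ∈ mk i s ↔ (k < i ∧ k ∈ s) ∨ (i + 2 ≤ k ∧ k - 2 ∈ s) := by
  unfold mk
  rw [Finset.mem_map]
  constructor
  · rintro ⟨a, ha, hk⟩
    have hk' : up i a = k := hk
    unfold up at hk'
    split_ifs at hk' with h1
    · subst hk'
      exact Or.inl ⟨h1, ha⟩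
    · refine Or.inr ⟨by omega, ?_⟩
      have : k - 2 = a := by omega
      rw [this]
      exact ha
  · rintro (⟨h1, h2⟩ | ⟨h1, h2⟩)
    · refine ⟨k, h2, ?_⟩
      show up i k = k
      unfold up
      rw [if_pos h1]
    · refine ⟨k - 2, h2, ?_⟩
      show up i (k - 2) = k
      unfold up
      rw [if_neg (by omega)]
      omega

theorem up_mem_mk {i k : ℕ} {s : Finset ℕ} : up i k ∈ mk i s ↔ k ∈ s := by
  unfold mk
  rw [Finset.mem_map]
  constructor
  · rintro ⟨a, ha, hk⟩
    rw [← up_inj i hk]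
    exact ha
  · intro hk
    exact ⟨k, hk, rfl⟩

theorem left_notMem_mk {i : ℕ} {s : Finset ℕ} : i ∉ mk i s := by
  intro h
  rw [mem_mk'] at h
  omega

theorem right_notMem_mk {i : ℕ} {s : Finset ℕ} : i + 1 ∉ mk i s := by
  intro h
  rw [mem_mk'] at h
  omega

/-- membership in `mk i s` -/
theorem mem_mk {i k : ℕ} {s : Finset ℕ} :
    k ∈ mk i s ↔ (k < i ∧ k ∈ s) ∨ (i + 2 ≤ k ∧ k - 2 ∈ s) :=
  mem_mk'

theorem mem_sg {i k : ℕ} {s : Finset ℕ} : k ∈ sg i s ↔ Equiv.swap i (i + 1) k ∈ s := by
  unfold sg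
  rw [Finset.mem_map]
  constructor
  · rintro ⟨a, ha, hk⟩
    have hk' : Equiv.swap i (i + 1) a = k := hk
    rw [← hk', Equiv.swap_apply_self]
    exact ha
  · intro hk
    exact ⟨Equiv.swap i (i + 1) k, hk, Equiv.swap_apply_self _ _ _⟩

theorem sg_sg (i : ℕ) (s : Finset ℕ) : sg i (sg i s) = s := by
  ext k
  rw [mem_sg, mem_sg, Equiv.swap_apply_self]

theorem Con_Ins_self (i : ℕ) (v : Vec) : Con i (Ins i v) = v := by
  funext s
  rw [Con_apply, Ins_apply, Ins_apply]
  have a1 : i ∈ insert i (mk i s) := Finset.mem_insert_self _ _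
  have a2 : i + 1 ∉ insert i (mk i s) := by
    rw [Finset.mem_insert, mem_mk]
    omega
  have a3 : i ∉ insert (i + 1) (mk i s) := by
    rw [Finset.mem_insert, mem_mk]
    omega
  have a4 : i + 1 ∈ insert (i + 1) (mk i s) := Finset.mem_insert_self _ _
  have b1 : rm i (insert i (mk i s)) = s := by
    ext k
    rw [mem_rm, Finset.mem_insert, up_mem_mk]
    have : up i k ≠ i := by
      unfold up
      split_ifs <;> omega
    simp only [this, false_or]
  have b2 : rm i (insert (i + 1) (mk i s)) = s := by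
    ext k
    rw [mem_rm, Finset.mem_insert, up_mem_mk]
    have : up i k ≠ i + 1 := by
      unfold up
      split_ifs <;> omega
    simp only [this, false_or]
  simp only [cc, a1, a2, a3, a4, if_true, if_false, b1, b2]
  linear_combination (-(v s) * (om ^ 3 - om ^ 2 + 1)) * om_eq

theorem Con_Ins_succ (i : ℕ) (v : Vec) : Con i (Ins (i + 1) v) = v := by
  funext s
  rw [Con_apply, Ins_apply, Ins_apply]
  have a2 : i + 1 ∉ insert i (mk i s) := by
    rw [Finset.mem_insert, mem_mk]
    omega
  have a3 : (i + 1 + 1 ∈ insert i (mk i s)) = (i ∈ s) := by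
    rw [eq_iff_iff, Finset.mem_insert, mem_mk]
    grind
  have a4 : i + 1 ∈ insert (i + 1) (mk i s) := Finset.mem_insert_self _ _
  have a5 : (i + 1 + 1 ∈ insert (i + 1) (mk i s)) = (i ∈ s) := by
    rw [eq_iff_iff, Finset.mem_insert, mem_mk]
    grind
  have b1 : rm (i + 1) (insert i (mk i s)) = insert i s := by
    ext k
    simp only [mem_rm, Finset.mem_insert, mem_mk, up]
    grind
  have b2 : rm (i + 1) (insert (i + 1) (mk i s)) = s.erase i := by
    ext k
    simp only [mem_rm, Finset.mem_insert, mem_mk, up, Finset.mem_erase]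
    grind
  by_cases hi : i ∈ s
  · have c1 : insert i s = s := Finset.insert_eq_self.mpr hi
    simp only [cc, a2, a3, a4, a5, if_true, if_false, b1, b2, hi, c1]
    linear_combination (v s) * om_cube
  · have c1 : s.erase i = s := Finset.erase_eq_of_notMem hi
    simp only [cc, a2, a3, a4, a5, if_true, if_false, b1, b2, hi, c1]
    linear_combination (v s) * om_cube

theorem Con_succ_Ins (i : ℕ) (v : Vec) : Con (i + 1) (Ins i v) = v := by
  funext s
  rw [Con_apply, Ins_apply, Ins_apply]
  have a1 : (i ∈ insert (i + 1) (mk (i + 1) s)) = (i ∈ s) := by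
    rw [eq_iff_iff, Finset.mem_insert, mem_mk]
    grind
  have a2 : i + 1 ∈ insert (i + 1) (mk (i + 1) s) := Finset.mem_insert_self _ _
  have a3 : (i ∈ insert (i + 1 + 1) (mk (i + 1) s)) = (i ∈ s) := by
    rw [eq_iff_iff, Finset.mem_insert, mem_mk]
    grind
  have a4 : i + 1 ∉ insert (i + 1 + 1) (mk (i + 1) s) := by
    rw [Finset.mem_insert, mem_mk]
    omega
  have b1 : rm i (insert (i + 1) (mk (i + 1) s)) = s.erase i := by
    ext k
    simp only [mem_rm, Finset.mem_insert, mem_mk, up, Finset.mem_erase]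
    grind
  have b2 : rm i (insert (i + 1 + 1) (mk (i + 1) s)) = insert i s := by
    ext k
    simp only [mem_rm, Finset.mem_insert, mem_mk, up]
    grind
  by_cases hi : i ∈ s
  · have c1 : insert i s = s := Finset.insert_eq_self.mpr hi
    simp only [cc, a1, a2, a3, a4, if_true, if_false, b1, b2, hi, c1]
    linear_combination (v s) * om_cube
  · have c1 : s.erase i = s := Finset.erase_eq_of_notMem hi
    simp only [cc, a1, a2, a3, a4, if_true, if_false, b1, b2, hi, c1]
    linear_combination (v s) * om_cube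

theorem Con_Ins_far {b c : ℕ} (h : b ≤ c) (v : Vec) : Con (c + 2) (Ins b v) = Ins b (Con c v) := by
  funext s
  rw [Con_apply, Ins_apply, Ins_apply, Ins_apply, Con_apply]
  have a1 : (b ∈ insert (c + 2) (mk (c + 2) s)) = (b ∈ s) := by
    rw [eq_iff_iff, Finset.mem_insert, mem_mk]
    grind
  have a2 : (b + 1 ∈ insert (c + 2) (mk (c + 2) s)) = (b + 1 ∈ s) := by
    rw [eq_iff_iff, Finset.mem_insert, mem_mk]
    grind
  have a3 : (b ∈ insert (c + 2 + 1) (mk (c + 2) s)) = (b ∈ s) := by
    rw [eq_iff_iff, Finset.mem_insert, mem_mk]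
    grind
  have a4 : (b + 1 ∈ insert (c + 2 + 1) (mk (c + 2) s)) = (b + 1 ∈ s) := by
    rw [eq_iff_iff, Finset.mem_insert, mem_mk]
    grind
  have b1 : rm b (insert (c + 2) (mk (c + 2) s)) = insert c (mk c (rm b s)) := by
    ext k
    simp only [mem_rm, Finset.mem_insert, mem_mk, up]
    grind
  have b2 : rm b (insert (c + 2 + 1) (mk (c + 2) s)) = insert (c + 1) (mk c (rm b s)) := by
    ext k
    simp only [mem_rm, Finset.mem_insert, mem_mk, up]
    grind
  simp only [cc, a1, a2, a3, a4, b1, b2]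
  ring

theorem Con_Ins_far' {a c : ℕ} (h : a ≤ c) (v : Vec) : Con a (Ins (c + 2) v) = Ins c (Con a v) := by
  funext s
  rw [Con_apply, Ins_apply, Ins_apply, Ins_apply, Con_apply]
  have a1 : (c + 2 ∈ insert a (mk a s)) = (c ∈ s) := by
    rw [eq_iff_iff, Finset.mem_insert, mem_mk]
    grind
  have a2 : (c + 2 + 1 ∈ insert a (mk a s)) = (c + 1 ∈ s) := by
    rw [eq_iff_iff, Finset.mem_insert, mem_mk]
    grind
  have a3 : (c + 2 ∈ insert (a + 1) (mk a s)) = (c ∈ s) := by
    rw [eq_iff_iff, Finset.mem_insert, mem_mk]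
    grind
  have a4 : (c + 2 + 1 ∈ insert (a + 1) (mk a s)) = (c + 1 ∈ s) := by
    rw [eq_iff_iff, Finset.mem_insert, mem_mk]
    grind
  have b1 : rm (c + 2) (insert a (mk a s)) = insert a (mk a (rm c s)) := by
    ext k
    simp only [mem_rm, Finset.mem_insert, mem_mk, up]
    grind
  have b2 : rm (c + 2) (insert (a + 1) (mk a s)) = insert (a + 1) (mk a (rm c s)) := by
    ext k
    simp only [mem_rm, Finset.mem_insert, mem_mk, up]
    grind
  simp only [cc, a1, a2, a3, a4, b1, b2]
  ring

theorem Con_Con {a b : ℕ} (h : a ≤ b) (v : Vec) : Con a (Con (b + 2) v) = Con b (Con a v) := by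
  funext s
  simp only [Con_apply]
  have b1 : insert (b + 2) (mk (b + 2) (insert a (mk a s))) =
      insert a (mk a (insert b (mk b s))) := by
    ext k
    simp only [Finset.mem_insert, mem_mk]
    grind
  have b2 : insert (b + 2) (mk (b + 2) (insert (a + 1) (mk a s))) =
      insert (a + 1) (mk a (insert b (mk b s))) := by
    ext k
    simp only [Finset.mem_insert, mem_mk]
    grind
  have b3 : insert (b + 2 + 1) (mk (b + 2) (insert a (mk a s))) =
      insert a (mk a (insert (b + 1) (mk b s))) := by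
    ext k
    simp only [Finset.mem_insert, mem_mk]
    grind
  have b4 : insert (b + 2 + 1) (mk (b + 2) (insert (a + 1) (mk a s))) =
      insert (a + 1) (mk a (insert (b + 1) (mk b s))) := by
    ext k
    simp only [Finset.mem_insert, mem_mk]
    grind
  rw [b1, b2, b3, b4]
  ring

theorem Ins_Ins {a b : ℕ} (h : a ≤ b) (v : Vec) : Ins (b + 2) (Ins a v) = Ins a (Ins b v) := by
  funext s
  simp only [Ins_apply]
  have a1 : (a ∈ rm (b + 2) s) = (a ∈ s) := by
    rw [eq_iff_iff, mem_rm, up]
    grind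
  have a2 : (a + 1 ∈ rm (b + 2) s) = (a + 1 ∈ s) := by
    rw [eq_iff_iff, mem_rm, up]
    grind
  have a3 : (b ∈ rm a s) = (b + 2 ∈ s) := by
    rw [eq_iff_iff, mem_rm, up]
    grind
  have a4 : (b + 1 ∈ rm a s) = (b + 2 + 1 ∈ s) := by
    rw [eq_iff_iff, mem_rm, up]
    grind
  have b1 : rm a (rm (b + 2) s) = rm b (rm a s) := by
    ext k
    simp only [mem_rm, up]
    grind
  simp only [cc, a1, a2, a3, a4, b1]
  ring

end PX
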