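import Pool.Agent.Lib.MP_216314_pr.X.SpinD

/-!
# Tiles and the transfer operator of the strip
-/

set_option autoImplicit false

noncomputable section

namespace PX

open Finset

/-- one tile: open or closed with probability `1/2` -/
def RR (i : ℕ) : Vec →ₗ[ℂ] Vec := (1 / 2 : ℂ) • (LinearMap.id + ee i)

/-- the tiles `m-1, ..., 0` in this order -/
def Rdn : ℕ → (Vec →ₗ[ℂ] Vec)
  | 0 => LinearMap.id
  | m + 1 => (Rdn m).comp (RR m)

/-- the tiles `0, ..., m-1` in this order -/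
def Rup : ℕ → (Vec →ₗ[ℂ] Vec)
  | 0 => LinearMap.id
  | m + 1 => (RR m).comp (Rup m)

/-- the tiles `0, ..., L-2, L-2, ..., 0` in this order -/
def AA (L : ℕ) : Vec →ₗ[ℂ] Vec := (Rdn (L - 1)).comp (Rup (L - 1))

theorem RR_apply (i : ℕ) (v : Vec) : RR i v = (1 / 2 : ℂ) • (v + ee i v) := rfl

theorem Rdn_zero (v : Vec) : Rdn 0 v = v := rfl

theorem Rdn_succ (m : ℕ) (v : Vec) : Rdn (m + 1) v = Rdn m (RR m v) := rfl

theorem Rup_zero (v : Vec) : Rup 0 v = v := rfl

theorem Rup_succ (m : ℕ) (v : Vec) : Rup (m + 1) v = RR m (Rup m v) := rfl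

theorem AA_apply (L : ℕ) (v : Vec) : AA L v = Rdn (L - 1) (Rup (L - 1) v) := rfl

end PX
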